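import Pool.Agent.COSZ.TrpB

/-!
Module ANNS. Counting the ranges for the centre zero. `rin h U i = 16 rout h U (i+1)`, so the
intervals `[rin_i / 2, 2 rout_i]` are pairwise disjoint (as `U ≥ 4`, `2 rout_{i+1} < rin_i / 2`) and
contained in `(0, 1/2)`.
`bad_count`: choose for each bad `i` a mark in the open interval; this is injective.
`ann_sum`: let `Δ = (T.filter (· < 1/2)) ∪ {1/2}` (at most `|T|` elements, as `1 ∈ T`; `0 ∈ Δ`; all
zeros in `[0,1/2)` are in `Δ`). For `i` not bad let `δ` be the largest element of `Δ` that is at most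
`rin_i/2` and `y` the next element of `Δ`, it is `≥ 2 rout_i`. `[rin_i, rout_i] ⊆ [2δ, y/2]` and
`4δ ≤ 2 rin_i ≤ y`. The intervals of the `i` with the same `δ` are disjoint and in `[2δ, y/2]`, so their
total mass is at most 6 (`annulus`). Sum over `δ ∈ Δ`.
-/

open Finset MeasureTheory

noncomputable section

namespace COSZ

theorem annS_rout_pos (h U i : ℕ) (hh : 1 ≤ h) (hU : 4 ≤ U) : 0 < rout h U i := by
  unfold rout
  have h1 : (0:ℝ) < h := by exact_mod_cast hh
  have h2 : (0:ℝ) < U := by exact_mod_cast (by omega : 0 < U)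
  positivity

theorem annS_rin_pos (h U i : ℕ) (hh : 1 ≤ h) (hU : 4 ≤ U) : 0 < rin h U i := by
  unfold rin
  have h1 : (0:ℝ) < h := by exact_mod_cast hh
  have h2 : (0:ℝ) < U := by exact_mod_cast (by omega : 0 < U)
  positivity

theorem annS_sep (h U i j : ℕ) (hh : 1 ≤ h) (hU : 4 ≤ U) (hij : i < j) :
    2 * rout h U j ≤ rin h U i / 2 := by
  unfold rin rout
  have h1 : (1:ℝ) ≤ h := by exact_mod_cast hh
  have h2 : (4:ℝ) ≤ U := by exact_mod_cast hU
  have h3 : (U:ℝ) ^ (4 * i + 5) ≤ (U:ℝ) ^ (4 * j + 1) := pow_le_pow_right₀ (by linarith) (by omega)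
  have h4 : (0:ℝ) < (U:ℝ) ^ (4 * i + 5) := by positivity
  have h5 : (0:ℝ) < (U:ℝ) ^ (4 * j + 1) := by positivity
  have h6 : (0:ℝ) < h := by linarith
  have h7 : 1 / (4 * (h:ℝ) * (U:ℝ) ^ (4 * j + 1)) ≤ 1 / (4 * h * (U:ℝ) ^ (4 * i + 5)) := by
    apply one_div_le_one_div_of_le (by positivity)
    exact mul_le_mul_of_nonneg_left h3 (by positivity)
  have h8 : 4 / ((h:ℝ) * (U:ℝ) ^ (4 * i + 5)) / 2 = 8 * (1 / (4 * h * (U:ℝ) ^ (4 * i + 5))) := by
    field_simp
    norm_num
  have h9 : 0 < 1 / (4 * (h:ℝ) * (U:ℝ) ^ (4 * i + 5)) := by positivity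
  rw [h8]
  linarith

theorem annS_rout_le (h U i : ℕ) (hh : 1 ≤ h) (hU : 4 ≤ U) : 2 * rout h U i ≤ 1 / 2 := by
  unfold rout
  have h1 : (1:ℝ) ≤ h := by exact_mod_cast hh
  have h2 : (4:ℝ) ≤ U := by exact_mod_cast hU
  have h3 : (1:ℝ) ≤ (U:ℝ) ^ (4 * i + 1) := one_le_pow₀ (by linarith)
  have h4 : 1 / (4 * (h:ℝ) * (U:ℝ) ^ (4 * i + 1)) ≤ 1 / 4 := by
    apply one_div_le_one_div_of_le (by norm_num)
    nlinarith
  linarith

theorem annS_rin_le (h U i : ℕ) (hh : 1 ≤ h) (hU : 4 ≤ U) : rin h U i ≤ rout h U i := by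
  unfold rin rout
  have h1 : (1:ℝ) ≤ h := by exact_mod_cast hh
  have h2 : (4:ℝ) ≤ U := by exact_mod_cast hU
  have h3 : (0:ℝ) < (U:ℝ) ^ (4 * i + 1) := by positivity
  have h6 : (0:ℝ) < h := by linarith
  have h5 : (16:ℝ) ≤ (U:ℝ) ^ 4 := by nlinarith [sq_nonneg ((U:ℝ) ^ 2 - 4), mul_self_nonneg (U:ℝ), mul_le_mul h2 h2 (by norm_num) (by linarith)]
  have h4 : (U:ℝ) ^ (4 * i + 5) = (U:ℝ) ^ (4 * i + 1) * (U:ℝ) ^ 4 := by
    rw [← pow_add]
  rw [h4, div_le_div_iff₀ (by positivity) (by positivity)]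
  have h7 : (0:ℝ) < h * (U:ℝ) ^ (4 * i + 1) := by positivity
  nlinarith [mul_le_mul_of_nonneg_left h5 h7.le]

open Classical in
theorem bad_count (T : Finset ℝ) (h U I : ℕ) (hh : 1 ≤ h) (hU : 4 ≤ U) :
    ((range I).filter (fun i => BadI T h U i)).card ≤ T.card := by
  let f : ℕ → ℝ := fun i => if hb : BadI T h U i then hb.choose else 0
  have hf : ∀ i, BadI T h U i → f i ∈ T ∧ rin h U i / 2 < f i ∧ f i < 2 * rout h U i := by
    intro i hb
    have : f i = hb.choose := by simp only [f, dif_pos hb]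
    rw [this]
    exact hb.choose_spec
  apply Finset.card_le_card_of_injOn f
  · intro i hi
    have hi' := (Finset.mem_filter.mp (Finset.mem_coe.mp hi)).2
    exact (hf i hi').1
  · intro i hi j hj hij
    have hi' := hf i (Finset.mem_filter.mp (Finset.mem_coe.mp hi)).2
    have hj' := hf j (Finset.mem_filter.mp (Finset.mem_coe.mp hj)).2
    rcases lt_trichotomy i j with h1 | h1 | h1
    · exfalso
      have := annS_sep h U i j hh hU h1
      have h2 := hi'.2.1
      have h3 := hj'.2.2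
      rw [hij] at h2
      linarith
    · exact h1
    · exfalso
      have := annS_sep h U j i hh hU h1
      have h2 := hj'.2.1
      have h3 := hi'.2.2
      rw [hij] at h3
      linarith

open Classical in
/-- the total mass of the intervals of a set of ranges inside an annulus without marks -/
theorem annS_part (A : Finset ℤ) (h U : ℕ) (hh : 1 ≤ h) (hU : 4 ≤ U) (S : Finset ℕ) (a b : ℝ)
    (hab : a ≤ b) (hS : ∀ i ∈ S, a ≤ rin h U i ∧ rout h U i ≤ b) :
    ∑ i ∈ S, ∫ θ in (rin h U i)..(rout h U i), |cs A θ| ≤ ∫ θ in a..b, |cs A θ| := by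
  have hc : Continuous fun θ => |cs A θ| := (cs_cont A).abs
  have h1 : ∀ i ∈ S, ∫ θ in (rin h U i)..(rout h U i), |cs A θ| =
      ∫ θ in Set.Ioc (rin h U i) (rout h U i), |cs A θ| := fun i _ =>
    intervalIntegral.integral_of_le (annS_rin_le h U i hh hU)
  rw [Finset.sum_congr rfl h1, intervalIntegral.integral_of_le hab,
    ← MeasureTheory.integral_biUnion_finset S (fun i _ => measurableSet_Ioc)]
  · apply MeasureTheory.setIntegral_mono_set
    · exact (hc.integrableOn_Icc).mono_set Set.Ioc_subset_Icc_self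
    · exact Filter.Eventually.of_forall fun θ => abs_nonneg _
    · apply HasSubset.Subset.eventuallyLE
      intro θ hθ
      simp only [Set.mem_iUnion, Set.mem_Ioc] at hθ ⊢
      obtain ⟨i, hi, h2, h3⟩ := hθ
      exact ⟨lt_of_le_of_lt (hS i hi).1 h2, h3.trans (hS i hi).2⟩
  · intro i _ j _ hij
    show Disjoint (Set.Ioc (rin h U i) (rout h U i)) (Set.Ioc (rin h U j) (rout h U j))
    rw [Set.disjoint_left]
    intro θ h2 h3
    rw [Set.mem_Ioc] at h2 h3
    rcases lt_or_gt_of_ne hij with h4 | h4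
    · have := annS_sep h U i j hh hU h4
      have h5 := annS_rout_pos h U j hh hU
      have h6 := annS_rin_pos h U i hh hU
      linarith [h2.1, h3.2]
    · have := annS_sep h U j i hh hU h4
      have h5 := annS_rout_pos h U i hh hU
      have h6 := annS_rin_pos h U j hh hU
      linarith [h3.1, h2.2]
  · intro i _
    exact (hc.integrableOn_Icc).mono_set Set.Ioc_subset_Icc_self

open Classical in
theorem ann_sum (A : Finset ℤ) (T : Finset ℝ) (hm : Marks A T) (h U I : ℕ) (hh : 1 ≤ h) (hU : 4 ≤ U) :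
    ∑ i ∈ (range I).filter (fun i => ¬ BadI T h U i), ∫ θ in (rin h U i)..(rout h U i), |cs A θ| ≤
      6 * T.card := by
  set S := (range I).filter (fun i => ¬ BadI T h U i) with hS
  have hne : ∀ i, (T.filter (fun t => t ≤ rin h U i / 2)).Nonempty := fun i =>
    ⟨0, Finset.mem_filter.mpr ⟨hm.zero_mem, by have := annS_rin_pos h U i hh hU; linarith⟩⟩
  let d : ℕ → ℝ := fun i => (T.filter (fun t => t ≤ rin h U i / 2)).max' (hne i)
  have hd : ∀ i, d i ∈ T ∧ d i ≤ rin h U i / 2 := fun i =>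
    Finset.mem_filter.mp ((T.filter (fun t => t ≤ rin h U i / 2)).max'_mem (hne i))
  have hd' : ∀ i, ∀ t ∈ T, t ≤ rin h U i / 2 → t ≤ d i := fun i t ht ht' =>
    (T.filter (fun t => t ≤ rin h U i / 2)).le_max' t (Finset.mem_filter.mpr ⟨ht, ht'⟩)
  rw [← Finset.sum_fiberwise_of_maps_to (s := S) (t := T) (g := d) (fun i _ => (hd i).1)]
  have key : ∀ δ ∈ T, ∑ i ∈ S.filter (fun i => d i = δ),
      ∫ θ in (rin h U i)..(rout h U i), |cs A θ| ≤ 6 := by
    intro δ hδ
    rcases (S.filter (fun i => d i = δ)).eq_empty_or_nonempty with he | ⟨j, hj⟩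
    · rw [he, Finset.sum_empty]; norm_num
    have hδ2 : ∀ i ∈ S.filter (fun i => d i = δ), δ ≤ rin h U i / 2 := by
      intro i hi
      have := (Finset.mem_filter.mp hi).2
      rw [← this]
      exact (hd i).2
    have hδ3 : ∀ i ∈ S.filter (fun i => d i = δ), ∀ t ∈ T, δ < t → 2 * rout h U i ≤ t := by
      intro i hi t ht hlt
      obtain ⟨hiS, hdi⟩ := Finset.mem_filter.mp hi
      have hnb := (Finset.mem_filter.mp hiS).2
      by_contra hcon
      rw [not_le] at hcon
      apply hnb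
      refine ⟨t, ht, ?_, hcon⟩
      by_contra hcon2
      rw [not_lt] at hcon2
      have := hd' i t ht hcon2
      rw [hdi] at this
      linarith
    have hj2 := hδ2 j hj
    have hjr := annS_rin_le h U j hh hU
    have hjo := annS_rout_le h U j hh hU
    have hjp := annS_rin_pos h U j hh hU
    have hne2 : ((insert (1/2 : ℝ) T).filter (fun t => δ < t)).Nonempty :=
      ⟨1/2, Finset.mem_filter.mpr ⟨Finset.mem_insert_self _ _, by linarith⟩⟩
    set y := ((insert (1/2 : ℝ) T).filter (fun t => δ < t)).min' hne2 with hy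
    have hymem := ((insert (1/2 : ℝ) T).filter (fun t => δ < t)).min'_mem hne2
    rw [← hy] at hymem
    have hyle : ∀ t ∈ insert (1/2 : ℝ) T, δ < t → y ≤ t := fun t ht hlt =>
      ((insert (1/2 : ℝ) T).filter (fun t => δ < t)).min'_le t (Finset.mem_filter.mpr ⟨ht, hlt⟩)
    obtain ⟨hy1, hy2⟩ := Finset.mem_filter.mp hymem
    have hyhalf : y ≤ 1 / 2 := hyle _ (Finset.mem_insert_self _ _) (by linarith)
    have hyr : ∀ i ∈ S.filter (fun i => d i = δ), 2 * rout h U i ≤ y := by
      intro i hi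
      rcases Finset.mem_insert.mp hy1 with h1 | h1
      · rw [h1]
        exact annS_rout_le h U i hh hU
      · exact hδ3 i hi y h1 hy2
    have hδ0 : 0 ≤ δ := (hm.sub δ hδ).1
    have hyj := hyr j hj
    refine (annS_part A h U hh hU (S.filter (fun i => d i = δ)) (2 * δ) (y / 2) (by linarith)
      (fun i hi => ⟨by have := hδ2 i hi; linarith, by have := hyr i hi; linarith⟩)).trans ?_
    refine annulus A δ y hδ0 (by linarith) (by linarith) hyhalf ?_
    intro θ h1 h2 h3
    have h4 := hm.zeros θ (by linarith) (by linarith) h3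
    have h5 := hyle θ (Finset.mem_insert_of_mem h4) h1
    linarith
  calc ∑ δ ∈ T, ∑ i ∈ S.filter (fun i => d i = δ), ∫ θ in (rin h U i)..(rout h U i), |cs A θ|
      ≤ ∑ δ ∈ T, (6:ℝ) := Finset.sum_le_sum key
    _ = 6 * T.card := by rw [Finset.sum_const, nsmul_eq_mul, mul_comm]

end COSZ
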