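import Pool.Agent.COSZ.Bas

/-!
Module ARCA. The signed weight `W = sign(cs) min(1, K dist(., T))`, extended with period one.
It vanishes at the integers (0 and 1 are marks) and at the zeros of `cs`.
`Wf_lip`: first for `x, y` in the same interval `[m, m+1]`: if `cs` has no zero between `x` and `y` the
sign is constant and `infDist` is 1-Lipschitz; if `z` between `x, y` is a zero (or an integer) then
`|W x| ≤ K|x - z|` and `|W y| ≤ K|y - z|`. In general insert an integer between them in the same way.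
`Wf_const`: if `dn (x - t) ≥ δ + 1/K` for all marks, then for all `y ∈ [x, x+δ]` one has
`dn (y - t) ≥ 1/K`, so `min 1 (K infDist (fract y) T) = 1` (as `|fract y - t| ≥ dn (y - t)`), and `cs`
has no zero in `[x, x+δ]` (the fractional part of a zero is a mark), so the sign is constant.
-/

open Finset MeasureTheory

noncomputable section

namespace COSZ

/-- the signed weight -/
def Wf (A : Finset ℤ) (T : Finset ℝ) (K : ℕ) (θ : ℝ) : ℝ :=
  Real.sign (cs A θ) * min 1 (K * Metric.infDist (Int.fract θ) (T : Set ℝ))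

/-- fractional parts of zeros are marks -/
theorem arcA_fract_mem (A : Finset ℤ) (T : Finset ℝ) (hm : Marks A T) (z : ℝ) (hz : cs A z = 0) :
    Int.fract z ∈ T := by
  apply hm.zeros _ (Int.fract_nonneg z) (Int.fract_lt_one z).le
  have h := cs_add_int A z (-⌊z⌋)
  have h2 : z + ((-⌊z⌋ : ℤ) : ℝ) = Int.fract z := by
    push_cast
    rw [Int.fract]
    ring
  rw [h2] at h
  rw [h, hz]

theorem Wf_period (A : Finset ℤ) (T : Finset ℝ) (K : ℕ) (θ : ℝ) : Wf A T K (θ + 1) = Wf A T K θ := by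
  unfold Wf
  have h := cs_add_int A θ 1
  rw [Int.cast_one] at h
  rw [h, Int.fract_add_one]

theorem arcA_min_nonneg (T : Finset ℝ) (K : ℕ) (x : ℝ) :
    0 ≤ min 1 ((K:ℝ) * Metric.infDist x (T : Set ℝ)) :=
  le_min zero_le_one (mul_nonneg (Nat.cast_nonneg K) Metric.infDist_nonneg)

theorem arcA_sign_abs (x : ℝ) : |Real.sign x| ≤ 1 := by
  rcases Real.sign_apply_eq x with h | h | h <;> rw [h] <;> norm_num

theorem arcA_Wf_abs (A : Finset ℤ) (T : Finset ℝ) (K : ℕ) (θ : ℝ) :
    |Wf A T K θ| ≤ min 1 (K * Metric.infDist (Int.fract θ) (T : Set ℝ)) := by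
  unfold Wf
  rw [abs_mul, abs_of_nonneg (arcA_min_nonneg T K _)]
  calc |Real.sign (cs A θ)| * min 1 ((K:ℝ) * Metric.infDist (Int.fract θ) (T : Set ℝ))
      ≤ 1 * min 1 ((K:ℝ) * Metric.infDist (Int.fract θ) (T : Set ℝ)) :=
        mul_le_mul_of_nonneg_right (arcA_sign_abs _) (arcA_min_nonneg T K _)
    _ = _ := one_mul _

theorem Wf_abs_le (A : Finset ℤ) (T : Finset ℝ) (K : ℕ) (θ : ℝ) : |Wf A T K θ| ≤ 1 :=
  (arcA_Wf_abs A T K θ).trans (min_le_left _ _)

/-- near an integer the weight is small -/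
theorem arcA_int (A : Finset ℤ) (T : Finset ℝ) (hm : Marks A T) (K : ℕ) (x : ℝ) (m : ℤ) :
    |Wf A T K x| ≤ K * |x - m| := by
  refine (arcA_Wf_abs A T K x).trans ((min_le_right _ _).trans ?_)
  apply mul_le_mul_of_nonneg_left _ (Nat.cast_nonneg K)
  have hfl := Int.floor_le x
  have hfl2 := Int.lt_floor_add_one x
  have hfr : Int.fract x = x - ⌊x⌋ := rfl
  rcases le_or_gt (m:ℝ) x with h | h
  · have h1 : m ≤ ⌊x⌋ := Int.le_floor.mpr h
    have h1' : (m:ℝ) ≤ (⌊x⌋ : ℝ) := by exact_mod_cast h1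
    refine (Metric.infDist_le_dist_of_mem (Finset.mem_coe.mpr hm.zero_mem)).trans ?_
    rw [Real.dist_eq, sub_zero, abs_of_nonneg (Int.fract_nonneg x), abs_of_nonneg (by linarith)]
    linarith
  · have h1 : ⌊x⌋ < m := Int.floor_lt.mpr h
    have h1' : (⌊x⌋ : ℝ) + 1 ≤ (m:ℝ) := by exact_mod_cast h1
    refine (Metric.infDist_le_dist_of_mem (Finset.mem_coe.mpr hm.one_mem)).trans ?_
    rw [Real.dist_eq, abs_sub_comm, abs_of_nonneg (by linarith), abs_sub_comm,
      abs_of_nonneg (by linarith)]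
    linarith

/-- near a zero the weight is small -/
theorem arcA_zero (A : Finset ℤ) (T : Finset ℝ) (hm : Marks A T) (K : ℕ) (x z : ℝ)
    (hz : cs A z = 0) : |Wf A T K x| ≤ K * |x - z| := by
  rcases lt_trichotomy ⌊x⌋ ⌊z⌋ with h | h | h
  · refine (arcA_int A T hm K x ⌊z⌋).trans ?_
    apply mul_le_mul_of_nonneg_left _ (Nat.cast_nonneg K)
    have h1 : x < ⌊z⌋ := Int.floor_lt.mp h
    have h2 := Int.floor_le z
    rw [abs_sub_comm, abs_of_nonneg (by linarith), abs_sub_comm, abs_of_nonneg (by linarith)]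
    linarith
  · refine (arcA_Wf_abs A T K x).trans ((min_le_right _ _).trans ?_)
    apply mul_le_mul_of_nonneg_left _ (Nat.cast_nonneg K)
    refine (Metric.infDist_le_dist_of_mem (Finset.mem_coe.mpr (arcA_fract_mem A T hm z hz))).trans ?_
    rw [Real.dist_eq]
    have hx : Int.fract x = x - ⌊x⌋ := rfl
    have hz' : Int.fract z = z - ⌊z⌋ := rfl
    rw [hx, hz', h]
    apply le_of_eq
    congr 1
    ring
  · refine (arcA_int A T hm K x ⌊x⌋).trans ?_
    apply mul_le_mul_of_nonneg_left _ (Nat.cast_nonneg K)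
    have h1 : z < ⌊x⌋ := Int.floor_lt.mp h
    have h2 := Int.floor_le x
    rw [abs_of_nonneg (by linarith), abs_of_nonneg (by linarith)]
    linarith

/-- no zero between: the same sign -/
theorem arcA_sign (A : Finset ℤ) (x y : ℝ) (hxy : x ≤ y)
    (h : ∀ z, x ≤ z → z ≤ y → cs A z ≠ 0) : Real.sign (cs A x) = Real.sign (cs A y) := by
  have hc : ContinuousOn (cs A) (Set.Icc x y) := (cs_cont A).continuousOn
  rcases lt_or_gt_of_ne (h x le_rfl hxy) with h1 | h1
  · rcases lt_or_gt_of_ne (h y hxy le_rfl) with h2 | h2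
    · rw [Real.sign_of_neg h1, Real.sign_of_neg h2]
    · exfalso
      obtain ⟨z, hz, hz0⟩ := intermediate_value_Icc hxy hc (show (0:ℝ) ∈ Set.Icc (cs A x) (cs A y) from
        ⟨h1.le, h2.le⟩)
      exact h z hz.1 hz.2 hz0
  · rcases lt_or_gt_of_ne (h y hxy le_rfl) with h2 | h2
    · exfalso
      obtain ⟨z, hz, hz0⟩ := intermediate_value_Icc' hxy hc (show (0:ℝ) ∈ Set.Icc (cs A y) (cs A x) from
        ⟨h2.le, h1.le⟩)
      exact h z hz.1 hz.2 hz0
    · rw [Real.sign_of_pos h1, Real.sign_of_pos h2]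

theorem arcA_lip (A : Finset ℤ) (T : Finset ℝ) (hm : Marks A T) (K : ℕ) (x y : ℝ) (hxy : x ≤ y) :
    |Wf A T K x - Wf A T K y| ≤ K * |x - y| := by
  have hK : (0:ℝ) ≤ K := Nat.cast_nonneg K
  by_cases hsp : ∃ z, x ≤ z ∧ z ≤ y ∧ (cs A z = 0 ∨ ∃ m : ℤ, (m:ℝ) = z)
  · obtain ⟨z, h1, h2, h3⟩ := hsp
    have key : ∀ w : ℝ, |Wf A T K w| ≤ K * |w - z| := by
      intro w
      rcases h3 with h3 | ⟨m, hm'⟩
      · exact arcA_zero A T hm K w z h3
      · rw [← hm']
        exact arcA_int A T hm K w m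
    have hx := key x
    have hy := key y
    rw [abs_sub_comm x z, abs_of_nonneg (by linarith : 0 ≤ z - x)] at hx
    rw [abs_of_nonneg (by linarith : 0 ≤ y - z)] at hy
    rw [abs_sub_comm x y, abs_of_nonneg (by linarith : 0 ≤ y - x)]
    have h4 : |Wf A T K x - Wf A T K y| ≤ |Wf A T K x| + |Wf A T K y| := abs_sub _ _
    calc |Wf A T K x - Wf A T K y| ≤ |Wf A T K x| + |Wf A T K y| := h4
      _ ≤ K * (z - x) + K * (y - z) := add_le_add hx hy
      _ = K * (y - x) := by ring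
  · have hnz : ∀ z, x ≤ z → z ≤ y → cs A z ≠ 0 := by
      intro z h1 h2 h3
      exact hsp ⟨z, h1, h2, Or.inl h3⟩
    have hfl : ⌊x⌋ = ⌊y⌋ := by
      apply le_antisymm (Int.floor_le_floor hxy)
      by_contra hcon
      rw [not_le] at hcon
      have h1 : x < ⌊y⌋ := Int.floor_lt.mp hcon
      exact hsp ⟨(⌊y⌋ : ℝ), h1.le, Int.floor_le y, Or.inr ⟨⌊y⌋, rfl⟩⟩
    have hfr : Int.fract x - Int.fract y = x - y := by
      have hx : Int.fract x = x - ⌊x⌋ := rfl
      have hy : Int.fract y = y - ⌊y⌋ := rfl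
      rw [hx, hy, hfl]
      ring
    unfold Wf
    rw [arcA_sign A x y hxy hnz, ← mul_sub, abs_mul]
    calc |Real.sign (cs A y)| * |min 1 ((K:ℝ) * Metric.infDist (Int.fract x) (T : Set ℝ)) -
          min 1 ((K:ℝ) * Metric.infDist (Int.fract y) (T : Set ℝ))|
        ≤ 1 * |min 1 ((K:ℝ) * Metric.infDist (Int.fract x) (T : Set ℝ)) -
          min 1 ((K:ℝ) * Metric.infDist (Int.fract y) (T : Set ℝ))| :=
          mul_le_mul_of_nonneg_right (arcA_sign_abs _) (abs_nonneg _)
      _ = |min 1 ((K:ℝ) * Metric.infDist (Int.fract x) (T : Set ℝ)) -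
          min 1 ((K:ℝ) * Metric.infDist (Int.fract y) (T : Set ℝ))| := one_mul _
      _ ≤ |(K:ℝ) * Metric.infDist (Int.fract x) (T : Set ℝ) -
          (K:ℝ) * Metric.infDist (Int.fract y) (T : Set ℝ)| := by
          have := abs_min_sub_min_le_max (1:ℝ) ((K:ℝ) * Metric.infDist (Int.fract x) (T : Set ℝ)) 1
            ((K:ℝ) * Metric.infDist (Int.fract y) (T : Set ℝ))
          rwa [sub_self, abs_zero, max_eq_right (abs_nonneg _)] at this
      _ = K * |Metric.infDist (Int.fract x) (T : Set ℝ) - Metric.infDist (Int.fract y) (T : Set ℝ)| := by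
          rw [← mul_sub, abs_mul, abs_of_nonneg hK]
      _ ≤ K * |x - y| := by
          apply mul_le_mul_of_nonneg_left _ hK
          rw [← hfr]
          rw [abs_le]
          have h1 := Metric.infDist_le_infDist_add_dist (s := (T : Set ℝ)) (x := Int.fract x)
            (y := Int.fract y)
          have h2 := Metric.infDist_le_infDist_add_dist (s := (T : Set ℝ)) (x := Int.fract y)
            (y := Int.fract x)
          rw [Real.dist_eq] at h1
          rw [dist_comm, Real.dist_eq] at h2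
          constructor <;> linarith

theorem Wf_lip (A : Finset ℤ) (T : Finset ℝ) (hm : Marks A T) (K : ℕ) (x y : ℝ) :
    |Wf A T K x - Wf A T K y| ≤ K * |x - y| := by
  rcases le_total x y with h | h
  · exact arcA_lip A T hm K x y h
  · rw [abs_sub_comm, abs_sub_comm x y]
    exact arcA_lip A T hm K y x h

theorem Wf_cont (A : Finset ℤ) (T : Finset ℝ) (hm : Marks A T) (K : ℕ) : Continuous (Wf A T K) := by
  have h : LipschitzWith (K : NNReal) (Wf A T K) := by
    apply LipschitzWith.of_dist_le_mul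
    intro x y
    rw [Real.dist_eq, Real.dist_eq]
    exact_mod_cast Wf_lip A T hm K x y
  exact h.continuous

theorem arcA_min_one (A : Finset ℤ) (T : Finset ℝ) (hm : Marks A T) (K : ℕ) (hK : 1 ≤ K) (y : ℝ)
    (h : ∀ t ∈ T, 1 / (K:ℝ) ≤ dn (y - t)) :
    min 1 ((K:ℝ) * Metric.infDist (Int.fract y) (T : Set ℝ)) = 1 := by
  apply min_eq_left
  have hK' : (0:ℝ) < K := by exact_mod_cast hK
  have h1 : 1 / (K:ℝ) ≤ Metric.infDist (Int.fract y) (T : Set ℝ) := by
    rw [Metric.le_infDist ⟨0, Finset.mem_coe.mpr hm.zero_mem⟩]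
    intro t ht
    have h2 := h t (Finset.mem_coe.mp ht)
    have h3 : dn (y - t) = dn (Int.fract y - t) := by
      have := dn_add_int (Int.fract y - t) ⌊y⌋
      rw [← this]
      congr 1
      have hy : Int.fract y = y - ⌊y⌋ := rfl
      rw [hy]
      ring
    rw [Real.dist_eq]
    rw [h3] at h2
    exact h2.trans (dn_le_abs _)
  calc (1:ℝ) = K * (1 / K) := by field_simp
    _ ≤ K * Metric.infDist (Int.fract y) (T : Set ℝ) := mul_le_mul_of_nonneg_left h1 hK'.le

theorem Wf_const (A : Finset ℤ) (T : Finset ℝ) (hm : Marks A T) (K : ℕ) (hK : 1 ≤ K) (x δ : ℝ)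
    (hδ : 0 ≤ δ) (h : ∀ t ∈ T, δ + 1 / K ≤ dn (x - t)) : Wf A T K (x + δ) = Wf A T K x := by
  have hK' : (0:ℝ) < 1 / K := by
    have : (0:ℝ) < K := by exact_mod_cast hK
    positivity
  have key : ∀ y, x ≤ y → y ≤ x + δ → ∀ t ∈ T, 1 / (K:ℝ) ≤ dn (y - t) := by
    intro y h1 h2 t ht
    have h3 := h t ht
    have h4 := dn_sub_le (x - t) (y - t)
    have h5 : |x - t - (y - t)| ≤ δ := by
      rw [abs_le]
      constructor <;> linarith
    linarith
  have hnz : ∀ z, x ≤ z → z ≤ x + δ → cs A z ≠ 0 := by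
    intro z h1 h2 h3
    have h4 := key z h1 h2 _ (arcA_fract_mem A T hm z h3)
    have h5 : dn (z - Int.fract z) = 0 := by
      have hz : Int.fract z = z - ⌊z⌋ := rfl
      rw [hz]
      have h6 : z - (z - (⌊z⌋ : ℝ)) = 0 + (⌊z⌋ : ℝ) := by ring
      rw [h6, dn_add_int]
      have h7 := dn_le_abs 0
      rw [abs_zero] at h7
      exact le_antisymm h7 (dn_nonneg 0)
    linarith
  unfold Wf
  rw [arcA_min_one A T hm K hK x (key x le_rfl (by linarith)),
    arcA_min_one A T hm K hK (x + δ) (key (x + δ) (by linarith) le_rfl),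
    arcA_sign A x (x + δ) (by linarith) hnz]

theorem Wf_mul (A : Finset ℤ) (T : Finset ℝ) (hm : Marks A T) (K : ℕ) (θ : ℝ) (h0 : 0 ≤ θ) (h1 : θ ≤ 1) :
    cs A θ * Wf A T K θ = |cs A θ| * min 1 (K * Metric.infDist θ (T : Set ℝ)) := by
  unfold Wf
  have hs : cs A θ * Real.sign (cs A θ) = |cs A θ| := by
    rcases lt_trichotomy (cs A θ) 0 with h | h | h
    · rw [Real.sign_of_neg h, abs_of_neg h]
      ring
    · rw [h]
      simp
    · rw [Real.sign_of_pos h, abs_of_pos h]
      ring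
  have hi : Metric.infDist (Int.fract θ) (T : Set ℝ) = Metric.infDist θ (T : Set ℝ) := by
    rcases eq_or_lt_of_le h1 with h | h
    · subst h
      rw [Int.fract_one, Metric.infDist_zero_of_mem (Finset.mem_coe.mpr hm.zero_mem),
        Metric.infDist_zero_of_mem (Finset.mem_coe.mpr hm.one_mem)]
    · rw [Int.fract_eq_self.mpr ⟨h0, h⟩]
  rw [← mul_assoc, hs, hi]

end COSZ
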