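import Pool.Agent.COSZ.ArcA

/-!
Module ARCB. Modulus of continuity in `L²`: the difference `g θ = W(θ+δ) - W θ` is zero unless
`dn (θ - t) < δ + 1/K` for some `t ∈ T` (`Wf_const`); the set of those `θ ∈ [0,1]` has measure at most
`2 M (δ + 1/K)`; and `|g| ≤ 2`, `|g| ≤ K δ`.
-/

open Finset MeasureTheory

noncomputable section

namespace COSZ

/-- the exceptional set -/
def arcB_S (T : Finset ℝ) (r : ℝ) : Set ℝ :=
  ⋃ t ∈ T, {θ : ℝ | 0 ≤ θ ∧ θ ≤ 1 ∧ dn (θ - t) < r}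

theorem arcB_meas (T : Finset ℝ) (r : ℝ) : MeasurableSet (arcB_S T r) := by
  unfold arcB_S
  apply Finset.measurableSet_biUnion
  intro t _
  have h1 : MeasurableSet {θ : ℝ | 0 ≤ θ} := measurableSet_Ici
  have h2 : MeasurableSet {θ : ℝ | θ ≤ 1} := measurableSet_Iic
  have h3 : MeasurableSet {θ : ℝ | dn (θ - t) < r} := by
    have hc : Continuous (fun θ : ℝ => dn (θ - t)) := dn_cont.comp (continuous_id.sub continuous_const)
    exact (isOpen_lt hc continuous_const).measurableSet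
  exact h1.inter (h2.inter h3)

theorem arcB_vol (T : Finset ℝ) (r : ℝ) (hr : 0 ≤ r) :
    volume (arcB_S T r) ≤ ENNReal.ofReal (2 * T.card * r) := by
  unfold arcB_S
  calc volume (⋃ t ∈ T, {θ : ℝ | 0 ≤ θ ∧ θ ≤ 1 ∧ dn (θ - t) < r})
      ≤ ∑ t ∈ T, volume {θ : ℝ | 0 ≤ θ ∧ θ ≤ 1 ∧ dn (θ - t) < r} := measure_biUnion_finset_le T _
    _ ≤ ∑ t ∈ T, ENNReal.ofReal (2 * r) := Finset.sum_le_sum (fun t _ => volume_near t r hr)
    _ = ENNReal.ofReal (2 * T.card * r) := by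
        rw [Finset.sum_const, nsmul_eq_mul, ← ENNReal.ofReal_natCast,
          ← ENNReal.ofReal_mul (Nat.cast_nonneg _)]
        congr 1
        ring

theorem modulus (A : Finset ℤ) (T : Finset ℝ) (hm : Marks A T) (K : ℕ) (hK : 1 ≤ K) (δ : ℝ)
    (hδ : 0 < δ) :
    ∫ θ in (0:ℝ)..1, (Wf A T K (θ + δ) - Wf A T K θ) ^ 2 ≤
      2 * T.card * (δ + 1 / K) * min 4 (K ^ 2 * δ ^ 2) := by
  have hK' : (0:ℝ) < K := by exact_mod_cast hK
  have hr : (0:ℝ) ≤ δ + 1 / K := by positivity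
  have hc0 : (0:ℝ) ≤ min 4 ((K:ℝ) ^ 2 * δ ^ 2) := le_min (by norm_num) (by positivity)
  have hcont : Continuous (fun θ : ℝ => (Wf A T K (θ + δ) - Wf A T K θ) ^ 2) := by
    have h1 := Wf_cont A T hm K
    exact ((h1.comp (continuous_id.add continuous_const)).sub h1).pow 2
  have hle : ∀ θ : ℝ, (Wf A T K (θ + δ) - Wf A T K θ) ^ 2 ≤ min 4 ((K:ℝ) ^ 2 * δ ^ 2) := by
    intro θ
    apply le_min
    · have h1 := abs_le.mp (Wf_abs_le A T K (θ + δ))
      have h2 := abs_le.mp (Wf_abs_le A T K θ)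
      have h3 : |Wf A T K (θ + δ) - Wf A T K θ| ≤ 2 := by
        rw [abs_le]
        constructor <;> linarith [h1.1, h1.2, h2.1, h2.2]
      calc (Wf A T K (θ + δ) - Wf A T K θ) ^ 2 = |Wf A T K (θ + δ) - Wf A T K θ| ^ 2 := (sq_abs _).symm
        _ ≤ 2 ^ 2 := pow_le_pow_left₀ (abs_nonneg _) h3 2
        _ = 4 := by norm_num
    · have h1 := Wf_lip A T hm K (θ + δ) θ
      have h2 : θ + δ - θ = δ := by ring
      rw [h2, abs_of_pos hδ] at h1
      calc (Wf A T K (θ + δ) - Wf A T K θ) ^ 2 = |Wf A T K (θ + δ) - Wf A T K θ| ^ 2 := (sq_abs _).symm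
        _ ≤ (K * δ) ^ 2 := pow_le_pow_left₀ (abs_nonneg _) h1 2
        _ = (K:ℝ) ^ 2 * δ ^ 2 := by ring
  have hind : ∀ θ ∈ Set.Ioc (0:ℝ) 1, (Wf A T K (θ + δ) - Wf A T K θ) ^ 2 ≤
      (arcB_S T (δ + 1 / K)).indicator (fun _ => min 4 ((K:ℝ) ^ 2 * δ ^ 2)) θ := by
    intro θ hθ
    by_cases hS : θ ∈ arcB_S T (δ + 1 / K)
    · rw [Set.indicator_of_mem hS]
      exact hle θ
    · rw [Set.indicator_of_notMem hS]
      have h1 : ∀ t ∈ T, δ + 1 / K ≤ dn (θ - t) := by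
        intro t ht
        by_contra hcon
        rw [not_le] at hcon
        apply hS
        unfold arcB_S
        exact Set.mem_biUnion (Finset.mem_coe.mpr ht) ⟨hθ.1.le, hθ.2, hcon⟩
      rw [Wf_const A T hm K hK θ δ hδ.le h1]
      simp
  rw [intervalIntegral.integral_of_le zero_le_one]
  calc ∫ θ in Set.Ioc (0:ℝ) 1, (Wf A T K (θ + δ) - Wf A T K θ) ^ 2
      ≤ ∫ θ in Set.Ioc (0:ℝ) 1,
          (arcB_S T (δ + 1 / K)).indicator (fun _ => min 4 ((K:ℝ) ^ 2 * δ ^ 2)) θ := by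
        apply setIntegral_mono_on _ _ measurableSet_Ioc hind
        · exact (hcont.integrableOn_Icc).mono_set Set.Ioc_subset_Icc_self
        · apply Integrable.indicator _ (arcB_meas T _)
          exact integrable_const _
    _ = ∫ θ in Set.Ioc (0:ℝ) 1 ∩ arcB_S T (δ + 1 / K), min 4 ((K:ℝ) ^ 2 * δ ^ 2) := by
        rw [setIntegral_indicator (arcB_meas T _)]
    _ = (volume (Set.Ioc (0:ℝ) 1 ∩ arcB_S T (δ + 1 / K))).toReal * min 4 ((K:ℝ) ^ 2 * δ ^ 2) := by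
        rw [setIntegral_const, smul_eq_mul]
        rfl
    _ ≤ (2 * T.card * (δ + 1 / K)) * min 4 ((K:ℝ) ^ 2 * δ ^ 2) := by
        apply mul_le_mul_of_nonneg_right _ hc0
        apply ENNReal.toReal_le_of_le_ofReal (by positivity)
        exact (measure_mono Set.inter_subset_right).trans (arcB_vol T _ hr)

end COSZ
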