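import Pool.Agent.COSZ.Bas

/-!
Module ARCC. Bessel inequality and a block of frequencies. With `c_k = ∫_0^1 W(θ) e(-kθ) dθ` the
coefficient at `k` of `g θ = W(θ+δ) - W θ` is `(e(kδ) - 1) c_k`. For `δ = 1/(4X)` and
`X ≤ |k| < 2X`: `|e(kδ) - 1|² = 4 sin²(πkδ) ≥ 2`. So `2 ∑ |c_k|² ≤ ∫ g²` (Bessel), and there are at most
`2X` such `k`; Cauchy-Schwarz: `∑ |c_k| ≤ √(2X) √(∫ g²/2)`. Finally `|∫ cos(2πkθ) W| = |Re c_k| ≤ |c_k|`.
-/

open Finset MeasureTheory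

noncomputable section

namespace COSZ

private lemma arcc_re_int (f : ℝ → ℂ) (hf : Continuous f) :
    ∫ θ in (0:ℝ)..1, (f θ).re = (∫ θ in (0:ℝ)..1, f θ).re :=
  Complex.reCLM.intervalIntegral_comp_comm (hf.intervalIntegrable 0 1)

private lemma arcc_e_cont (k : ℤ) : Continuous (fun θ : ℝ => e (k * θ)) :=
  e_cont.comp (by fun_prop)

private lemma arcc_e_cont' (k : ℤ) : Continuous (fun θ : ℝ => e (-(k * θ))) :=
  e_cont.comp (by fun_prop)

/-- Bessel inequality -/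
theorem bessel (g : ℝ → ℂ) (hg : Continuous g) (S : Finset ℤ) :
    ∑ k ∈ S, ‖∫ θ in (0:ℝ)..1, g θ * e (-(k * θ))‖ ^ 2 ≤ ∫ θ in (0:ℝ)..1, ‖g θ‖ ^ 2 := by
  set c : ℤ → ℂ := fun k => ∫ θ in (0:ℝ)..1, g θ * e (-(k * θ)) with hc
  set P : ℝ → ℂ := fun θ => ∑ k ∈ S, c k * e (k * θ) with hP
  have hPc : Continuous P :=
    continuous_finsetSum _ (fun k _ => continuous_const.mul (arcc_e_cont k))
  have hcoef : ∀ l ∈ S, ∫ θ in (0:ℝ)..1, P θ * e (-(l * θ)) = c l := by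
    intro l hl
    have h0 : ∀ θ : ℝ, P θ * e (-(l * θ)) = ∑ k ∈ S, c k * e (((k - l : ℤ) : ℝ) * θ) := by
      intro θ
      rw [hP, Finset.sum_mul]
      refine Finset.sum_congr rfl (fun k _ => ?_)
      rw [mul_assoc, ← e_add]
      congr 2
      push_cast
      ring
    simp only [h0]
    have hint : ∀ k ∈ S, IntervalIntegrable (fun θ : ℝ => c k * e (((k - l : ℤ) : ℝ) * θ)) volume 0 1 :=
      fun k _ => (continuous_const.mul (arcc_e_cont _)).intervalIntegrable 0 1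
    rw [intervalIntegral.integral_finsetSum hint]
    rw [Finset.sum_eq_single l]
    · rw [intervalIntegral.integral_const_mul, int_e, if_pos (sub_self l), mul_one]
    · intro k _ hk
      rw [intervalIntegral.integral_const_mul, int_e, if_neg (sub_ne_zero.2 hk), mul_zero]
    · intro h
      exact absurd hl h
  have hconj : ∀ θ : ℝ, (starRingEnd ℂ) (P θ) = ∑ k ∈ S, (starRingEnd ℂ) (c k) * e (-(k * θ)) := by
    intro θ
    rw [hP, map_sum]
    refine Finset.sum_congr rfl (fun k _ => ?_)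
    rw [map_mul, e_neg]
  have hPcc : Continuous (fun θ => (starRingEnd ℂ) (P θ)) := Complex.continuous_conj.comp hPc
  have h1 : ∀ f : ℝ → ℂ, Continuous f → ∫ θ in (0:ℝ)..1, f θ * (starRingEnd ℂ) (P θ) =
      ∑ k ∈ S, (starRingEnd ℂ) (c k) * ∫ θ in (0:ℝ)..1, f θ * e (-(k * θ)) := by
    intro f hf
    have h0 : ∀ θ : ℝ, f θ * (starRingEnd ℂ) (P θ) =
        ∑ k ∈ S, (starRingEnd ℂ) (c k) * (f θ * e (-(k * θ))) := by
      intro θ
      rw [hconj, Finset.mul_sum]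
      exact Finset.sum_congr rfl (fun k _ => by ring)
    simp only [h0]
    have hint : ∀ k ∈ S, IntervalIntegrable
        (fun θ : ℝ => (starRingEnd ℂ) (c k) * (f θ * e (-(k * θ)))) volume 0 1 :=
      fun k _ => (continuous_const.mul (hf.mul (arcc_e_cont' k))).intervalIntegrable 0 1
    rw [intervalIntegral.integral_finsetSum hint]
    exact Finset.sum_congr rfl (fun k _ => intervalIntegral.integral_const_mul _ _)
  have hsum : ∑ k ∈ S, (starRingEnd ℂ) (c k) * c k = ((∑ k ∈ S, ‖c k‖ ^ 2 : ℝ) : ℂ) := by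
    push_cast
    exact Finset.sum_congr rfl (fun k _ => Complex.conj_mul' _)
  have h2 : ∫ θ in (0:ℝ)..1, P θ * (starRingEnd ℂ) (P θ) = ((∑ k ∈ S, ‖c k‖ ^ 2 : ℝ) : ℂ) := by
    rw [h1 P hPc, ← hsum]
    exact Finset.sum_congr rfl (fun k hk => by rw [hcoef k hk])
  have h3 : ∫ θ in (0:ℝ)..1, g θ * (starRingEnd ℂ) (P θ) = ((∑ k ∈ S, ‖c k‖ ^ 2 : ℝ) : ℂ) := by
    rw [h1 g hg, ← hsum]
  have h4 : 0 ≤ ∫ θ in (0:ℝ)..1, ‖g θ - P θ‖ ^ 2 :=
    intervalIntegral.integral_nonneg (by norm_num) (fun θ _ => by positivity)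
  have h5 : ∀ θ : ℝ, ‖g θ - P θ‖ ^ 2 = ‖g θ‖ ^ 2 - 2 * (g θ * (starRingEnd ℂ) (P θ)).re +
      (P θ * (starRingEnd ℂ) (P θ)).re := by
    intro θ
    rw [← Complex.normSq_eq_norm_sq, ← Complex.normSq_eq_norm_sq]
    rw [Complex.normSq_apply, Complex.normSq_apply]
    simp only [Complex.sub_re, Complex.sub_im, Complex.mul_re, Complex.conj_re, Complex.conj_im]
    ring
  have hi1 : IntervalIntegrable (fun θ => ‖g θ‖ ^ 2) volume 0 1 :=
    (hg.norm.pow 2).intervalIntegrable 0 1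
  have hi2 : IntervalIntegrable (fun θ => 2 * (g θ * (starRingEnd ℂ) (P θ)).re) volume 0 1 :=
    (continuous_const.mul (Complex.continuous_re.comp (hg.mul hPcc))).intervalIntegrable 0 1
  have hi3 : IntervalIntegrable (fun θ => (P θ * (starRingEnd ℂ) (P θ)).re) volume 0 1 :=
    (Complex.continuous_re.comp (hPc.mul hPcc)).intervalIntegrable 0 1
  simp only [h5] at h4
  have h6 : ∫ θ in (0:ℝ)..1, (g θ * (starRingEnd ℂ) (P θ)).re = ∑ k ∈ S, ‖c k‖ ^ 2 := by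
    have := arcc_re_int (fun θ => g θ * (starRingEnd ℂ) (P θ)) (hg.mul hPcc)
    rw [this, h3, Complex.ofReal_re]
  have h7 : ∫ θ in (0:ℝ)..1, (P θ * (starRingEnd ℂ) (P θ)).re = ∑ k ∈ S, ‖c k‖ ^ 2 := by
    have := arcc_re_int (fun θ => P θ * (starRingEnd ℂ) (P θ)) (hPc.mul hPcc)
    rw [this, h2, Complex.ofReal_re]
  rw [intervalIntegral.integral_add (hi1.sub hi2) hi3, intervalIntegral.integral_sub hi1 hi2,
    intervalIntegral.integral_const_mul, h6, h7] at h4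
  linarith

private lemma arcc_shift (W : ℝ → ℝ) (hW : Continuous W) (hp : ∀ θ, W (θ + 1) = W θ) (k : ℤ) (δ : ℝ) :
    ∫ θ in (0:ℝ)..1, ((W (θ + δ) - W θ : ℝ) : ℂ) * e (-(k * θ)) =
      (e (k * δ) - 1) * ∫ θ in (0:ℝ)..1, ((W θ : ℝ) : ℂ) * e (-(k * θ)) := by
  have hWc : Continuous (fun θ : ℝ => ((W θ : ℝ) : ℂ) * e (-(k * θ))) :=
    (Complex.continuous_ofReal.comp hW).mul (arcc_e_cont' k)
  have hper : Function.Periodic (fun θ : ℝ => ((W θ : ℝ) : ℂ) * e (-(k * θ))) 1 := by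
    intro θ
    simp only [hp]
    congr 1
    rw [show -((k : ℝ) * (θ + 1)) = -(k * θ) + ((-k : ℤ) : ℝ) by push_cast; ring, e_add, e_int,
      mul_one]
  have h1 : ∫ θ in (0:ℝ)..1, ((W (θ + δ) : ℝ) : ℂ) * e (-(k * θ)) =
      e (k * δ) * ∫ θ in (0:ℝ)..1, ((W θ : ℝ) : ℂ) * e (-(k * θ)) := by
    have h2 : ∀ θ : ℝ, ((W (θ + δ) : ℝ) : ℂ) * e (-(k * θ)) =
        e (k * δ) * (fun u : ℝ => ((W u : ℝ) : ℂ) * e (-(k * u))) (θ + δ) := by
      intro θ
      simp only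
      rw [mul_left_comm, ← e_add]
      congr 2
      ring
    simp only [h2]
    rw [intervalIntegral.integral_const_mul,
      intervalIntegral.integral_comp_add_right (fun u : ℝ => ((W u : ℝ) : ℂ) * e (-(k * u))) δ]
    congr 1
    rw [zero_add, add_comm 1 δ, hper.intervalIntegral_add_eq δ 0, zero_add]
  have h3 : ∀ θ : ℝ, ((W (θ + δ) - W θ : ℝ) : ℂ) * e (-(k * θ)) =
      ((W (θ + δ) : ℝ) : ℂ) * e (-(k * θ)) - ((W θ : ℝ) : ℂ) * e (-(k * θ)) := by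
    intro θ
    push_cast
    ring
  simp only [h3]
  rw [intervalIntegral.integral_sub _ (hWc.intervalIntegrable 0 1), h1]
  · ring
  · exact ((Complex.continuous_ofReal.comp (hW.comp (by fun_prop))).mul
      (arcc_e_cont' k)).intervalIntegrable 0 1

private lemma arcc_sin (k : ℤ) (X : ℕ) (hX : 1 ≤ X) (h1 : (X:ℤ) ≤ |k|) (h2 : |k| < 2 * X) :
    2 ≤ ‖e (k * (1 / (4 * X))) - 1‖ ^ 2 := by
  have hX0 : (0 : ℝ) < X := by exact_mod_cast hX
  rw [norm_e_sub_one, mul_pow, sq_abs]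
  have ha : |Real.pi * ((k : ℝ) * (1 / (4 * X)))| = Real.pi * (|(k : ℝ)| / (4 * X)) := by
    rw [abs_mul, abs_mul, abs_of_pos Real.pi_pos, abs_of_pos (by positivity : (0:ℝ) < 1 / (4 * X))]
    ring
  have hk1 : (X : ℝ) ≤ |(k : ℝ)| := by exact_mod_cast h1
  have hk2 : |(k : ℝ)| < 2 * X := by exact_mod_cast h2
  set x := |Real.pi * ((k : ℝ) * (1 / (4 * X)))| with hx
  have h3 : Real.pi / 4 ≤ x := by
    rw [ha, div_eq_mul_inv Real.pi 4]
    refine mul_le_mul_of_nonneg_left ?_ Real.pi_pos.le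
    rw [le_div_iff₀ (by positivity)]
    linarith
  have h4 : x ≤ Real.pi / 2 := by
    rw [ha, div_eq_mul_inv Real.pi 2]
    refine mul_le_mul_of_nonneg_left ?_ Real.pi_pos.le
    rw [div_le_iff₀ (by positivity)]
    linarith
  have h5 : Real.sin (Real.pi / 4) ≤ Real.sin x :=
    Real.sin_le_sin_of_le_of_le_pi_div_two (by linarith [Real.pi_pos]) h4 h3
  rw [Real.sin_pi_div_four] at h5
  have h6 : Real.sin (Real.pi * ((k : ℝ) * (1 / (4 * X)))) ^ 2 = Real.sin x ^ 2 := by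
    rw [hx]
    rcases abs_choice (Real.pi * ((k : ℝ) * (1 / (4 * X)))) with h | h
    · rw [h]
    · rw [h, Real.sin_neg, neg_sq]
  rw [h6]
  have h7 : (√2 / 2) ^ 2 ≤ Real.sin x ^ 2 := pow_le_pow_left₀ (by positivity) h5 2
  rw [div_pow, Real.sq_sqrt (by norm_num)] at h7
  linarith

theorem block (W : ℝ → ℝ) (hW : Continuous W) (hp : ∀ θ, W (θ + 1) = W θ) (S : Finset ℤ) (X : ℕ)
    (hX : 1 ≤ X) :
    ∑ k ∈ S.filter (fun k => (X:ℤ) ≤ |k| ∧ |k| < 2 * X),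
      |∫ θ in (0:ℝ)..1, Real.cos (2 * Real.pi * k * θ) * W θ| ≤
      Real.sqrt X * Real.sqrt (∫ θ in (0:ℝ)..1, (W (θ + 1 / (4 * X)) - W θ) ^ 2) := by
  set S' := S.filter (fun k => (X:ℤ) ≤ |k| ∧ |k| < 2 * X) with hS'
  set c : ℤ → ℂ := fun k => ∫ θ in (0:ℝ)..1, ((W θ : ℝ) : ℂ) * e (-(k * θ)) with hc
  set I := ∫ θ in (0:ℝ)..1, (W (θ + 1 / (4 * X)) - W θ) ^ 2 with hI
  have hX0 : (0 : ℝ) < X := by exact_mod_cast hX
  -- the real part
  have h1 : ∀ k : ℤ, |∫ θ in (0:ℝ)..1, Real.cos (2 * Real.pi * k * θ) * W θ| ≤ ‖c k‖ := by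
    intro k
    have h2 : ∫ θ in (0:ℝ)..1, Real.cos (2 * Real.pi * k * θ) * W θ = (c k).re := by
      change _ = (∫ θ in (0:ℝ)..1, ((W θ : ℝ) : ℂ) * e (-(k * θ))).re
      rw [← arcc_re_int (fun θ : ℝ => ((W θ : ℝ) : ℂ) * e (-(k * θ)))
        ((Complex.continuous_ofReal.comp hW).mul (arcc_e_cont' k))]
      refine intervalIntegral.integral_congr (fun θ _ => ?_)
      change Real.cos (2 * Real.pi * k * θ) * W θ = (((W θ : ℝ) : ℂ) * e (-(k * θ))).re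
      rw [Complex.re_ofReal_mul, e_re, mul_comm]
      congr 1
      rw [← Real.cos_neg]
      congr 1
      ring
    rw [h2]
    exact Complex.abs_re_le_norm _
  -- Bessel
  have hgc : Continuous (fun θ : ℝ => ((W (θ + 1 / (4 * X)) - W θ : ℝ) : ℂ)) :=
    Complex.continuous_ofReal.comp ((hW.comp (by fun_prop)).sub hW)
  have h2 := bessel (fun θ : ℝ => ((W (θ + 1 / (4 * X)) - W θ : ℝ) : ℂ)) hgc S'
  have h3 : ∫ θ in (0:ℝ)..1, ‖((W (θ + 1 / (4 * X)) - W θ : ℝ) : ℂ)‖ ^ 2 = I := by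
    rw [hI]
    refine intervalIntegral.integral_congr (fun θ _ => ?_)
    simp only [Complex.norm_real, Real.norm_eq_abs, sq_abs]
  rw [h3] at h2
  have h4 : ∀ k ∈ S', 2 * ‖c k‖ ^ 2 ≤
      ‖∫ θ in (0:ℝ)..1, ((W (θ + 1 / (4 * X)) - W θ : ℝ) : ℂ) * e (-(k * θ))‖ ^ 2 := by
    intro k hk
    rw [arcc_shift W hW hp, norm_mul, mul_pow]
    have hk' := (Finset.mem_filter.1 hk).2
    exact mul_le_mul_of_nonneg_right (arcc_sin k X hX hk'.1 hk'.2) (by positivity)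
  have h5 : 2 * ∑ k ∈ S', ‖c k‖ ^ 2 ≤ I := by
    rw [Finset.mul_sum]
    exact (Finset.sum_le_sum h4).trans h2
  -- the number of frequencies
  have h6 : (S'.card : ℝ) ≤ 2 * X := by
    have hsub : S' ⊆ Finset.Ico (X : ℤ) (2 * X) ∪ (Finset.Ico (X : ℤ) (2 * X)).image (fun k => -k) := by
      intro k hk
      have hk' := (Finset.mem_filter.1 hk).2
      rw [Finset.mem_union, Finset.mem_image]
      rcases abs_choice k with h | h
      · left
        rw [Finset.mem_Ico]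
        rw [h] at hk'
        exact hk'
      · right
        refine ⟨-k, ?_, neg_neg k⟩
        rw [Finset.mem_Ico]
        rw [h] at hk'
        exact hk'
    have h7 := (Finset.card_le_card hsub).trans (Finset.card_union_le _ _)
    have h8 := Finset.card_image_le (s := Finset.Ico (X : ℤ) (2 * X)) (f := fun k => -k)
    have h9 : (Finset.Ico (X : ℤ) (2 * X)).card = X := by
      rw [Int.card_Ico]
      omega
    have h10 : S'.card ≤ 2 * X := by omega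
    exact_mod_cast h10
  have h7 : (∑ k ∈ S', ‖c k‖) ^ 2 ≤ S'.card * ∑ k ∈ S', ‖c k‖ ^ 2 := sq_sum_le_card_mul_sum_sq
  have hI0 : 0 ≤ I := by
    have : 0 ≤ ∑ k ∈ S', ‖c k‖ ^ 2 := Finset.sum_nonneg (fun _ _ => by positivity)
    linarith
  have h8 : (∑ k ∈ S', ‖c k‖) ^ 2 ≤ X * I := by
    have h9 : (0 : ℝ) ≤ ∑ k ∈ S', ‖c k‖ ^ 2 := Finset.sum_nonneg (fun _ _ => by positivity)
    calc (∑ k ∈ S', ‖c k‖) ^ 2 ≤ S'.card * ∑ k ∈ S', ‖c k‖ ^ 2 := h7
      _ ≤ (2 * X) * ∑ k ∈ S', ‖c k‖ ^ 2 := mul_le_mul_of_nonneg_right h6 h9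
      _ = X * (2 * ∑ k ∈ S', ‖c k‖ ^ 2) := by ring
      _ ≤ X * I := mul_le_mul_of_nonneg_left h5 hX0.le
  calc ∑ k ∈ S', |∫ θ in (0:ℝ)..1, Real.cos (2 * Real.pi * k * θ) * W θ|
      ≤ ∑ k ∈ S', ‖c k‖ := Finset.sum_le_sum (fun k _ => h1 k)
    _ ≤ Real.sqrt (X * I) := Real.le_sqrt_of_sq_le h8
    _ = Real.sqrt X * Real.sqrt I := Real.sqrt_mul hX0.le _

end COSZ
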