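import Pool.Agent.COSZ.ArcB
import Pool.Agent.COSZ.ArcC

/-!
Module ARCD. `∫ |cs| min 1 (K d) = ∫ cs W = ∑_{a∈A} ∫ cos(2πaθ) W ≤ ∑_{a ∈ A} |∫ cos(2πaθ) W|`. Dyadic blocks
`X = 2^j`, `δ = 2^(-j-2)`, `ω(δ)² = ∫ (W(θ+δ) - W θ)²`; the block sum is at most `√X ω(δ) = ω(δ)/(2√δ)`.
If `δ ≥ 1/K`: `ω² ≤ 2M · 2δ · 4`, block `≤ 2√M`. If `δ < 1/K`: `ω² ≤ 2M (2/K) K² δ²`, block `≤ √M √(Kδ)`.
There are at most `log K / log 2` values of `j` of the first kind, and the others give a geometric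
series: `≤ √M /(1 - 1/√2) ≤ 3.42 √M`. The frequency zero gives at most 1 `≤ √M/√2` (as `M ≥ 2`). Total
`≤ √M (0.71 + 3.42 + 2.89 log K) ≤ 5 √M (1 + log K)`.
-/

open Finset MeasureTheory

noncomputable section

namespace COSZ

theorem arcD_split (A : Finset ℤ) (I : ℤ → ℝ) (hI : I 0 ≤ 1) (J : ℕ) :
    ∑ a ∈ A.filter (fun a => |a| < 2 ^ J), I a ≤ 1 + ∑ j ∈ range J,
      ∑ a ∈ A.filter (fun a => (((2 ^ j : ℕ)):ℤ) ≤ |a| ∧ |a| < 2 * ((2 ^ j : ℕ) : ℤ)), I a := by
  induction J with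
  | zero =>
    have h1 : A.filter (fun a => |a| < 2 ^ 0) ⊆ {0} := by
      intro a ha
      rw [Finset.mem_filter] at ha
      rw [Finset.mem_singleton]
      have := ha.2
      simp only [pow_zero] at this
      exact Int.abs_lt_one_iff.mp this
    rcases Finset.subset_singleton_iff.mp h1 with h | h
    · rw [h]; simp
    · rw [h]; simpa using hI
  | succ J ih =>
    rw [Finset.sum_range_succ, ← add_assoc]
    refine le_trans (le_of_eq ?_) (add_le_add_left ih _)
    rw [← Finset.sum_union]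
    · congr 1
      ext a
      simp only [Finset.mem_union, Finset.mem_filter]
      push_cast
      rw [pow_succ]
      constructor
      · rintro ⟨h1, h2⟩
        rcases lt_or_ge |a| (2 ^ J) with h | h
        · exact Or.inl ⟨h1, h⟩
        · exact Or.inr ⟨h1, h, by linarith⟩
      · rintro (⟨h1, h2⟩ | ⟨h1, h2, h3⟩)
        · refine ⟨h1, ?_⟩
          have : (0:ℤ) < 2 ^ J := by positivity
          linarith
        · exact ⟨h1, by linarith⟩
    · rw [Finset.disjoint_filter]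
      intro a _ h1 h2
      push_cast at h2
      linarith [h2.1]

theorem arcD_geom (L J : ℕ) : ∑ j ∈ range J, (if j < L then (2:ℝ) else (3 / 4) ^ (j - L + 1)) ≤ 2 * L + 3 := by
  have h : ∑ j ∈ range J, (if j < L then (2:ℝ) else (3 / 4) ^ (j - L + 1)) ≤
      2 * ((min J L : ℕ) : ℝ) + 3 * (1 - (3 / 4) ^ (J - L)) := by
    induction J with
    | zero => simp
    | succ J ih =>
      rw [Finset.sum_range_succ]
      by_cases hJ : J < L
      · have h1 : min J L = J := by omega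
        have h2 : min (J + 1) L = J + 1 := by omega
        have h3 : J - L = 0 := by omega
        have h4 : J + 1 - L = 0 := by omega
        rw [h1, h3] at ih
        rw [h2, h4, if_pos hJ]
        push_cast
        linarith
      · have h1 : min J L = L := by omega
        have h2 : min (J + 1) L = L := by omega
        have h4 : J + 1 - L = J - L + 1 := by omega
        rw [h1] at ih
        rw [h2, h4, if_neg hJ]
        rw [pow_succ]
        linarith
  refine h.trans ?_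
  have h1 : ((min J L : ℕ) : ℝ) ≤ L := by exact_mod_cast min_le_right J L
  have h2 : (0:ℝ) ≤ (3 / 4) ^ (J - L) := by positivity
  linarith

theorem arcD_block (A : Finset ℤ) (T : Finset ℝ) (hm : Marks A T) (K : ℕ) (hK : 1 ≤ K) (j : ℕ) :
    ∑ a ∈ A.filter (fun a => (((2 ^ j : ℕ)):ℤ) ≤ |a| ∧ |a| < 2 * ((2 ^ j : ℕ) : ℤ)),
      |∫ θ in (0:ℝ)..1, Real.cos (2 * Real.pi * a * θ) * Wf A T K θ| ≤
      Real.sqrt T.card * (if j < Nat.log 2 K then (2:ℝ) else (3 / 4) ^ (j - Nat.log 2 K + 1)) := by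
  have h1 := block (Wf A T K) (Wf_cont A T hm K) (Wf_period A T K) A (2 ^ j) Nat.one_le_two_pow
  refine h1.trans ?_
  set X : ℝ := ((2 ^ j : ℕ) : ℝ) with hX
  have hX0 : 0 < X := by rw [hX]; positivity
  set δ : ℝ := 1 / (4 * X) with hδ
  have hδ0 : 0 < δ := by positivity
  have hM := modulus A T hm K hK δ hδ0
  have hK0 : (0:ℝ) < K := by exact_mod_cast hK
  set M : ℝ := (T.card : ℝ) with hMdef
  have hM0 : 0 ≤ M := by positivity
  have hXδ : X * δ = 1 / 4 := by rw [hδ]; field_simp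
  -- general bound
  have key : ∀ c : ℝ, 0 ≤ c → X * (2 * M * (δ + 1 / K) * min 4 (K ^ 2 * δ ^ 2)) ≤ M * c ^ 2 →
      Real.sqrt X * Real.sqrt (∫ θ in (0:ℝ)..1, (Wf A T K (θ + δ) - Wf A T K θ) ^ 2) ≤ Real.sqrt M * c := by
    intro c hc h
    rw [← Real.sqrt_mul hX0.le]
    have h2 : Real.sqrt M * c = Real.sqrt (M * c ^ 2) := by
      rw [Real.sqrt_mul hM0, Real.sqrt_sq hc]
    rw [h2]
    apply Real.sqrt_le_sqrt
    refine le_trans ?_ h
    exact mul_le_mul_of_nonneg_left hM hX0.le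
  have hKl : (K:ℝ) < 2 ^ (Nat.log 2 K + 1) := by
    have := Nat.lt_pow_succ_log_self (b := 2) (by norm_num) K
    exact_mod_cast this
  split_ifs with hj
  · apply key 2 (by norm_num)
    by_cases hd : 1 / (K:ℝ) ≤ δ
    · calc X * (2 * M * (δ + 1 / K) * min 4 (K ^ 2 * δ ^ 2)) ≤ X * (2 * M * (δ + δ) * 4) := by
            gcongr
            exact min_le_left _ _
        _ = 16 * M * (X * δ) := by ring
        _ = M * 2 ^ 2 := by rw [hXδ]; ring
    · push Not at hd
      have hd' : K * δ < 1 := by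
        rw [lt_div_iff₀ hK0] at hd
        linarith
      calc X * (2 * M * (δ + 1 / K) * min 4 (K ^ 2 * δ ^ 2)) ≤
            X * (2 * M * (1 / K + 1 / K) * (K ^ 2 * δ ^ 2)) := by
            gcongr
            exact min_le_right _ _
        _ = 4 * M * (X * δ) * (K * δ) := by field_simp; ring
        _ ≤ 4 * M * (X * δ) * 1 := by
            gcongr
        _ ≤ M * 2 ^ 2 := by rw [hXδ]; linarith
  · apply key _ (by positivity)
    have hjl : Nat.log 2 K ≤ j := by omega
    have hKX : K * δ ≤ (1 / 2) ^ (j - Nat.log 2 K + 1) := by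
      have h5 : (2:ℝ) ^ (Nat.log 2 K + 1) * (2:ℝ) ^ (j - Nat.log 2 K + 1) = 4 * X := by
        rw [← pow_add, hX]
        push_cast
        have : Nat.log 2 K + 1 + (j - Nat.log 2 K + 1) = j + 2 := by omega
        rw [this, pow_add]
        ring
      rw [hδ, one_div_pow, ← h5]
      rw [mul_one_div, div_le_div_iff₀ (by positivity) (by positivity)]
      nlinarith [pow_pos (show (0:ℝ) < 2 by norm_num) (j - Nat.log 2 K + 1)]
    have hd' : K * δ < 1 := by
      refine lt_of_le_of_lt hKX ?_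
      exact pow_lt_one₀ (by norm_num) (by norm_num) (by omega)
    have hd : δ ≤ 1 / K := by
      rw [le_div_iff₀ hK0]
      linarith
    calc X * (2 * M * (δ + 1 / K) * min 4 (K ^ 2 * δ ^ 2)) ≤
          X * (2 * M * (1 / K + 1 / K) * (K ^ 2 * δ ^ 2)) := by
          gcongr
          exact min_le_right _ _
      _ = 4 * M * (X * δ) * (K * δ) := by field_simp; ring
      _ = M * (K * δ) := by rw [hXδ]; ring
      _ ≤ M * (1 / 2) ^ (j - Nat.log 2 K + 1) := by gcongr
      _ ≤ M * ((3 / 4) ^ (j - Nat.log 2 K + 1)) ^ 2 := by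
          rw [← pow_mul, mul_comm (j - Nat.log 2 K + 1) 2, pow_mul]
          gcongr
          norm_num

theorem arcs (A : Finset ℤ) (T : Finset ℝ) (hm : Marks A T) (K : ℕ) (hK : 1 ≤ K) :
    ∫ θ in (0:ℝ)..1, |cs A θ| * min 1 (K * Metric.infDist θ (T : Set ℝ)) ≤
      5 * Real.sqrt T.card * (1 + Real.log K) := by
  have hW := Wf_cont A T hm K
  have hK0 : (0:ℝ) < K := by exact_mod_cast hK
  set I : ℤ → ℝ := fun a => |∫ θ in (0:ℝ)..1, Real.cos (2 * Real.pi * a * θ) * Wf A T K θ| with hI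
  have h1 : ∫ θ in (0:ℝ)..1, |cs A θ| * min 1 (K * Metric.infDist θ (T : Set ℝ)) =
      ∫ θ in (0:ℝ)..1, cs A θ * Wf A T K θ := by
    apply intervalIntegral.integral_congr
    intro θ hθ
    rw [Set.uIcc_of_le zero_le_one] at hθ
    exact (Wf_mul A T hm K θ hθ.1 hθ.2).symm
  have h2 : ∫ θ in (0:ℝ)..1, cs A θ * Wf A T K θ ≤ ∑ a ∈ A, I a := by
    have h3 : (fun θ => cs A θ * Wf A T K θ) =
        fun θ => ∑ a ∈ A, Real.cos (2 * Real.pi * a * θ) * Wf A T K θ := by
      funext θ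
      rw [cs, Finset.sum_mul]
    rw [h3, intervalIntegral.integral_finsetSum]
    · exact Finset.sum_le_sum (fun a _ => le_abs_self _)
    · intro a _
      apply Continuous.intervalIntegrable
      fun_prop
  have hI0 : I 0 ≤ 1 := by
    simp only [hI]
    have h3 : ‖∫ θ in (0:ℝ)..1, Real.cos (2 * Real.pi * ((0:ℤ):ℝ) * θ) * Wf A T K θ‖ ≤ 1 * |(1:ℝ) - 0| := by
      apply intervalIntegral.norm_integral_le_of_norm_le_const
      intro θ _
      rw [norm_mul, Real.norm_eq_abs, Real.norm_eq_abs]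
      have := Wf_abs_le A T K θ
      have h4 := Real.abs_cos_le_one (2 * Real.pi * ((0:ℤ):ℝ) * θ)
      calc _ ≤ 1 * 1 := mul_le_mul h4 this (abs_nonneg _) (by norm_num)
        _ = 1 := by norm_num
    simpa using h3
  obtain ⟨J, hJ⟩ : ∃ J : ℕ, ∀ a ∈ A, |a| < 2 ^ J := by
    refine ⟨A.sup Int.natAbs, fun a ha => ?_⟩
    have h4 : a.natAbs ≤ A.sup Int.natAbs := Finset.le_sup (f := Int.natAbs) ha
    have h5 : a.natAbs < 2 ^ (A.sup Int.natAbs) := lt_of_le_of_lt h4 Nat.lt_two_pow_self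
    rw [Int.abs_eq_natAbs]
    exact_mod_cast h5
  have h3 : ∑ a ∈ A, I a ≤ 1 + ∑ j ∈ range J,
      ∑ a ∈ A.filter (fun a => (((2 ^ j : ℕ)):ℤ) ≤ |a| ∧ |a| < 2 * ((2 ^ j : ℕ) : ℤ)), I a := by
    have := arcD_split A I hI0 J
    rwa [Finset.filter_true_of_mem hJ] at this
  have h4 : ∑ j ∈ range J,
      ∑ a ∈ A.filter (fun a => (((2 ^ j : ℕ)):ℤ) ≤ |a| ∧ |a| < 2 * ((2 ^ j : ℕ) : ℤ)), I a ≤
      Real.sqrt T.card * (2 * Nat.log 2 K + 3) := by
    refine (Finset.sum_le_sum (fun j _ => arcD_block A T hm K hK j)).trans ?_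
    rw [← Finset.mul_sum]
    exact mul_le_mul_of_nonneg_left (arcD_geom _ _) (Real.sqrt_nonneg _)
  have h5 : (1:ℝ) ≤ Real.sqrt T.card := by
    rw [Real.one_le_sqrt]
    have : 0 < T.card := Finset.card_pos.mpr ⟨0, hm.zero_mem⟩
    exact_mod_cast this
  have h6 : 0 ≤ Real.log K := Real.log_nonneg (by exact_mod_cast hK)
  have h7 : (2:ℝ) * Nat.log 2 K ≤ 3 * Real.log K := by
    have h8 : (2:ℝ) ^ (Nat.log 2 K) ≤ K := by
      have := Nat.pow_log_le_self 2 (show K ≠ 0 by omega)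
      exact_mod_cast this
    have h9 : (Nat.log 2 K : ℝ) * Real.log 2 ≤ Real.log K := by
      rw [← Real.log_pow]
      exact Real.log_le_log (by positivity) h8
    have h10 := Real.log_two_gt_d9
    have h11 : (0:ℝ) ≤ Nat.log 2 K := by positivity
    nlinarith
  rw [h1]
  calc _ ≤ 1 + Real.sqrt T.card * (2 * Nat.log 2 K + 3) := by linarith
    _ ≤ Real.sqrt T.card * 1 + Real.sqrt T.card * (3 * Real.log K + 3) := by
        gcongr
        linarith
    _ ≤ 5 * Real.sqrt T.card * (1 + Real.log K) := by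
        nlinarith

end COSZ
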