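import Pool.Agent.COSZ.Defs

/-!
Module BASB. Elementary facts on the distance to the nearest integer (`UnitAddCircle.norm_eq`).
-/

open Finset MeasureTheory

noncomputable section

namespace COSZ

theorem basB_dec (x : ℝ) :
    |Real.sin (Real.pi * x)| = |Real.sin (Real.pi * (x - round x))| := by
  have h : Real.pi * (x - round x) = Real.pi * x - (round x : ℤ) * Real.pi := by ring
  rw [h, Real.sin_sub_int_mul_pi, abs_mul, abs_zpow]
  simp

theorem dn_eq (x : ℝ) : dn x = |x - round x| := by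
  exact UnitAddCircle.norm_eq
theorem dn_nonneg (x : ℝ) : 0 ≤ dn x := by
  exact norm_nonneg _
theorem dn_le_half (x : ℝ) : dn x ≤ 1 / 2 := by
  rw [dn_eq]
  exact abs_sub_round x
theorem dn_cont : Continuous dn := by
  unfold dn
  exact (AddCircle.continuous_mk' 1).norm
theorem dn_add_int (x : ℝ) (m : ℤ) : dn (x + m) = dn x := by
  rw [dn_eq, dn_eq, round_add_intCast]
  congr 1
  push_cast
  ring
theorem dn_neg (x : ℝ) : dn (-x) = dn x := by
  unfold dn
  rw [AddCircle.coe_neg, norm_neg]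
theorem dn_le_abs (x : ℝ) : dn x ≤ |x| := by
  rw [dn_eq]
  have := round_le x 0
  simpa using this
theorem dn_eq_abs (x : ℝ) (h : |x| ≤ 1 / 2) : dn x = |x| := by
  apply le_antisymm (dn_le_abs x)
  rw [dn_eq]
  rcases eq_or_ne (round x) 0 with h0 | h0
  · rw [h0]
    simp
  · have h1 : (1 : ℝ) ≤ |((round x : ℤ) : ℝ)| := by
      exact_mod_cast Int.one_le_abs h0
    have h2 : |((round x : ℤ) : ℝ)| ≤ |x - round x| + |x| := by
      have := abs_sub_abs_le_abs_sub ((round x : ℤ) : ℝ) x
      rw [abs_sub_comm] at this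
      linarith
    linarith
/-- `2 dn x ≤ |sin (π x)| ≤ π dn x` -/
theorem two_dn_le (x : ℝ) : 2 * dn x ≤ |Real.sin (Real.pi * x)| := by
  rw [dn_eq, basB_dec]
  set y := x - round x with hy
  have hy2 : |y| ≤ 1 / 2 := abs_sub_round x
  have hpi := Real.pi_pos
  have h1 : |Real.sin (Real.pi * y)| = Real.sin (Real.pi * |y|) := by
    have h2 : 0 ≤ Real.sin (Real.pi * |y|) := by
      apply Real.sin_nonneg_of_nonneg_of_le_pi (by positivity)
      nlinarith
    rcases abs_cases y with h | h
    · rw [h.1] at h2 ⊢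
      exact abs_of_nonneg h2
    · rw [h.1] at h2 ⊢
      rw [mul_neg, Real.sin_neg] at h2 ⊢
      rw [← abs_neg, abs_of_nonneg h2]
  rw [h1]
  have h3 := Real.mul_le_sin (x := Real.pi * |y|) (by positivity) (by nlinarith)
  have h4 : 2 / Real.pi * (Real.pi * |y|) = 2 * |y| := by
    field_simp
  linarith
theorem sin_le_dn (x : ℝ) : |Real.sin (Real.pi * x)| ≤ Real.pi * dn x := by
  rw [dn_eq, basB_dec]
  have h1 := Real.abs_sin_le_abs (x := Real.pi * (x - round x))
  rw [abs_mul, abs_of_pos Real.pi_pos] at h1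
  exact h1
/-- for integers `l`: `dn (l x) ≤ |l| dn x` -/
theorem dn_mul_le (l : ℤ) (x : ℝ) : dn (l * x) ≤ |(l:ℝ)| * dn x := by
  have h1 : dn (l * x) = dn (l * (x - round x)) := by
    have h2 : (l : ℝ) * x = l * (x - round x) + ((l * round x : ℤ) : ℝ) := by
      push_cast
      ring
    rw [h2, dn_add_int]
  rw [h1, dn_eq x, ← abs_mul]
  exact dn_le_abs _
theorem dn_sub_le (x y : ℝ) : dn x ≤ dn y + |x - y| := by
  have h1 : dn x ≤ dn y + dn (x - y) := by
    unfold dn
    have h2 : (x : UnitAddCircle) = (y : UnitAddCircle) + ((x - y : ℝ) : UnitAddCircle) := by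
      rw [← AddCircle.coe_add]
      congr 1
      ring
    rw [h2]
    exact norm_add_le _ _
  exact h1.trans (add_le_add_right (dn_le_abs _) _)
/-- the set of `θ ∈ [0,1]` near `t` modulo one is small -/
theorem volume_near (t r : ℝ) (hr : 0 ≤ r) :
    volume {θ : ℝ | 0 ≤ θ ∧ θ ≤ 1 ∧ dn (θ - t) < r} ≤ ENNReal.ofReal (2 * r) := by
  have hsub : {θ : ℝ | 0 ≤ θ ∧ θ ≤ 1 ∧ dn (θ - t) < r} ⊆ {0} ∪
      (((↑) : ℝ → UnitAddCircle) ⁻¹' (Metric.closedBall (t : UnitAddCircle) r) ∩ Set.Ioc 0 1) := by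
    rintro θ ⟨h0, h1, h2⟩
    rcases h0.eq_or_lt with h3 | h3
    · left
      exact h3.symm
    · right
      refine ⟨?_, h3, h1⟩
      rw [Set.mem_preimage, Metric.mem_closedBall, dist_eq_norm, ← AddCircle.coe_sub]
      exact h2.le
  have hmp := UnitAddCircle.measurePreserving_mk 0
  rw [zero_add] at hmp
  have hm := hmp.measure_preimage (s := Metric.closedBall (t : UnitAddCircle) r)
    Metric.isClosed_closedBall.measurableSet.nullMeasurableSet
  rw [Measure.restrict_apply
    (hmp.measurable Metric.isClosed_closedBall.measurableSet)] at hm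
  have hv : volume (Metric.closedBall (t : UnitAddCircle) r) = ENNReal.ofReal (min 1 (2 * r)) :=
    AddCircle.volume_closedBall (T := 1) r
  refine (measure_mono hsub).trans ((measure_union_le _ _).trans ?_)
  rw [Real.volume_singleton, zero_add, hm, hv]
  exact ENNReal.ofReal_le_ofReal (min_le_right _ _)

end COSZ
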