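import Pool.Agent.COSZ.BasA

/-!
Module BASC. Elementary facts on the cosine sum and its coefficients.
`sum_sp`: both sides are `∑_{k ∈ A ∪ -A} (1_A k + 1_A (-k))/2 g k` (the left side is half the sum over `A` plus
half the sum over `-A`). `cs_eq`, `cs_eq_complex` follow (`cos` is even; `cos x = (e^{ix} + e^{-ix})/2`).
-/

open Finset MeasureTheory

noncomputable section

namespace COSZ

theorem basC_sum (A : Finset ℤ) (g : ℤ → ℝ) :
    ∑ a ∈ A, (g a + g (-a)) / 2 = ∑ j ∈ sp A, fh A j * g j := by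
  have h1 : ∑ j ∈ sp A, (if j ∈ A then (1 : ℝ) else 0) * g j = ∑ a ∈ A, g a := by
    have hs : A ⊆ sp A := subset_union_left
    rw [← sum_subset hs (f := fun j => (if j ∈ A then (1 : ℝ) else 0) * g j)]
    · apply sum_congr rfl
      intro a ha
      rw [if_pos ha, one_mul]
    · intro j _ hj
      rw [if_neg hj, zero_mul]
  have h2 : ∑ j ∈ sp A, (if -j ∈ A then (1 : ℝ) else 0) * g j = ∑ a ∈ A, g (-a) := by
    have hs : A.image (fun a => -a) ⊆ sp A := subset_union_right
    rw [← sum_subset hs (f := fun j => (if -j ∈ A then (1 : ℝ) else 0) * g j)]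
    · rw [sum_image (fun a _ b _ hab => neg_injective hab)]
      apply sum_congr rfl
      intro a ha
      rw [neg_neg, if_pos ha, one_mul]
    · intro j _ hj
      rw [if_neg, zero_mul]
      intro h
      exact hj (mem_image.2 ⟨-j, h, neg_neg j⟩)
  rw [← sum_div, sum_add_distrib, ← h1, ← h2, ← sum_add_distrib, sum_div]
  apply sum_congr rfl
  intro j _
  unfold fh
  ring

theorem cs_cont (A : Finset ℤ) : Continuous (cs A) := by
  unfold cs
  fun_prop
theorem cs_neg (A : Finset ℤ) (θ : ℝ) : cs A (-θ) = cs A θ := by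
  unfold cs
  apply sum_congr rfl
  intro a _
  rw [mul_neg, Real.cos_neg]
theorem cs_add_int (A : Finset ℤ) (θ : ℝ) (m : ℤ) : cs A (θ + m) = cs A θ := by
  unfold cs
  apply sum_congr rfl
  intro a _
  rw [show 2 * Real.pi * (a : ℝ) * (θ + m) = 2 * Real.pi * a * θ + ((a * m : ℤ) : ℝ) *
    (2 * Real.pi) by push_cast; ring]
  exact Real.cos_add_int_mul_two_pi _ _
theorem cs_one_sub (A : Finset ℤ) (θ : ℝ) : cs A (1 - θ) = cs A θ := by
  have h1 := cs_add_int A (-θ) 1
  rw [cs_neg] at h1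
  rw [← h1]
  congr 1
  push_cast
  ring
theorem cs_zero (A : Finset ℤ) : cs A 0 = A.card := by
  unfold cs
  simp
theorem cs_abs_le (A : Finset ℤ) (θ : ℝ) : |cs A θ| ≤ A.card := by
  unfold cs
  refine (abs_sum_le_sum_abs _ _).trans ?_
  refine (sum_le_sum (fun a _ => Real.abs_cos_le_one _)).trans ?_
  simp
theorem nrm_nonneg (A : Finset ℤ) : 0 ≤ nrm A := by
  unfold nrm
  exact intervalIntegral.integral_nonneg (by norm_num) (fun θ _ => abs_nonneg _)

theorem fh_neg (A : Finset ℤ) (k : ℤ) : fh A (-k) = fh A k := by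
  unfold fh
  rw [neg_neg, add_comm]
theorem fh_nonneg (A : Finset ℤ) (k : ℤ) : 0 ≤ fh A k := by
  unfold fh
  split_ifs <;> norm_num
theorem fh_le_one (A : Finset ℤ) (k : ℤ) : fh A k ≤ 1 := by
  unfold fh
  split_ifs <;> norm_num
/-- the values of `fh` are 0, 1/2, 1 -/
theorem fh_half (A : Finset ℤ) (k : ℤ) (h : fh A k ≠ 0) : 1 / 2 ≤ fh A k := by
  unfold fh at h ⊢
  split_ifs at h ⊢ <;> first | (norm_num; done) | norm_num at h
theorem fh_diff (A : Finset ℤ) (k l : ℤ) (h : fh A k ≠ fh A l) : 1 / 2 ≤ |fh A k - fh A l| := by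
  unfold fh at h ⊢
  split_ifs at h ⊢ <;> first | (norm_num; done) | norm_num at h
theorem mem_sp (A : Finset ℤ) (k : ℤ) : k ∈ sp A ↔ fh A k ≠ 0 := by
  unfold sp fh
  rw [mem_union, mem_image]
  have h1 : (∃ a ∈ A, -a = k) ↔ -k ∈ A := by
    constructor
    · rintro ⟨a, ha, rfl⟩
      rwa [neg_neg]
    · intro h
      exact ⟨-k, h, neg_neg k⟩
  rw [h1]
  split_ifs with h2 h3 h3 <;> simp [h2, h3]
theorem card_le_sp (A : Finset ℤ) : A.card ≤ (sp A).card := by
  exact card_le_card subset_union_left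
theorem mem_brk (A : Finset ℤ) (h : ℕ) (k : ℤ) : k ∈ brk A h ↔ fh A k ≠ fh A (k - h) := by
  unfold brk
  rw [mem_filter, and_iff_right_iff_imp]
  intro hne
  rw [mem_union]
  by_cases h0 : fh A k = 0
  · right
    refine mem_image.2 ⟨k - h, ?_, by ring⟩
    rw [mem_sp]
    intro h1
    exact hne (h0.trans h1.symm)
  · left
    exact (mem_sp A k).2 h0
theorem sum_sp (A : Finset ℤ) (g : ℤ → ℝ) : ∑ a ∈ A, (g a + g (-a)) / 2 = ∑ j ∈ sp A, fh A j * g j := by
  exact basC_sum A g
theorem cs_eq (A : Finset ℤ) (θ : ℝ) :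
    cs A θ = ∑ j ∈ sp A, fh A j * Real.cos (2 * Real.pi * j * θ) := by
  rw [← sum_sp A (fun j => Real.cos (2 * Real.pi * j * θ))]
  unfold cs
  apply sum_congr rfl
  intro a _
  have : Real.cos (2 * Real.pi * ((-a : ℤ) : ℝ) * θ) = Real.cos (2 * Real.pi * a * θ) := by
    rw [← Real.cos_neg]
    congr 1
    push_cast
    ring
  rw [this]
  ring
theorem cs_eq_complex (A : Finset ℤ) (θ : ℝ) :
    ((cs A θ : ℝ) : ℂ) = ∑ j ∈ sp A, (fh A j : ℂ) * e (j * θ) := by
  apply Complex.ext
  · rw [Complex.ofReal_re, Complex.re_sum, cs_eq]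
    apply sum_congr rfl
    intro j _
    rw [Complex.re_ofReal_mul, e_re]
    congr 2
    ring
  · rw [Complex.ofReal_im, Complex.im_sum]
    have h1 := sum_sp A (fun j => Real.sin (2 * Real.pi * (j * θ)))
    have h2 : ∑ a ∈ A, (Real.sin (2 * Real.pi * ((a : ℝ) * θ)) +
        Real.sin (2 * Real.pi * (((-a : ℤ) : ℝ) * θ))) / 2 = 0 := by
      apply sum_eq_zero
      intro a _
      have : Real.sin (2 * Real.pi * (((-a : ℤ) : ℝ) * θ)) = -Real.sin (2 * Real.pi * (a * θ)) := by
        rw [← Real.sin_neg]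
        congr 1
        push_cast
        ring
      rw [this]
      ring
    rw [h2] at h1
    rw [h1]
    apply sum_congr rfl
    intro j _
    rw [Complex.im_ofReal_mul, e_im]

end COSZ
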