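import Pool.Agent.COSZ.Defs

/-!
Module BASA. Elementary facts on `e`.
-/

open Finset MeasureTheory

noncomputable section

namespace COSZ

theorem basA_re (x : ℝ) : (e x).re = Real.cos (2 * Real.pi * x) := by
  unfold e
  rw [show (2 * (Real.pi : ℂ) * (x : ℂ) * Complex.I) = ((2 * Real.pi * x : ℝ) : ℂ) * Complex.I by
    push_cast; ring]
  exact Complex.exp_ofReal_mul_I_re _

theorem basA_im (x : ℝ) : (e x).im = Real.sin (2 * Real.pi * x) := by
  unfold e
  rw [show (2 * (Real.pi : ℂ) * (x : ℂ) * Complex.I) = ((2 * Real.pi * x : ℝ) : ℂ) * Complex.I by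
    push_cast; ring]
  exact Complex.exp_ofReal_mul_I_im _

theorem basA_sub_one (x : ℝ) : ‖e x - 1‖ = 2 * |Real.sin (Real.pi * x)| := by
  have h0 : 0 ≤ 2 * |Real.sin (Real.pi * x)| := by positivity
  rw [← abs_of_nonneg (norm_nonneg (e x - 1)), ← abs_of_nonneg h0, ← sq_eq_sq_iff_abs_eq_abs,
    ← Complex.normSq_eq_norm_sq, Complex.normSq_apply, Complex.sub_re, Complex.sub_im,
    Complex.one_re, Complex.one_im, basA_re, basA_im, mul_pow, sq_abs]
  have h1 : 2 * Real.pi * x = 2 * (Real.pi * x) := by ring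
  rw [h1, Real.cos_two_mul, Real.sin_two_mul]
  have h2 := Real.sin_sq_add_cos_sq (Real.pi * x)
  have h3 : Real.cos (Real.pi * x) ^ 2 = 1 - Real.sin (Real.pi * x) ^ 2 := by linarith
  nlinarith [h2, h3]

theorem e_add (x y : ℝ) : e (x + y) = e x * e y := by
  unfold e
  rw [← Complex.exp_add]
  congr 1
  push_cast
  ring
theorem e_zero : e 0 = 1 := by
  unfold e
  simp
theorem e_int (m : ℤ) : e m = 1 := by
  unfold e
  rw [show (2 * (Real.pi : ℂ) * ((m : ℝ) : ℂ) * Complex.I) = m * (2 * Real.pi * Complex.I) by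
    push_cast; ring]
  exact Complex.exp_int_mul_two_pi_mul_I m
theorem e_neg (x : ℝ) : e (-x) = (starRingEnd ℂ) (e x) := by
  unfold e
  rw [← Complex.exp_conj]
  congr 1
  simp only [map_mul, Complex.conj_I, Complex.conj_ofReal, Complex.ofReal_neg, map_ofNat]
  ring
theorem norm_e (x : ℝ) : ‖e x‖ = 1 := by
  unfold e
  rw [show (2 * (Real.pi : ℂ) * (x : ℂ) * Complex.I) = ((2 * Real.pi * x : ℝ) : ℂ) * Complex.I by
    push_cast; ring]
  exact Complex.norm_exp_ofReal_mul_I _
theorem e_cont : Continuous e := by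
  unfold e
  fun_prop
theorem e_re (x : ℝ) : (e x).re = Real.cos (2 * Real.pi * x) := by
  unfold e
  rw [show (2 * (Real.pi : ℂ) * (x : ℂ) * Complex.I) = ((2 * Real.pi * x : ℝ) : ℂ) * Complex.I by
    push_cast; ring]
  exact Complex.exp_ofReal_mul_I_re _
theorem e_im (x : ℝ) : (e x).im = Real.sin (2 * Real.pi * x) := by
  unfold e
  rw [show (2 * (Real.pi : ℂ) * (x : ℂ) * Complex.I) = ((2 * Real.pi * x : ℝ) : ℂ) * Complex.I by
    push_cast; ring]
  exact Complex.exp_ofReal_mul_I_im _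
/-- `|e x - 1| = 2 |sin (π x)|` -/
theorem norm_e_sub_one (x : ℝ) : ‖e x - 1‖ = 2 * |Real.sin (Real.pi * x)| := by
  exact basA_sub_one x
theorem norm_e_sub (x y : ℝ) : ‖e x - e y‖ = 2 * |Real.sin (Real.pi * (x - y))| := by
  have h1 : e x - e y = e y * (e (x - y) - 1) := by
    have : e x = e y * e (x - y) := by
      rw [← e_add]
      congr 1
      ring
    rw [this]
    ring
  rw [h1, norm_mul, norm_e, one_mul, norm_e_sub_one]
theorem int_e (m : ℤ) : ∫ θ in (0:ℝ)..1, e (m * θ) = if m = 0 then 1 else 0 := by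
  by_cases hm : m = 0
  · rw [if_pos hm]
    subst hm
    simp [e_zero]
  · rw [if_neg hm]
    have hc : (2 * (Real.pi : ℂ) * (m : ℂ) * Complex.I) ≠ 0 := by
      have h1 : (Real.pi : ℂ) ≠ 0 := by exact_mod_cast Real.pi_ne_zero
      have h2 : (m : ℂ) ≠ 0 := by exact_mod_cast hm
      exact mul_ne_zero (mul_ne_zero (mul_ne_zero two_ne_zero h1) h2) Complex.I_ne_zero
    have h3 := integral_exp_mul_complex (a := 0) (b := 1) hc
    have h4 : ∀ θ : ℝ, e (m * θ) = Complex.exp (2 * (Real.pi : ℂ) * (m : ℂ) * Complex.I * θ) := by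
      intro θ
      unfold e
      congr 1
      push_cast
      ring
    simp_rw [h4]
    rw [h3]
    have h5 : Complex.exp (2 * (Real.pi : ℂ) * (m : ℂ) * Complex.I * ((1 : ℝ) : ℂ)) = 1 := by
      rw [show (2 * (Real.pi : ℂ) * (m : ℂ) * Complex.I * ((1 : ℝ) : ℂ)) =
        m * (2 * Real.pi * Complex.I) by push_cast; ring]
      exact Complex.exp_int_mul_two_pi_mul_I m
    rw [h5]
    simp

end COSZ
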