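import Pool.Agent.COSZ.MpsE

/-!
Module MPSF. The McGehee-Pigno-Smith inequality. Let `N = |S|`, `J ≥ 1` maximal with
`1 + 4 + ... + 4^{J-1} ≤ N`, i.e. `4^J - 1 ≤ 3N < 4^{J+1} - 1`. Cut the smallest elements of `S` in
blocks `S_0 < ... < S_{J-1}` of `4^j` elements (use an increasing enumeration,
`Finset.orderEmbOfFin`). Take `u_k = c_k/|c_k|` (any unimodular number outside `S`) and `G` from `test_fun`.
With `F = ∑ c_k e(kθ)`: `∫ conj(F) G = ∑_{k∈S} conj(c_k) ∫ G e(-kθ)`; its real part is at least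
`∑_l ∑_{n∈S_l} (|c_n| 4^{-l} - |c_n| 4^{-l}/2) ≥ J/2`, and it is at most `9 ∫ |F|`. So `J ≤ 18 ∫|F|`, and
`N < 4^{J+1}/3` gives `log N ≤ J log 4 + log(4/3) ≤ 1.68 J ≤ 31 ∫ |F|`.
-/

open Finset MeasureTheory

noncomputable section

namespace COSZ

/-- sizes of the initial segments -/
def mpsF_s (j : ℕ) : ℕ := ∑ i ∈ range j, 4 ^ i

theorem mpsF_s_succ (j : ℕ) : mpsF_s (j + 1) = mpsF_s j + 4 ^ j := Finset.sum_range_succ _ _

theorem mpsF_s_mono : Monotone mpsF_s := monotone_nat_of_le_succ (fun j => by rw [mpsF_s_succ]; exact Nat.le_add_right _ _)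

theorem mpsF_s_eq (j : ℕ) : 3 * mpsF_s j + 1 = 4 ^ j := by
  induction j with
  | zero => simp [mpsF_s]
  | succ j ih =>
    rw [mpsF_s_succ, pow_succ]
    omega

/-- cutting the set in blocks -/
theorem mpsF_blocks (S : Finset ℤ) (J : ℕ) (hJ : mpsF_s J ≤ S.card) : ∃ B : ℕ → Finset ℤ,
    (∀ j < J, (B j).card = 4 ^ j) ∧ (∀ j < J, B j ⊆ S) ∧
    (∀ i j, i < j → j < J → ∀ x ∈ B i, ∀ y ∈ B j, x < y) ∧
    (∀ n ∈ S, (∃ l < J, n ∈ B l) ∨ ∀ j < J, ∀ x ∈ B j, x < n) := by
  classical
  let g : ℕ → ℤ := fun i => if h : i < S.card then S.orderEmbOfFin rfl ⟨i, h⟩ else 0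
  have hg : ∀ i j, i < j → j < S.card → g i < g j := by
    intro i j hij hj
    have hi : i < S.card := by omega
    simp only [g, dif_pos hi, dif_pos hj]
    exact (S.orderEmbOfFin rfl).strictMono hij
  have hgm : ∀ i < S.card, g i ∈ S := by
    intro i hi
    simp only [g, dif_pos hi]
    exact S.orderEmbOfFin_mem rfl _
  have hgs : ∀ n ∈ S, ∃ i < S.card, g i = n := by
    intro n hn
    have : n ∈ Set.range (S.orderEmbOfFin rfl) := by
      rw [Finset.range_orderEmbOfFin]; exact hn
    obtain ⟨⟨i, hi⟩, h⟩ := this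
    exact ⟨i, hi, by simp only [g, dif_pos hi]; exact h⟩
  have hle : ∀ j < J, mpsF_s (j + 1) ≤ S.card := fun j hj => (mpsF_s_mono hj).trans hJ
  refine ⟨fun j => (Ico (mpsF_s j) (mpsF_s (j + 1))).image g, ?_, ?_, ?_, ?_⟩
  · intro j hj
    rw [Finset.card_image_of_injOn, Nat.card_Ico, mpsF_s_succ]
    · exact Nat.add_sub_cancel_left _ _
    · intro a ha b hb hab
      rw [Finset.mem_coe, Finset.mem_Ico] at ha hb
      have h1 := hle j hj
      rcases lt_trichotomy a b with h | h | h
      · exact absurd hab (hg a b h (by omega)).ne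
      · exact h
      · exact absurd hab.symm (hg b a h (by omega)).ne
  · intro j hj x hx
    rw [Finset.mem_image] at hx
    obtain ⟨i, hi, rfl⟩ := hx
    rw [Finset.mem_Ico] at hi
    have h1 := hle j hj
    exact hgm i (by omega)
  · intro i j hij hj x hx y hy
    rw [Finset.mem_image] at hx hy
    obtain ⟨a, ha, rfl⟩ := hx
    obtain ⟨b, hb, rfl⟩ := hy
    rw [Finset.mem_Ico] at ha hb
    have h1 := hle j hj
    have h2 : mpsF_s (i + 1) ≤ mpsF_s j := mpsF_s_mono hij
    exact hg a b (by omega) (by omega)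
  · intro n hn
    obtain ⟨i, hi, rfl⟩ := hgs n hn
    by_cases h : i < mpsF_s J
    · left
      have hex : ∃ l, i < mpsF_s (l + 1) := by
        refine ⟨J, lt_of_lt_of_le h (mpsF_s_mono (Nat.le_succ J))⟩
      have hl := Nat.find_spec hex
      have hm := fun m => Nat.find_min hex (m := m)
      set l := Nat.find hex
      have hlJ : l < J := by
        by_contra hc
        have hJ1 : 0 < J := by
          rcases Nat.eq_zero_or_pos J with h0 | h0
          · subst h0; simp [mpsF_s] at h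
          · exact h0
        have := hm (J - 1) (by omega)
        have h3 : J - 1 + 1 = J := by omega
        rw [h3] at this
        exact this h
      refine ⟨l, hlJ, ?_⟩
      rw [Finset.mem_image]
      refine ⟨i, ?_, rfl⟩
      rw [Finset.mem_Ico]
      refine ⟨?_, hl⟩
      rcases Nat.eq_zero_or_pos l with h0 | h0
      · rw [h0]; simp [mpsF_s]
      · have := hm (l - 1) (by omega)
        have h3 : l - 1 + 1 = l := by omega
        rw [h3] at this
        omega
    · right
      intro j hj x hx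
      rw [Finset.mem_image] at hx
      obtain ⟨a, ha, rfl⟩ := hx
      rw [Finset.mem_Ico] at ha
      have h2 : mpsF_s (j + 1) ≤ mpsF_s J := mpsF_s_mono hj
      exact hg a i (by omega) hi

theorem mps (S : Finset ℤ) (hS : S.Nonempty) (c : ℤ → ℂ) (hc : ∀ k ∈ S, 1 ≤ ‖c k‖) :
    Real.log S.card ≤ 31 * ∫ θ in (0:ℝ)..1, ‖∑ k ∈ S, c k * e (k * θ)‖ := by
  classical
  have hN : 1 ≤ S.card := Finset.card_pos.mpr hS
  set J := Nat.log 4 (3 * S.card + 1) with hJdef
  have hJ1 : 1 ≤ J := by
    rw [hJdef]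
    apply Nat.log_pos (by norm_num)
    omega
  have hJle : mpsF_s J ≤ S.card := by
    have h1 := Nat.pow_log_le_self 4 (show 3 * S.card + 1 ≠ 0 by omega)
    rw [← hJdef, ← mpsF_s_eq] at h1
    omega
  have hJlt : 3 * S.card + 1 < 4 ^ (J + 1) := Nat.lt_pow_succ_log_self (by norm_num) _
  obtain ⟨B, hB1, hB2, hB3, hB4⟩ := mpsF_blocks S J hJle
  set u : ℤ → ℂ := fun k => if c k = 0 then 1 else c k / ‖c k‖ with hu
  have hu1 : ∀ k, ‖u k‖ = 1 := by
    intro k
    simp only [hu]
    split_ifs with h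
    · simp
    · rw [norm_div]
      simp [h]
  obtain ⟨G, hGc, hG9, hGl, hG0⟩ := test_fun J B hB1 hB3 u hu1
  have hcu : ∀ k ∈ S, (starRingEnd ℂ) (c k) * u k = ‖c k‖ := by
    intro k hk
    have h1 : c k ≠ 0 := by
      intro h
      have := hc k hk
      rw [h] at this
      norm_num at this
    have h2 : (‖c k‖ : ℂ) ≠ 0 := by
      simpa using h1
    simp only [hu, if_neg h1]
    rw [← mul_div_assoc, mul_comm, Complex.mul_conj, Complex.normSq_eq_norm_sq]
    push_cast
    field_simp
  set F : ℝ → ℂ := fun θ => ∑ k ∈ S, c k * e (k * θ) with hF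
  have hFc : Continuous F := by
    refine continuous_finsetSum _ (fun k _ => continuous_const.mul (e_cont.comp (by fun_prop)))
  set I : ℤ → ℂ := fun n => ∫ θ in (0:ℝ)..1, G θ * e (-(n * θ)) with hI
  have h1 : ∫ θ in (0:ℝ)..1, (starRingEnd ℂ) (F θ) * G θ = ∑ k ∈ S, (starRingEnd ℂ) (c k) * I k := by
    have h2 : (fun θ => (starRingEnd ℂ) (F θ) * G θ) =
        fun θ => ∑ k ∈ S, (starRingEnd ℂ) (c k) * (G θ * e (-(k * θ))) := by
      funext θ
      simp only [hF]
      rw [map_sum, Finset.sum_mul]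
      refine Finset.sum_congr rfl (fun k _ => ?_)
      rw [map_mul, e_neg]
      ring
    rw [h2, intervalIntegral.integral_finsetSum]
    · refine Finset.sum_congr rfl (fun k _ => ?_)
      rw [intervalIntegral.integral_const_mul]
    · intro k _
      apply Continuous.intervalIntegrable
      exact continuous_const.mul (hGc.mul (e_cont.comp (by fun_prop)))
  have hup : ‖∫ θ in (0:ℝ)..1, (starRingEnd ℂ) (F θ) * G θ‖ ≤ 9 * ∫ θ in (0:ℝ)..1, ‖F θ‖ := by
    rw [← intervalIntegral.integral_const_mul]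
    refine (intervalIntegral.norm_integral_le_integral_norm zero_le_one).trans ?_
    apply intervalIntegral.integral_mono_on zero_le_one
    · apply Continuous.intervalIntegrable
      exact (((Complex.continuous_conj.comp hFc).mul hGc)).norm
    · exact (continuous_const.mul hFc.norm).intervalIntegrable _ _
    · intro θ _
      rw [norm_mul, Complex.norm_conj, mul_comm]
      exact mul_le_mul_of_nonneg_right (hG9 θ) (norm_nonneg _)
  have hterm : ∀ l < J, ∀ k ∈ B l, 1 / (2 * 4 ^ l) ≤ ((starRingEnd ℂ) (c k) * I k).re := by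
    intro l hl k hk
    have hkS := hB2 l hl hk
    have h3 := hGl l hl k hk
    have h4 : (starRingEnd ℂ) (c k) * I k = ((‖c k‖ / 4 ^ l : ℝ) : ℂ) +
        (starRingEnd ℂ) (c k) * (I k - u k / 4 ^ l) := by
      push_cast
      rw [← hcu k hkS]
      ring
    rw [h4, Complex.add_re, Complex.ofReal_re]
    have h5 : ‖(starRingEnd ℂ) (c k) * (I k - u k / 4 ^ l)‖ ≤ ‖c k‖ * (1 / (2 * 4 ^ l)) := by
      rw [norm_mul, Complex.norm_conj]
      exact mul_le_mul_of_nonneg_left h3 (norm_nonneg _)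
    have h6 := (abs_le.mp (Complex.abs_re_le_norm ((starRingEnd ℂ) (c k) * (I k - u k / 4 ^ l)))).1
    have h7 := hc k hkS
    have h8 : (0:ℝ) < 1 / (2 * 4 ^ l) := by positivity
    have h9 : ‖c k‖ / 4 ^ l = 2 * (‖c k‖ * (1 / (2 * 4 ^ l))) := by field_simp
    rw [h9]
    nlinarith
  have hlow : (J : ℝ) / 2 ≤ (∑ k ∈ S, (starRingEnd ℂ) (c k) * I k).re := by
    rw [Complex.re_sum]
    have hdisj : (↑(range J) : Set ℕ).PairwiseDisjoint B := by
      intro i hi j hj hij
      rw [Finset.coe_range, Set.mem_Iio] at hi hj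
      rw [Function.onFun, Finset.disjoint_left]
      intro x hxi hxj
      rcases lt_or_gt_of_ne hij with h | h
      · exact lt_irrefl _ (hB3 i j h hj x hxi x hxj)
      · exact lt_irrefl _ (hB3 j i h hi x hxj x hxi)
    have hsub : (range J).biUnion B ⊆ S := by
      rw [Finset.biUnion_subset]
      intro j hj
      exact hB2 j (Finset.mem_range.mp hj)
    calc (J : ℝ) / 2 = ∑ l ∈ range J, ∑ k ∈ B l, (1 / (2 * 4 ^ l) : ℝ) := by
          have : ∀ l ∈ range J, ∑ k ∈ B l, (1 / (2 * 4 ^ l) : ℝ) = 1 / 2 := by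
            intro l hl
            rw [Finset.sum_const, hB1 l (Finset.mem_range.mp hl), nsmul_eq_mul]
            push_cast
            field_simp
          rw [Finset.sum_congr rfl this, Finset.sum_const, Finset.card_range, nsmul_eq_mul]
          ring
      _ ≤ ∑ l ∈ range J, ∑ k ∈ B l, ((starRingEnd ℂ) (c k) * I k).re :=
          Finset.sum_le_sum (fun l hl => Finset.sum_le_sum (fun k hk => hterm l (Finset.mem_range.mp hl) k hk))
      _ = ∑ k ∈ (range J).biUnion B, ((starRingEnd ℂ) (c k) * I k).re := (Finset.sum_biUnion hdisj).symm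
      _ ≤ ∑ k ∈ S, ((starRingEnd ℂ) (c k) * I k).re := by
          apply Finset.sum_le_sum_of_subset_of_nonneg hsub
          intro k hk hkn
          rcases hB4 k hk with ⟨l, hl, hkl⟩ | h
          · exact absurd (Finset.mem_biUnion.mpr ⟨l, Finset.mem_range.mpr hl, hkl⟩) hkn
          · have : I k = 0 := hG0 k h
            rw [this]
            simp
  have hJF : (J : ℝ) ≤ 18 * ∫ θ in (0:ℝ)..1, ‖F θ‖ := by
    have h3 := Complex.re_le_norm (∑ k ∈ S, (starRingEnd ℂ) (c k) * I k)
    rw [← h1] at h3 hlow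
    linarith
  have hlog : Real.log S.card ≤ (31 / 18) * J := by
    have h3 : (S.card : ℝ) ≤ 4 ^ J * (4 / 3) := by
      have : ((3 * S.card + 1 : ℕ) : ℝ) < ((4 ^ (J + 1) : ℕ) : ℝ) := by exact_mod_cast hJlt
      push_cast at this
      rw [pow_succ] at this
      linarith
    have h4 : Real.log S.card ≤ J * Real.log 4 + Real.log (4 / 3) := by
      rw [← Real.log_pow, ← Real.log_mul (by positivity) (by norm_num)]
      apply Real.log_le_log _ h3
      exact_mod_cast hN
    have h5 : Real.log 4 = 2 * Real.log 2 := by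
      rw [show (4:ℝ) = 2 ^ 2 by norm_num, Real.log_pow]; norm_num
    have h6 : Real.log 2 < 0.6931471808 := Real.log_two_lt_d9
    have h7 : Real.log (4 / 3) ≤ 1 / 3 := by
      have := Real.log_le_sub_one_of_pos (show (0:ℝ) < 4 / 3 by norm_num)
      linarith
    have h8 : (1:ℝ) ≤ J := by exact_mod_cast hJ1
    rw [h5] at h4
    nlinarith
  linarith

end COSZ
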