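import Pool.Agent.COSZ.FBr
import Pool.Agent.COSZ.MpsF

/-!
Module BRK. Number of breaks: `mps` for `2 F`, coefficients at least one in absolute value by `fh_diff`.
`62 · 2π ≤ 390`. Nonempty: the least element `x` of `sp A` has `fh A x ≠ 0`, `fh A (x - h) = 0`.
-/

open Finset MeasureTheory

noncomputable section

namespace COSZ

theorem brk_nonempty (A : Finset ℤ) (hA : A.Nonempty) (h : ℕ) (hh : 1 ≤ h) : (brk A h).Nonempty := by
  have hsp : (sp A).Nonempty := by
    rw [← Finset.card_pos]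
    exact (Finset.card_pos.2 hA).trans_le (card_le_sp A)
  refine ⟨(sp A).min' hsp, ?_⟩
  rw [mem_brk]
  have h1 : fh A ((sp A).min' hsp) ≠ 0 := (mem_sp A _).1 (Finset.min'_mem _ _)
  have h2 : fh A ((sp A).min' hsp - h) = 0 := by
    by_contra hne
    have h3 := (mem_sp A _).2 hne
    have h4 := Finset.min'_le _ _ h3
    have h5 : (1:ℤ) ≤ h := by exact_mod_cast hh
    omega
  rw [h2]
  exact h1

theorem brk_log (A : Finset ℤ) (hA : A.Nonempty) (T : Finset ℝ) (hm : Marks A T) (h Q : ℕ) (hh : 1 ≤ h)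
    (hQ : 1 ≤ Q) (hd : ∀ t ∈ T, dn (h * t) ≤ 1 / Q) :
    Real.log (brk A h).card ≤ 390 * EE A T h Q := by
  have hS := brk_nonempty A hA h hh
  have hF := F_int A T hm h Q hh hQ hd
  have h1 := mps (brk A h) hS (fun k => 2 * ((fh A k - fh A (k - h) : ℝ) : ℂ)) (by
    intro k hk
    have hd := fh_diff A k (k - h) ((mem_brk A h k).1 hk)
    rw [norm_mul, Complex.norm_real, Real.norm_eq_abs]
    simp only [Complex.norm_ofNat]
    linarith)
  have h2 : (∫ θ in (0:ℝ)..1, ‖∑ k ∈ brk A h, (fun k => 2 * ((fh A k - fh A (k - h) : ℝ) : ℂ)) k *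
      e (k * θ)‖) = 2 * ∫ θ in (0:ℝ)..1, ‖((cs A θ : ℝ) : ℂ) * (1 - e (h * θ))‖ := by
    rw [← intervalIntegral.integral_const_mul]
    refine intervalIntegral.integral_congr ?_
    intro θ _
    simp only
    rw [F_expand A h θ]
    have : ∑ k ∈ brk A h, 2 * ((fh A k - fh A (k - h) : ℝ) : ℂ) * e (k * θ) =
        2 * ∑ k ∈ brk A h, ((fh A k - fh A (k - h) : ℝ) : ℂ) * e (k * θ) := by
      rw [Finset.mul_sum]
      exact Finset.sum_congr rfl fun k _ => by ring
    rw [this, norm_mul]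
    simp
  rw [h2] at h1
  have h0 : 0 ≤ ∫ θ in (0:ℝ)..1, ‖((cs A θ : ℝ) : ℂ) * (1 - e (h * θ))‖ :=
    intervalIntegral.integral_nonneg (by norm_num) fun θ _ => norm_nonneg _
  have hpi := Real.pi_lt_d4
  have hpi0 := Real.pi_pos
  have hE : 0 ≤ EE A T h Q := by
    by_contra hneg
    push Not at hneg
    have : 2 * Real.pi * EE A T h Q < 0 := by
      have : 0 < 2 * Real.pi := by linarith
      exact mul_neg_of_pos_of_neg this hneg
    linarith
  nlinarith

end COSZ
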