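import Pool.Agent.COSZ.FejB

/-!
Module CHN. The chain of comparisons. `slow_pt`:
`|cos(2π(k+lh)θ) - cos(2πkθ)| ≤ 2|sin(πlhθ)| ≤ 2π|l| dn(hθ)`, and `fej L v * dn v ≤ 1/(2L)`
(if `dn v ≤ 1/(2L)` use `fej ≤ 1`, otherwise `fej_up`).
`chain`: insert `wi L2 (k + l h)` and `wi L2 k`; first and last difference are together at most `dI`
(`|cos| ≤ 1`), the middle one is at most `∫ |cs| π|l|/L2 W ≤ π|l|/L2 nrm`.
-/

open Finset MeasureTheory

noncomputable section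

namespace COSZ

theorem Chn_fej_dn (L : ℕ) (hL : 1 ≤ L) (v : ℝ) : fej L v * dn v ≤ 1 / (2 * L) := by
  have hL' : (0:ℝ) < L := by exact_mod_cast hL
  have h0 := fej_nonneg L v
  have h1 := fej_le_one L v
  have h2 := fej_up L v
  have h3 := dn_nonneg v
  have h4 : (2 * L * (fej L v * dn v)) ^ 2 ≤ 1 := by
    have : (2 * L * (fej L v * dn v)) ^ 2 = (4 * (L:ℝ) ^ 2 * (dn v) ^ 2 * fej L v) * fej L v := by
      ring
    rw [this]
    have h5 : 0 ≤ 4 * (L:ℝ) ^ 2 * (dn v) ^ 2 * fej L v := by positivity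
    nlinarith
  have h5 : 2 * L * (fej L v * dn v) ≤ 1 := by
    nlinarith [mul_nonneg (mul_nonneg (by norm_num : (0:ℝ) ≤ 2) hL'.le) (mul_nonneg h0 h3)]
  rw [le_div_iff₀ (by positivity)]
  linarith

theorem slow_pt (h L : ℕ) (hL : 1 ≤ L) (k l : ℤ) (θ : ℝ) :
    fej L (h * θ) * |Real.cos (2 * Real.pi * (k + l * h : ℤ) * θ) - Real.cos (2 * Real.pi * k * θ)|
      ≤ Real.pi * |(l:ℝ)| / L := by
  have hL' : (0:ℝ) < L := by exact_mod_cast hL
  have h1 : |Real.cos (2 * Real.pi * (k + l * h : ℤ) * θ) - Real.cos (2 * Real.pi * k * θ)| ≤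
      2 * Real.pi * |(l:ℝ)| * dn (h * θ) := by
    rw [Real.cos_sub_cos]
    have e1 : (2 * Real.pi * ((k + l * h : ℤ) : ℝ) * θ - 2 * Real.pi * k * θ) / 2 =
        Real.pi * (l * (h * θ)) := by
      push_cast
      ring
    rw [e1, abs_mul, abs_mul]
    have h2 : |Real.sin (Real.pi * (l * (h * θ)))| ≤ Real.pi * (|(l:ℝ)| * dn (h * θ)) :=
      (sin_le_dn _).trans (mul_le_mul_of_nonneg_left (dn_mul_le l _) Real.pi_pos.le)
    have h3 : |Real.sin ((2 * Real.pi * ((k + l * h : ℤ) : ℝ) * θ + 2 * Real.pi * k * θ) / 2)| ≤ 1 :=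
      Real.abs_sin_le_one _
    have h4 : |(-2:ℝ)| = 2 := by norm_num
    rw [h4]
    have h5 := abs_nonneg (Real.sin ((2 * Real.pi * ((k + l * h : ℤ) : ℝ) * θ +
      2 * Real.pi * k * θ) / 2))
    have h6 := abs_nonneg (Real.sin (Real.pi * (l * (h * θ))))
    nlinarith
  calc fej L (h * θ) * |Real.cos (2 * Real.pi * (k + l * h : ℤ) * θ) -
          Real.cos (2 * Real.pi * k * θ)|
      ≤ fej L (h * θ) * (2 * Real.pi * |(l:ℝ)| * dn (h * θ)) :=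
        mul_le_mul_of_nonneg_left h1 (fej_nonneg _ _)
    _ = 2 * Real.pi * |(l:ℝ)| * (fej L (h * θ) * dn (h * θ)) := by ring
    _ ≤ 2 * Real.pi * |(l:ℝ)| * (1 / (2 * L)) :=
        mul_le_mul_of_nonneg_left (Chn_fej_dn L hL _) (by positivity)
    _ = Real.pi * |(l:ℝ)| / L := by field_simp

theorem Chn_pt (A : Finset ℤ) (h L1 L2 L3 : ℕ) (hL2 : 1 ≤ L2) (W : ℝ → ℝ)
    (hW0 : ∀ θ, 0 ≤ W θ) (hW1 : ∀ θ, W θ ≤ 1) (k l : ℤ) (θ : ℝ) :
    |cs A θ * Real.cos (2 * Real.pi * (k + l * h : ℤ) * θ) * fej L1 (h * θ) * W θ -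
      cs A θ * Real.cos (2 * Real.pi * k * θ) * fej L3 (h * θ) * W θ| ≤
      |cs A θ| * dif L1 L2 L3 (h * θ) * W θ + Real.pi * |(l:ℝ)| / L2 * |cs A θ| := by
  have hs := slow_pt h L2 hL2 k l θ
  set c1 := Real.cos (2 * Real.pi * (k + l * h : ℤ) * θ) with hc1
  set c2 := Real.cos (2 * Real.pi * k * θ) with hc2
  have h1 : |c1| ≤ 1 := Real.abs_cos_le_one _
  have h2 : |c2| ≤ 1 := Real.abs_cos_le_one _
  set f1 := fej L1 (h * θ)
  set f2 := fej L2 (h * θ) with hf2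
  set f3 := fej L3 (h * θ)
  have hf : 0 ≤ f2 := fej_nonneg _ _
  have e1 : cs A θ * c1 * f1 * W θ - cs A θ * c2 * f3 * W θ =
      cs A θ * (W θ * (c1 * (f1 - f2) + (f2 * (c1 - c2)) - c2 * (f3 - f2))) := by ring
  have h3 : |c1 * (f1 - f2)| ≤ |f1 - f2| := by
    rw [abs_mul]; exact mul_le_of_le_one_left (abs_nonneg _) h1
  have h4 : |c2 * (f3 - f2)| ≤ |f3 - f2| := by
    rw [abs_mul]; exact mul_le_of_le_one_left (abs_nonneg _) h2
  have h5 : |f2 * (c1 - c2)| ≤ Real.pi * |(l:ℝ)| / L2 := by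
    rw [abs_mul, abs_of_nonneg hf]; exact hs
  have h6 : |c1 * (f1 - f2) + (f2 * (c1 - c2)) - c2 * (f3 - f2)| ≤
      dif L1 L2 L3 (h * θ) + Real.pi * |(l:ℝ)| / L2 := by
    have := abs_sub (c1 * (f1 - f2) + (f2 * (c1 - c2))) (c2 * (f3 - f2))
    have h7 := abs_add_le (c1 * (f1 - f2)) (f2 * (c1 - c2))
    have h8 : dif L1 L2 L3 (h * θ) = |f1 - f2| + |f3 - f2| := rfl
    rw [h8]
    linarith
  rw [e1, abs_mul, abs_mul, abs_of_nonneg (hW0 θ)]
  have hc := abs_nonneg (cs A θ)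
  have hp : 0 ≤ Real.pi * |(l:ℝ)| / L2 := by positivity
  calc |cs A θ| * (W θ * |c1 * (f1 - f2) + (f2 * (c1 - c2)) - c2 * (f3 - f2)|)
      ≤ |cs A θ| * (W θ * (dif L1 L2 L3 (h * θ) + Real.pi * |(l:ℝ)| / L2)) := by
        refine mul_le_mul_of_nonneg_left (mul_le_mul_of_nonneg_left h6 (hW0 θ)) hc
    _ = |cs A θ| * dif L1 L2 L3 (h * θ) * W θ +
        W θ * (Real.pi * |(l:ℝ)| / L2 * |cs A θ|) := by ring
    _ ≤ |cs A θ| * dif L1 L2 L3 (h * θ) * W θ + Real.pi * |(l:ℝ)| / L2 * |cs A θ| := by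
        have : W θ * (Real.pi * |(l:ℝ)| / L2 * |cs A θ|) ≤ Real.pi * |(l:ℝ)| / L2 * |cs A θ| :=
          mul_le_of_le_one_left (mul_nonneg hp hc) (hW1 θ)
        linarith

theorem Chn_wi_cont (A : Finset ℤ) (h L : ℕ) (W : ℝ → ℝ) (hWc : Continuous W) (k : ℤ) :
    Continuous (fun θ : ℝ => cs A θ * Real.cos (2 * Real.pi * k * θ) * fej L (h * θ) * W θ) := by
  have h1 := cs_cont A
  have h2 := fej_cont L
  fun_prop

theorem chain (A : Finset ℤ) (h L1 L2 L3 : ℕ) (hL2 : 1 ≤ L2) (W : ℝ → ℝ) (hWc : Continuous W)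
    (hW0 : ∀ θ, 0 ≤ W θ) (hW1 : ∀ θ, W θ ≤ 1) (k l : ℤ) :
    |wi A h L1 W (k + l * h) - wi A h L3 W k| ≤
      dI A h L1 L2 L3 W + Real.pi * |(l:ℝ)| / L2 * nrm A := by
  have hcs := cs_cont A
  have hf1 := fej_cont L1
  have hf2 := fej_cont L2
  have hf3 := fej_cont L3
  have hi1 : IntervalIntegrable (fun θ : ℝ => cs A θ * Real.cos (2 * Real.pi * (k + l * h : ℤ) * θ) *
      fej L1 (h * θ) * W θ) volume 0 1 := (Chn_wi_cont A h L1 W hWc (k + l * h)).intervalIntegrable _ _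
  have hi2 : IntervalIntegrable (fun θ : ℝ => cs A θ * Real.cos (2 * Real.pi * k * θ) *
      fej L3 (h * θ) * W θ) volume 0 1 := (Chn_wi_cont A h L3 W hWc k).intervalIntegrable _ _
  have hdc : Continuous (fun θ : ℝ => |cs A θ| * dif L1 L2 L3 (h * θ) * W θ) := by
    unfold dif
    fun_prop
  have hi3 : IntervalIntegrable (fun θ : ℝ => |cs A θ| * dif L1 L2 L3 (h * θ) * W θ) volume 0 1 :=
    hdc.intervalIntegrable _ _
  have hi4 : IntervalIntegrable (fun θ : ℝ => Real.pi * |(l:ℝ)| / L2 * |cs A θ|) volume 0 1 := by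
    refine Continuous.intervalIntegrable ?_ _ _
    fun_prop
  unfold wi dI nrm
  rw [← intervalIntegral.integral_sub hi1 hi2, ← intervalIntegral.integral_const_mul,
    ← intervalIntegral.integral_add hi3 hi4]
  refine (intervalIntegral.abs_integral_le_integral_abs zero_le_one).trans ?_
  refine intervalIntegral.integral_mono_on zero_le_one (hi1.sub hi2).abs (hi3.add hi4) ?_
  intro θ _
  exact Chn_pt A h L1 L2 L3 hL2 W hW0 hW1 k l θ

end COSZ
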