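import Pool.Agent.COSZ.FejA

/-!
Module FEJC. Multiplicativity and partition of unity.
`fej_mul`: `∑_{l < L h} e(lθ) = (∑_{l<L} e(l h θ)) (∑_{r<h} e(r θ))` (write `l = q h + r`).
`fej_sum`: by `fej_expand` the sum is `∑_j KL h j ∑_a cos (2πj(θ - a/h))`; for `0 < |j| < h` the inner sum
is the real part of `e(jθ) ∑_a e(-j a / h) = 0` (geometric sum, ratio `≠ 1`, h-th power one);
the term `j = 0` is `h KL h 0 = 1`.
-/

open Finset MeasureTheory

noncomputable section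

namespace COSZ

theorem fejC_sum_mul (L h : ℕ) (θ : ℝ) : ∑ l ∈ range (L * h), e (l * θ) =
    (∑ l ∈ range L, e (l * (h * θ))) * ∑ l ∈ range h, e (l * θ) := by
  induction L with
  | zero => simp
  | succ L ih =>
    rw [Nat.succ_mul, Finset.sum_range_add, ih, Finset.sum_range_succ, add_mul]
    congr 1
    rw [Finset.mul_sum]
    refine Finset.sum_congr rfl (fun r _ => ?_)
    rw [← e_add]
    congr 1
    push_cast
    ring

theorem fej_mul (L h : ℕ) (θ : ℝ) : fej (L * h) θ = fej L (h * θ) * fej h θ := by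
  unfold fej
  rw [fejC_sum_mul, norm_mul, mul_pow, Nat.cast_mul, mul_pow, mul_div_mul_comm]

theorem fejC_e_pow (x : ℝ) (n : ℕ) : e x ^ n = e (n * x) := by
  induction n with
  | zero => simp [e_zero]
  | succ n ih =>
    rw [pow_succ, ih, ← e_add]
    congr 1
    push_cast
    ring

theorem fejC_e_eq_one {x : ℝ} (h : e x = 1) : ∃ m : ℤ, x = m := by
  unfold e at h
  rw [Complex.exp_eq_one_iff] at h
  obtain ⟨n, hn⟩ := h
  refine ⟨n, ?_⟩
  have h2 : (2 * (Real.pi : ℂ) * Complex.I) ≠ 0 := Complex.two_pi_I_ne_zero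
  have h3 : (x : ℂ) * (2 * (Real.pi : ℂ) * Complex.I) = n * (2 * (Real.pi : ℂ) * Complex.I) := by
    rw [← hn]
    ring
  have h4 := mul_right_cancel₀ h2 h3
  exact_mod_cast h4

theorem fejC_inner (h : ℕ) (hh : 1 ≤ h) (θ : ℝ) (j : ℤ) (h0 : j ≠ 0) (hj : |j| < h) :
    ∑ a ∈ range h, Real.cos (2 * Real.pi * j * (θ - (a:ℝ) / h)) = 0 := by
  have hh0 : (h : ℝ) ≠ 0 := by positivity
  have h1 : ∀ a : ℕ, Real.cos (2 * Real.pi * j * (θ - (a:ℝ) / h)) = (e (j * θ) * e (-(j / h)) ^ a).re := by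
    intro a
    rw [fejC_e_pow, ← e_add, e_re]
    congr 1
    ring
  simp only [h1]
  rw [← Complex.re_sum, ← Finset.mul_sum]
  have h2 : e (-(j / h)) ≠ 1 := by
    intro hc
    obtain ⟨m, hm⟩ := fejC_e_eq_one hc
    have h3 : (j : ℝ) = -m * h := by
      field_simp at hm
      linarith
    have h4 : j = -m * h := by exact_mod_cast h3
    have h5 : (h : ℤ) ∣ j := ⟨-m, by rw [h4]; ring⟩
    have h6 := Int.eq_zero_of_abs_lt_dvd h5 hj
    exact h0 h6
  have h3 : ∑ a ∈ range h, e (-(j / h)) ^ a = 0 := by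
    rw [geom_sum_eq h2, fejC_e_pow]
    have : ((h : ℕ) : ℝ) * (-((j : ℝ) / h)) = ((-j : ℤ) : ℝ) := by
      push_cast
      field_simp
    rw [this, e_int]
    simp
  rw [h3]
  simp

theorem fej_sum (h : ℕ) (hh : 1 ≤ h) (θ : ℝ) :
    ∑ a ∈ range h, fej h (θ - (a:ℝ) / h) = 1 := by
  have hh0 : (h : ℝ) ≠ 0 := by positivity
  simp only [fej_expand h hh]
  rw [Finset.sum_comm]
  rw [Finset.sum_eq_single (0 : ℤ)]
  · simp [KL, hh0]
  · intro j hj h0
    rw [← Finset.mul_sum, fejC_inner h hh θ j h0, mul_zero]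
    rw [Finset.mem_Ioo] at hj
    rw [abs_lt]
    exact hj
  · intro h0
    exfalso
    apply h0
    rw [Finset.mem_Ioo]
    omega

theorem Pb_add_Pg (T : Finset ℝ) (h : ℕ) (hh : 1 ≤ h) (θ : ℝ) : Pb T h θ + Pg T h θ = 1 := by
  unfold Pb Pg
  rw [Finset.sum_filter_add_sum_filter_not, fej_sum h hh]
theorem Pg_nonneg (T : Finset ℝ) (h : ℕ) (θ : ℝ) : 0 ≤ Pg T h θ :=
  Finset.sum_nonneg (fun _ _ => fej_nonneg _ _)
theorem Pg_le_one (T : Finset ℝ) (h : ℕ) (hh : 1 ≤ h) (θ : ℝ) : Pg T h θ ≤ 1 := by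
  rw [← Pb_add_Pg T h hh θ]
  have : 0 ≤ Pb T h θ := Finset.sum_nonneg (fun _ _ => fej_nonneg _ _)
  linarith
theorem Pg_cont (T : Finset ℝ) (h : ℕ) : Continuous (Pg T h) := by
  unfold Pg
  refine continuous_finsetSum _ (fun a _ => ?_)
  exact (fej_cont h).comp (continuous_id.sub continuous_const)
theorem Bd_card (T : Finset ℝ) (h : ℕ) : (Bd T h).card ≤ T.card := Finset.card_image_le

end COSZ
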