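import Pool.Agent.COSZ.FejB
import Pool.Agent.COSZ.FejC

/-!
Module PGB. Pointwise bound of the good part. Let `t ∈ T`, `p = round (h t)`, `|h t - p| = dn (h t) ≤ 1/Q`,
`a = (p % h).toNat ∈ Bd T h`, `a < h`, and `a/h - p/h` is an integer. As `a` is bad,
`Pg θ ≤ 1 - fej h (θ - a/h) = 1 - fej h (θ - p/h) ≤ 20 h² (θ - p/h)² ≤ 20 (h|θ - t| + 1/Q)²`
(`Pb_add_Pg`, `fej_low`, `dn ≤ |.|`). With `y = h|θ-t| + 1/Q`: `min 1 (20 y²) ≤ 5 min 1 (h|θ-t|) + 5/Q`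
(if `5 y ≥ 1` then `min 1 (...) ≤ 1`, and `1 ≤ 5 min 1 (h|θ - t|) + 5/Q`; if `5 y < 1` then
`20 y² ≤ 4 y`).
-/

open Finset MeasureTheory

noncomputable section

namespace COSZ

theorem Pg_pt (T : Finset ℝ) (h Q : ℕ) (hh : 1 ≤ h) (hQ : 1 ≤ Q) (t : ℝ) (ht : t ∈ T)
    (hd : dn (h * t) ≤ 1 / Q) (θ : ℝ) :
    Pg T h θ ≤ 5 * (min 1 (h * |θ - t|) + 1 / Q) := by
  have hh0 : (0:ℝ) < h := by exact_mod_cast hh
  have hhZ : (0:ℤ) < h := by exact_mod_cast hh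
  have hQ0 : (0:ℝ) < Q := by exact_mod_cast hQ
  set p : ℤ := round ((h:ℝ) * t) with hp
  set a : ℕ := (p % (h:ℤ)).toNat with ha
  have haBd : a ∈ Bd T h := Finset.mem_image.2 ⟨t, ht, rfl⟩
  have haZ : (a:ℤ) = p % (h:ℤ) := Int.toNat_of_nonneg (Int.emod_nonneg _ hhZ.ne')
  have hah : a < h := by
    have h1 : (a:ℤ) < h := by
      rw [haZ]
      exact Int.emod_lt_of_pos _ hhZ
    exact_mod_cast h1
  have haR : (a:ℝ) = p - h * ((p / (h:ℤ) : ℤ) : ℝ) := by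
    have h1 : (a:ℤ) = p - h * (p / (h:ℤ)) := by
      rw [haZ, Int.emod_def]
    exact_mod_cast h1
  have h1 : Pg T h θ ≤ 1 - fej h (θ - (a:ℝ) / h) := by
    have h2 := Pb_add_Pg T h hh θ
    have h3 : fej h (θ - (a:ℝ) / h) ≤ Pb T h θ := by
      unfold Pb
      exact Finset.single_le_sum (f := fun a : ℕ => fej h (θ - (a:ℝ) / h))
        (fun _ _ => fej_nonneg _ _) (Finset.mem_filter.2 ⟨Finset.mem_range.2 hah, haBd⟩)
    linarith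
  have h2 := fej_low h hh (θ - (a:ℝ) / h)
  have h3 : dn (θ - (a:ℝ) / h) = dn (θ - (p:ℝ) / h) := by
    have h4 : θ - (a:ℝ) / h = (θ - (p:ℝ) / h) + ((p / (h:ℤ) : ℤ) : ℝ) := by
      rw [haR]
      field_simp
      ring
    rw [h4, dn_add_int]
  have h4 : h * dn (θ - (a:ℝ) / h) ≤ h * |θ - t| + 1 / Q := by
    rw [h3]
    have h5 := dn_le_abs (θ - (p:ℝ) / h)
    have h6 : |θ - (p:ℝ) / h| ≤ |θ - t| + |t - (p:ℝ) / h| := by
      have := abs_add_le (θ - t) (t - (p:ℝ) / h)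
      rwa [sub_add_sub_cancel] at this
    have h7 : h * |t - (p:ℝ) / h| = dn (h * t) := by
      rw [dn_eq, ← hp]
      conv_lhs => rw [← abs_of_pos hh0, ← abs_mul, abs_of_pos hh0]
      congr 1
      field_simp
    have h8 : h * dn (θ - (p:ℝ) / h) ≤ h * (|θ - t| + |t - (p:ℝ) / h|) :=
      mul_le_mul_of_nonneg_left (h5.trans h6) hh0.le
    rw [mul_add, h7] at h8
    linarith
  set w : ℝ := h * |θ - t| with hw
  have hw0 : 0 ≤ w := mul_nonneg hh0.le (abs_nonneg _)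
  have hq0 : 0 < 1 / (Q:ℝ) := by positivity
  have h5 : Pg T h θ ≤ 20 * (w + 1 / Q) ^ 2 := by
    have h6 : 0 ≤ h * dn (θ - (a:ℝ) / h) := mul_nonneg hh0.le (dn_nonneg _)
    have h7 : (h * dn (θ - (a:ℝ) / h)) ^ 2 ≤ (w + 1 / Q) ^ 2 := pow_le_pow_left₀ h6 h4 2
    have h8 : 20 * (h:ℝ) ^ 2 * (dn (θ - (a:ℝ) / h)) ^ 2 = 20 * (h * dn (θ - (a:ℝ) / h)) ^ 2 := by
      ring
    linarith
  have h6 := Pg_le_one T h hh θ
  rcases le_or_gt 1 w with h7 | h7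
  · rw [min_eq_left h7]
    linarith
  · rw [min_eq_right h7.le]
    rcases le_or_gt 1 (5 * (w + 1 / Q)) with h8 | h8
    · linarith
    · have hy : 0 ≤ w + 1 / Q := by linarith
      nlinarith

theorem Pg_dist (T : Finset ℝ) (h Q : ℕ) (hh : 1 ≤ h) (hQ : 1 ≤ Q) (hT : T.Nonempty)
    (hd : ∀ t ∈ T, dn (h * t) ≤ 1 / Q) (θ : ℝ) :
    Pg T h θ ≤ 5 * (min 1 (h * Metric.infDist θ (T : Set ℝ)) + 1 / Q) := by
  obtain ⟨t, ht, hdist⟩ := T.finite_toSet.isCompact.exists_infDist_eq_dist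
    (Finset.coe_nonempty.2 hT) θ
  rw [hdist, Real.dist_eq]
  exact Pg_pt T h Q hh hQ t (Finset.mem_coe.1 ht) (hd t (Finset.mem_coe.1 ht)) θ

end COSZ
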