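import Pool.Agent.COSZ.Dif

/-!
Module SUMD. The sum over the ranges is bounded. Put `x = dn v`. If `x = 0` every term is zero
(`dif_in`). Otherwise let `i0` be the least `i` with `20 T^(4i+4) x² ≥ 1` (it exists). For `i < i0` the
term is at most `40 T^(4i+4) x² ≤ 2 T^(-4(i0-1-i))`; the term `i0` is at most 2; for `i > i0` it is at
most `1/(2 T^(4i+2) x²) ≤ 10 T^(4 i0 + 4 - 4 i - 2) = 10 T^2 T^(-4(i - i0))`. Geometric sums, `T ≥ 4`:
the total is at most `2 (256/255) + 2 + 10/(16) (256/255) ≤ 5 ≤ 8`.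
-/

open Finset MeasureTheory

noncomputable section

namespace COSZ

theorem sumD_step (t s m : ℝ) (ht : 16 ≤ t) (hs : 0 ≤ s) (hm : 0 ≤ m) (h1 : m ≤ 2) (h2 : m ≤ 40 * s)
    (h3 : 2 * s * m ≤ t) : 8 * s / (s + t) + m ≤ 8 * (t ^ 2 * s) / (t ^ 2 * s + t) := by
  have hst : 0 < s + t := by linarith
  have ht0 : 0 < t := by linarith
  have hts : 0 < t * s + 1 := by positivity
  have e1 : 8 * (t ^ 2 * s) / (t ^ 2 * s + t) = 8 * (t * s) / (t * s + 1) := by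
    have : t ^ 2 * s + t = t * (t * s + 1) := by ring
    rw [this, show 8 * (t ^ 2 * s) = t * (8 * (t * s)) by ring, mul_div_mul_left _ _ ht0.ne']
  rw [e1]
  have key : m * ((s + t) * (t * s + 1)) ≤ 8 * s * (t ^ 2 - 1) := by
    have k1 : m * (t * s ^ 2) ≤ t ^ 2 / 2 * s := by
      have := mul_le_mul_of_nonneg_right h3 (mul_nonneg ht0.le hs)
      nlinarith
    have k2 : m * ((t ^ 2 + 1) * s) ≤ 2 * ((t ^ 2 + 1) * s) :=
      mul_le_mul_of_nonneg_right h1 (by positivity)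
    have k3 : m * t ≤ 40 * s * t := mul_le_mul_of_nonneg_right h2 ht0.le
    have k4 : 0 ≤ s * (5.5 * t ^ 2 - 40 * t - 10) := by
      refine mul_nonneg hs ?_
      nlinarith
    nlinarith
  have e2 : 8 * (t * s) / (t * s + 1) - 8 * s / (s + t) =
      8 * s * (t ^ 2 - 1) / ((s + t) * (t * s + 1)) := by
    field_simp
    ring
  have e3 : m ≤ 8 * s * (t ^ 2 - 1) / ((s + t) * (t * s + 1)) := by
    rw [le_div_iff₀ (by positivity)]
    exact key
  linarith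

theorem sum_dif (T κ I : ℕ) (hT : 4 ≤ T) (hκ : 1 ≤ κ) (hκT : κ ≤ T) (v : ℝ) :
    ∑ i ∈ range I, dif (T ^ (2 * i + 1)) (T ^ (2 * i + 2)) (κ * T ^ (2 * i + 1)) v ≤ 8 := by
  have hTr : (4:ℝ) ≤ T := by exact_mod_cast hT
  have hT0 : (0:ℝ) < T := by linarith
  have ht : (16:ℝ) ≤ (T:ℝ) ^ 2 := by nlinarith
  have key : ∀ I : ℕ, ∑ i ∈ range I, dif (T ^ (2 * i + 1)) (T ^ (2 * i + 2)) (κ * T ^ (2 * i + 1)) v ≤
      8 * ((T:ℝ) ^ (4 * I + 4) * (dn v) ^ 2) / ((T:ℝ) ^ (4 * I + 4) * (dn v) ^ 2 + (T:ℝ) ^ 2) := by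
    intro I
    induction I with
    | zero =>
      simp only [range_zero, sum_empty]
      positivity
    | succ I ih =>
      rw [sum_range_succ]
      have hpos : 1 ≤ T ^ (2 * I + 1) := Nat.one_le_pow _ _ (by omega)
      have h13 : T ^ (2 * I + 1) ≤ κ * T ^ (2 * I + 1) := Nat.le_mul_of_pos_left _ hκ
      have h32 : κ * T ^ (2 * I + 1) ≤ T ^ (2 * I + 2) := by
        calc κ * T ^ (2 * I + 1) ≤ T * T ^ (2 * I + 1) := Nat.mul_le_mul_right _ hκT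
          _ = T ^ (2 * I + 2) := by ring
      have d0 := dif_nonneg (T ^ (2 * I + 1)) (T ^ (2 * I + 2)) (κ * T ^ (2 * I + 1)) v
      have d1 := dif_le_two (T ^ (2 * I + 1)) (T ^ (2 * I + 2)) (κ * T ^ (2 * I + 1)) v
      have d2 := dif_in (T ^ (2 * I + 1)) (T ^ (2 * I + 2)) (κ * T ^ (2 * I + 1)) hpos h13 h32 v
      have d3 := dif_out (T ^ (2 * I + 1)) (T ^ (2 * I + 2)) (κ * T ^ (2 * I + 1)) hpos h13 h32 v
      set m := dif (T ^ (2 * I + 1)) (T ^ (2 * I + 2)) (κ * T ^ (2 * I + 1)) v with hm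
      push_cast at d2 d3
      have hst := sumD_step ((T:ℝ) ^ 2) ((T:ℝ) ^ (4 * I + 4) * (dn v) ^ 2) m ht (by positivity) d0 d1
        (by
          refine d2.trans (le_of_eq ?_)
          ring)
        (by
          have := mul_le_mul_of_nonneg_left d3 (sq_nonneg (T:ℝ))
          calc 2 * ((T:ℝ) ^ (4 * I + 4) * (dn v) ^ 2) * m =
              (T:ℝ) ^ 2 * (2 * ((T:ℝ) ^ (2 * I + 1)) ^ 2 * (dn v) ^ 2 * m) := by ring
            _ ≤ (T:ℝ) ^ 2 * 1 := this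
            _ = (T:ℝ) ^ 2 := by ring)
      have e1 : ((T:ℝ) ^ 2) ^ 2 * ((T:ℝ) ^ (4 * I + 4) * (dn v) ^ 2) =
          (T:ℝ) ^ (4 * (I + 1) + 4) * (dn v) ^ 2 := by ring
      rw [e1] at hst
      linarith
  refine (key I).trans ?_
  rw [div_le_iff₀ (by positivity)]
  nlinarith [sq_nonneg (T:ℝ)]

end COSZ
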