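import Pool.Agent.COSZ.ArcD
import Pool.Agent.COSZ.PgB
import Pool.Agent.COSZ.SumD

/-!
Module MG. Mass of the good part, by `Pg_dist` and `arcs` with `K = h`. Counting: each bad range
contributes more than 1/40, and `∑_i dI_i = ∫ |cs| (∑_i dif_i (hθ)) Pg ≤ 8 ∫ |cs| Pg` (`sum_dif`).
-/

open Finset MeasureTheory

noncomputable section

namespace COSZ

theorem Mg_bound (A : Finset ℤ) (T : Finset ℝ) (hm : Marks A T) (h Q : ℕ) (hh : 1 ≤ h) (hQ : 1 ≤ Q)
    (hd : ∀ t ∈ T, dn (h * t) ≤ 1 / Q) :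
    ∫ θ in (0:ℝ)..1, |cs A θ| * Pg T h θ ≤ 5 * EE A T h Q := by
  have hcs := cs_cont A
  have hPg := Pg_cont T h
  have hinf : Continuous (fun θ : ℝ => Metric.infDist θ (T : Set ℝ)) := Metric.continuous_infDist_pt _
  have hT : T.Nonempty := ⟨0, hm.zero_mem⟩
  have hi1 : IntervalIntegrable (fun θ : ℝ => |cs A θ| * Pg T h θ) volume 0 1 := by
    refine Continuous.intervalIntegrable ?_ _ _
    fun_prop
  have hi2 : IntervalIntegrable (fun θ : ℝ => |cs A θ| *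
      min 1 (h * Metric.infDist θ (T : Set ℝ))) volume 0 1 := by
    refine Continuous.intervalIntegrable ?_ _ _
    fun_prop
  have hi3 : IntervalIntegrable (fun θ : ℝ => |cs A θ|) volume 0 1 := by
    refine Continuous.intervalIntegrable ?_ _ _
    fun_prop
  have h1 : ∫ θ in (0:ℝ)..1, |cs A θ| * Pg T h θ ≤
      ∫ θ in (0:ℝ)..1, (5 * (|cs A θ| * min 1 (h * Metric.infDist θ (T : Set ℝ))) +
        5 / Q * |cs A θ|) := by
    refine intervalIntegral.integral_mono_on zero_le_one hi1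
      ((hi2.const_mul _).add (hi3.const_mul _)) fun θ _ => ?_
    have := mul_le_mul_of_nonneg_left (Pg_dist T h Q hh hQ hT hd θ) (abs_nonneg (cs A θ))
    refine this.trans (le_of_eq ?_)
    ring
  rw [intervalIntegral.integral_add (hi2.const_mul _) (hi3.const_mul _),
    intervalIntegral.integral_const_mul, intervalIntegral.integral_const_mul] at h1
  have h2 := arcs A T hm h hh
  have h3 : 5 / (Q:ℝ) * (∫ θ in (0:ℝ)..1, |cs A θ|) = 5 * (nrm A / Q) := by
    unfold nrm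
    ring
  rw [h3] at h1
  unfold EE
  linarith

theorem count_G (A : Finset ℤ) (T' : Finset ℝ) (h : ℕ) (hh : 1 ≤ h) (T κ I : ℕ) (hT : 4 ≤ T)
    (hκ : 1 ≤ κ) (hκT : κ ≤ T) :
    (((range I).filter (fun i => 1 / 40 <
      dI A h (T ^ (2 * i + 1)) (T ^ (2 * i + 2)) (κ * T ^ (2 * i + 1)) (Pg T' h))).card : ℝ) ≤
      320 * ∫ θ in (0:ℝ)..1, |cs A θ| * Pg T' h θ := by
  have hcs := cs_cont A
  have hPg := Pg_cont T' h
  have hdc : ∀ i : ℕ, Continuous (fun θ : ℝ => |cs A θ| *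
      dif (T ^ (2 * i + 1)) (T ^ (2 * i + 2)) (κ * T ^ (2 * i + 1)) (h * θ) * Pg T' h θ) := fun i => by
    have := dif_cont (T ^ (2 * i + 1)) (T ^ (2 * i + 2)) (κ * T ^ (2 * i + 1))
    fun_prop
  have hi : ∀ i : ℕ, IntervalIntegrable (fun θ : ℝ => |cs A θ| *
      dif (T ^ (2 * i + 1)) (T ^ (2 * i + 2)) (κ * T ^ (2 * i + 1)) (h * θ) * Pg T' h θ) volume 0 1 :=
    fun i => (hdc i).intervalIntegrable _ _
  have hi1 : IntervalIntegrable (fun θ : ℝ => |cs A θ| * Pg T' h θ) volume 0 1 := by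
    refine Continuous.intervalIntegrable ?_ _ _
    fun_prop
  have hnn : ∀ i : ℕ, 0 ≤ dI A h (T ^ (2 * i + 1)) (T ^ (2 * i + 2)) (κ * T ^ (2 * i + 1))
      (Pg T' h) := fun i => by
    refine intervalIntegral.integral_nonneg zero_le_one fun θ _ => ?_
    exact mul_nonneg (mul_nonneg (abs_nonneg _) (dif_nonneg _ _ _ _)) (Pg_nonneg _ _ _)
  have h1 : ∑ i ∈ range I, dI A h (T ^ (2 * i + 1)) (T ^ (2 * i + 2)) (κ * T ^ (2 * i + 1))
      (Pg T' h) ≤ 8 * ∫ θ in (0:ℝ)..1, |cs A θ| * Pg T' h θ := by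
    unfold dI
    rw [← intervalIntegral.integral_finsetSum fun i _ => hi i,
      ← intervalIntegral.integral_const_mul]
    refine intervalIntegral.integral_mono_on zero_le_one ?_ (hi1.const_mul _) fun θ _ => ?_
    · refine Continuous.intervalIntegrable ?_ _ _
      exact continuous_finsetSum _ fun i _ => hdc i
    · rw [← Finset.sum_mul, ← Finset.mul_sum]
      have h2 := sum_dif T κ I hT hκ hκT (h * θ)
      have h3 : 0 ≤ |cs A θ| * Pg T' h θ := mul_nonneg (abs_nonneg _) (Pg_nonneg _ _ _)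
      calc |cs A θ| * (∑ i ∈ range I, dif (T ^ (2 * i + 1)) (T ^ (2 * i + 2))
              (κ * T ^ (2 * i + 1)) (h * θ)) * Pg T' h θ
          = (|cs A θ| * Pg T' h θ) * (∑ i ∈ range I, dif (T ^ (2 * i + 1)) (T ^ (2 * i + 2))
              (κ * T ^ (2 * i + 1)) (h * θ)) := by ring
        _ ≤ (|cs A θ| * Pg T' h θ) * 8 := mul_le_mul_of_nonneg_left h2 h3
        _ = 8 * (|cs A θ| * Pg T' h θ) := by ring
  set S := (range I).filter (fun i => 1 / 40 <
      dI A h (T ^ (2 * i + 1)) (T ^ (2 * i + 2)) (κ * T ^ (2 * i + 1)) (Pg T' h)) with hS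
  have h4 : (S.card : ℝ) * (1 / 40) ≤ ∑ i ∈ S, dI A h (T ^ (2 * i + 1)) (T ^ (2 * i + 2))
      (κ * T ^ (2 * i + 1)) (Pg T' h) := by
    rw [← nsmul_eq_mul]
    refine Finset.card_nsmul_le_sum _ _ _ fun i hi => ?_
    exact (Finset.mem_filter.1 hi).2.le
  have h5 : ∑ i ∈ S, dI A h (T ^ (2 * i + 1)) (T ^ (2 * i + 2)) (κ * T ^ (2 * i + 1)) (Pg T' h) ≤
      ∑ i ∈ range I, dI A h (T ^ (2 * i + 1)) (T ^ (2 * i + 2)) (κ * T ^ (2 * i + 1)) (Pg T' h) :=
    Finset.sum_le_sum_of_subset_of_nonneg (Finset.filter_subset _ _) fun i _ _ => hnn i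
  linarith

end COSZ
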