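import Pool.Agent.COSZ.ZBd
import Pool.Agent.COSZ.AnnS

/-!
Module ZCT. Number of ranges failing at the centre zero: by `Z_bound` such a range has
`4 ∫_{rin}^{rout} |cs| > 1/(40M) - 1/(80M)`, i.e. `∫ > 1/(320M)`; the non bad ones are at most
`6M · 320M = 1920 M²` by `ann_sum`, the bad ones at most `M`.
-/

open Finset MeasureTheory

noncomputable section

namespace COSZ

theorem count_Z (A : Finset ℤ) (T : Finset ℝ) (hm : Marks A T) (h U κ I : ℕ) (hh : 1 ≤ h) (hU : 4 ≤ U)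
    (hκ : 1 ≤ κ) (hκT : κ ≤ U ^ 2) (hbig : 51200 * T.card * nrm A ≤ (U:ℝ) ^ 2) :
    (((range I).filter (fun i => 1 / (40 * (T.card:ℝ)) <
      dI A h ((U ^ 2) ^ (2 * i + 1)) ((U ^ 2) ^ (2 * i + 2)) (κ * (U ^ 2) ^ (2 * i + 1)) (fej h))).card : ℝ)
      ≤ 1921 * (T.card:ℝ) ^ 2 := by
  classical
  have hMnat : 1 ≤ T.card := Finset.card_pos.2 ⟨0, hm.zero_mem⟩
  have hM : (1:ℝ) ≤ T.card := by exact_mod_cast hMnat
  have hM0 : (0:ℝ) < T.card := by linarith
  have hUr : (4:ℝ) ≤ U := by exact_mod_cast hU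
  have hU0 : (0:ℝ) < U := by linarith
  have hhr : (1:ℝ) ≤ h := by exact_mod_cast hh
  have hh0 : (0:ℝ) < h := by linarith
  have hrr : ∀ i, rin h U i ≤ rout h U i := by
    intro i
    unfold rin rout
    rw [div_le_div_iff₀ (by positivity) (by positivity)]
    have hp : (0:ℝ) < (U:ℝ) ^ (4 * i + 1) := by positivity
    have h4 : (256:ℝ) ≤ (U:ℝ) ^ 4 := by
      have : (4:ℝ) ^ 4 ≤ (U:ℝ) ^ 4 := pow_le_pow_left₀ (by norm_num) hUr 4
      linarith
    have e1 : (U:ℝ) ^ (4 * i + 5) = (U:ℝ) ^ (4 * i + 1) * (U:ℝ) ^ 4 := by ring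
    rw [e1]
    have : 0 ≤ h * (U:ℝ) ^ (4 * i + 1) * ((U:ℝ) ^ 4 - 16) :=
      mul_nonneg (by positivity) (by linarith)
    nlinarith
  have hint0 : ∀ i, 0 ≤ ∫ θ in (rin h U i)..(rout h U i), |cs A θ| := fun i =>
    intervalIntegral.integral_nonneg (hrr i) fun θ _ => abs_nonneg _
  set F := (range I).filter (fun i => 1 / (40 * (T.card:ℝ)) <
      dI A h ((U ^ 2) ^ (2 * i + 1)) ((U ^ 2) ^ (2 * i + 2)) (κ * (U ^ 2) ^ (2 * i + 1)) (fej h)) with hF
  have hlow : ∀ i ∈ F, 1 / (320 * (T.card:ℝ)) ≤ ∫ θ in (rin h U i)..(rout h U i), |cs A θ| := by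
    intro i hi
    have h1 := (Finset.mem_filter.1 hi).2
    have h2 := Z_bound A h U κ i hh hU hκ hκT
    have h3 : 640 / (U:ℝ) ^ 2 * nrm A ≤ 1 / (80 * (T.card:ℝ)) := by
      rw [div_mul_eq_mul_div, div_le_div_iff₀ (by positivity) (by positivity)]
      nlinarith
    have e1 : 1 / (40 * (T.card:ℝ)) = 8 * (1 / (320 * (T.card:ℝ))) := by
      field_simp; norm_num
    have e2 : 1 / (80 * (T.card:ℝ)) = 4 * (1 / (320 * (T.card:ℝ))) := by
      field_simp; norm_num
    rw [e1] at h1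
    rw [e2] at h3
    linarith
  have hsplit : F.card ≤ ((range I).filter (fun i => BadI T h U i)).card +
      (F.filter (fun i => ¬ BadI T h U i)).card := by
    rw [← Finset.card_filter_add_card_filter_not (s := F) (fun i => BadI T h U i)]
    refine Nat.add_le_add_right (Finset.card_le_card ?_) _
    intro i hi
    rw [Finset.mem_filter] at hi ⊢
    exact ⟨(Finset.mem_filter.1 hi.1).1, hi.2⟩
  have hbad := bad_count T h U I hh hU
  have hann := ann_sum A T hm h U I hh hU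
  have hgood : ((F.filter (fun i => ¬ BadI T h U i)).card : ℝ) * (1 / (320 * (T.card:ℝ))) ≤
      6 * T.card := by
    calc ((F.filter (fun i => ¬ BadI T h U i)).card : ℝ) * (1 / (320 * (T.card:ℝ)))
        = ∑ _i ∈ F.filter (fun i => ¬ BadI T h U i), 1 / (320 * (T.card:ℝ)) := by
          rw [Finset.sum_const, nsmul_eq_mul]
      _ ≤ ∑ i ∈ F.filter (fun i => ¬ BadI T h U i), ∫ θ in (rin h U i)..(rout h U i), |cs A θ| :=
          Finset.sum_le_sum fun i hi => hlow i (Finset.mem_filter.1 hi).1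
      _ ≤ ∑ i ∈ (range I).filter (fun i => ¬ BadI T h U i),
            ∫ θ in (rin h U i)..(rout h U i), |cs A θ| := by
          refine Finset.sum_le_sum_of_subset_of_nonneg ?_ fun i _ _ => hint0 i
          intro i hi
          rw [Finset.mem_filter] at hi ⊢
          exact ⟨(Finset.mem_filter.1 hi.1).1, hi.2⟩
      _ ≤ 6 * T.card := hann
  have hgood2 : ((F.filter (fun i => ¬ BadI T h U i)).card : ℝ) ≤ 1920 * (T.card:ℝ) ^ 2 := by
    rw [mul_one_div, div_le_iff₀ (by positivity)] at hgood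
    nlinarith
  have h5 : (F.card : ℝ) ≤ (((range I).filter (fun i => BadI T h U i)).card : ℝ) +
      ((F.filter (fun i => ¬ BadI T h U i)).card : ℝ) := by exact_mod_cast hsplit
  have h6 : (((range I).filter (fun i => BadI T h U i)).card : ℝ) ≤ T.card := by exact_mod_cast hbad
  nlinarith

end COSZ
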