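import Pool.Agent.COSZ.Prp
import Pool.Agent.COSZ.ZCt
import Pool.Agent.COSZ.Mg
import Pool.Agent.COSZ.Brk

/-!
Module CORE. Selection of the range and conclusion. `M = |T|`, `b = |brk A h| ≥ 1`, `U = 250 M b Y`,
`κ = 80 M b`, `L1 = (U²)^(2i+1)`, `L2 = (U²)^(2i+2)`, `L3 = κ L1`, `W = L3 + 2 L1 + 1`.
`U² = 62500 M² b² Y²` is at least `51200 M nrm`, `κ`, and
`π W / L2 * nrm ≤ π (80 M b + 3) Y/U² ≤ π 83 M b Y/(62500 M² b² Y²) ≤ 1/(40 M)` (as `40 π 83 ≤ 10500`).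
By `count_G` and `Mg_bound` at most `320 · 5 E = 1600 E` ranges fail for the good part,
`E = EE A T h Q`, by `count_Z` at most `1921 M²` fail for the centre; as
`I > 1921 M² + 1600 E` some range `i < I` satisfies both. `prop_all` gives
`|A| ≤ |sp A| ≤ 2 L1 b ≤ 2 b U^(4i+2) ≤ 2 b U^(4I)`.
-/

open Finset MeasureTheory

noncomputable section

namespace COSZ

/-- arithmetic of the parameters -/
theorem core_arith (M b Y : ℕ) (hM : 1 ≤ M) (hb : 1 ≤ b) (hY : 1 ≤ Y) :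
    4 ≤ 250 * M * b * Y ∧ 80 * M * b ≤ (250 * M * b * Y) ^ 2 ∧
    62500 * (M * (M * (b * Y))) ≤ (250 * M * b * Y) ^ 2 ∧ 62500 * (M * Y) ≤ (250 * M * b * Y) ^ 2 := by
  have h1 : 1 ≤ M * b := Nat.one_le_iff_ne_zero.mpr (by positivity)
  have h2 : M * b ≤ M * b * Y := Nat.le_mul_of_pos_right _ hY
  have e : (250 * M * b * Y) ^ 2 = 62500 * (M * (M * (b * Y))) * (b * Y) := by ring
  have h3 : 1 ≤ b * Y := Nat.one_le_iff_ne_zero.mpr (by positivity)
  have h4 : 62500 * (M * (M * (b * Y))) ≤ (250 * M * b * Y) ^ 2 := by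
    rw [e]; exact Nat.le_mul_of_pos_right _ h3
  refine ⟨?_, ?_, h4, ?_⟩
  · have : 250 * M * b * Y = 250 * (M * b * Y) := by ring
    omega
  · have : 80 * M * b ≤ 250 * M * b * Y := by
      have e1 : 80 * M * b = 80 * (M * b) := by ring
      have e2 : 250 * M * b * Y = 250 * (M * b * Y) := by ring
      omega
    refine this.trans ?_
    exact Nat.le_self_pow (by norm_num) _
  · refine le_trans ?_ h4
    apply Nat.mul_le_mul_left
    have e1 : M * (M * (b * Y)) = (M * Y) * (M * b) := by ring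
    rw [e1]
    exact Nat.le_mul_of_pos_right _ h1

/-- the numerical condition on the slow variation -/
theorem core_slow (M b Y V N : ℝ) (hM : 1 ≤ M) (hb : 1 ≤ b) (hY : 1 ≤ Y) (hN : N ≤ Y) (hN0 : 0 ≤ N)
    (hV : 62500 * (M * (M * (b * Y))) ≤ V) :
    Real.pi * (80 * M * b + 3) / V * N ≤ 1 / (40 * M) := by
  have hV0 : 0 < V := lt_of_lt_of_le (by positivity) hV
  have h3 : 80 * M * b + 3 ≤ 83 * (M * b) := by nlinarith [mul_le_mul hM hb (by norm_num) (by linarith)]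
  rw [div_mul_eq_mul_div, div_le_div_iff₀ hV0 (by positivity)]
  have hpi : Real.pi ≤ 3.15 := by linarith [Real.pi_lt_d2]
  have hpi0 := Real.pi_pos
  calc Real.pi * (80 * M * b + 3) * N * (40 * M) ≤ 3.15 * (83 * (M * b)) * Y * (40 * M) := by
        gcongr
    _ = 10458 * (M * (M * (b * Y))) := by ring
    _ ≤ 62500 * (M * (M * (b * Y))) := by
        have : 0 ≤ M * (M * (b * Y)) := by positivity
        linarith
    _ ≤ 1 * V := by linarith

theorem core (A : Finset ℤ) (hA : A.Nonempty) (T : Finset ℝ) (hm : Marks A T) (h Q : ℕ) (hh : 1 ≤ h)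
    (hQ : 1 ≤ Q) (hd : ∀ t ∈ T, dn (h * t) ≤ 1 / Q) (Y : ℕ) (hY1 : 1 ≤ Y) (hY : nrm A ≤ Y) (I : ℕ)
    (hI : 1921 * (T.card:ℝ) ^ 2 + 1600 * EE A T h Q < I) :
    (A.card : ℝ) ≤ 2 * (brk A h).card * (250 * T.card * (brk A h).card * Y : ℝ) ^ (4 * I) := by
  classical
  have hT : 1 ≤ T.card := Finset.card_pos.mpr ⟨0, hm.zero_mem⟩
  have hb : 1 ≤ (brk A h).card := Finset.card_pos.mpr (brk_nonempty A hA h hh)
  obtain ⟨hU4, hκU, hU1, hU2⟩ := core_arith T.card (brk A h).card Y hT hb hY1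
  set M := T.card with hM
  set b := (brk A h).card with hbdef
  set U : ℕ := 250 * M * b * Y with hU
  set κ : ℕ := 80 * M * b with hκ
  have hκ1 : 1 ≤ κ := Nat.one_le_iff_ne_zero.mpr (by positivity)
  have hnrm := nrm_nonneg A
  have hMR : (1:ℝ) ≤ M := by exact_mod_cast hT
  have hbR : (1:ℝ) ≤ b := by exact_mod_cast hb
  have hYR : (1:ℝ) ≤ Y := by exact_mod_cast hY1
  have hU1R : 62500 * ((M:ℝ) * (M * (b * Y))) ≤ (U:ℝ) ^ 2 := by exact_mod_cast hU1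
  have hU2R : 62500 * ((M:ℝ) * Y) ≤ (U:ℝ) ^ 2 := by exact_mod_cast hU2
  have hbig : 51200 * (M:ℝ) * nrm A ≤ (U:ℝ) ^ 2 := by
    refine le_trans ?_ hU2R
    calc 51200 * (M:ℝ) * nrm A ≤ 62500 * M * Y := by gcongr; norm_num
      _ = 62500 * ((M:ℝ) * Y) := by ring
  have cZ := count_Z A T hm h U κ I hh hU4 hκ1 hκU hbig
  have hUU : 4 ≤ U ^ 2 := le_trans hU4 (Nat.le_self_pow (by norm_num) _)
  have cG := count_G A T h hh (U ^ 2) κ I hUU hκ1 hκU
  have mg := Mg_bound A T hm h Q hh hQ hd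
  -- selection
  obtain ⟨i, hiI, hiZ, hiG⟩ : ∃ i < I,
      dI A h ((U ^ 2) ^ (2 * i + 1)) ((U ^ 2) ^ (2 * i + 2)) (κ * (U ^ 2) ^ (2 * i + 1)) (fej h) ≤
        1 / (40 * (M:ℝ)) ∧
      dI A h ((U ^ 2) ^ (2 * i + 1)) ((U ^ 2) ^ (2 * i + 2)) (κ * (U ^ 2) ^ (2 * i + 1)) (Pg T h) ≤
        1 / 40 := by
    by_contra hcon
    push Not at hcon
    have hsub : range I ⊆ (range I).filter (fun i => 1 / (40 * (M:ℝ)) <
        dI A h ((U ^ 2) ^ (2 * i + 1)) ((U ^ 2) ^ (2 * i + 2)) (κ * (U ^ 2) ^ (2 * i + 1)) (fej h)) ∪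
        (range I).filter (fun i => 1 / 40 <
        dI A h ((U ^ 2) ^ (2 * i + 1)) ((U ^ 2) ^ (2 * i + 2)) (κ * (U ^ 2) ^ (2 * i + 1)) (Pg T h)) := by
      intro i hi
      rw [Finset.mem_union, Finset.mem_filter, Finset.mem_filter]
      by_cases hc : dI A h ((U ^ 2) ^ (2 * i + 1)) ((U ^ 2) ^ (2 * i + 2))
          (κ * (U ^ 2) ^ (2 * i + 1)) (fej h) ≤ 1 / (40 * (M:ℝ))
      · exact Or.inr ⟨hi, hcon i (Finset.mem_range.mp hi) hc⟩
      · exact Or.inl ⟨hi, not_le.mp hc⟩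
    have hc1 := (Finset.card_le_card hsub).trans (Finset.card_union_le _ _)
    rw [Finset.card_range] at hc1
    rw [← hM] at cZ
    have hc2 := (Nat.cast_le (α := ℝ)).mpr hc1
    rw [Nat.cast_add] at hc2
    linarith
  set L1 : ℕ := (U ^ 2) ^ (2 * i + 1) with hL1
  have hL2 : (U ^ 2) ^ (2 * i + 2) = U ^ 2 * L1 := by rw [hL1]; ring
  rw [hL2] at hiZ hiG
  have hU0 : 0 < U := by omega
  have hL11 : 1 ≤ L1 := Nat.one_le_iff_ne_zero.mpr (by positivity)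
  have hL1R : (1:ℝ) ≤ L1 := by exact_mod_cast hL11
  have hsel : Sel A T h L1 (U ^ 2 * L1) (κ * L1) (κ * L1 + 2 * L1 + 1) := by
    refine ⟨hh, hL11, Nat.le_mul_of_pos_left _ hκ1, Nat.mul_le_mul_right _ hκU, hT, hiZ, hiG, ?_,
      le_rfl, ?_⟩
    · have hUR : (0:ℝ) < (U:ℝ) ^ 2 := by positivity
      refine le_trans ?_ (core_slow M b Y ((U:ℝ) ^ 2) (nrm A) hMR hbR hYR hY hnrm hU1R)
      have e1 : (((κ * L1 + 2 * L1 + 1 : ℕ)) : ℝ) ≤ (80 * M * b + 3) * L1 := by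
        rw [hκ]
        push_cast
        nlinarith
      have hpi := Real.pi_pos
      have e2 : Real.pi * (80 * (M:ℝ) * b + 3) / (U:ℝ) ^ 2 =
          Real.pi * ((80 * M * b + 3) * L1) / ((U ^ 2 * L1 : ℕ) : ℝ) := by
        push_cast
        field_simp
      rw [e2]
      gcongr
    · rw [hκ]
  have hfin := prop_all A T h L1 (U ^ 2 * L1) (κ * L1) (κ * L1 + 2 * L1 + 1) hsel
  have h1 : (A.card : ℝ) ≤ 2 * L1 * b := by
    exact_mod_cast (card_le_sp A).trans hfin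
  refine h1.trans ?_
  have h2 : L1 ≤ U ^ (4 * I) := by
    rw [hL1, ← pow_mul]
    exact Nat.pow_le_pow_right hU0 (by omega)
  have h3 : (L1:ℝ) ≤ (250 * (M:ℝ) * b * Y) ^ (4 * I) := by
    have : (L1:ℝ) ≤ (U:ℝ) ^ (4 * I) := by exact_mod_cast h2
    rw [hU] at this
    push_cast at this
    exact this
  calc 2 * (L1:ℝ) * b = 2 * b * L1 := by ring
    _ ≤ 2 * b * (250 * (M:ℝ) * b * Y) ^ (4 * I) := by gcongr

end COSZ
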