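import Mathlib

/-!
Definitions for the lower bound of the number of zeros of cosine sums (MP_78a764_an).
-/

open Finset MeasureTheory

noncomputable section

namespace COSZ

/-- the exponential with period one -/
def e (x : ℝ) : ℂ := Complex.exp (2 * Real.pi * x * Complex.I)

/-- the cosine sum of a finite set of integers -/
def cs (A : Finset ℤ) (θ : ℝ) : ℝ := ∑ a ∈ A, Real.cos (2 * Real.pi * a * θ)

/-- its coefficients: `cs A θ = ∑ fh A k * cos (2 π k θ)`, an even function of `k` -/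
def fh (A : Finset ℤ) (k : ℤ) : ℝ := ((if k ∈ A then 1 else 0) + (if -k ∈ A then 1 else 0)) / 2

/-- the set where `fh A` does not vanish -/
def sp (A : Finset ℤ) : Finset ℤ := A ∪ A.image (fun a => -a)

/-- coefficients of the Fejér kernel of length `L` with value one at zero -/
def KL (L : ℕ) (j : ℤ) : ℝ := max 0 (1 - |(j : ℝ)| / L) / L

/-- the Fejér kernel of length `L` with value one at zero -/
def fej (L : ℕ) (θ : ℝ) : ℝ := ‖∑ l ∈ range L, e (l * θ)‖ ^ 2 / (L : ℝ) ^ 2

/-- distance to the nearest integer -/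
def dn (x : ℝ) : ℝ := ‖(x : UnitAddCircle)‖

/-- the norm in `L¹` of the cosine sum -/
def nrm (A : Finset ℤ) : ℝ := ∫ θ in (0:ℝ)..1, |cs A θ|

/-- `T` contains zero, one and all the zeros in `[0, 1]` -/
structure Marks (A : Finset ℤ) (T : Finset ℝ) : Prop where
  zero_mem : (0:ℝ) ∈ T
  one_mem : (1:ℝ) ∈ T
  sub : ∀ t ∈ T, 0 ≤ t ∧ t ≤ 1
  zeros : ∀ θ : ℝ, 0 ≤ θ → θ ≤ 1 → cs A θ = 0 → θ ∈ T

/-- the places where the coefficients change along the step `h` -/
def brk (A : Finset ℤ) (h : ℕ) : Finset ℤ :=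
  (sp A ∪ (sp A).image (fun k => k + (h:ℤ))).filter (fun k => fh A k ≠ fh A (k - h))

/-- the residues `a` modulo `h` such that `a / h` is near a mark -/
def Bd (T : Finset ℝ) (h : ℕ) : Finset ℕ := T.image (fun t => (round ((h:ℝ) * t) % (h:ℤ)).toNat)

/-- sum of the kernels centred at the good fractions -/
def Pg (T : Finset ℝ) (h : ℕ) (θ : ℝ) : ℝ :=
  ∑ a ∈ (range h).filter (fun a => a ∉ Bd T h), fej h (θ - (a:ℝ) / h)

/-- sum of the kernels centred at the bad fractions -/
def Pb (T : Finset ℝ) (h : ℕ) (θ : ℝ) : ℝ :=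
  ∑ a ∈ (range h).filter (fun a => a ∈ Bd T h), fej h (θ - (a:ℝ) / h)

/-- the coefficient at `k` of the cosine sum times a kernel of scale `L` times a window -/
def wi (A : Finset ℤ) (h L : ℕ) (W : ℝ → ℝ) (k : ℤ) : ℝ :=
  ∫ θ in (0:ℝ)..1, cs A θ * Real.cos (2 * Real.pi * k * θ) * fej L (h * θ) * W θ

/-- differences of the kernels with three scales -/
def dif (L1 L2 L3 : ℕ) (v : ℝ) : ℝ := |fej L1 v - fej L2 v| + |fej L3 v - fej L2 v|

/-- the mass of the cosine sum seen by these differences in a window -/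
def dI (A : Finset ℤ) (h L1 L2 L3 : ℕ) (W : ℝ → ℝ) : ℝ :=
  ∫ θ in (0:ℝ)..1, |cs A θ| * dif L1 L2 L3 (h * θ) * W θ

/-- trapezoid on `[0, β]`, equal to one on `[0, β/2]` -/
def tr (β θ : ℝ) : ℝ := min 1 (max 0 (2 - 2 * θ / β))

/-- the quantity controlling everything -/
def EE (A : Finset ℤ) (T : Finset ℝ) (h Q : ℕ) : ℝ :=
  5 * Real.sqrt T.card * (1 + Real.log h) + nrm A / Q

/-- inner radius of the annulus of the range number `i` -/
def rin (h U i : ℕ) : ℝ := 4 / (h * (U:ℝ) ^ (4 * i + 5))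

/-- outer radius of the annulus of the range number `i` -/
def rout (h U i : ℕ) : ℝ := 1 / (4 * h * (U:ℝ) ^ (4 * i + 1))

/-- the range number `i` is bad when a mark is too close to the annulus -/
def BadI (T : Finset ℝ) (h U i : ℕ) : Prop := ∃ t ∈ T, rin h U i / 2 < t ∧ t < 2 * rout h U i

end COSZ
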