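import Pool.Agent.COSZ.FejB

/-!
Module DIF. Pointwise bounds for the differences: both kernels are in `[0,1]`, at least
`1 - 20 L2² dn²`, at most `1/(4 L1² dn²)`.
-/

open Finset MeasureTheory

noncomputable section

namespace COSZ

theorem dif_nonneg (L1 L2 L3 : ℕ) (v : ℝ) : 0 ≤ dif L1 L2 L3 v := by
  unfold dif
  positivity
theorem dif_cont (L1 L2 L3 : ℕ) : Continuous (dif L1 L2 L3) := by
  unfold dif
  have h1 := fej_cont L1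
  have h2 := fej_cont L2
  have h3 := fej_cont L3
  exact ((h1.sub h2).abs).add ((h3.sub h2).abs)
theorem dif_le_two (L1 L2 L3 : ℕ) (v : ℝ) : dif L1 L2 L3 v ≤ 2 := by
  unfold dif
  have a1 := fej_nonneg L1 v
  have a2 := fej_nonneg L2 v
  have a3 := fej_nonneg L3 v
  have b1 := fej_le_one L1 v
  have b2 := fej_le_one L2 v
  have b3 := fej_le_one L3 v
  have h1 : |fej L1 v - fej L2 v| ≤ 1 := by
    rw [abs_le]; constructor <;> linarith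
  have h2 : |fej L3 v - fej L2 v| ≤ 1 := by
    rw [abs_le]; constructor <;> linarith
  linarith

theorem dif_aux_low (L L2 : ℕ) (h1 : 1 ≤ L) (h2 : L ≤ L2) (v : ℝ) :
    1 - fej L v ≤ 20 * (L2:ℝ) ^ 2 * (dn v) ^ 2 := by
  have h := fej_low L h1 v
  have hc : (L:ℝ) ≤ L2 := by exact_mod_cast h2
  have hc0 : (0:ℝ) ≤ L := by positivity
  have : (L:ℝ) ^ 2 ≤ (L2:ℝ) ^ 2 := by nlinarith
  have h3 : (L:ℝ) ^ 2 * (dn v) ^ 2 ≤ (L2:ℝ) ^ 2 * (dn v) ^ 2 :=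
    mul_le_mul_of_nonneg_right this (sq_nonneg _)
  nlinarith

theorem dif_aux_up (L1 L : ℕ) (h2 : L1 ≤ L) (v : ℝ) :
    4 * (L1:ℝ) ^ 2 * (dn v) ^ 2 * fej L v ≤ 1 := by
  have h := fej_up L v
  have hc : (L1:ℝ) ≤ L := by exact_mod_cast h2
  have hc0 : (0:ℝ) ≤ L1 := by positivity
  have : (L1:ℝ) ^ 2 ≤ (L:ℝ) ^ 2 := by nlinarith
  have h3 : (L1:ℝ) ^ 2 * ((dn v) ^ 2 * fej L v) ≤ (L:ℝ) ^ 2 * ((dn v) ^ 2 * fej L v) :=
    mul_le_mul_of_nonneg_right this (mul_nonneg (sq_nonneg _) (fej_nonneg L v))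
  nlinarith
theorem dif_in (L1 L2 L3 : ℕ) (h1 : 1 ≤ L1) (h13 : L1 ≤ L3) (h32 : L3 ≤ L2) (v : ℝ) :
    dif L1 L2 L3 v ≤ 40 * (L2:ℝ) ^ 2 * (dn v) ^ 2 := by
  unfold dif
  have a1 := dif_aux_low L1 L2 h1 (h13.trans h32) v
  have a2 := dif_aux_low L2 L2 (h1.trans (h13.trans h32)) le_rfl v
  have a3 := dif_aux_low L3 L2 (h1.trans h13) h32 v
  have b1 := fej_le_one L1 v
  have b2 := fej_le_one L2 v
  have b3 := fej_le_one L3 v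
  have h1 : |fej L1 v - fej L2 v| ≤ 20 * (L2:ℝ) ^ 2 * (dn v) ^ 2 := by
    rw [abs_le]; constructor <;> linarith
  have h2 : |fej L3 v - fej L2 v| ≤ 20 * (L2:ℝ) ^ 2 * (dn v) ^ 2 := by
    rw [abs_le]; constructor <;> linarith
  linarith
theorem dif_out (L1 L2 L3 : ℕ) (h1 : 1 ≤ L1) (h13 : L1 ≤ L3) (h32 : L3 ≤ L2) (v : ℝ) :
    2 * (L1:ℝ) ^ 2 * (dn v) ^ 2 * dif L1 L2 L3 v ≤ 1 := by
  unfold dif
  have a1 := dif_aux_up L1 L1 le_rfl v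
  have a2 := dif_aux_up L1 L2 (h13.trans h32) v
  have a3 := dif_aux_up L1 L3 h13 v
  have b1 := fej_nonneg L1 v
  have b2 := fej_nonneg L2 v
  have b3 := fej_nonneg L3 v
  have hc : 0 ≤ 4 * (L1:ℝ) ^ 2 * (dn v) ^ 2 := by positivity
  have c1 := mul_nonneg hc b1
  have c2 := mul_nonneg hc b2
  have c3 := mul_nonneg hc b3
  have key : ∀ x y : ℝ, 4 * (L1:ℝ) ^ 2 * (dn v) ^ 2 * x ≤ 1 → 4 * (L1:ℝ) ^ 2 * (dn v) ^ 2 * y ≤ 1 →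
      0 ≤ 4 * (L1:ℝ) ^ 2 * (dn v) ^ 2 * x → 0 ≤ 4 * (L1:ℝ) ^ 2 * (dn v) ^ 2 * y →
      4 * (L1:ℝ) ^ 2 * (dn v) ^ 2 * |x - y| ≤ 1 := by
    intro x y hx hy hx0 hy0
    rcases abs_cases (x - y) with ⟨h, -⟩ | ⟨h, -⟩
    · rw [h]; linarith
    · rw [h]; linarith
  have k1 := key _ _ a1 a2 c1 c2
  have k2 := key _ _ a3 a2 c3 c2
  linarith

end COSZ
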