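import Pool.Agent.COSZ.Bas

/-!
Module DIR. Simultaneous approximation (Dirichlet): pigeonhole for the points
`i ∈ {0, ..., Q^|T|}` sent to `t ↦ ⌊Q fract (i t)⌋ ∈ {0,...,Q-1}`; two of them coincide, their difference
is `h`.
-/

open Finset MeasureTheory

noncomputable section

namespace COSZ

theorem dirichlet (T : Finset ℝ) (Q : ℕ) (hQ : 1 ≤ Q) :
    ∃ h : ℕ, 1 ≤ h ∧ h ≤ Q ^ T.card ∧ ∀ t ∈ T, dn (h * t) ≤ 1 / Q := by
  classical
  have hQ0 : (0 : ℝ) < Q := by exact_mod_cast hQ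
  have hlt : ∀ x : ℝ, ⌊(Q : ℝ) * Int.fract x⌋₊ < Q := by
    intro x
    rw [Nat.floor_lt (by have := Int.fract_nonneg x; positivity)]
    have := Int.fract_lt_one x
    nlinarith
  let f : Fin (Q ^ T.card + 1) → (T → Fin Q) := fun i t => ⟨⌊(Q : ℝ) * Int.fract (i.1 * t.1)⌋₊, hlt _⟩
  have hcard : Fintype.card (T → Fin Q) < Fintype.card (Fin (Q ^ T.card + 1)) := by
    rw [Fintype.card_fun, Fintype.card_fin, Fintype.card_fin, Fintype.card_coe]
    exact Nat.lt_succ_self _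
  have key : ∀ i j : Fin (Q ^ T.card + 1), i < j → f i = f j →
      ∃ h : ℕ, 1 ≤ h ∧ h ≤ Q ^ T.card ∧ ∀ t ∈ T, dn (h * t) ≤ 1 / Q := by
    intro i j hij hf
    have hij' : i.1 < j.1 := hij
    refine ⟨j.1 - i.1, by omega, by have := j.2; omega, ?_⟩
    intro t ht
    have h1 := congrFun hf ⟨t, ht⟩
    have h2 : ⌊(Q : ℝ) * Int.fract (i.1 * t)⌋₊ = ⌊(Q : ℝ) * Int.fract (j.1 * t)⌋₊ :=
      congrArg Fin.val h1
    have h3 : ∀ x : ℝ, (⌊(Q : ℝ) * Int.fract x⌋₊ : ℝ) ≤ Q * Int.fract x := fun x =>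
      Nat.floor_le (by have := Int.fract_nonneg x; positivity)
    have h4 : ∀ x : ℝ, (Q : ℝ) * Int.fract x < (⌊(Q : ℝ) * Int.fract x⌋₊ : ℝ) + 1 := fun x =>
      Nat.lt_floor_add_one _
    have a1 := h3 (i.1 * t)
    have a2 := h4 (i.1 * t)
    have a3 := h3 (j.1 * t)
    have a4 := h4 (j.1 * t)
    rw [h2] at a1 a2
    have h5 : |Int.fract ((j.1 : ℝ) * t) - Int.fract (i.1 * t)| ≤ 1 / Q := by
      rw [abs_le]
      have b5 : (1 : ℝ) / Q * Q = 1 := div_mul_cancel₀ _ hQ0.ne'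
      constructor
      · rw [← sub_nonneg, ← mul_nonneg_iff_of_pos_right hQ0]
        nlinarith
      · rw [← sub_nonneg, ← mul_nonneg_iff_of_pos_right hQ0]
        nlinarith
    have h6 : (((j.1 - i.1 : ℕ) : ℝ)) * t = (Int.fract ((j.1 : ℝ) * t) - Int.fract (i.1 * t)) +
        ((⌊(j.1 : ℝ) * t⌋ - ⌊(i.1 : ℝ) * t⌋ : ℤ) : ℝ) := by
      rw [Nat.cast_sub hij'.le]
      push_cast
      have b1 := Int.self_sub_floor ((j.1 : ℝ) * t)
      have b2 := Int.self_sub_floor ((i.1 : ℝ) * t)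
      linarith
    rw [h6, dn_add_int]
    exact (dn_le_abs _).trans h5
  obtain ⟨i, j, hne, hf⟩ := Fintype.exists_ne_map_eq_of_card_lt f hcard
  rcases lt_or_gt_of_ne hne with h | h
  · exact key i j h hf
  · exact key j i h hf.symm

end COSZ
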