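import Pool.Agent.COSZ.ArcD

/-!
Module FBR. The function `cs A θ (1 - e(hθ))`. `F_expand`: multiply `cs_eq_complex`, shift the second
sum by `h`; the coefficient at `k` is `fh A k - fh A (k-h)`, zero outside `brk A h`.
`F_int`: `|1 - e(hθ)| = 2|sin πhθ| ≤ 2|sin πh(θ-t)| + 2|sin πht| ≤ 2π (min 1 (h|θ-t|) + 1/Q)` for the
nearest `t ∈ T`; then `arcs` with `K = h`.
-/

open Finset MeasureTheory

noncomputable section

namespace COSZ

theorem F_expand (A : Finset ℤ) (h : ℕ) (θ : ℝ) :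
    ((cs A θ : ℝ) : ℂ) * (1 - e (h * θ)) =
      ∑ k ∈ brk A h, ((fh A k - fh A (k - h) : ℝ) : ℂ) * e (k * θ) := by
  classical
  set U := sp A ∪ (sp A).image (fun k => k + (h:ℤ)) with hU
  have hz : ∀ k, k ∉ sp A → fh A k = 0 := fun k hk => by
    by_contra hne
    exact hk ((mem_sp A k).2 hne)
  have h1 : ∑ j ∈ sp A, (fh A j : ℂ) * e (j * θ) = ∑ k ∈ U, (fh A k : ℂ) * e (k * θ) := by
    refine Finset.sum_subset Finset.subset_union_left (fun k _ hk => ?_)
    rw [hz k hk, Complex.ofReal_zero, zero_mul]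
  have h2 : ∑ j ∈ sp A, (fh A j : ℂ) * e (j * θ) * e (h * θ) =
      ∑ k ∈ U, (fh A (k - h) : ℂ) * e (k * θ) := by
    have h3 : ∑ k ∈ U, (fh A (k - h) : ℂ) * e (k * θ) =
        ∑ k ∈ (sp A).image (fun k => k + (h:ℤ)), (fh A (k - h) : ℂ) * e (k * θ) := by
      symm
      refine Finset.sum_subset Finset.subset_union_right (fun k _ hk => ?_)
      have : k - h ∉ sp A := fun hs => hk (Finset.mem_image.2 ⟨k - h, hs, by ring⟩)
      rw [hz _ this, Complex.ofReal_zero, zero_mul]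
    rw [h3, Finset.sum_image (fun a _ b _ hab => by simpa using hab)]
    refine Finset.sum_congr rfl (fun j _ => ?_)
    rw [mul_assoc, ← e_add, add_sub_cancel_right]
    congr 2
    push_cast
    ring
  rw [cs_eq_complex, mul_sub, mul_one, Finset.sum_mul, h2, h1, ← Finset.sum_sub_distrib]
  have h4 : ∀ k, (fh A k : ℂ) * e (k * θ) - (fh A (k - h) : ℂ) * e (k * θ) =
      ((fh A k - fh A (k - h) : ℝ) : ℂ) * e (k * θ) := by
    intro k
    push_cast
    ring
  simp only [h4]
  symm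
  unfold brk
  refine Finset.sum_subset (Finset.filter_subset _ _) (fun k hk hk' => ?_)
  have : fh A k = fh A (k - h) := by
    by_contra hne
    exact hk' (Finset.mem_filter.2 ⟨hk, hne⟩)
  rw [this, sub_self, Complex.ofReal_zero, zero_mul]

private lemma fbr_point (T : Finset ℝ) (hT : T.Nonempty) (h Q : ℕ)
    (hd : ∀ t ∈ T, dn (h * t) ≤ 1 / Q) (θ : ℝ) :
    ‖(1 - e (h * θ) : ℂ)‖ ≤
      2 * Real.pi * (min 1 (h * Metric.infDist θ (T : Set ℝ)) + 1 / Q) := by
  have hpi := Real.pi_pos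
  obtain ⟨t, ht, hdist⟩ := T.finite_toSet.isCompact.exists_infDist_eq_dist
    (by exact_mod_cast hT) θ
  rw [norm_sub_rev, norm_e_sub_one, hdist]
  have h1 : Real.sin (Real.pi * (h * θ)) = Real.sin (Real.pi * (h * (θ - t))) * Real.cos (Real.pi * (h * t)) +
      Real.cos (Real.pi * (h * (θ - t))) * Real.sin (Real.pi * (h * t)) := by
    rw [← Real.sin_add]
    congr 1
    ring
  have h2 : |Real.sin (Real.pi * (h * θ))| ≤ |Real.sin (Real.pi * (h * (θ - t)))| +
      |Real.sin (Real.pi * (h * t))| := by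
    rw [h1]
    refine (abs_add_le _ _).trans ?_
    rw [abs_mul, abs_mul]
    have c1 := Real.abs_cos_le_one (Real.pi * (h * t))
    have c2 := Real.abs_cos_le_one (Real.pi * (h * (θ - t)))
    have s1 := abs_nonneg (Real.sin (Real.pi * (h * (θ - t))))
    have s2 := abs_nonneg (Real.sin (Real.pi * (h * t)))
    nlinarith
  have h3 : |Real.sin (Real.pi * (h * t))| ≤ Real.pi * (1 / Q) :=
    (sin_le_dn _).trans (mul_le_mul_of_nonneg_left (hd t ht) hpi.le)
  have h4 : |Real.sin (Real.pi * (h * (θ - t)))| ≤ Real.pi * min 1 (h * dist θ t) := by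
    have h5 : |Real.sin (Real.pi * (h * (θ - t)))| ≤ 1 := Real.abs_sin_le_one _
    have h6 : |Real.sin (Real.pi * (h * (θ - t)))| ≤ Real.pi * (h * dist θ t) := by
      refine (sin_le_dn _).trans (mul_le_mul_of_nonneg_left ?_ hpi.le)
      refine (dn_le_abs _).trans ?_
      rw [abs_mul, Nat.abs_cast, Real.dist_eq]
    rcases le_total 1 ((h : ℝ) * dist θ t) with h7 | h7
    · rw [min_eq_left h7, mul_one]
      linarith [Real.pi_gt_three]
    · rw [min_eq_right h7]
      exact h6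
  linarith

theorem F_int (A : Finset ℤ) (T : Finset ℝ) (hm : Marks A T) (h Q : ℕ) (hh : 1 ≤ h) (hQ : 1 ≤ Q)
    (hd : ∀ t ∈ T, dn (h * t) ≤ 1 / Q) :
    ∫ θ in (0:ℝ)..1, ‖((cs A θ : ℝ) : ℂ) * (1 - e (h * θ))‖ ≤ 2 * Real.pi * EE A T h Q := by
  have hT : T.Nonempty := ⟨0, hm.zero_mem⟩
  have hcs := cs_cont A
  have hc1 : Continuous (fun θ : ℝ => ‖((cs A θ : ℝ) : ℂ) * (1 - e (h * θ))‖) :=
    ((Complex.continuous_ofReal.comp hcs).mul
      (continuous_const.sub (e_cont.comp (by fun_prop)))).norm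
  have hc2 : Continuous (fun θ : ℝ => |cs A θ| * min 1 (h * Metric.infDist θ (T : Set ℝ))) :=
    hcs.abs.mul (continuous_const.min (continuous_const.mul (Metric.continuous_infDist_pt _)))
  have hc3 : Continuous (fun θ : ℝ => |cs A θ|) := hcs.abs
  have h1 : ∫ θ in (0:ℝ)..1, ‖((cs A θ : ℝ) : ℂ) * (1 - e (h * θ))‖ ≤
      ∫ θ in (0:ℝ)..1, (2 * Real.pi * (|cs A θ| * min 1 (h * Metric.infDist θ (T : Set ℝ))) +
        2 * Real.pi * (1 / Q) * |cs A θ|) := by
    refine intervalIntegral.integral_mono_on (by norm_num) (hc1.intervalIntegrable 0 1)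
      (((continuous_const.mul hc2).add (continuous_const.mul hc3)).intervalIntegrable 0 1)
      (fun θ _ => ?_)
    rw [norm_mul, Complex.norm_real, Real.norm_eq_abs]
    have := mul_le_mul_of_nonneg_left (fbr_point T hT h Q hd θ) (abs_nonneg (cs A θ))
    linarith
  refine h1.trans ?_
  have hi1 : IntervalIntegrable (fun θ : ℝ => 2 * Real.pi * (|cs A θ| * min 1 (h * Metric.infDist θ (T : Set ℝ))))
      volume 0 1 := (continuous_const.mul hc2).intervalIntegrable 0 1
  have hi2 : IntervalIntegrable (fun θ : ℝ => 2 * Real.pi * (1 / Q) * |cs A θ|) volume 0 1 :=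
    (continuous_const.mul hc3).intervalIntegrable 0 1
  rw [intervalIntegral.integral_add hi1 hi2, intervalIntegral.integral_const_mul,
    intervalIntegral.integral_const_mul]
  have h2 := arcs A T hm h hh
  have h3 : ∫ θ in (0:ℝ)..1, |cs A θ| = nrm A := rfl
  rw [h3]
  unfold EE
  have h4 := mul_le_mul_of_nonneg_left h2 (by positivity : (0:ℝ) ≤ 2 * Real.pi)
  have h5 : 2 * Real.pi * (1 / (Q : ℝ)) * nrm A = 2 * Real.pi * (nrm A / Q) := by ring
  rw [h5]
  linarith

end COSZ
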