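import Pool.Agent.COSZ.Bas

/-!
Module FEJA. The Fejér kernel: expansion in cosines and first properties.
Proof of the expansion: with `S_L = ∑_{l<L} e(lθ)` one has
`|S_{L+1}|² = |S_L|² + 1 + 2 ∑_{j=1}^{L} cos(2πjθ)` and the coefficients satisfy
`(L+1)² KL (L+1) j = L² KL L j + 1` for `|j| ≤ L` (both are `L - |j|`, `L + 1 - |j|`); induction.
-/

open Finset MeasureTheory

noncomputable section

namespace COSZ

private lemma fejA_Ioo (L : ℕ) (hL : 1 ≤ L) (f : ℤ → ℝ) :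
    ∑ j ∈ Finset.Ioo (-((L + 1 : ℕ):ℤ)) ((L + 1 : ℕ):ℤ), f j =
      (∑ j ∈ Finset.Ioo (-(L:ℤ)) L, f j) + f L + f (-(L:ℤ)) := by
  have h1 : Finset.Ioo (-((L + 1 : ℕ):ℤ)) ((L + 1 : ℕ):ℤ) =
      insert (-(L:ℤ)) (insert (L:ℤ) (Finset.Ioo (-(L:ℤ)) L)) := by
    ext j
    simp only [Finset.mem_Ioo, Finset.mem_insert]
    push_cast
    omega
  rw [h1, Finset.sum_insert, Finset.sum_insert]
  · ring
  · simp
  · simp only [Finset.mem_insert, Finset.mem_Ioo]
    omega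

private lemma fejA_cos (L : ℕ) (θ : ℝ) :
    ∑ j ∈ Finset.Ioo (-((L + 1 : ℕ):ℤ)) ((L + 1 : ℕ):ℤ), Real.cos (2 * Real.pi * j * θ) =
      1 + 2 * ∑ l ∈ range L, Real.cos (2 * Real.pi * ((l + 1 : ℕ) : ℝ) * θ) := by
  induction L with
  | zero =>
    have h1 : Finset.Ioo (-((0 + 1 : ℕ):ℤ)) ((0 + 1 : ℕ):ℤ) = {0} := by
      ext j
      simp only [Finset.mem_Ioo, Finset.mem_singleton]
      push_cast
      omega
    rw [h1]
    simp
  | succ L ih =>
    rw [fejA_Ioo (L + 1) (by omega), ih, Finset.sum_range_succ]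
    have h2 : (2 * Real.pi * ((-((L + 1 : ℕ):ℤ) : ℤ) : ℝ) * θ) =
        -(2 * Real.pi * ((L + 1 : ℕ) : ℝ) * θ) := by
      push_cast
      ring
    rw [h2, Real.cos_neg]
    push_cast
    ring

private lemma fejA_sq (L : ℕ) (hL : 1 ≤ L) (θ : ℝ) :
    ‖∑ l ∈ range L, e (l * θ)‖ ^ 2 =
      ∑ j ∈ Finset.Ioo (-(L:ℤ)) L, ((L:ℝ) - |(j:ℝ)|) * Real.cos (2 * Real.pi * j * θ) := by
  induction L, hL using Nat.le_induction with
  | base =>
    have h1 : Finset.Ioo (-((1 : ℕ):ℤ)) ((1 : ℕ):ℤ) = {0} := by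
      ext j
      simp only [Finset.mem_Ioo, Finset.mem_singleton]
      push_cast
      omega
    rw [h1]
    simp [e_zero]
  | succ L hL ih =>
    have h0 : ‖∑ l ∈ range (L + 1), e (l * θ)‖ ^ 2 = ‖∑ l ∈ range L, e (l * θ)‖ ^ 2 +
        (1 + 2 * ∑ l ∈ range L, Real.cos (2 * Real.pi * ((l + 1 : ℕ) : ℝ) * θ)) := by
      rw [Finset.sum_range_succ, ← Complex.normSq_eq_norm_sq, Complex.normSq_add,
        Complex.normSq_eq_norm_sq, Complex.normSq_eq_norm_sq, norm_e]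
      have h3 : ((∑ l ∈ range L, e (l * θ)) * (starRingEnd ℂ) (e (L * θ))).re =
          ∑ l ∈ range L, Real.cos (2 * Real.pi * ((l + 1 : ℕ) : ℝ) * θ) := by
        rw [Finset.sum_mul, Complex.re_sum, ← Finset.sum_range_reflect]
        refine Finset.sum_congr rfl fun l hl => ?_
        rw [Finset.mem_range] at hl
        rw [← e_neg, ← e_add, e_re]
        have h4 : ((L - 1 - l : ℕ) : ℝ) = (L : ℝ) - 1 - l := by
          rw [Nat.sub_sub, Nat.cast_sub (by omega)]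
          push_cast
          ring
        rw [h4, ← Real.cos_neg]
        congr 1
        push_cast
        ring
      rw [h3]
      ring
    rw [h0, ih, ← fejA_cos, fejA_Ioo L hL, fejA_Ioo L hL, ← add_assoc, ← add_assoc,
      ← Finset.sum_add_distrib]
    have h5 : ∑ j ∈ Finset.Ioo (-(L:ℤ)) L, (((L:ℝ) - |(j:ℝ)|) * Real.cos (2 * Real.pi * j * θ) +
        Real.cos (2 * Real.pi * j * θ)) = ∑ j ∈ Finset.Ioo (-(L:ℤ)) L,
          (((L + 1 : ℕ):ℝ) - |(j:ℝ)|) * Real.cos (2 * Real.pi * j * θ) := by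
      refine Finset.sum_congr rfl fun j _ => ?_
      push_cast
      ring
    rw [h5]
    have h6 : |(((L:ℕ):ℤ):ℝ)| = L := by
      rw [Int.cast_natCast, abs_of_nonneg (Nat.cast_nonneg L)]
    have h7 : |((-((L:ℕ):ℤ):ℤ):ℝ)| = L := by
      rw [Int.cast_neg, abs_neg, h6]
    rw [h6, h7]
    push_cast
    ring

theorem fej_expand (L : ℕ) (hL : 1 ≤ L) (θ : ℝ) :
    fej L θ = ∑ j ∈ Finset.Ioo (-(L:ℤ)) L, KL L j * Real.cos (2 * Real.pi * j * θ) := by
  unfold fej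
  have hL' : (L:ℝ) ≠ 0 := by
    have : (0:ℝ) < L := by exact_mod_cast hL
    exact this.ne'
  rw [fejA_sq L hL, Finset.sum_div]
  refine Finset.sum_congr rfl fun j hj => ?_
  rw [Finset.mem_Ioo] at hj
  have h1 : |(j:ℝ)| < L := by
    rw [abs_lt]
    constructor
    · have := hj.1
      have h2 : ((-(L:ℤ) : ℤ) : ℝ) < j := by exact_mod_cast this
      simpa using h2
    · exact_mod_cast hj.2
  have h3 : 0 ≤ 1 - |(j:ℝ)| / L := by
    rw [sub_nonneg, div_le_one (lt_of_le_of_lt (abs_nonneg _) h1)]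
    exact h1.le
  unfold KL
  rw [max_eq_right h3]
  field_simp

theorem sum_KL (L : ℕ) (hL : 1 ≤ L) : ∑ j ∈ Finset.Ioo (-(L:ℤ)) L, KL L j = 1 := by
  have hL' : (L:ℝ) ≠ 0 := by
    have : (0:ℝ) < L := by exact_mod_cast hL
    exact this.ne'
  have h := fej_expand L hL 0
  have h1 : fej L 0 = 1 := by
    unfold fej
    simp [e_zero, hL']
  rw [h1] at h
  rw [h]
  refine Finset.sum_congr rfl fun j _ => ?_
  simp

theorem KL_nonneg (L : ℕ) (j : ℤ) : 0 ≤ KL L j := by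
  unfold KL
  positivity

theorem KL_le (L : ℕ) (j : ℤ) : KL L j ≤ 1 / L := by
  unfold KL
  refine div_le_div_of_nonneg_right ?_ (Nat.cast_nonneg L)
  refine max_le zero_le_one ?_
  have : 0 ≤ |(j:ℝ)| / L := by positivity
  linarith

theorem KL_neg (L : ℕ) (j : ℤ) : KL L (-j) = KL L j := by
  unfold KL
  rw [Int.cast_neg, abs_neg]

theorem KL_eq_zero (L : ℕ) (j : ℤ) (h : (L:ℤ) ≤ |j|) : KL L j = 0 := by
  unfold KL
  rcases Nat.eq_zero_or_pos L with h0 | h0
  · subst h0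
    simp
  · have hL : (0:ℝ) < L := by exact_mod_cast h0
    have h1 : (L:ℝ) ≤ |(j:ℝ)| := by exact_mod_cast h
    have h2 : 1 - |(j:ℝ)| / L ≤ 0 := by
      rw [sub_nonpos, one_le_div hL]
      exact h1
    rw [max_eq_left h2, zero_div]

theorem fej_nonneg (L : ℕ) (θ : ℝ) : 0 ≤ fej L θ := by
  unfold fej
  positivity

theorem fej_le_one (L : ℕ) (θ : ℝ) : fej L θ ≤ 1 := by
  unfold fej
  refine div_le_one_of_le₀ ?_ (by positivity)
  have h1 : ‖∑ l ∈ range L, e (l * θ)‖ ≤ L := by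
    refine (norm_sum_le _ _).trans ?_
    simp [norm_e]
  exact pow_le_pow_left₀ (norm_nonneg _) h1 2

theorem fej_cont (L : ℕ) : Continuous (fej L) := by
  unfold fej
  have h1 : Continuous fun θ : ℝ => ∑ l ∈ range L, e (l * θ) := by
    refine continuous_finsetSum _ fun l _ => ?_
    exact e_cont.comp (continuous_const.mul continuous_id)
  exact (h1.norm.pow 2).div_const _

theorem fej_add_int (L : ℕ) (θ : ℝ) (m : ℤ) : fej L (θ + m) = fej L θ := by
  unfold fej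
  have h1 : ∀ l ∈ range L, e (l * (θ + m)) = e (l * θ) := by
    intro l _
    have h2 : (l:ℝ) * (θ + m) = l * θ + ((l * m : ℤ) : ℝ) := by
      push_cast
      ring
    rw [h2, e_add, e_int, mul_one]
  rw [Finset.sum_congr rfl h1]

theorem fej_neg (L : ℕ) (θ : ℝ) : fej L (-θ) = fej L θ := by
  unfold fej
  have h1 : ∀ l ∈ range L, e (l * (-θ)) = (starRingEnd ℂ) (e (l * θ)) := by
    intro l _
    have h2 : (l:ℝ) * (-θ) = - (l * θ) := by ring
    rw [h2, e_neg]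
  rw [Finset.sum_congr rfl h1, ← map_sum, RCLike.norm_conj]

theorem fej_zero (L : ℕ) (hL : 1 ≤ L) : fej L 0 = 1 := by
  have hL' : (L:ℝ) ≠ 0 := by
    have : (0:ℝ) < L := by exact_mod_cast hL
    exact this.ne'
  unfold fej
  simp [e_zero, hL']

end COSZ
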