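import Pool.Agent.COSZ.FejA

/-!
Module FEJB. Pointwise bounds of the Fejér kernel.
`fej_up`: `|S_L| |e(θ) - 1| = |e(Lθ) - 1| ≤ 2` and `|e(θ) - 1| = 2|sin πθ| ≥ 4 dn θ`.
`fej_num`: same with `|e(Lθ) - 1| = 2|sin πLθ| ≤ 2 π dn (Lθ)`.
`fej_low`: `1 - fej L θ = ∑ KL L j (1 - cos 2πjθ)`, and
`1 - cos (2πjθ) = 2 sin² (πjθ) ≤ 2 (π |j| dn θ)² ≤ 20 L² dn²`.
-/

open Finset MeasureTheory

noncomputable section

namespace COSZ

private lemma fejB_geom (L : ℕ) (θ : ℝ) :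
    (∑ l ∈ range L, e (l * θ)) * (e θ - 1) = e (L * θ) - 1 := by
  induction L with
  | zero => simp [e_zero]
  | succ L ih =>
    rw [Finset.sum_range_succ, add_mul, ih]
    have h1 : (((L + 1 : ℕ) : ℝ)) * θ = L * θ + θ := by
      push_cast
      ring
    rw [h1, e_add]
    ring

private lemma fejB_key (L : ℕ) (θ : ℝ) :
    4 * (dn θ) ^ 2 * ‖∑ l ∈ range L, e (l * θ)‖ ^ 2 ≤ (Real.sin (Real.pi * (L * θ))) ^ 2 := by
  have h1 := congrArg norm (fejB_geom L θ)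
  rw [norm_mul, norm_e_sub_one, norm_e_sub_one] at h1
  have h2 := two_dn_le θ
  have h3 := dn_nonneg θ
  set S := ‖∑ l ∈ range L, e (l * θ)‖ with hS
  have hS0 : 0 ≤ S := norm_nonneg _
  have h4 : S * (2 * dn θ) ≤ |Real.sin (Real.pi * (L * θ))| := by
    have h5 : S * (2 * dn θ) ≤ S * |Real.sin (Real.pi * θ)| := mul_le_mul_of_nonneg_left h2 hS0
    linarith
  have h6 : (S * (2 * dn θ)) ^ 2 ≤ |Real.sin (Real.pi * (L * θ))| ^ 2 :=
    pow_le_pow_left₀ (by positivity) h4 2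
  rw [sq_abs] at h6
  calc 4 * (dn θ) ^ 2 * S ^ 2 = (S * (2 * dn θ)) ^ 2 := by ring
    _ ≤ _ := h6

private lemma fejB_eq (L : ℕ) (θ : ℝ) (hL : 1 ≤ L) :
    4 * (L:ℝ) ^ 2 * (dn θ) ^ 2 * fej L θ = 4 * (dn θ) ^ 2 * ‖∑ l ∈ range L, e (l * θ)‖ ^ 2 := by
  have hL' : (L:ℝ) ≠ 0 := by
    have : (0:ℝ) < L := by exact_mod_cast hL
    exact this.ne'
  unfold fej
  generalize ‖∑ l ∈ range L, e (l * θ)‖ = S
  field_simp

theorem fej_up (L : ℕ) (θ : ℝ) : 4 * (L:ℝ) ^ 2 * (dn θ) ^ 2 * fej L θ ≤ 1 := by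
  rcases Nat.eq_zero_or_pos L with h0 | h0
  · subst h0
    simp
  · rw [fejB_eq L θ h0]
    refine (fejB_key L θ).trans ?_
    exact Real.sin_sq_le_one _

theorem fej_num (L : ℕ) (θ : ℝ) :
    4 * (L:ℝ) ^ 2 * (dn θ) ^ 2 * fej L θ ≤ Real.pi ^ 2 * (dn (L * θ)) ^ 2 := by
  rcases Nat.eq_zero_or_pos L with h0 | h0
  · subst h0
    have : 0 ≤ Real.pi ^ 2 * (dn ((0:ℕ) * θ)) ^ 2 := by positivity
    simpa using this
  · rw [fejB_eq L θ h0]
    refine (fejB_key L θ).trans ?_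
    have h1 := sin_le_dn (L * θ)
    rw [← sq_abs, ← mul_pow]
    exact pow_le_pow_left₀ (abs_nonneg _) h1 2

theorem fej_low (L : ℕ) (hL : 1 ≤ L) (θ : ℝ) : 1 - fej L θ ≤ 20 * (L:ℝ) ^ 2 * (dn θ) ^ 2 := by
  rw [fej_expand L hL θ]
  have h0 : (1:ℝ) - ∑ j ∈ Finset.Ioo (-(L:ℤ)) L, KL L j * Real.cos (2 * Real.pi * j * θ) =
      ∑ j ∈ Finset.Ioo (-(L:ℤ)) L, KL L j * (1 - Real.cos (2 * Real.pi * j * θ)) := by
    have h1 := sum_KL L hL
    have h2 : ∑ j ∈ Finset.Ioo (-(L:ℤ)) L, KL L j * (1 - Real.cos (2 * Real.pi * j * θ)) =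
        ∑ j ∈ Finset.Ioo (-(L:ℤ)) L, (KL L j - KL L j * Real.cos (2 * Real.pi * j * θ)) := by
      refine Finset.sum_congr rfl fun j _ => ?_
      ring
    rw [h2, Finset.sum_sub_distrib, h1]
  rw [h0]
  have h1 : ∀ j ∈ Finset.Ioo (-(L:ℤ)) L, KL L j * (1 - Real.cos (2 * Real.pi * j * θ)) ≤
      KL L j * (20 * (L:ℝ) ^ 2 * (dn θ) ^ 2) := by
    intro j hj
    refine mul_le_mul_of_nonneg_left ?_ (KL_nonneg L j)
    rw [Finset.mem_Ioo] at hj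
    have h2 : |(j:ℝ)| ≤ L := by
      rw [abs_le]
      constructor
      · have := hj.1.le
        have h2 : ((-(L:ℤ) : ℤ) : ℝ) ≤ j := by exact_mod_cast this
        simpa using h2
      · exact_mod_cast hj.2.le
    have h3 : 1 - Real.cos (2 * Real.pi * j * θ) = 2 * (Real.sin (Real.pi * (j * θ))) ^ 2 := by
      have h4 : 2 * Real.pi * j * θ = 2 * (Real.pi * (j * θ)) := by ring
      rw [h4, Real.cos_two_mul]
      have := Real.sin_sq_add_cos_sq (Real.pi * (j * θ))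
      linarith
    rw [h3]
    have h5 : |Real.sin (Real.pi * (j * θ))| ≤ Real.pi * (L * dn θ) := by
      refine (sin_le_dn (j * θ)).trans ?_
      refine mul_le_mul_of_nonneg_left ?_ Real.pi_pos.le
      refine (dn_mul_le j θ).trans ?_
      exact mul_le_mul_of_nonneg_right h2 (dn_nonneg θ)
    have h6 : (Real.sin (Real.pi * (j * θ))) ^ 2 ≤ (Real.pi * (L * dn θ)) ^ 2 := by
      rw [← sq_abs]
      exact pow_le_pow_left₀ (abs_nonneg _) h5 2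
    have h7 : Real.pi ^ 2 ≤ 10 := by
      have := Real.pi_lt_d2
      have h8 := Real.pi_pos
      nlinarith
    have h9 : (Real.pi * (L * dn θ)) ^ 2 ≤ 10 * (L * dn θ) ^ 2 := by
      rw [mul_pow]
      exact mul_le_mul_of_nonneg_right h7 (by positivity)
    calc 2 * (Real.sin (Real.pi * (j * θ))) ^ 2 ≤ 2 * (10 * (L * dn θ) ^ 2) := by linarith
      _ = 20 * (L:ℝ) ^ 2 * (dn θ) ^ 2 := by ring
  refine (Finset.sum_le_sum h1).trans ?_
  rw [← Finset.sum_mul, sum_KL L hL, one_mul]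

end COSZ
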