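import Pool.Agent.COSZ.FejA

/-!
Module FEJD. Integrals of products of cosines with kernels: use `fej_expand` and orthogonality
`∫_0^1 cos(2πmθ + c) dθ = 0` for an integer `m ≠ 0`, `cos c` for `m = 0`.
`cos(2πxθ) cos(2πkθ) = (cos(2π(x-k)θ) + cos(2π(x+k)θ))/2`, and for an integer `y`
`∫ cos(2πyθ) ∑_j KL N j cos(2πj(θ - s)) dθ = KL N y cos(2πys)` (terms `j = y`, `j = -y`, for `y = 0` only one).
-/

open Finset MeasureTheory

noncomputable section

namespace COSZ

private lemma fejD_int (m : ℤ) (c : ℝ) :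
    ∫ θ in (0:ℝ)..1, Real.cos (2 * Real.pi * m * θ + c) = if m = 0 then Real.cos c else 0 := by
  by_cases hm : m = 0
  · subst hm
    simp
  · rw [if_neg hm]
    have h1 : (2 * Real.pi * (m:ℝ)) ≠ 0 := by
      have : (m:ℝ) ≠ 0 := by exact_mod_cast hm
      have := Real.pi_pos.ne'
      positivity
    rw [intervalIntegral.integral_comp_mul_add (fun x => Real.cos x) h1 c, integral_cos]
    have h2 : 2 * Real.pi * (m:ℝ) * 1 + c = c + m * (2 * Real.pi) := by ring
    rw [h2, Real.sin_add_int_mul_two_pi]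
    simp

private lemma fejD_two (y j : ℤ) (s : ℝ) :
    ∫ θ in (0:ℝ)..1, Real.cos (2 * Real.pi * y * θ) * Real.cos (2 * Real.pi * j * (θ - s)) =
      ((if j = -y then Real.cos (2 * Real.pi * y * s) else 0) +
        (if j = y then Real.cos (2 * Real.pi * y * s) else 0)) / 2 := by
  have h1 : ∀ θ : ℝ, Real.cos (2 * Real.pi * y * θ) * Real.cos (2 * Real.pi * j * (θ - s)) =
      (1 / 2) * (Real.cos (2 * Real.pi * ((y + j : ℤ) : ℝ) * θ + (-(2 * Real.pi * j * s))) +
        Real.cos (2 * Real.pi * ((y - j : ℤ) : ℝ) * θ + (2 * Real.pi * j * s))) := by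
    intro θ
    have h2 : 2 * Real.pi * ((y + j : ℤ) : ℝ) * θ + (-(2 * Real.pi * j * s)) =
        2 * Real.pi * y * θ + 2 * Real.pi * j * (θ - s) := by
      push_cast
      ring
    have h3 : 2 * Real.pi * ((y - j : ℤ) : ℝ) * θ + (2 * Real.pi * j * s) =
        2 * Real.pi * y * θ - 2 * Real.pi * j * (θ - s) := by
      push_cast
      ring
    rw [h2, h3, Real.cos_add, Real.cos_sub]
    ring
  simp_rw [h1]
  rw [intervalIntegral.integral_const_mul, intervalIntegral.integral_add, fejD_int, fejD_int]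
  · have h4 : (if y + j = 0 then Real.cos (-(2 * Real.pi * j * s)) else 0) =
        (if j = -y then Real.cos (2 * Real.pi * y * s) else 0) := by
      by_cases h : j = -y
      · rw [if_pos h, if_pos (by omega), h]
        congr 1
        push_cast
        ring
      · rw [if_neg h, if_neg (by omega)]
    have h5 : (if y - j = 0 then Real.cos (2 * Real.pi * j * s) else 0) =
        (if j = y then Real.cos (2 * Real.pi * y * s) else 0) := by
      by_cases h : j = y
      · rw [if_pos h, if_pos (by omega), h]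
      · rw [if_neg h, if_neg (by omega)]
    rw [h4, h5]
    ring
  · exact Continuous.intervalIntegrable (by fun_prop) _ _
  · exact Continuous.intervalIntegrable (by fun_prop) _ _

private lemma fejD_one (N : ℕ) (hN : 1 ≤ N) (y : ℤ) (s : ℝ) :
    ∫ θ in (0:ℝ)..1, Real.cos (2 * Real.pi * y * θ) * fej N (θ - s) =
      KL N y * Real.cos (2 * Real.pi * y * s) := by
  have h1 : ∀ θ : ℝ, Real.cos (2 * Real.pi * y * θ) * fej N (θ - s) =
      ∑ j ∈ Finset.Ioo (-(N:ℤ)) N, KL N j * (Real.cos (2 * Real.pi * y * θ) *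
        Real.cos (2 * Real.pi * j * (θ - s))) := by
    intro θ
    rw [fej_expand N hN, Finset.mul_sum]
    refine Finset.sum_congr rfl fun j _ => ?_
    ring
  simp_rw [h1]
  rw [intervalIntegral.integral_finsetSum]
  · simp_rw [intervalIntegral.integral_const_mul, fejD_two]
    have h2 : ∀ j : ℤ, KL N j * (((if j = -y then Real.cos (2 * Real.pi * y * s) else 0) +
        (if j = y then Real.cos (2 * Real.pi * y * s) else 0)) / 2) =
        (if j = -y then KL N j * Real.cos (2 * Real.pi * y * s) / 2 else 0) +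
        (if j = y then KL N j * Real.cos (2 * Real.pi * y * s) / 2 else 0) := by
      intro j
      split_ifs <;> ring
    simp_rw [h2]
    rw [Finset.sum_add_distrib, Finset.sum_ite_eq', Finset.sum_ite_eq', KL_neg]
    by_cases hy : |y| < N
    · have h3 := abs_lt.1 hy
      rw [if_pos (Finset.mem_Ioo.2 ⟨by omega, by omega⟩),
        if_pos (Finset.mem_Ioo.2 ⟨by omega, by omega⟩)]
      ring
    · rw [KL_eq_zero N y (not_lt.1 hy)]
      simp
  · intro j _
    exact Continuous.intervalIntegrable (by fun_prop) _ _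

theorem int_cos_fej (N : ℕ) (hN : 1 ≤ N) (x k : ℤ) (s : ℝ) :
    ∫ θ in (0:ℝ)..1, Real.cos (2 * Real.pi * x * θ) * Real.cos (2 * Real.pi * k * θ) * fej N (θ - s)
      = (KL N (x - k) * Real.cos (2 * Real.pi * (x - k) * s) +
          KL N (x + k) * Real.cos (2 * Real.pi * (x + k) * s)) / 2 := by
  have h1 : ∀ θ : ℝ, Real.cos (2 * Real.pi * x * θ) * Real.cos (2 * Real.pi * k * θ) *
      fej N (θ - s) =
      (1 / 2) * (Real.cos (2 * Real.pi * ((x - k : ℤ) : ℝ) * θ) * fej N (θ - s) +
        Real.cos (2 * Real.pi * ((x + k : ℤ) : ℝ) * θ) * fej N (θ - s)) := by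
    intro θ
    have h2 : 2 * Real.pi * ((x + k : ℤ) : ℝ) * θ =
        2 * Real.pi * x * θ + 2 * Real.pi * k * θ := by
      push_cast
      ring
    have h3 : 2 * Real.pi * ((x - k : ℤ) : ℝ) * θ =
        2 * Real.pi * x * θ - 2 * Real.pi * k * θ := by
      push_cast
      ring
    rw [h2, h3, Real.cos_add, Real.cos_sub]
    ring
  simp_rw [h1]
  have hc : Continuous fun θ : ℝ => fej N (θ - s) :=
    (fej_cont N).comp (continuous_id.sub continuous_const)
  rw [intervalIntegral.integral_const_mul, intervalIntegral.integral_add, fejD_one N hN,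
    fejD_one N hN]
  · push_cast
    ring
  · exact Continuous.intervalIntegrable (by fun_prop) _ _
  · exact Continuous.intervalIntegrable (by fun_prop) _ _

private lemma fejD_three (x y : ℤ) :
    ∫ θ in (0:ℝ)..1, Real.cos (2 * Real.pi * x * θ) * Real.cos (2 * Real.pi * y * θ) =
      ((if x = y then (1:ℝ) else 0) + (if x = -y then (1:ℝ) else 0)) / 2 := by
  have h := fejD_two x y 0
  have h1 : ∀ θ : ℝ, Real.cos (2 * Real.pi * x * θ) * Real.cos (2 * Real.pi * y * (θ - 0)) =
      Real.cos (2 * Real.pi * x * θ) * Real.cos (2 * Real.pi * y * θ) := by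
    intro θ
    rw [sub_zero]
  simp_rw [h1] at h
  rw [h]
  have h2 : Real.cos (2 * Real.pi * x * 0) = 1 := by simp
  rw [h2]
  have h3 : (if y = -x then (1:ℝ) else 0) = if x = -y then 1 else 0 := by
    by_cases h4 : y = -x
    · rw [if_pos h4, if_pos (by omega)]
    · rw [if_neg h4, if_neg (by omega)]
  have h5 : (if y = x then (1:ℝ) else 0) = if x = y then 1 else 0 := by
    by_cases h4 : y = x
    · rw [if_pos h4, if_pos (by omega)]
    · rw [if_neg h4, if_neg (by omega)]
  rw [h3, h5]
  ring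

theorem int_cos_fejh (L h : ℕ) (hL : 1 ≤ L) (hh : 1 ≤ h) (x k : ℤ) :
    ∫ θ in (0:ℝ)..1, Real.cos (2 * Real.pi * x * θ) * Real.cos (2 * Real.pi * k * θ) * fej L (h * θ)
      = (∑ l ∈ Finset.Ioo (-(L:ℤ)) L, KL L l * ((if x = k - l * h then (1:ℝ) else 0) +
          (if x = -(k - l * h) then (1:ℝ) else 0))) / 2 := by
  have h1 : ∀ θ : ℝ, Real.cos (2 * Real.pi * x * θ) * Real.cos (2 * Real.pi * k * θ) *
      fej L (h * θ) =
      ∑ l ∈ Finset.Ioo (-(L:ℤ)) L, KL L l * (1 / 2) * (
        Real.cos (2 * Real.pi * x * θ) * Real.cos (2 * Real.pi * ((k - l * h : ℤ) : ℝ) * θ) +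
        Real.cos (2 * Real.pi * x * θ) * Real.cos (2 * Real.pi * ((k + l * h : ℤ) : ℝ) * θ)) := by
    intro θ
    rw [fej_expand L hL, Finset.mul_sum]
    refine Finset.sum_congr rfl fun l _ => ?_
    have h2 : 2 * Real.pi * ((k + l * h : ℤ) : ℝ) * θ =
        2 * Real.pi * k * θ + 2 * Real.pi * l * (h * θ) := by
      push_cast
      ring
    have h3 : 2 * Real.pi * ((k - l * h : ℤ) : ℝ) * θ =
        2 * Real.pi * k * θ - 2 * Real.pi * l * (h * θ) := by
      push_cast
      ring
    rw [h2, h3, Real.cos_add, Real.cos_sub]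
    ring
  simp_rw [h1]
  rw [intervalIntegral.integral_finsetSum]
  · have h4 : ∀ l : ℤ, ∫ θ in (0:ℝ)..1, KL L l * (1 / 2) * (
        Real.cos (2 * Real.pi * x * θ) * Real.cos (2 * Real.pi * ((k - l * h : ℤ) : ℝ) * θ) +
        Real.cos (2 * Real.pi * x * θ) * Real.cos (2 * Real.pi * ((k + l * h : ℤ) : ℝ) * θ)) =
        KL L l * (1 / 2) * (
          ((if x = k - l * h then (1:ℝ) else 0) + (if x = -(k - l * h) then (1:ℝ) else 0)) / 2 +
          ((if x = k + l * h then (1:ℝ) else 0) + (if x = -(k + l * h) then (1:ℝ) else 0)) / 2) := by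
      intro l
      rw [intervalIntegral.integral_const_mul, intervalIntegral.integral_add, fejD_three,
        fejD_three]
      · exact Continuous.intervalIntegrable (by fun_prop) _ _
      · exact Continuous.intervalIntegrable (by fun_prop) _ _
    simp_rw [h4]
    have h5 : ∑ l ∈ Finset.Ioo (-(L:ℤ)) L, KL L l *
          (((if x = k + l * h then (1:ℝ) else 0) + (if x = -(k + l * h) then (1:ℝ) else 0)) / 2) =
        ∑ l ∈ Finset.Ioo (-(L:ℤ)) L, KL L l *
          (((if x = k - l * h then (1:ℝ) else 0) + (if x = -(k - l * h) then (1:ℝ) else 0)) / 2) := by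
      refine Finset.sum_nbij' (fun l => -l) (fun l => -l) ?_ ?_ ?_ ?_ ?_
      · intro l hl
        rw [Finset.mem_Ioo] at hl ⊢
        omega
      · intro l hl
        rw [Finset.mem_Ioo] at hl ⊢
        omega
      · intro l _
        ring
      · intro l _
        ring
      · intro l _
        rw [KL_neg]
        have h6 : k - -l * (h:ℤ) = k + l * h := by ring
        rw [h6]
    have h7 : ∑ l ∈ Finset.Ioo (-(L:ℤ)) L, KL L l * (1 / 2) * (
          ((if x = k - l * h then (1:ℝ) else 0) + (if x = -(k - l * h) then (1:ℝ) else 0)) / 2 +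
          ((if x = k + l * h then (1:ℝ) else 0) + (if x = -(k + l * h) then (1:ℝ) else 0)) / 2) =
        (1 / 2) * (∑ l ∈ Finset.Ioo (-(L:ℤ)) L, KL L l *
          (((if x = k - l * h then (1:ℝ) else 0) + (if x = -(k - l * h) then (1:ℝ) else 0)) / 2) +
        ∑ l ∈ Finset.Ioo (-(L:ℤ)) L, KL L l *
          (((if x = k + l * h then (1:ℝ) else 0) + (if x = -(k + l * h) then (1:ℝ) else 0)) / 2)) := by
      rw [← Finset.sum_add_distrib, Finset.mul_sum]
      refine Finset.sum_congr rfl fun l _ => ?_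
      ring
    rw [h7, h5, ← two_mul, Finset.sum_div, ← mul_assoc]
    norm_num
    refine Finset.sum_congr rfl fun l _ => ?_
    ring
  · intro j _
    exact Continuous.intervalIntegrable (by fun_prop) _ _

end COSZ
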