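import Pool.Agent.COSZ.FejC
import Pool.Agent.COSZ.FejD

/-!
Module RHO. Formula of the windowed coefficients with the window `fej h (θ - a/h)`:
`fej L (hθ) fej h (θ - a/h) = fej (L h) (θ - a/h)` by `fej_mul` and periodicity
(`h (θ - a/h) = h θ - a`), then `int_cos_fej` for each element of `A`, and `sum_sp`.
-/

open Finset MeasureTheory

noncomputable section

namespace COSZ

theorem rho_mul (h L : ℕ) (hh : 1 ≤ h) (a : ℕ) (θ : ℝ) :
    fej L (h * θ) * fej h (θ - (a:ℝ) / h) = fej (L * h) (θ - (a:ℝ) / h) := by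
  have hh0 : (h:ℝ) ≠ 0 := by
    have : (0:ℝ) < h := by exact_mod_cast hh
    exact this.ne'
  rw [fej_mul]
  congr 1
  have h1 : (h:ℝ) * (θ - (a:ℝ) / h) = h * θ + ((-(a:ℤ) : ℤ) : ℝ) := by
    push_cast
    field_simp
    ring
  rw [h1, fej_add_int]

theorem wi_shift (A : Finset ℤ) (h L : ℕ) (hh : 1 ≤ h) (hL : 1 ≤ L) (a : ℕ) (k : ℤ) :
    wi A h L (fun θ => fej h (θ - (a:ℝ) / h)) k =
      ∑ j ∈ sp A, fh A j * (KL (L * h) (j - k) * Real.cos (2 * Real.pi * (j - k) * ((a:ℝ) / h))) := by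
  have hN : 1 ≤ L * h := Nat.mul_pos hL hh
  rw [← sum_sp A (fun j => KL (L * h) (j - k) * Real.cos (2 * Real.pi * (j - k) * ((a:ℝ) / h)))]
  unfold wi
  have h1 : ∀ θ : ℝ, cs A θ * Real.cos (2 * Real.pi * k * θ) * fej L (h * θ) *
      fej h (θ - (a:ℝ) / h) = ∑ x ∈ A, Real.cos (2 * Real.pi * x * θ) *
        Real.cos (2 * Real.pi * k * θ) * fej (L * h) (θ - (a:ℝ) / h) := by
    intro θ
    rw [mul_assoc, rho_mul h L hh a θ, cs, Finset.sum_mul, Finset.sum_mul]
  simp only [h1]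
  rw [intervalIntegral.integral_finsetSum]
  · refine Finset.sum_congr rfl fun x _ => ?_
    rw [int_cos_fej (L * h) hN x k ((a:ℝ) / h)]
    congr 2
    have e1 : KL (L * h) (-x - k) = KL (L * h) (x + k) := by
      rw [← KL_neg]
      congr 1
      ring
    rw [e1]
    congr 1
    rw [← Real.cos_neg]
    congr 1
    push_cast
    ring
  · intro x _
    apply Continuous.intervalIntegrable
    have := fej_cont (L * h)
    fun_prop

theorem D_formula (A : Finset ℤ) (h L : ℕ) (hh : 1 ≤ h) (hL : 1 ≤ L) (k : ℤ) :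
    wi A h L (fej h) k = ∑ j ∈ sp A, fh A j * KL (L * h) (j - k) := by
  have h1 := wi_shift A h L hh hL 0 k
  simpa using h1

theorem D_nonneg (A : Finset ℤ) (h L : ℕ) (hh : 1 ≤ h) (hL : 1 ≤ L) (k : ℤ) :
    0 ≤ wi A h L (fej h) k := by
  rw [D_formula A h L hh hL k]
  exact Finset.sum_nonneg fun j _ => mul_nonneg (fh_nonneg A j) (KL_nonneg _ _)

theorem wi_shift_le (A : Finset ℤ) (h L : ℕ) (hh : 1 ≤ h) (hL : 1 ≤ L) (a : ℕ) (k : ℤ) :
    |wi A h L (fun θ => fej h (θ - (a:ℝ) / h)) k| ≤ wi A h L (fej h) k := by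
  rw [D_formula A h L hh hL k, wi_shift A h L hh hL a k]
  refine (Finset.abs_sum_le_sum_abs _ _).trans (Finset.sum_le_sum fun j _ => ?_)
  rw [abs_mul, abs_of_nonneg (fh_nonneg A j)]
  refine mul_le_mul_of_nonneg_left ?_ (fh_nonneg A j)
  rw [abs_mul, abs_of_nonneg (KL_nonneg _ _)]
  have := Real.abs_cos_le_one (2 * Real.pi * (j - k) * ((a:ℝ) / h))
  have h2 := KL_nonneg (L * h) (j - k)
  nlinarith

theorem D_le_card (A : Finset ℤ) (h L : ℕ) (hh : 1 ≤ h) (hL : 1 ≤ L) (k : ℤ) :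
    wi A h L (fej h) k ≤
      (((sp A).filter (fun j => |j - k| < (L:ℤ) * h)).card : ℝ) / ((L:ℝ) * h) := by
  rw [D_formula A h L hh hL k, div_eq_mul_one_div, ← nsmul_eq_mul, ← Finset.sum_const,
    Finset.sum_filter]
  refine Finset.sum_le_sum fun j _ => ?_
  have h1 := KL_nonneg (L * h) (j - k)
  split_ifs with hj
  · have h2 := KL_le (L * h) (j - k)
    have h3 := fh_le_one A j
    have h4 := fh_nonneg A j
    push_cast at h2
    calc fh A j * KL (L * h) (j - k) ≤ 1 * KL (L * h) (j - k) :=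
          mul_le_mul_of_nonneg_right h3 h1
      _ ≤ 1 / ((L:ℝ) * h) := by rw [one_mul]; exact h2
  · have h2 : KL (L * h) (j - k) = 0 := by
      apply KL_eq_zero
      push_cast
      exact not_lt.mp hj
    rw [h2, mul_zero]

end COSZ
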