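import Pool.Agent.COSZ.Mu
import Pool.Agent.COSZ.Rho

/-!
Module FEW. Counting by runs. For `x` in the filter set consider `x, x-h, ..., x-(2L-2)h`; all are in
`[k - W h, k + W h + h)`. If all had nonzero coefficient, `mu_run` at the centre `x - (L-1)h`
contradicts the hypothesis. So there is a least `s ∈ [1, 2L-2]` with `fh A (x - s h) = 0`, and
`y = x - (s-1) h` is a break. The map `x ↦ (y, s)` is injective into `brk × {1..2L}`.
`few_all` is the same without window.
-/

open Finset MeasureTheory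

noncomputable section

namespace COSZ

theorem Few_count (A : Finset ℤ) (h N : ℕ) (S : Finset ℤ)
    (hS : ∀ x ∈ S, fh A x ≠ 0 ∧ ∃ s : ℕ, s < N ∧ fh A (x - s * h) = 0) :
    S.card ≤ N * (brk A h).card := by
  classical
  have h1 : S ⊆ (range N ×ˢ brk A h).image (fun p => p.2 + ((p.1 : ℤ) - 1) * h) := by
    intro x hx
    obtain ⟨hx0, hex⟩ := hS x hx
    have hspec := Nat.find_spec hex
    set s := Nat.find hex with hs
    have hs0 : s ≠ 0 := by
      intro h0
      rw [h0] at hspec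
      apply hx0
      simpa using hspec.2
    have hmin : fh A (x - ((s - 1 : ℕ) : ℤ) * h) ≠ 0 := by
      intro h0
      have : s - 1 < Nat.find hex := by omega
      exact Nat.find_min hex this ⟨by omega, h0⟩
    refine Finset.mem_image.2 ⟨(s, x - ((s - 1 : ℕ) : ℤ) * h), ?_, ?_⟩
    · rw [Finset.mem_product]
      refine ⟨Finset.mem_range.2 hspec.1, ?_⟩
      rw [mem_brk]
      have e1 : x - ((s - 1 : ℕ) : ℤ) * h - h = x - (s:ℤ) * h := by
        have : ((s - 1 : ℕ) : ℤ) = s - 1 := by omega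
        rw [this]; ring
      simp only
      rw [e1, hspec.2]
      exact hmin
    · have : ((s - 1 : ℕ) : ℤ) = s - 1 := by omega
      simp only
      rw [this]
      ring
  refine (Finset.card_le_card h1).trans (Finset.card_image_le.trans ?_)
  rw [Finset.card_product, Finset.card_range]

theorem Few_run (A : Finset ℤ) (h L : ℕ) (hh : 1 ≤ h) (hL : 1 ≤ L) (x : ℤ)
    (hμ : wi A h L (fun _ => 1) (x - ((L:ℤ) - 1) * h) < 1 / 2) :
    ∃ s : ℕ, s < 2 * L ∧ fh A (x - s * h) = 0 := by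
  by_contra hcon
  push Not at hcon
  refine absurd (mu_run A h L hh hL (x - ((L:ℤ) - 1) * h) fun l hl => ?_) (not_le.2 hμ)
  rw [abs_lt] at hl
  have h1 := hcon ((L:ℤ) - 1 + l).toNat (by omega)
  have h2 : ((((L:ℤ) - 1 + l).toNat : ℕ) : ℤ) = (L:ℤ) - 1 + l := by omega
  rw [h2] at h1
  have h3 : x - ((L:ℤ) - 1 + l) * h = x - ((L:ℤ) - 1) * h - l * h := by ring
  rw [h3] at h1
  exact h1

theorem few (A : Finset ℤ) (h L W : ℕ) (hh : 1 ≤ h) (hL : 1 ≤ L) (k : ℤ)
    (hμ : ∀ k' : ℤ, k - W * h ≤ k' → k' < k + W * h + h → wi A h L (fun _ => 1) k' < 1 / 2) :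
    ((sp A).filter (fun x => k - ((W:ℤ) - 2 * L) * h ≤ x ∧ x < k + W * h + h)).card ≤
      2 * L * (brk A h).card := by
  refine Few_count A h (2 * L) _ fun x hx => ?_
  obtain ⟨hx1, hx2, hx3⟩ := Finset.mem_filter.1 hx
  refine ⟨(mem_sp A x).1 hx1, Few_run A h L hh hL x (hμ _ ?_ ?_)⟩
  · have h1 : (0:ℤ) ≤ ((L:ℤ) + 1) * h := by positivity
    nlinarith
  · have h1 : (0:ℤ) ≤ ((L:ℤ) - 1) * h := mul_nonneg (by omega) (by omega)
    linarith

theorem few_all (A : Finset ℤ) (h L : ℕ) (hh : 1 ≤ h) (hL : 1 ≤ L)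
    (hμ : ∀ k' : ℤ, wi A h L (fun _ => 1) k' < 1 / 2) :
    (sp A).card ≤ 2 * L * (brk A h).card := by
  refine Few_count A h (2 * L) _ fun x hx => ?_
  exact ⟨(mem_sp A x).1 hx, Few_run A h L hh hL x (hμ _)⟩

end COSZ
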