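import Pool.Agent.COSZ.Bas

/-!
Module HARM. A sum over a finite set of integers. The map `a ↦ |a|` is at most two to one, so the sum is
at most twice the sum over `k = 1, ..., N`. Let `K = ⌊1/β⌋ ≥ 2`; the terms `k ≤ K` are at most `β`, the
others at most `1/(β π² k²)`: `2 (K β + (1/(β π²)) (1/K)) ≤ 2 (1 + 1.5/π²) ≤ 5/2` since
`1/(K β) ≤ (K+1)/K ≤ 1.5` and `∑_{K<k≤N} 1/k² ≤ 1/K`.
-/

open Finset MeasureTheory

noncomputable section

namespace COSZ

theorem harm_key (β : ℝ) (hβ : 0 < β) (hβ2 : β ≤ 1 / 2) (N : ℕ) :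
    ∑ k ∈ Finset.Icc 1 N, min β (1 / (β * Real.pi ^ 2 * (k:ℝ) ^ 2)) ≤ 5 / 4 := by
  obtain ⟨K, hK1, hK2⟩ : ∃ K : ℕ, (K:ℝ) ≤ 1 / β ∧ 1 / β < K + 1 :=
    ⟨⌊1 / β⌋₊, Nat.floor_le (by positivity), Nat.lt_floor_add_one _⟩
  have h2 : (2:ℝ) ≤ 1 / β := by
    rw [le_div_iff₀ hβ]; linarith
  have hK0 : 2 ≤ K := by
    have : (1:ℝ) < K := by linarith
    have : 1 < K := by exact_mod_cast this
    omega
  have hKr : (2:ℝ) ≤ K := by exact_mod_cast hK0
  have hpi : (9:ℝ) ≤ Real.pi ^ 2 := by nlinarith [Real.pi_gt_three]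
  have hKβ : K * β ≤ 1 := by
    rw [le_div_iff₀ hβ] at hK1; exact hK1
  have hKβ2 : 1 < (K + 1) * β := by
    rw [div_lt_iff₀ hβ] at hK2; exact hK2
  have hKβ3 : 2 / 3 ≤ K * β := by nlinarith
  set c : ℝ := 1 / (β * Real.pi ^ 2) with hc
  have hc0 : 0 < c := by positivity
  have hcK : c * (1 / K) ≤ 1 / 4 := by
    rw [hc, div_mul_div_comm, one_mul, div_le_div_iff₀ (by positivity) (by norm_num)]
    nlinarith [mul_le_mul hKβ3 hpi (by norm_num) (by positivity)]
  -- small index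
  have hsmall : ∀ n : ℕ, ∑ k ∈ Finset.Icc 1 n, min β (1 / (β * Real.pi ^ 2 * (k:ℝ) ^ 2)) ≤
      n * β := by
    intro n
    calc ∑ k ∈ Finset.Icc 1 n, min β (1 / (β * Real.pi ^ 2 * (k:ℝ) ^ 2)) ≤
        ∑ _k ∈ Finset.Icc 1 n, β := Finset.sum_le_sum fun k _ => min_le_left _ _
      _ = n * β := by simp
  rcases Nat.lt_or_ge N K with hNK | hNK
  · have h3 : (N:ℝ) ≤ K := by exact_mod_cast hNK.le
    have := hsmall N
    nlinarith
  · have h4 : ∀ n, K ≤ n → ∑ k ∈ Finset.Icc 1 n, min β (1 / (β * Real.pi ^ 2 * (k:ℝ) ^ 2)) ≤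
        K * β + c * (1 / K - 1 / n) := by
      intro n hn
      induction n, hn using Nat.le_induction with
      | base => simpa using hsmall K
      | succ n hn ih =>
        rw [Finset.sum_Icc_succ_top (by omega)]
        have hn0 : (0:ℝ) < n := by
          have : (K:ℝ) ≤ n := by exact_mod_cast hn
          linarith
        have h5 : min β (1 / (β * Real.pi ^ 2 * ((n + 1 : ℕ):ℝ) ^ 2)) ≤
            c * (1 / n - 1 / (n + 1 : ℕ)) := by
          refine (min_le_right _ _).trans ?_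
          have e1 : 1 / (β * Real.pi ^ 2 * ((n + 1 : ℕ):ℝ) ^ 2) =
              c * (1 / ((n + 1 : ℕ):ℝ) ^ 2) := by
            rw [hc, div_mul_div_comm, one_mul]
          rw [e1]
          refine mul_le_mul_of_nonneg_left ?_ hc0.le
          push_cast
          rw [div_sub_div _ _ (by positivity) (by positivity),
            div_le_div_iff₀ (by positivity) (by positivity)]
          nlinarith
        linarith
    have h5 := h4 N hNK
    have h6 : 0 ≤ c * (1 / (N:ℝ)) := by positivity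
    have h7 : K * β + c * (1 / K - 1 / N) = K * β + c * (1 / K) - c * (1 / N) := by ring
    linarith

theorem harm_sum2 (A : Finset ℤ) (β : ℝ) (hβ : 0 < β) (hβ2 : β ≤ 1 / 2) :
    ∑ a ∈ A.filter (fun a => a ≠ 0), min β (1 / (β * Real.pi ^ 2 * (a:ℝ) ^ 2)) ≤ 5 / 2 := by
  classical
  set F : ℤ → ℝ := fun a => min β (1 / (β * Real.pi ^ 2 * (a:ℝ) ^ 2)) with hF
  have hF0 : ∀ a, 0 ≤ F a := fun a => le_min hβ.le (by positivity)
  set N : ℕ := A.sup Int.natAbs with hN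
  set P : Finset ℤ := (Finset.Icc 1 N).image (fun k : ℕ => (k:ℤ)) with hP
  set Q : Finset ℤ := (Finset.Icc 1 N).image (fun k : ℕ => -(k:ℤ)) with hQ
  have hsub : A.filter (fun a => a ≠ 0) ⊆ P ∪ Q := by
    intro a ha
    rw [Finset.mem_filter] at ha
    have h1 : a.natAbs ≤ N := Finset.le_sup (f := Int.natAbs) ha.1
    have h2 : 1 ≤ a.natAbs := by omega
    rw [Finset.mem_union, hP, hQ, Finset.mem_image, Finset.mem_image]
    rcases le_or_gt 0 a with h3 | h3
    · exact Or.inl ⟨a.natAbs, Finset.mem_Icc.2 ⟨h2, h1⟩, by omega⟩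
    · exact Or.inr ⟨a.natAbs, Finset.mem_Icc.2 ⟨h2, h1⟩, by omega⟩
  have hPs : ∑ a ∈ P, F a ≤ 5 / 4 := by
    rw [hP, Finset.sum_image (fun x _ y _ hxy => by exact_mod_cast hxy)]
    have := harm_key β hβ hβ2 N
    simpa [hF] using this
  have hQs : ∑ a ∈ Q, F a ≤ 5 / 4 := by
    rw [hQ, Finset.sum_image (fun x _ y _ hxy => by
      have h := neg_injective hxy
      exact_mod_cast h)]
    have := harm_key β hβ hβ2 N
    simpa [hF] using this
  calc ∑ a ∈ A.filter (fun a => a ≠ 0), F a ≤ ∑ a ∈ P ∪ Q, F a :=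
        Finset.sum_le_sum_of_subset_of_nonneg hsub fun a _ _ => hF0 a
    _ ≤ ∑ a ∈ P, F a + ∑ a ∈ Q, F a := by
        rw [← Finset.sum_union_inter]
        have : 0 ≤ ∑ a ∈ P ∩ Q, F a := Finset.sum_nonneg fun a _ => hF0 a
        linarith
    _ ≤ 5 / 2 := by linarith

end COSZ
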