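import Pool.Agent.COSZ.Bas

/-!
Module ZER. The zeros in `[0,1)` are finitely many: with `N` larger than all `|a|`, `cs A θ = 0` means that
`z = e(θ)` is a root of the nonzero polynomial `∑_{a∈A} (X^(N+a) + X^(N-a))` (its value at 1 is `2|A| ≠ 0`),
and `θ ↦ e(θ)` is injective on `[0,1)`.
(Here: the cosine sum is analytic and does not vanish at zero.)
-/

open Finset MeasureTheory

noncomputable section

namespace COSZ

lemma zer_analytic (A : Finset ℤ) : AnalyticOnNhd ℝ (cs A) Set.univ := by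
  have h : cs A = fun θ => ∑ a ∈ A, Real.cos (2 * Real.pi * a * θ) := rfl
  rw [h]
  refine Finset.analyticOnNhd_fun_sum _ fun a _ => ?_
  intro x _
  exact (Real.analyticAt_cos).comp' (analyticAt_const.mul analyticAt_id)

theorem zeros_finite (A : Finset ℤ) (hA : A.Nonempty) :
    {θ : ℝ | 0 ≤ θ ∧ θ < 1 ∧ cs A θ = 0}.Finite := by
  by_contra hinf
  have hinf' : Set.Infinite {θ : ℝ | 0 ≤ θ ∧ θ < 1 ∧ cs A θ = 0} := hinf
  obtain ⟨x, _, hacc⟩ := hinf'.exists_accPt_of_subset_isCompact (K := Set.Icc (0:ℝ) 1) isCompact_Icc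
    (fun θ h => ⟨h.1, h.2.1.le⟩)
  have hfreq : ∃ᶠ y in nhdsWithin x {x}ᶜ, cs A y = 0 := by
    have h1 := accPt_iff_frequently_nhdsNE.mp hacc
    exact h1.mono fun y hy => hy.2.2
  have h2 := (zer_analytic A).eqOn_zero_of_preconnected_of_frequently_eq_zero isPreconnected_univ
    (Set.mem_univ x) hfreq
  have h0 := h2 (Set.mem_univ (0:ℝ))
  rw [cs_zero] at h0
  have h3 : 0 < A.card := hA.card_pos
  have h4 : ((A.card : ℕ) : ℝ) = 0 := h0
  have h5 : A.card = 0 := by exact_mod_cast h4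
  omega

theorem exists_marks (A : Finset ℤ) (hA : A.Nonempty) :
    ∃ T : Finset ℝ, Marks A T ∧ T.card ≤ {θ : ℝ | 0 ≤ θ ∧ θ < 1 ∧ cs A θ = 0}.ncard + 2 := by
  classical
  have hf := zeros_finite A hA
  refine ⟨insert 0 (insert 1 hf.toFinset), ⟨by simp, by simp, ?_, ?_⟩, ?_⟩
  · intro t ht
    rw [Finset.mem_insert, Finset.mem_insert, Set.Finite.mem_toFinset] at ht
    rcases ht with rfl | rfl | ht
    · norm_num
    · norm_num
    · exact ⟨ht.1, ht.2.1.le⟩
  · intro θ h0 h1 h2
    rw [Finset.mem_insert, Finset.mem_insert, Set.Finite.mem_toFinset]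
    rcases lt_or_eq_of_le h1 with h | h
    · right; right
      exact ⟨h0, h, h2⟩
    · right; left; exact h
  · rw [Set.ncard_eq_toFinset_card _ hf]
    calc _ ≤ (insert 1 hf.toFinset).card + 1 := Finset.card_insert_le _ _
      _ ≤ (hf.toFinset.card + 1) + 1 := by
          have := Finset.card_insert_le (1:ℝ) hf.toFinset
          omega
      _ = _ := by ring

end COSZ
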