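import Pool.Agent.COSZ.Num
import Pool.Agent.COSZ.Zer

/-!
Module MAIN. `m` zeros give marks with at most `m + 2` elements; for `n` large the right side is large.
-/

open Finset MeasureTheory Filter

noncomputable section

namespace COSZ

theorem main_growth (c : ℝ) (hc : 0 < c) :
    ∃ N : ℕ, ∀ n : ℕ, N ≤ n → 1 ≤ Real.log n ∧ 0 < Real.log (Real.log n) ∧
      4 ≤ c * (Real.log n) ^ ((2:ℝ) / 7) / (Real.log (Real.log n)) ^ ((4:ℝ) / 7) := by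
  have h1 : ∀ᶠ x : ℝ in atTop, Real.log x ≤ x ^ ((1:ℝ) / 4) := by
    have := (isLittleO_log_rpow_atTop (show (0:ℝ) < 1 / 4 by norm_num)).bound (show (0:ℝ) < 1 by norm_num)
    filter_upwards [this, eventually_ge_atTop (1:ℝ)] with x hx hx1
    have h2 : Real.log x ≤ ‖Real.log x‖ := le_abs_self _
    have h3 : ‖x ^ ((1:ℝ) / 4)‖ = x ^ ((1:ℝ) / 4) := by
      rw [Real.norm_eq_abs, abs_of_nonneg (by positivity)]
    rw [h3, one_mul] at hx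
    exact h2.trans hx
  have h2 : ∀ᶠ x : ℝ in atTop, 4 / c ≤ x ^ ((1:ℝ) / 7) :=
    (tendsto_rpow_atTop (show (0:ℝ) < 1 / 7 by norm_num)).eventually_ge_atTop _
  have h3 : ∀ᶠ x : ℝ in atTop, 1 ≤ x ∧ 0 < Real.log x ∧
      4 ≤ c * x ^ ((2:ℝ) / 7) / (Real.log x) ^ ((4:ℝ) / 7) := by
    filter_upwards [h1, h2, eventually_ge_atTop (3:ℝ)] with x hx1 hx2 hx3
    have hx0 : 0 < x := by linarith
    have hl : 0 < Real.log x := Real.log_pos (by linarith)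
    refine ⟨by linarith, hl, ?_⟩
    have hl4 : (Real.log x) ^ ((4:ℝ) / 7) ≤ x ^ ((1:ℝ) / 7) := by
      calc (Real.log x) ^ ((4:ℝ) / 7) ≤ (x ^ ((1:ℝ) / 4)) ^ ((4:ℝ) / 7) :=
            Real.rpow_le_rpow hl.le hx1 (by norm_num)
        _ = x ^ ((1:ℝ) / 7) := by
            rw [← Real.rpow_mul hx0.le]
            norm_num
    have hlp : 0 < (Real.log x) ^ ((4:ℝ) / 7) := Real.rpow_pos_of_pos hl _
    rw [le_div_iff₀ hlp]
    have hx7 : x ^ ((2:ℝ) / 7) = x ^ ((1:ℝ) / 7) * x ^ ((1:ℝ) / 7) := by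
      rw [← Real.rpow_add hx0]
      norm_num
    have h17 : 0 < x ^ ((1:ℝ) / 7) := Real.rpow_pos_of_pos hx0 _
    rw [div_le_iff₀ hc] at hx2
    calc 4 * (Real.log x) ^ ((4:ℝ) / 7) ≤ 4 * x ^ ((1:ℝ) / 7) := by gcongr
      _ ≤ (x ^ ((1:ℝ) / 7) * c) * x ^ ((1:ℝ) / 7) := by gcongr
      _ = c * x ^ ((2:ℝ) / 7) := by rw [hx7]; ring
  have h4 : ∀ᶠ n : ℕ in atTop, 1 ≤ Real.log n ∧ 0 < Real.log (Real.log n) ∧
      4 ≤ c * (Real.log n) ^ ((2:ℝ) / 7) / (Real.log (Real.log n)) ^ ((4:ℝ) / 7) :=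
    (Real.tendsto_log_atTop.comp tendsto_natCast_atTop_atTop).eventually h3
  obtain ⟨N, hN⟩ := eventually_atTop.mp h4
  exact ⟨N, hN⟩

theorem main : ∃ c : ℝ, 0 < c ∧ ∃ N : ℕ, ∀ A : Finset ℤ, N ≤ A.card →
    {θ : ℝ | 0 ≤ θ ∧ θ < 1 ∧ cs A θ = 0}.Finite ∧
    c * (Real.log A.card) ^ ((2:ℝ) / 7) / (Real.log (Real.log A.card)) ^ ((4:ℝ) / 7) ≤
      ({θ : ℝ | 0 ≤ θ ∧ θ < 1 ∧ cs A θ = 0}.ncard : ℝ) := by
  obtain ⟨c, hc, N, hN⟩ := marks_lower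
  have hc27 : 0 < c ^ ((2:ℝ) / 7) := Real.rpow_pos_of_pos hc _
  obtain ⟨N', hN'⟩ := main_growth (c ^ ((2:ℝ) / 7)) hc27
  refine ⟨c ^ ((2:ℝ) / 7) / 2, by positivity, max N (max N' 1), fun A hA => ?_⟩
  have hA1 : N ≤ A.card := le_trans (le_max_left _ _) hA
  have hA2 : N' ≤ A.card := le_trans (le_trans (le_max_left _ _) (le_max_right _ _)) hA
  have hA3 : 1 ≤ A.card := le_trans (le_trans (le_max_right _ _) (le_max_right _ _)) hA
  have hne : A.Nonempty := Finset.card_pos.mp hA3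
  refine ⟨zeros_finite A hne, ?_⟩
  obtain ⟨T, hT, hTc⟩ := exists_marks A hne
  obtain ⟨g1, g2, g3⟩ := hN' A.card hA2
  have key := hN A T hA1 hT
  set m := {θ : ℝ | 0 ≤ θ ∧ θ < 1 ∧ cs A θ = 0}.ncard with hm
  set x := Real.log (A.card : ℝ) with hx
  set y := Real.log x with hy
  set R := c ^ ((2:ℝ) / 7) * x ^ ((2:ℝ) / 7) / y ^ ((4:ℝ) / 7) with hR
  have hTm : (T.card:ℝ) ≤ m + 2 := by exact_mod_cast hTc
  have hx0 : 0 < x := by linarith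
  have hy2 : 0 < y ^ 2 := by positivity
  have hRT : R ≤ T.card := by
    have h1 : c * x / y ^ 2 ≤ (T.card:ℝ) ^ ((7:ℝ) / 2) := by
      rw [div_le_iff₀ hy2]
      exact key
    have h2 : (c * x / y ^ 2) ^ ((2:ℝ) / 7) ≤ ((T.card:ℝ) ^ ((7:ℝ) / 2)) ^ ((2:ℝ) / 7) :=
      Real.rpow_le_rpow (by positivity) h1 (by norm_num)
    have h3 : ((T.card:ℝ) ^ ((7:ℝ) / 2)) ^ ((2:ℝ) / 7) = T.card := by
      rw [← Real.rpow_mul (by positivity)]
      norm_num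
    have h4 : (c * x / y ^ 2) ^ ((2:ℝ) / 7) = R := by
      rw [hR, Real.div_rpow (by positivity) (by positivity), Real.mul_rpow hc.le hx0.le]
      congr 1
      rw [← Real.rpow_natCast y 2, ← Real.rpow_mul g2.le]
      norm_num
    rw [h3, h4] at h2
    exact h2
  have h5 : c ^ ((2:ℝ) / 7) / 2 * x ^ ((2:ℝ) / 7) / y ^ ((4:ℝ) / 7) = R / 2 := by
    rw [hR]; ring
  rw [h5]
  linarith

end COSZ
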