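import Pool.Agent.COSZ.BasA
import Pool.Agent.COSZ.BasB
import Pool.Agent.COSZ.BasC
import Pool.Agent.COSZ.Bas

/-!
Module MPSA. Majorants: for a continuous function `v` of period one and `ε > 0` there is a polynomial `p`
with real constant coefficient whose real part at `e(-θ)` is between `v θ` and `v θ + ε`. Take a
trigonometric polynomial `g` (Mathlib: `span_fourier_closure_eq_top`, on `UnitAddCircle`) with
`|g - v - ε/2| ≤ ε/2`; its real part `Re g` is also within `ε/2`, and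
`Re ∑ c_k e(kθ) = Re (Re c_0 + ∑_{k>0} (c_{-k} + conj c_k) e(-kθ))`.
-/

open Finset MeasureTheory

noncomputable section

namespace COSZ

/-- functions whose real part is the real part of a polynomial at `e(-θ)` -/
def mpsA_good (g : C(AddCircle (1:ℝ), ℂ)) : Prop :=
  ∃ p : Polynomial ℂ, (p.coeff 0).im = 0 ∧
    ∀ θ : ℝ, (p.eval (e (-θ))).re = (g (θ : AddCircle (1:ℝ))).re

theorem mpsA_add (g g' : C(AddCircle (1:ℝ), ℂ)) (h : mpsA_good g) (h' : mpsA_good g') :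
    mpsA_good (g + g') := by
  obtain ⟨p, hp, hp'⟩ := h
  obtain ⟨q, hq, hq'⟩ := h'
  refine ⟨p + q, by simp [hp, hq], fun θ => ?_⟩
  simp [hp' θ, hq' θ]

theorem mpsA_zero : mpsA_good 0 := ⟨0, by simp, by simp⟩

theorem mpsA_e_pow (θ : ℝ) (n : ℕ) : e (-θ) ^ n = e (-(n * θ)) := by
  unfold e
  rw [← Complex.exp_nat_mul]
  congr 1
  push_cast
  ring

theorem mpsA_fourier (k : ℤ) (θ : ℝ) : (fourier k (θ : AddCircle (1:ℝ)) : ℂ) = e (k * θ) := by
  rw [fourier_coe_apply]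
  unfold e
  congr 1
  push_cast
  ring

theorem mpsA_conj (x : ℝ) : (starRingEnd ℂ) (e x) = e (-x) := (e_neg x).symm

theorem mpsA_term (k : ℤ) (c : ℂ) : mpsA_good (c • fourier k) := by
  rcases lt_trichotomy k 0 with hk | hk | hk
  · obtain ⟨n, hn⟩ : ∃ n : ℕ, k = -(n:ℤ) := ⟨(-k).toNat, by omega⟩
    have hn0 : n ≠ 0 := by omega
    refine ⟨Polynomial.C c * Polynomial.X ^ n, ?_, fun θ => ?_⟩
    · rw [Polynomial.coeff_C_mul, Polynomial.coeff_X_pow]
      simp [hn0.symm]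
    · rw [Polynomial.eval_mul, Polynomial.eval_C, Polynomial.eval_pow, Polynomial.eval_X, mpsA_e_pow,
        ContinuousMap.smul_apply, mpsA_fourier, hn, smul_eq_mul]
      congr 3
      push_cast
      ring
  · subst hk
    refine ⟨Polynomial.C (c.re : ℂ), by simp, fun θ => ?_⟩
    rw [ContinuousMap.smul_apply, mpsA_fourier]
    simp [e]
  · obtain ⟨n, hn⟩ : ∃ n : ℕ, k = (n:ℤ) := ⟨k.toNat, by omega⟩
    have hn0 : n ≠ 0 := by omega
    refine ⟨Polynomial.C ((starRingEnd ℂ) c) * Polynomial.X ^ n, ?_, fun θ => ?_⟩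
    · rw [Polynomial.coeff_C_mul, Polynomial.coeff_X_pow]
      simp [hn0.symm]
    · rw [Polynomial.eval_mul, Polynomial.eval_C, Polynomial.eval_pow, Polynomial.eval_X, mpsA_e_pow,
        ContinuousMap.smul_apply, mpsA_fourier, hn, smul_eq_mul]
      have h1 : e (-((n:ℝ) * θ)) = (starRingEnd ℂ) (e ((n:ℝ) * θ)) := (mpsA_conj _).symm
      rw [h1, ← map_mul, Complex.conj_re]
      push_cast
      rfl

theorem mpsA_sum (c : ℤ →₀ ℂ) : mpsA_good (c.sum fun i a => a • (fourier i : C(AddCircle (1:ℝ), ℂ))) := by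
  unfold Finsupp.sum
  exact Finset.sum_induction _ mpsA_good mpsA_add mpsA_zero (fun i _ => mpsA_term i _)

theorem majorant (v : ℝ → ℝ) (hv : Continuous v) (hp : ∀ θ, v (θ + 1) = v θ) (ε : ℝ) (hε : 0 < ε) :
    ∃ p : Polynomial ℂ, (p.coeff 0).im = 0 ∧
      ∀ θ : ℝ, v θ ≤ (p.eval (e (-θ))).re ∧ (p.eval (e (-θ))).re ≤ v θ + ε := by
  have hper : Function.Periodic (fun θ : ℝ => ((v θ + ε / 2 : ℝ) : ℂ)) 1 := by
    intro θ
    simp only [hp θ]
  have hcont : Continuous (fun θ : ℝ => ((v θ + ε / 2 : ℝ) : ℂ)) := by fun_prop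
  let V : C(AddCircle (1:ℝ), ℂ) := ⟨hper.lift, by
    exact continuous_coinduced_dom.mpr hcont⟩
  have hV : ∀ θ : ℝ, V (θ : AddCircle (1:ℝ)) = ((v θ + ε / 2 : ℝ) : ℂ) := fun θ => hper.lift_coe θ
  have hmem : V ∈ (Submodule.span ℂ (Set.range <| @fourier (1:ℝ))).topologicalClosure := by
    have : Fact (0 < (1:ℝ)) := ⟨one_pos⟩
    rw [span_fourier_closure_eq_top]
    trivial
  have hmem' : V ∈ closure ((Submodule.span ℂ (Set.range <| @fourier (1:ℝ)) : Submodule ℂ _) :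
      Set C(AddCircle (1:ℝ), ℂ)) := hmem
  have : Fact (0 < (1:ℝ)) := ⟨one_pos⟩
  rw [Metric.mem_closure_iff] at hmem'
  obtain ⟨g, hg, hdist⟩ := hmem' (ε / 2) (by linarith)
  have hg' : g ∈ Submodule.span ℂ (Set.range <| @fourier (1:ℝ)) := hg
  rw [Finsupp.mem_span_range_iff_exists_finsupp] at hg'
  obtain ⟨c, hc⟩ := hg'
  obtain ⟨p, hp0, hp1⟩ := mpsA_sum c
  refine ⟨p, hp0, fun θ => ?_⟩
  rw [hp1 θ, hc]
  have h1 : dist (V (θ : AddCircle (1:ℝ))) (g (θ : AddCircle (1:ℝ))) < ε / 2 :=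
    lt_of_le_of_lt (ContinuousMap.dist_apply_le_dist _) hdist
  rw [hV, Complex.dist_eq] at h1
  have h2 := (Complex.abs_re_le_norm (((v θ + ε / 2 : ℝ) : ℂ) - g (θ : AddCircle (1:ℝ)))).trans h1.le
  rw [Complex.sub_re, Complex.ofReal_re, abs_le] at h2
  constructor <;> linarith [h2.1, h2.2]

end COSZ
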