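import Pool.Agent.COSZ.Bas

/-!
Module MPSB. Mean value property: for an entire function `Φ`, `∫_0^1 Φ(e(-θ)) dθ = Φ(0)` (Mathlib: mean value
property on circles / Cauchy formula, `∮ Φ(z)/z dz = 2πi Φ(0)`; substitute `z = e(-θ)` or use
`θ ↦ -θ` and periodicity). `antianal`: apply it to `Φ(w) w^n`. `l2_poly`: apply it to `p²`: the real part of
`∫ p(e(-θ))² = (p.coeff 0)²` is `≥ 0`, hence `∫ Im² ≤ ∫ Re²`.
-/

open Finset MeasureTheory

noncomputable section

namespace COSZ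

theorem mean_value (Φ : ℂ → ℂ) (hΦ : Differentiable ℂ Φ) :
    ∫ θ in (0:ℝ)..1, Φ (e (-θ)) = Φ 0 := by
  have h1 : Real.circleAverage Φ 0 1 = Φ 0 := DiffContOnCl.circleAverage hΦ.diffContOnCl
  rw [Real.circleAverage_def] at h1
  have h2 : ∀ θ : ℝ, Φ (e (-θ)) = (fun x => Φ (circleMap 0 1 x)) (-(2 * Real.pi) * θ) := by
    intro θ
    simp only [circleMap, e]
    congr 1
    push_cast
    rw [zero_add, one_mul]
    congr 1
    ring
  have hpi : (2 * Real.pi) ≠ 0 := by positivity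
  simp_rw [h2]
  rw [intervalIntegral.integral_comp_mul_left (fun x => Φ (circleMap 0 1 x)) (neg_ne_zero.mpr hpi)]
  rw [mul_zero, mul_one, intervalIntegral.integral_symm, ← h1]
  have h3 : Function.Periodic (fun x => Φ (circleMap 0 1 x)) (2 * Real.pi) := by
    intro x
    simp only
    rw [periodic_circleMap 0 1 x]
  have h4 := h3.intervalIntegral_add_eq (-(2 * Real.pi)) 0
  rw [neg_add_cancel, zero_add] at h4
  rw [h4, inv_neg, neg_smul, smul_neg, neg_neg]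

theorem mpsB_pow (n : ℕ) (θ : ℝ) : e (-θ) ^ n = e (-(n * θ)) := by
  unfold e
  rw [← Complex.exp_nat_mul]
  congr 1
  push_cast
  ring

theorem antianal (Φ : ℂ → ℂ) (hΦ : Differentiable ℂ Φ) (n : ℤ) (hn : 0 < n) :
    ∫ θ in (0:ℝ)..1, Φ (e (-θ)) * e (-(n * θ)) = 0 := by
  obtain ⟨m, rfl⟩ := Int.eq_ofNat_of_zero_le hn.le
  have hm : m ≠ 0 := by
    rintro rfl
    simp at hn
  have h1 := mean_value (fun w => Φ w * w ^ m) (hΦ.mul (differentiable_id.pow m))
  simp only [zero_pow hm, mul_zero] at h1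
  rw [← h1]
  apply intervalIntegral.integral_congr
  intro θ _
  simp only
  rw [mpsB_pow]
  push_cast
  rfl

theorem l2_poly (p : Polynomial ℂ) (hp : (p.coeff 0).im = 0) :
    ∫ θ in (0:ℝ)..1, ‖p.eval (e (-θ))‖ ^ 2 ≤ 2 * ∫ θ in (0:ℝ)..1, ((p.eval (e (-θ))).re) ^ 2 := by
  have hc : Continuous (fun θ : ℝ => p.eval (e (-θ))) :=
    p.continuous.comp (e_cont.comp continuous_neg)
  have hre : Continuous (fun θ : ℝ => (p.eval (e (-θ))).re) := Complex.continuous_re.comp hc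
  have him : Continuous (fun θ : ℝ => (p.eval (e (-θ))).im) := Complex.continuous_im.comp hc
  have h1 := mean_value (fun w => p.eval w ^ 2) (p.differentiable.pow 2)
  have h2 : (∫ θ in (0:ℝ)..1, (p.eval (e (-θ))) ^ 2).re =
      ∫ θ in (0:ℝ)..1, ((p.eval (e (-θ))) ^ 2).re := by
    have := Complex.reCLM.intervalIntegral_comp_comm (μ := volume) (a := 0) (b := 1)
      (f := fun θ : ℝ => (p.eval (e (-θ))) ^ 2) ((hc.pow 2).intervalIntegrable 0 1)
    simpa using this.symm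
  have h3 : (p.eval (0:ℂ) ^ 2).re = (p.coeff 0).re ^ 2 := by
    rw [← Polynomial.coeff_zero_eq_eval_zero, sq, Complex.mul_re, hp]
    ring
  have h4 : ∀ θ : ℝ, ((p.eval (e (-θ))) ^ 2).re =
      (p.eval (e (-θ))).re ^ 2 - (p.eval (e (-θ))).im ^ 2 := by
    intro θ
    rw [sq, Complex.mul_re]
    ring
  have h5 : ∫ θ in (0:ℝ)..1, ((p.eval (e (-θ))) ^ 2).re =
      (∫ θ in (0:ℝ)..1, (p.eval (e (-θ))).re ^ 2) - ∫ θ in (0:ℝ)..1, (p.eval (e (-θ))).im ^ 2 := by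
    simp_rw [h4]
    exact intervalIntegral.integral_sub ((hre.pow 2).intervalIntegrable 0 1)
      ((him.pow 2).intervalIntegrable 0 1)
  have h6 : ∀ θ : ℝ, ‖p.eval (e (-θ))‖ ^ 2 =
      (p.eval (e (-θ))).re ^ 2 + (p.eval (e (-θ))).im ^ 2 := by
    intro θ
    rw [← Complex.normSq_eq_norm_sq, Complex.normSq_apply]
    ring
  have h7 : ∫ θ in (0:ℝ)..1, ‖p.eval (e (-θ))‖ ^ 2 =
      (∫ θ in (0:ℝ)..1, (p.eval (e (-θ))).re ^ 2) + ∫ θ in (0:ℝ)..1, (p.eval (e (-θ))).im ^ 2 := by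
    simp_rw [h6]
    exact intervalIntegral.integral_add ((hre.pow 2).intervalIntegrable 0 1)
      ((him.pow 2).intervalIntegrable 0 1)
  rw [h1, h5] at h2
  rw [h3] at h2
  have h8 : 0 ≤ (p.coeff 0).re ^ 2 := sq_nonneg _
  rw [h7]
  linarith

end COSZ
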