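import Pool.Agent.COSZ.Bas

/-!
Module MPSC. Two facts on complex numbers.
`sup_rec`: with `G_j = f_j + exp(-h_j/8) G_{j-1}` (here `G J = ∑_{j<J} f_j exp(-(1/8) ∑_{j<i<J} h_i)`),
`|G_{J+1}| ≤ |f_J| + e^{-Re h_J/8} |G_J| ≤ x + e^{-x/8} C ≤ C` for `x = |f_J| ∈ [0,1]`, because
`e^{-x/8} ≤ 1 - x (1 - e^{-1/8})` (convexity) and `C (1 - e^{-1/8}) ≥ 1` for `C = 9`.
`exp_sub_one`: `|e^{-z} - 1| ≤ |z|` for `Re z ≥ 0` (integrate the derivative along the segment, or
`Complex` lemma; mean value inequality on the convex half plane).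
-/

open Finset MeasureTheory

noncomputable section

namespace COSZ

lemma mpsC_real (x : ℝ) (h0 : 0 ≤ x) (h1 : x ≤ 1) : x + Real.exp (-(x / 8)) * 9 ≤ 9 := by
  have h2 : 1 + x / 8 ≤ Real.exp (x / 8) := by
    have := Real.add_one_le_exp (x / 8)
    linarith
  have h3 : Real.exp (-(x / 8)) * Real.exp (x / 8) = 1 := by
    rw [← Real.exp_add]; simp
  have h4 : 0 < Real.exp (-(x / 8)) := Real.exp_pos _
  have h5 : Real.exp (-(x / 8)) * (1 + x / 8) ≤ 1 := by
    calc Real.exp (-(x / 8)) * (1 + x / 8) ≤ Real.exp (-(x / 8)) * Real.exp (x / 8) :=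
          mul_le_mul_of_nonneg_left h2 h4.le
      _ = 1 := h3
  by_contra hc
  push Not at hc
  have h6 : (9 - x) / 9 < Real.exp (-(x / 8)) := by linarith
  have h7 : (9 - x) / 9 * (1 + x / 8) < 1 := by
    refine lt_of_lt_of_le (mul_lt_mul_of_pos_right h6 (by linarith)) h5
  nlinarith

theorem sup_rec (J : ℕ) (f h : ℕ → ℂ) (hf : ∀ j < J, ‖f j‖ ≤ 1) (hh : ∀ j < J, ‖f j‖ ≤ (h j).re) :
    ‖∑ j ∈ range J, f j * Complex.exp (-(1 / 8) * ∑ i ∈ Ico (j + 1) J, h i)‖ ≤ 9 := by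
  induction J with
  | zero => simp
  | succ J ih =>
    have ih' := ih (fun j hj => hf j (by omega)) (fun j hj => hh j (by omega))
    have h1 : ∑ j ∈ range (J + 1), f j * Complex.exp (-(1 / 8) * ∑ i ∈ Ico (j + 1) (J + 1), h i)
        = f J + Complex.exp (-(1 / 8) * h J) *
          ∑ j ∈ range J, f j * Complex.exp (-(1 / 8) * ∑ i ∈ Ico (j + 1) J, h i) := by
      rw [Finset.sum_range_succ, Finset.Ico_self, Finset.sum_empty, mul_zero, Complex.exp_zero,
        mul_one, add_comm, Finset.mul_sum]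
      congr 1
      refine Finset.sum_congr rfl fun j hj => ?_
      have hj' := Finset.mem_range.mp hj
      rw [Finset.sum_Ico_succ_top (by omega), mul_add, Complex.exp_add]
      ring
    rw [h1]
    have h2 : ‖Complex.exp (-(1 / 8) * h J)‖ ≤ Real.exp (-(‖f J‖ / 8)) := by
      rw [Complex.norm_exp]
      apply Real.exp_le_exp.mpr
      have h3 : (-(1 / 8 : ℂ) * h J).re = -((h J).re / 8) := by
        have : (-(1 / 8 : ℂ) * h J) = (((-(1 / 8) : ℝ)) : ℂ) * h J := by push_cast; ring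
        rw [this, Complex.re_ofReal_mul]
        ring
      rw [h3]
      have := hh J (by omega)
      linarith
    calc _ ≤ ‖f J‖ + ‖Complex.exp (-(1 / 8) * h J) *
          ∑ j ∈ range J, f j * Complex.exp (-(1 / 8) * ∑ i ∈ Ico (j + 1) J, h i)‖ :=
          norm_add_le _ _
      _ ≤ ‖f J‖ + Real.exp (-(‖f J‖ / 8)) * 9 := by
          rw [norm_mul]
          gcongr
      _ ≤ 9 := mpsC_real _ (norm_nonneg _) (hf J (by omega))

theorem exp_sub_one (z : ℂ) (hz : 0 ≤ z.re) : ‖Complex.exp (-z) - 1‖ ≤ ‖z‖ := by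
  have hconv : Convex ℝ {w : ℂ | 0 ≤ w.re} := convex_halfSpace_re_ge 0
  have h1 : ∀ w ∈ {w : ℂ | 0 ≤ w.re},
      HasDerivWithinAt (fun w : ℂ => Complex.exp (-w)) (Complex.exp (-w) * (-1))
        {w : ℂ | 0 ≤ w.re} w := by
    intro w _
    exact ((hasDerivAt_neg w).cexp).hasDerivWithinAt
  have h2 : ∀ w ∈ {w : ℂ | 0 ≤ w.re}, ‖Complex.exp (-w) * (-1)‖ ≤ 1 := by
    intro w hw
    rw [norm_mul, norm_neg, norm_one, mul_one, Complex.norm_exp]
    have : (-w).re ≤ 0 := by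
      rw [Complex.neg_re]
      have : 0 ≤ w.re := hw
      linarith
    calc Real.exp (-w).re ≤ Real.exp 0 := Real.exp_le_exp.mpr this
      _ = 1 := Real.exp_zero
  have h3 := hconv.norm_image_sub_le_of_norm_hasDerivWithin_le h1 h2
    (show (0:ℂ) ∈ {w : ℂ | 0 ≤ w.re} by simp) (show z ∈ {w : ℂ | 0 ≤ w.re} from hz)
  simpa using h3

end COSZ
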