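import Pool.Agent.COSZ.Bas

/-!
Module MPSD. Trigonometric polynomials with finite spectrum: coefficients, `L²` norm, and the block
functions. `coef_int`: orthogonality. `l2_block`: Parseval for a finite sum of unimodular coefficients.
`cs_int`: Cauchy-Schwarz for continuous complex functions on `[0,1]`.
-/

open Finset MeasureTheory

noncomputable section

namespace COSZ

/-- finite exponential sum -/
def tp (S : Finset ℤ) (c : ℤ → ℂ) (θ : ℝ) : ℂ := ∑ k ∈ S, c k * e (k * θ)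

theorem tp_cont (S : Finset ℤ) (c : ℤ → ℂ) : Continuous (tp S c) := by
  unfold tp
  exact continuous_finsetSum _ fun k _ => continuous_const.mul (e_cont.comp (continuous_const.mul continuous_id))

theorem tp_period (S : Finset ℤ) (c : ℤ → ℂ) (θ : ℝ) : tp S c (θ + 1) = tp S c θ := by
  unfold tp
  refine Finset.sum_congr rfl fun k _ => ?_
  rw [mul_add, mul_one, e_add, e_int, mul_one]

theorem coef_int (S : Finset ℤ) (c : ℤ → ℂ) (n : ℤ) :
    ∫ θ in (0:ℝ)..1, tp S c θ * e (-(n * θ)) = if n ∈ S then c n else 0 := by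
  have h1 : ∀ θ : ℝ, tp S c θ * e (-(n * θ)) = ∑ k ∈ S, c k * e (((k - n : ℤ) : ℝ) * θ) := by
    intro θ
    unfold tp
    rw [Finset.sum_mul]
    refine Finset.sum_congr rfl fun k _ => ?_
    rw [mul_assoc, ← e_add]
    congr 2
    push_cast
    ring
  simp_rw [h1]
  rw [intervalIntegral.integral_finsetSum]
  · have h2 : ∀ k ∈ S, ∫ θ in (0:ℝ)..1, c k * e (((k - n : ℤ) : ℝ) * θ) = if k = n then c n else 0 := by
      intro k _
      rw [intervalIntegral.integral_const_mul, int_e]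
      by_cases hk : k = n
      · subst hk
        simp
      · have : ¬ (k - n = 0) := by omega
        simp [hk, this]
    rw [Finset.sum_congr rfl h2, Finset.sum_ite_eq']
  · intro k _
    exact (continuous_const.mul (e_cont.comp (continuous_const.mul continuous_id))).intervalIntegrable 0 1

theorem l2_tp (S : Finset ℤ) (c : ℤ → ℂ) :
    ∫ θ in (0:ℝ)..1, ‖tp S c θ‖ ^ 2 = ∑ k ∈ S, ‖c k‖ ^ 2 := by
  have h1 : ((∫ θ in (0:ℝ)..1, ‖tp S c θ‖ ^ 2 : ℝ) : ℂ) =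
      ∫ θ in (0:ℝ)..1, ((‖tp S c θ‖ ^ 2 : ℝ) : ℂ) := by
    rw [intervalIntegral.integral_ofReal]
  have h2 : ∀ θ : ℝ, ((‖tp S c θ‖ ^ 2 : ℝ) : ℂ) =
      ∑ n ∈ S, (starRingEnd ℂ) (c n) * (tp S c θ * e (-(n * θ))) := by
    intro θ
    have h3 : (starRingEnd ℂ) (tp S c θ) = ∑ n ∈ S, (starRingEnd ℂ) (c n) * e (-(n * θ)) := by
      unfold tp
      rw [map_sum]
      refine Finset.sum_congr rfl fun k _ => ?_
      rw [map_mul, e_neg]
    have h4 : ((‖tp S c θ‖ ^ 2 : ℝ) : ℂ) = tp S c θ * (starRingEnd ℂ) (tp S c θ) := by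
      rw [Complex.mul_conj, Complex.normSq_eq_norm_sq]
    rw [h4, h3, Finset.mul_sum]
    refine Finset.sum_congr rfl fun k _ => ?_
    ring
  simp_rw [h2] at h1
  rw [intervalIntegral.integral_finsetSum] at h1
  · have h5 : ∀ n ∈ S, ∫ θ in (0:ℝ)..1, (starRingEnd ℂ) (c n) * (tp S c θ * e (-(n * θ))) =
        ((‖c n‖ ^ 2 : ℝ) : ℂ) := by
      intro n hn
      rw [intervalIntegral.integral_const_mul, coef_int, if_pos hn, mul_comm, Complex.mul_conj,
        Complex.normSq_eq_norm_sq]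
    rw [Finset.sum_congr rfl h5] at h1
    exact_mod_cast h1
  · intro n _
    exact (continuous_const.mul ((tp_cont S c).mul (e_cont.comp
      (continuous_const.mul continuous_id).neg))).intervalIntegrable 0 1

theorem mpsD_cs_pos (F G : ℝ → ℂ) (hF : Continuous F) (hG : Continuous G) (a b : ℝ) (ha : 0 < a) (hb : 0 < b)
    (h1 : ∫ θ in (0:ℝ)..1, ‖F θ‖ ^ 2 ≤ a ^ 2) (h2 : ∫ θ in (0:ℝ)..1, ‖G θ‖ ^ 2 ≤ b ^ 2) :
    ‖∫ θ in (0:ℝ)..1, F θ * G θ‖ ≤ a * b := by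
  have h3 : ‖∫ θ in (0:ℝ)..1, F θ * G θ‖ ≤ ∫ θ in (0:ℝ)..1, ‖F θ * G θ‖ :=
    intervalIntegral.norm_integral_le_integral_norm zero_le_one
  have h4 : ∫ θ in (0:ℝ)..1, ‖F θ * G θ‖ ≤
      ∫ θ in (0:ℝ)..1, (b / (2 * a) * ‖F θ‖ ^ 2 + a / (2 * b) * ‖G θ‖ ^ 2) := by
    apply intervalIntegral.integral_mono_on zero_le_one
    · exact ((hF.mul hG).norm).intervalIntegrable 0 1
    · exact ((continuous_const.mul (hF.norm.pow 2)).add
        (continuous_const.mul (hG.norm.pow 2))).intervalIntegrable 0 1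
    · intro θ _
      rw [norm_mul]
      have : 0 ≤ (b * ‖F θ‖ - a * ‖G θ‖) ^ 2 / (2 * a * b) := by positivity
      have e1 : b / (2 * a) * ‖F θ‖ ^ 2 + a / (2 * b) * ‖G θ‖ ^ 2 - ‖F θ‖ * ‖G θ‖ =
          (b * ‖F θ‖ - a * ‖G θ‖) ^ 2 / (2 * a * b) := by
        field_simp
        ring
      linarith
  have h5 : ∫ θ in (0:ℝ)..1, (b / (2 * a) * ‖F θ‖ ^ 2 + a / (2 * b) * ‖G θ‖ ^ 2) =
      b / (2 * a) * (∫ θ in (0:ℝ)..1, ‖F θ‖ ^ 2) + a / (2 * b) * ∫ θ in (0:ℝ)..1, ‖G θ‖ ^ 2 := by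
    rw [intervalIntegral.integral_add, intervalIntegral.integral_const_mul,
      intervalIntegral.integral_const_mul]
    · exact (continuous_const.mul (hF.norm.pow 2)).intervalIntegrable 0 1
    · exact (continuous_const.mul (hG.norm.pow 2)).intervalIntegrable 0 1
  have h6 : b / (2 * a) * (∫ θ in (0:ℝ)..1, ‖F θ‖ ^ 2) ≤ b / (2 * a) * a ^ 2 :=
    mul_le_mul_of_nonneg_left h1 (by positivity)
  have h7 : a / (2 * b) * (∫ θ in (0:ℝ)..1, ‖G θ‖ ^ 2) ≤ a / (2 * b) * b ^ 2 :=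
    mul_le_mul_of_nonneg_left h2 (by positivity)
  have h8 : b / (2 * a) * a ^ 2 + a / (2 * b) * b ^ 2 = a * b := by
    field_simp
    ring
  linarith

theorem cs_int (F G : ℝ → ℂ) (hF : Continuous F) (hG : Continuous G) (a b : ℝ) (ha : 0 ≤ a) (hb : 0 ≤ b)
    (h1 : ∫ θ in (0:ℝ)..1, ‖F θ‖ ^ 2 ≤ a ^ 2) (h2 : ∫ θ in (0:ℝ)..1, ‖G θ‖ ^ 2 ≤ b ^ 2) :
    ‖∫ θ in (0:ℝ)..1, F θ * G θ‖ ≤ a * b := by
  have h3 : ∀ ε : ℝ, 0 < ε → ‖∫ θ in (0:ℝ)..1, F θ * G θ‖ ≤ (a + ε) * (b + ε) := by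
    intro ε hε
    apply mpsD_cs_pos F G hF hG _ _ (by linarith) (by linarith)
    · refine h1.trans ?_
      gcongr
      linarith
    · refine h2.trans ?_
      gcongr
      linarith
  have h4 : Filter.Tendsto (fun ε : ℝ => (a + ε) * (b + ε)) (nhdsWithin 0 (Set.Ioi 0))
      (nhds ((a + 0) * (b + 0))) := by
    have : Continuous (fun ε : ℝ => (a + ε) * (b + ε)) := by fun_prop
    exact (this.tendsto 0).mono_left nhdsWithin_le_nhds
  rw [add_zero, add_zero] at h4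
  refine ge_of_tendsto h4 ?_
  filter_upwards [self_mem_nhdsWithin] with ε hε
  exact h3 ε hε

end COSZ
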