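import Pool.Agent.COSZ.MpsG

/-!
Module MPSE. The test function. Data: pairwise ordered blocks `S 0 < S 1 < ... < S (J-1)` with
`|S j| = 4^j`, unimodular `u`. Put `f_j = 4^{-j} ∑_{k∈S_j} u_k e(kθ)`, so `|f_j| ≤ 1`,
`∫|f_j|² = 4^{-j}`. By `majorant` (ε = 2^{-j}) applied to `|f_j|` take `p_j` and `h_j(θ) = p_j(e(-θ))`:
`Re h_j ≥ |f_j|`, `∫ (Re h_j)² ≤ ∫ (|f_j| + 2^{-j})² ≤ 4 · 4^{-j}`, `∫|h_j|² ≤ 8 · 4^{-j}` (`l2_poly`).
`G = ∑_j f_j E_j`, `E_j = exp(-(1/8) ∑_{j<i<J} h_i)`. Then `|G| ≤ 9` (`sup_rec`).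
Coefficient of `G` at `n ∈ S_l`: for `j < l` it is zero (`antianal` for each frequency `k < n` of `f_j`:
`f_j E_j e(-nθ) = ∑ 4^{-j} u_k Φ(e(-θ)) e(-(n-k)θ)`). For `j ≥ l`:
`∫ f_j E_j e(-n·) = ∫ f_j e(-n·) + ∫ f_j (E_j - 1) e(-n·)`; the first term is `4^{-l} u_n` for `j = l`, zero
for `j > l`; the second is at most `‖f_j‖₂ ‖E_j - 1‖₂ ≤ 2^{-j} (1/8) ‖∑_{i>j} h_i‖₂ ≤ 2^{-j} (1/8) √8 2^{-j}`
(`exp_sub_one`; pointwise Cauchy-Schwarz `|∑_{i>j} h_i|² ≤ ∑_{i>j} 2^{i-j} |h_i|²` as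
`∑_{i>j} 2^{-(i-j)} ≤ 1`, whose integral is at most `∑_{i>j} 2^{i-j} 8 · 4^{-i} ≤ 8 · 4^{-j}`).
The sum over `j ≥ l` is at most `(√8/8)(4/3) 4^{-l} ≤ 4^{-l}/2`.
For `n` larger than all blocks every coefficient is zero (`antianal`).
-/

open Finset MeasureTheory

noncomputable section

namespace COSZ

theorem mpsE_geom (l J : ℕ) : ∑ j ∈ range J, (if j < l then (0:ℝ) else (3 / 8) / 4 ^ j) ≤
    1 / (2 * 4 ^ l) := by
  have h : ∑ j ∈ range J, (if j < l then (0:ℝ) else (3 / 8) / 4 ^ j) ≤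
      (1 / 2) * (1 / 4 ^ l - 1 / 4 ^ (max J l)) := by
    induction J with
    | zero => simp
    | succ J ih =>
      rw [Finset.sum_range_succ]
      by_cases hJ : J < l
      · have h1 : max J l = l := by omega
        have h2 : max (J + 1) l = l := by omega
        rw [h1] at ih
        rw [h2, if_pos hJ]
        linarith
      · have h1 : max J l = J := by omega
        have h2 : max (J + 1) l = J + 1 := by omega
        rw [h1] at ih
        rw [h2, if_neg hJ]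
        have h3 : (1:ℝ) / 4 ^ (J + 1) = (1 / 4) * (1 / 4 ^ J) := by
          rw [pow_succ]; field_simp
        have h4 : (3 / 8 : ℝ) / 4 ^ J = (3 / 8) * (1 / 4 ^ J) := by ring
        rw [h3, h4]
        linarith
  refine h.trans ?_
  have h1 : (0:ℝ) ≤ 1 / 4 ^ (max J l) := by positivity
  have h2 : (1:ℝ) / (2 * 4 ^ l) = (1 / 2) * (1 / 4 ^ l) := by field_simp
  rw [h2]
  linarith

/-- vanishing of the coefficients beyond the block -/
theorem mpsE_zero (S : Finset ℤ) (c : ℤ → ℂ) (Φ : ℂ → ℂ) (hΦ : Differentiable ℂ Φ) (n : ℤ)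
    (hn : ∀ k ∈ S, k < n) : ∫ θ in (0:ℝ)..1, tp S c θ * Φ (e (-θ)) * e (-(n * θ)) = 0 := by
  have h1 : (fun θ : ℝ => tp S c θ * Φ (e (-θ)) * e (-(n * θ))) =
      fun θ => ∑ k ∈ S, c k * (Φ (e (-θ)) * e (-(((n - k : ℤ) : ℝ) * θ))) := by
    funext θ
    rw [tp, Finset.sum_mul, Finset.sum_mul]
    refine Finset.sum_congr rfl (fun k _ => ?_)
    have h2 : e (-(((n - k : ℤ) : ℝ) * θ)) = e (k * θ) * e (-(n * θ)) := by
      rw [← e_add]
      congr 1
      push_cast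
      ring
    rw [h2]
    ring
  rw [h1, intervalIntegral.integral_finsetSum]
  · refine Finset.sum_eq_zero (fun k hk => ?_)
    rw [intervalIntegral.integral_const_mul, antianal Φ hΦ (n - k) (by have := hn k hk; omega), mul_zero]
  · intro k _
    apply Continuous.intervalIntegrable
    have h3 : Continuous fun θ : ℝ => Φ (e (-θ)) := hΦ.continuous.comp (e_cont.comp continuous_neg)
    have h4 : Continuous fun θ : ℝ => e (-(((n - k : ℤ) : ℝ) * θ)) := e_cont.comp (by fun_prop)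
    exact continuous_const.mul (h3.mul h4)

/-- the coefficients within and before the block -/
theorem mpsE_near (S : Finset ℤ) (c : ℤ → ℂ) (j : ℕ) (E : ℝ → ℂ) (hE : Continuous E) (n : ℤ)
    (h1 : ∫ θ in (0:ℝ)..1, ‖tp S c θ‖ ^ 2 ≤ 1 / 4 ^ j)
    (h2 : ∫ θ in (0:ℝ)..1, ‖E θ - 1‖ ^ 2 ≤ (1 / 64) * (8 / 4 ^ j)) :
    ‖(∫ θ in (0:ℝ)..1, tp S c θ * E θ * e (-(n * θ))) - (if n ∈ S then c n else 0)‖ ≤ (3 / 8) / 4 ^ j := by
  have he : Continuous fun θ : ℝ => e (-(n * θ)) := e_cont.comp (by fun_prop)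
  have ht := tp_cont S c
  have h3 : (∫ θ in (0:ℝ)..1, tp S c θ * E θ * e (-(n * θ))) - (if n ∈ S then c n else 0) =
      ∫ θ in (0:ℝ)..1, tp S c θ * ((E θ - 1) * e (-(n * θ))) := by
    rw [← coef_int S c n, ← intervalIntegral.integral_sub]
    · congr 1
      funext θ
      ring
    · exact ((ht.mul hE).mul he).intervalIntegrable _ _
    · exact (ht.mul he).intervalIntegrable _ _
  rw [h3]
  have h4 := cs_int (tp S c) (fun θ => (E θ - 1) * e (-(n * θ))) ht ((hE.sub continuous_const).mul he)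
    (1 / 2 ^ j) ((3 / 8) / 2 ^ j) (by positivity) (by positivity) ?_ ?_
  · refine h4.trans (le_of_eq ?_)
    have : (4:ℝ) ^ j = 2 ^ j * 2 ^ j := by rw [← mul_pow]; norm_num
    rw [this]
    field_simp
  · refine h1.trans (le_of_eq ?_)
    have : (4:ℝ) ^ j = 2 ^ j * 2 ^ j := by rw [← mul_pow]; norm_num
    rw [this]
    field_simp
  · have h5 : ∀ θ : ℝ, ‖(E θ - 1) * e (-(n * θ))‖ ^ 2 = ‖E θ - 1‖ ^ 2 := by
      intro θ
      rw [norm_mul, norm_e, mul_one]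
    simp only [h5]
    refine h2.trans ?_
    have : (4:ℝ) ^ j = 2 ^ j * 2 ^ j := by rw [← mul_pow]; norm_num
    rw [this, div_pow, pow_two (2 ^ j : ℝ)]
    have hp : (0:ℝ) < 2 ^ j * 2 ^ j := by positivity
    rw [← mul_div_assoc]
    apply div_le_div_of_nonneg_right _ hp.le
    norm_num

theorem test_fun (J : ℕ) (S : ℕ → Finset ℤ) (hcard : ∀ j < J, (S j).card = 4 ^ j)
    (hord : ∀ i j, i < j → j < J → ∀ x ∈ S i, ∀ y ∈ S j, x < y) (u : ℤ → ℂ) (hu : ∀ k, ‖u k‖ = 1) :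
    ∃ G : ℝ → ℂ, Continuous G ∧ (∀ θ, ‖G θ‖ ≤ 9) ∧
      (∀ l < J, ∀ n ∈ S l, ‖(∫ θ in (0:ℝ)..1, G θ * e (-(n * θ))) - u n / 4 ^ l‖ ≤ 1 / (2 * 4 ^ l)) ∧
      (∀ n : ℤ, (∀ j < J, ∀ x ∈ S j, x < n) → ∫ θ in (0:ℝ)..1, G θ * e (-(n * θ)) = 0) := by
  classical
  have hp : ∀ j : ℕ, ∃ p : Polynomial ℂ, j < J →
      ((∀ θ, ‖tp (S j) (fun k => u k / 4 ^ j) θ‖ ≤ (p.eval (e (-θ))).re) ∧
      ∫ θ in (0:ℝ)..1, ‖p.eval (e (-θ))‖ ^ 2 ≤ 8 / 4 ^ j) := by
    intro j
    by_cases hj : j < J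
    · obtain ⟨_, _, p, hp⟩ := block_data (S j) j (hcard j hj) u hu
      exact ⟨p, fun _ => hp⟩
    · exact ⟨0, fun h => absurd h hj⟩
  choose p hp using hp
  set f : ℕ → ℝ → ℂ := fun j θ => tp (S j) (fun k => u k / 4 ^ j) θ with hf
  set h : ℕ → ℝ → ℂ := fun j θ => (p j).eval (e (-θ)) with hh
  set Φ : ℕ → ℂ → ℂ := fun j w => Complex.exp (-(1 / 8) * ∑ i ∈ Ico (j + 1) J, (p i).eval w) with hΦ
  have hΦd : ∀ j, Differentiable ℂ (Φ j) := by
    intro j
    apply Differentiable.cexp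
    apply Differentiable.const_mul
    apply Differentiable.fun_sum
    intro i _
    exact (p i).differentiable
  have hhc : ∀ j, Continuous (h j) := by
    intro j
    exact (p j).continuous.comp (e_cont.comp continuous_neg)
  have hfc : ∀ j, Continuous (f j) := fun j => tp_cont _ _
  have hEc : ∀ j, Continuous fun θ : ℝ => Φ j (e (-θ)) := fun j =>
    (hΦd j).continuous.comp (e_cont.comp continuous_neg)
  have hre : ∀ j < J, ∀ θ, 0 ≤ (h j θ).re := fun j hj θ => (norm_nonneg _).trans ((hp j hj).1 θ)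
  have hl2 : ∀ j < J, ∫ θ in (0:ℝ)..1, ‖h j θ‖ ^ 2 ≤ 8 / 4 ^ j := fun j hj => (hp j hj).2
  have hGc : Continuous fun θ : ℝ => ∑ j ∈ range J, f j θ * Φ j (e (-θ)) :=
    continuous_finsetSum _ (fun j _ => (hfc j).mul (hEc j))
  have hGi : ∀ n : ℤ, ∫ θ in (0:ℝ)..1, (∑ j ∈ range J, f j θ * Φ j (e (-θ))) * e (-(n * θ)) =
      ∑ j ∈ range J, ∫ θ in (0:ℝ)..1, f j θ * Φ j (e (-θ)) * e (-(n * θ)) := by
    intro n
    have he : Continuous fun θ : ℝ => e (-(n * θ)) := e_cont.comp (by fun_prop)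
    rw [← intervalIntegral.integral_finsetSum]
    · congr 1
      funext θ
      rw [Finset.sum_mul]
    · intro j _
      exact (((hfc j).mul (hEc j)).mul he).intervalIntegrable _ _
  refine ⟨fun θ => ∑ j ∈ range J, f j θ * Φ j (e (-θ)), hGc, ?_, ?_, ?_⟩
  · intro θ
    apply sup_rec J (fun j => f j θ) (fun j => h j θ)
    · intro j hj
      exact (block_data (S j) j (hcard j hj) u hu).1 θ
    · intro j hj
      exact (hp j hj).1 θ
  · intro l hl n hn
    rw [hGi n]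
    have h1 : u n / 4 ^ l = ∑ j ∈ range J, (if n ∈ S j then u n / 4 ^ j else 0) := by
      rw [Finset.sum_eq_single l]
      · rw [if_pos hn]
      · intro j hj hjl
        rw [if_neg]
        intro hnj
        rcases lt_or_gt_of_ne hjl with h | h
        · exact lt_irrefl _ (hord j l h hl n hnj n hn)
        · exact lt_irrefl _ (hord l j h (Finset.mem_range.mp hj) n hn n hnj)
      · intro h; exact absurd (Finset.mem_range.mpr hl) h
    rw [h1, ← Finset.sum_sub_distrib]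
    refine (norm_sum_le _ _).trans ?_
    refine le_trans (Finset.sum_le_sum (fun j hj => ?_)) (mpsE_geom l J)
    have hj' := Finset.mem_range.mp hj
    by_cases hjl : j < l
    · rw [if_pos hjl]
      rw [if_neg (fun hnj => lt_irrefl _ (hord j l hjl hl n hnj n hn))]
      rw [mpsE_zero (S j) _ (Φ j) (hΦd j) n (fun k hk => hord j l hjl hl k hk n hn)]
      simp
    · rw [if_neg hjl]
      apply mpsE_near (S j) (fun k => u k / 4 ^ j) j _ (hEc j) n
      · exact (block_data (S j) j (hcard j hj') u hu).2.1.le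
      · exact tail_exp J h hhc hre hl2 j hj'
  · intro n hn
    rw [hGi n]
    refine Finset.sum_eq_zero (fun j hj => ?_)
    exact mpsE_zero (S j) _ (Φ j) (hΦd j) n (hn j (Finset.mem_range.mp hj))

end COSZ
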