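import Pool.Agent.COSZ.MpsA
import Pool.Agent.COSZ.MpsB
import Pool.Agent.COSZ.MpsC
import Pool.Agent.COSZ.MpsD

/-!
Module MPSG. The data of one block and the tails. `block_data`: `f = tp S (u/4^j)` has `|f| ≤ 1`,
`∫|f|² = 4^{-j}`; apply `majorant` with `v = |f|`, `ε = 2^{-j}`:
`∫ (Re p)² ≤ ∫ (|f| + 2^{-j})² ≤ 2 ∫|f|² + 2·4^{-j} = 4·4^{-j}`, and `l2_poly`.
`tail_l2`: pointwise Cauchy-Schwarz `|∑_{i>j} h_i|² ≤ (∑_{i>j} 2^{-(i-j)}) (∑_{i>j} 2^{i-j} |h_i|²)`, the first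
factor is at most 1, and `∑_{i>j} 2^{i-j} 8/4^i ≤ 8/4^j`. `tail_exp`: `exp_sub_one`.
-/

open Finset MeasureTheory

noncomputable section

namespace COSZ

theorem mpsG_norm_e (x : ℝ) : ‖e x‖ = 1 := by
  unfold e
  have : (2 * (Real.pi : ℂ) * (x : ℂ) * Complex.I) = ((2 * Real.pi * x : ℝ) : ℂ) * Complex.I := by
    push_cast; ring
  rw [this, Complex.norm_exp_ofReal_mul_I]

theorem mpsG_cont_e : Continuous e := by
  unfold e; fun_prop

theorem mpsG_cont_poly (p : Polynomial ℂ) : Continuous (fun θ : ℝ => p.eval (e (-θ))) := by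
  exact p.continuous.comp (mpsG_cont_e.comp continuous_neg)

theorem block_data (S : Finset ℤ) (j : ℕ) (hS : S.card = 4 ^ j) (u : ℤ → ℂ) (hu : ∀ k, ‖u k‖ = 1) :
    (∀ θ, ‖tp S (fun k => u k / 4 ^ j) θ‖ ≤ 1) ∧
    ∫ θ in (0:ℝ)..1, ‖tp S (fun k => u k / 4 ^ j) θ‖ ^ 2 = 1 / 4 ^ j ∧
    ∃ p : Polynomial ℂ, (∀ θ, ‖tp S (fun k => u k / 4 ^ j) θ‖ ≤ (p.eval (e (-θ))).re) ∧
      ∫ θ in (0:ℝ)..1, ‖p.eval (e (-θ))‖ ^ 2 ≤ 8 / 4 ^ j := by
  have h4 : (0:ℝ) < 4 ^ j := by positivity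
  have hnorm : ∀ k, ‖u k / 4 ^ j‖ = 1 / 4 ^ j := by
    intro k
    rw [norm_div, hu k, norm_pow]
    norm_num
  have h2 : ∫ θ in (0:ℝ)..1, ‖tp S (fun k => u k / 4 ^ j) θ‖ ^ 2 = 1 / 4 ^ j := by
    rw [l2_tp]
    simp only [hnorm]
    rw [Finset.sum_const, hS, nsmul_eq_mul]
    push_cast
    field_simp
  refine ⟨?_, h2, ?_⟩
  · intro θ
    unfold tp
    refine (norm_sum_le _ _).trans ?_
    have : ∀ k ∈ S, ‖u k / 4 ^ j * e (k * θ)‖ = 1 / 4 ^ j := by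
      intro k _
      rw [norm_mul, hnorm, mpsG_norm_e, mul_one]
    rw [Finset.sum_congr rfl this, Finset.sum_const, hS, nsmul_eq_mul]
    push_cast
    rw [mul_one_div, div_self (ne_of_gt h4)]
  · set F : ℝ → ℂ := tp S (fun k => u k / 4 ^ j) with hF
    have hFc : Continuous F := tp_cont _ _
    obtain ⟨p, hp0, hp⟩ := majorant (fun θ => ‖F θ‖) hFc.norm
      (fun θ => by simp only [hF]; rw [tp_period]) (1 / 2 ^ j) (by positivity)
    refine ⟨p, fun θ => (hp θ).1, ?_⟩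
    refine (l2_poly p hp0).trans ?_
    have hpc := mpsG_cont_poly p
    have hle : ∫ θ in (0:ℝ)..1, ((p.eval (e (-θ))).re) ^ 2 ≤
        ∫ θ in (0:ℝ)..1, (2 * ‖F θ‖ ^ 2 + 2 * (1 / 4 ^ j)) := by
      apply intervalIntegral.integral_mono_on (by norm_num)
      · exact ((Complex.continuous_re.comp hpc).pow 2).intervalIntegrable _ _
      · exact (((continuous_const.mul (hFc.norm.pow 2)).add continuous_const)).intervalIntegrable _ _
      · intro θ _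
        have h1 := (hp θ).1
        have h3 := (hp θ).2
        have h5 : (0:ℝ) ≤ ‖F θ‖ := norm_nonneg _
        have h6 : ((p.eval (e (-θ))).re) ^ 2 ≤ (‖F θ‖ + 1 / 2 ^ j) ^ 2 := by
          apply pow_le_pow_left₀ (le_trans h5 h1) h3
        have h7 : ((1:ℝ) / 2 ^ j) ^ 2 = 1 / 4 ^ j := by
          rw [div_pow, one_pow, ← pow_mul, mul_comm, pow_mul]
          norm_num
        nlinarith [sq_nonneg (‖F θ‖ - 1 / 2 ^ j)]
    have heq : ∫ θ in (0:ℝ)..1, (2 * ‖F θ‖ ^ 2 + 2 * (1 / 4 ^ j)) = 4 * (1 / 4 ^ j) := by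
      rw [intervalIntegral.integral_add, intervalIntegral.integral_const_mul, h2]
      · simp; ring
      · exact (continuous_const.mul (hFc.norm.pow 2)).intervalIntegrable _ _
      · exact continuous_const.intervalIntegrable _ _
    rw [heq] at hle
    calc 2 * ∫ θ in (0:ℝ)..1, ((p.eval (e (-θ))).re) ^ 2 ≤ 2 * (4 * (1 / 4 ^ j)) := by linarith
      _ = 8 / 4 ^ j := by ring

theorem mpsG_geo (j J : ℕ) : ∑ i ∈ Ico (j + 1) J, ((1:ℝ) / 2) ^ (i - j) ≤ 1 := by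
  have h : ∀ n : ℕ, ∑ i ∈ range n, ((1:ℝ) / 2) ^ (i + 1) = 1 - (1 / 2) ^ n := by
    intro n
    induction n with
    | zero => simp
    | succ n ih => rw [Finset.sum_range_succ, ih]; ring
  rw [Finset.sum_Ico_eq_sum_range]
  have : ∀ i ∈ range (J - (j + 1)), ((1:ℝ) / 2) ^ (j + 1 + i - j) = (1 / 2) ^ (i + 1) := by
    intro i _
    congr 1
    omega
  rw [Finset.sum_congr rfl this, h]
  have : (0:ℝ) ≤ (1 / 2) ^ (J - (j + 1)) := by positivity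
  linarith

theorem tail_l2 (J : ℕ) (h : ℕ → ℝ → ℂ) (hc : ∀ i, Continuous (h i))
    (hl : ∀ i < J, ∫ θ in (0:ℝ)..1, ‖h i θ‖ ^ 2 ≤ 8 / 4 ^ i) (j : ℕ) (hj : j < J) :
    ∫ θ in (0:ℝ)..1, ‖∑ i ∈ Ico (j + 1) J, h i θ‖ ^ 2 ≤ 8 / 4 ^ j := by
  have hpt : ∀ θ : ℝ, ‖∑ i ∈ Ico (j + 1) J, h i θ‖ ^ 2 ≤
      ∑ i ∈ Ico (j + 1) J, (2:ℝ) ^ (i - j) * ‖h i θ‖ ^ 2 := by
    intro θ
    have h1 : ‖∑ i ∈ Ico (j + 1) J, h i θ‖ ^ 2 ≤ (∑ i ∈ Ico (j + 1) J, ‖h i θ‖) ^ 2 :=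
      pow_le_pow_left₀ (norm_nonneg _) (norm_sum_le _ _) 2
    have h2 : (∑ i ∈ Ico (j + 1) J, ‖h i θ‖) ^ 2 ≤
        (∑ i ∈ Ico (j + 1) J, ((1:ℝ) / 2) ^ (i - j)) *
          ∑ i ∈ Ico (j + 1) J, (2:ℝ) ^ (i - j) * ‖h i θ‖ ^ 2 := by
      apply Finset.sum_sq_le_sum_mul_sum_of_sq_eq_mul
      · intro i _; positivity
      · intro i _; positivity
      · intro i _
        rw [← mul_assoc, ← mul_pow]
        norm_num
    have h3 := mpsG_geo j J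
    have h4 : 0 ≤ ∑ i ∈ Ico (j + 1) J, (2:ℝ) ^ (i - j) * ‖h i θ‖ ^ 2 :=
      Finset.sum_nonneg (fun i _ => by positivity)
    nlinarith
  have hint : ∀ i, IntervalIntegrable (fun θ : ℝ => (2:ℝ) ^ (i - j) * ‖h i θ‖ ^ 2) volume 0 1 := by
    intro i
    exact (continuous_const.mul ((hc i).norm.pow 2)).intervalIntegrable _ _
  calc ∫ θ in (0:ℝ)..1, ‖∑ i ∈ Ico (j + 1) J, h i θ‖ ^ 2
      ≤ ∫ θ in (0:ℝ)..1, ∑ i ∈ Ico (j + 1) J, (2:ℝ) ^ (i - j) * ‖h i θ‖ ^ 2 := by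
        apply intervalIntegral.integral_mono_on (by norm_num)
        · exact ((continuous_finset_sum _ (fun i _ => hc i)).norm.pow 2).intervalIntegrable _ _
        · exact (continuous_finset_sum _
            (fun i _ => continuous_const.mul ((hc i).norm.pow 2))).intervalIntegrable _ _
        · intro θ _; exact hpt θ
    _ = ∑ i ∈ Ico (j + 1) J, (2:ℝ) ^ (i - j) * ∫ θ in (0:ℝ)..1, ‖h i θ‖ ^ 2 := by
        rw [intervalIntegral.integral_finset_sum (fun i _ => hint i)]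
        apply Finset.sum_congr rfl
        intro i _
        rw [intervalIntegral.integral_const_mul]
    _ ≤ ∑ i ∈ Ico (j + 1) J, 8 / 4 ^ j * ((1:ℝ) / 2) ^ (i - j) := by
        apply Finset.sum_le_sum
        intro i hi
        rw [Finset.mem_Ico] at hi
        have h1 := hl i hi.2
        have h2 : (2:ℝ) ^ (i - j) * ∫ θ in (0:ℝ)..1, ‖h i θ‖ ^ 2 ≤ 2 ^ (i - j) * (8 / 4 ^ i) :=
          mul_le_mul_of_nonneg_left h1 (by positivity)
        refine h2.trans (le_of_eq ?_)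
        obtain ⟨d, hd⟩ : ∃ d, i = j + d := ⟨i - j, by omega⟩
        subst hd
        rw [Nat.add_sub_cancel_left, pow_add]
        have h4 : (4:ℝ) ^ d = 2 ^ d * 2 ^ d := by rw [← mul_pow]; norm_num
        rw [h4, one_div, inv_pow]
        field_simp
    _ = 8 / 4 ^ j * ∑ i ∈ Ico (j + 1) J, ((1:ℝ) / 2) ^ (i - j) := by rw [Finset.mul_sum]
    _ ≤ 8 / 4 ^ j * 1 := mul_le_mul_of_nonneg_left (mpsG_geo j J) (by positivity)
    _ = 8 / 4 ^ j := mul_one _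

theorem tail_exp (J : ℕ) (h : ℕ → ℝ → ℂ) (hc : ∀ i, Continuous (h i))
    (hr : ∀ i < J, ∀ θ, 0 ≤ (h i θ).re)
    (hl : ∀ i < J, ∫ θ in (0:ℝ)..1, ‖h i θ‖ ^ 2 ≤ 8 / 4 ^ i) (j : ℕ) (hj : j < J) :
    ∫ θ in (0:ℝ)..1, ‖Complex.exp (-(1 / 8) * ∑ i ∈ Ico (j + 1) J, h i θ) - 1‖ ^ 2 ≤
      (1 / 64) * (8 / 4 ^ j) := by
  have hsc : Continuous (fun θ : ℝ => ∑ i ∈ Ico (j + 1) J, h i θ) :=
    continuous_finset_sum _ (fun i _ => hc i)
  have hpt : ∀ θ : ℝ, ‖Complex.exp (-(1 / 8) * ∑ i ∈ Ico (j + 1) J, h i θ) - 1‖ ^ 2 ≤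
      (1 / 64) * ‖∑ i ∈ Ico (j + 1) J, h i θ‖ ^ 2 := by
    intro θ
    set s : ℂ := ∑ i ∈ Ico (j + 1) J, h i θ with hs
    have hre : 0 ≤ s.re := by
      rw [hs, Complex.re_sum]
      exact Finset.sum_nonneg (fun i hi => hr i (Finset.mem_Ico.1 hi).2 θ)
    have hz : 0 ≤ ((1 / 8 : ℂ) * s).re := by
      have : ((1 / 8 : ℂ) * s).re = (1 / 8) * s.re := by
        have h8 : (1 / 8 : ℂ) = ((1 / 8 : ℝ) : ℂ) := by push_cast; ring
        rw [h8, Complex.re_ofReal_mul]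
      rw [this]; positivity
    have h1 := exp_sub_one ((1 / 8 : ℂ) * s) hz
    have h2 : -(1 / 8) * s = -((1 / 8 : ℂ) * s) := by ring
    rw [h2]
    have h3 : ‖(1 / 8 : ℂ) * s‖ = (1 / 8) * ‖s‖ := by
      rw [norm_mul]; norm_num
    rw [h3] at h1
    calc ‖Complex.exp (-((1 / 8 : ℂ) * s)) - 1‖ ^ 2 ≤ ((1 / 8) * ‖s‖) ^ 2 :=
          pow_le_pow_left₀ (norm_nonneg _) h1 2
      _ = (1 / 64) * ‖s‖ ^ 2 := by ring
  calc ∫ θ in (0:ℝ)..1, ‖Complex.exp (-(1 / 8) * ∑ i ∈ Ico (j + 1) J, h i θ) - 1‖ ^ 2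
      ≤ ∫ θ in (0:ℝ)..1, (1 / 64) * ‖∑ i ∈ Ico (j + 1) J, h i θ‖ ^ 2 := by
        apply intervalIntegral.integral_mono_on (by norm_num)
        · apply Continuous.intervalIntegrable
          exact (((Complex.continuous_exp.comp (continuous_const.mul hsc)).sub
            continuous_const).norm.pow 2)
        · exact (continuous_const.mul (hsc.norm.pow 2)).intervalIntegrable _ _
        · intro θ _; exact hpt θ
    _ = (1 / 64) * ∫ θ in (0:ℝ)..1, ‖∑ i ∈ Ico (j + 1) J, h i θ‖ ^ 2 :=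
        intervalIntegral.integral_const_mul _ _
    _ ≤ (1 / 64) * (8 / 4 ^ j) :=
        mul_le_mul_of_nonneg_left (tail_l2 J h hc hl j hj) (by norm_num)

end COSZ
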