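import Pool.Agent.COSZ.FejC
import Pool.Agent.COSZ.FejD

/-!
Module MU. Formula of the average along the step `h`:
`∫ cs A θ cos(2πkθ) fej L (hθ) = ∑_{|l|<L} KL L l fh A (k - l h)` (sum `int_cos_fejh` over `x ∈ A`,
exchange sums, `fh A (k - l h)` is half the number of the two conditions). If all these coefficients are
nonzero they are at least one half, and `∑ KL = 1`.
-/

open Finset MeasureTheory

noncomputable section

namespace COSZ

private lemma mu_fh (A : Finset ℤ) (m : ℤ) :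
    ∑ x ∈ A, ((if x = m then (1:ℝ) else 0) + (if x = -m then (1:ℝ) else 0)) = 2 * fh A m := by
  rw [Finset.sum_add_distrib, Finset.sum_ite_eq', Finset.sum_ite_eq']
  unfold fh
  ring

theorem mu_formula (A : Finset ℤ) (h L : ℕ) (hh : 1 ≤ h) (hL : 1 ≤ L) (k : ℤ) :
    wi A h L (fun _ => 1) k = ∑ l ∈ Finset.Ioo (-(L:ℤ)) L, KL L l * fh A (k - l * h) := by
  unfold wi
  have h0 : ∀ θ : ℝ, cs A θ * Real.cos (2 * Real.pi * k * θ) * fej L (h * θ) * 1 =
      ∑ x ∈ A, Real.cos (2 * Real.pi * x * θ) * Real.cos (2 * Real.pi * k * θ) * fej L (h * θ) := by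
    intro θ
    unfold cs
    rw [mul_one, Finset.sum_mul, Finset.sum_mul]
  simp only [h0]
  have hint : ∀ x ∈ A, IntervalIntegrable (fun θ : ℝ => Real.cos (2 * Real.pi * x * θ) *
      Real.cos (2 * Real.pi * k * θ) * fej L (h * θ)) volume 0 1 := by
    intro x _
    refine Continuous.intervalIntegrable ?_ 0 1
    refine Continuous.mul (by fun_prop) ((fej_cont L).comp (by fun_prop))
  rw [intervalIntegral.integral_finsetSum hint]
  simp only [int_cos_fejh L h hL hh]
  rw [← Finset.sum_div, Finset.sum_comm, Finset.sum_div]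
  refine Finset.sum_congr rfl (fun l _ => ?_)
  rw [← Finset.mul_sum, mu_fh]
  ring

theorem mu_run (A : Finset ℤ) (h L : ℕ) (hh : 1 ≤ h) (hL : 1 ≤ L) (k : ℤ)
    (hr : ∀ l : ℤ, |l| < L → fh A (k - l * h) ≠ 0) : 1 / 2 ≤ wi A h L (fun _ => 1) k := by
  rw [mu_formula A h L hh hL k]
  have h1 : ∀ l ∈ Finset.Ioo (-(L:ℤ)) L, KL L l * (1 / 2) ≤ KL L l * fh A (k - l * h) := by
    intro l hl
    rw [Finset.mem_Ioo] at hl
    exact mul_le_mul_of_nonneg_left (fh_half A _ (hr l (abs_lt.2 hl))) (KL_nonneg L l)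
  have h2 := Finset.sum_le_sum h1
  rw [← Finset.sum_mul, sum_KL L hL, one_mul] at h2
  exact h2

end COSZ
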