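import Pool.Agent.COSZ.ArcD

/-!
Module NRM. With `K = 2 n M`, `n = |A|`, `M = |T|`:
`|cs| ≤ |cs| min 1 (K d) + n (1 - min 1 (K d))`, `1 - min 1 (K d(θ)) ≤ ∑_{t∈T} max 0 (1 - K|θ-t|)`,
and `∫ max 0 (1 - K|θ-t|) ≤ 2/K`; so the second integral is at most `2 n M / K ≤ 1`. Use `arcs`.
-/

open Finset MeasureTheory

noncomputable section

namespace COSZ

/-- the mass of a small triangle -/
theorem nrm_tri (K : ℝ) (hK : 0 < K) (t : ℝ) :
    ∫ θ in (0:ℝ)..1, max 0 (1 - K * |θ - t|) ≤ 2 / K := by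
  rw [intervalIntegral.integral_of_le zero_le_one]
  have hc : Continuous (fun θ : ℝ => max 0 (1 - K * |θ - t|)) := by fun_prop
  have h1 : ∫ θ in Set.Ioc (0:ℝ) 1, max 0 (1 - K * |θ - t|) ≤
      ∫ θ in Set.Ioc (0:ℝ) 1, (Set.Icc (t - 1 / K) (t + 1 / K)).indicator (fun _ => (1:ℝ)) θ := by
    refine integral_mono ?_ ?_ ?_
    · exact (hc.integrableOn_Icc (a := (0:ℝ)) (b := 1)).mono_set Set.Ioc_subset_Icc_self
    · exact (integrable_const (1:ℝ)).indicator measurableSet_Icc
    · intro θ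
      by_cases hθ : θ ∈ Set.Icc (t - 1 / K) (t + 1 / K)
      · simp only [Set.indicator_of_mem hθ]
        refine max_le zero_le_one ?_
        have : 0 ≤ K * |θ - t| := mul_nonneg hK.le (abs_nonneg _)
        linarith
      · simp only [Set.indicator_of_notMem hθ]
        refine max_le le_rfl ?_
        have h2 : 1 / K < |θ - t| := by
          rw [Set.mem_Icc, not_and_or, not_le, not_le] at hθ
          rw [lt_abs]
          rcases hθ with h3 | h3
          · right
            linarith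
          · left
            linarith
        rw [div_lt_iff₀ hK] at h2
        linarith
  refine h1.trans ?_
  rw [integral_indicator measurableSet_Icc, integral_const, smul_eq_mul, mul_one,
    measureReal_restrict_apply_univ]
  have h2 : (volume.restrict (Set.Ioc (0:ℝ) 1)).real (Set.Icc (t - 1 / K) (t + 1 / K)) ≤
      volume.real (Set.Icc (t - 1 / K) (t + 1 / K)) := by
    refine ENNReal.toReal_mono ?_ ?_
    · rw [Real.volume_Icc]
      exact ENNReal.ofReal_ne_top
    · exact Measure.restrict_apply_le _ _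
  refine h2.trans ?_
  have h4 : 0 < 1 / K := by positivity
  rw [Real.volume_real_Icc_of_le (by linarith)]
  have : t + 1 / K - (t - 1 / K) = 2 / K := by ring
  rw [this]

theorem nrm_bound (A : Finset ℤ) (T : Finset ℝ) (hm : Marks A T) (hA : A.Nonempty) :
    nrm A ≤ 1 + 5 * Real.sqrt T.card * (1 + Real.log (2 * A.card * T.card)) := by
  have hn : 1 ≤ A.card := Finset.card_pos.2 hA
  have hT : T.Nonempty := ⟨0, hm.zero_mem⟩
  have hM : 1 ≤ T.card := Finset.card_pos.2 hT
  set K : ℕ := 2 * A.card * T.card with hKdef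
  have hK : 1 ≤ K := by
    rw [hKdef]
    nlinarith [Nat.mul_le_mul hn hM]
  have hK0 : (0:ℝ) < K := by exact_mod_cast hK
  have harcs := arcs A T hm K hK
  have hdc : Continuous (fun θ : ℝ => Metric.infDist θ (T : Set ℝ)) :=
    Metric.continuous_infDist_pt _
  have hcs := cs_cont A
  -- the pointwise bound
  have hpt : ∀ θ : ℝ, |cs A θ| ≤ |cs A θ| * min 1 (K * Metric.infDist θ (T : Set ℝ)) +
      A.card * ∑ t ∈ T, max 0 (1 - (K:ℝ) * |θ - t|) := by
    intro θ
    obtain ⟨t, ht, hdist⟩ := T.finite_toSet.isCompact.exists_infDist_eq_dist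
      (Finset.coe_nonempty.2 hT) θ
    have ht' := Finset.mem_coe.1 ht
    rw [hdist, Real.dist_eq]
    have h1 : max 0 (1 - (K:ℝ) * |θ - t|) ≤ ∑ t ∈ T, max 0 (1 - (K:ℝ) * |θ - t|) :=
      Finset.single_le_sum (f := fun t : ℝ => max 0 (1 - (K:ℝ) * |θ - t|))
        (fun _ _ => le_max_left _ _) ht'
    have h2 : 1 - min 1 ((K:ℝ) * |θ - t|) ≤ max 0 (1 - (K:ℝ) * |θ - t|) := by
      rcases le_total 1 ((K:ℝ) * |θ - t|) with h3 | h3
      · rw [min_eq_left h3]
        simp
      · rw [min_eq_right h3]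
        exact le_max_right _ _
    have h4 := cs_abs_le A θ
    have h5 : 0 ≤ 1 - min 1 ((K:ℝ) * |θ - t|) := by
      have := min_le_left 1 ((K:ℝ) * |θ - t|)
      linarith
    have h6 : |cs A θ| * (1 - min 1 ((K:ℝ) * |θ - t|)) ≤
        A.card * ∑ t ∈ T, max 0 (1 - (K:ℝ) * |θ - t|) :=
      mul_le_mul h4 (h2.trans h1) h5 (Nat.cast_nonneg _)
    linarith
  have hi1 : IntervalIntegrable (fun θ => |cs A θ| * min 1 (K * Metric.infDist θ (T : Set ℝ)))
      volume 0 1 := by
    refine Continuous.intervalIntegrable ?_ _ _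
    exact hcs.abs.mul (continuous_const.min (continuous_const.mul hdc))
  have hi2 : ∀ t ∈ T, IntervalIntegrable (fun θ : ℝ => max 0 (1 - (K:ℝ) * |θ - t|)) volume 0 1 := by
    intro t _
    refine Continuous.intervalIntegrable ?_ _ _
    fun_prop
  have hi3 : IntervalIntegrable (fun θ : ℝ => ∑ t ∈ T, max 0 (1 - (K:ℝ) * |θ - t|)) volume 0 1 := by
    refine Continuous.intervalIntegrable ?_ _ _
    fun_prop
  have hmono : nrm A ≤ ∫ θ in (0:ℝ)..1, (|cs A θ| * min 1 (K * Metric.infDist θ (T : Set ℝ)) +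
      A.card * ∑ t ∈ T, max 0 (1 - (K:ℝ) * |θ - t|)) := by
    unfold nrm
    refine intervalIntegral.integral_mono_on zero_le_one ?_ ?_ ?_
    · exact hcs.abs.intervalIntegrable _ _
    · exact hi1.add (hi3.const_mul _)
    · intro θ _
      exact hpt θ
  rw [intervalIntegral.integral_add hi1 (hi3.const_mul _), intervalIntegral.integral_const_mul,
    intervalIntegral.integral_finsetSum hi2] at hmono
  have hsum : ∑ t ∈ T, ∫ θ in (0:ℝ)..1, max 0 (1 - (K:ℝ) * |θ - t|) ≤ T.card * (2 / K) := by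
    have := Finset.sum_le_card_nsmul T (fun t => ∫ θ in (0:ℝ)..1, max 0 (1 - (K:ℝ) * |θ - t|))
      (2 / (K:ℝ)) (fun t _ => nrm_tri K hK0 t)
    rwa [nsmul_eq_mul] at this
  have h7 : (A.card : ℝ) * (T.card * (2 / K)) = 1 := by
    have hKR : (K:ℝ) = 2 * A.card * T.card := by
      rw [hKdef]
      push_cast
      ring
    rw [hKR] at hK0 ⊢
    field_simp
  have h8 : (A.card : ℝ) * ∑ t ∈ T, ∫ θ in (0:ℝ)..1, max 0 (1 - (K:ℝ) * |θ - t|) ≤ 1 := by
    exact (mul_le_mul_of_nonneg_left hsum (Nat.cast_nonneg _)).trans h7.le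
  have h9 : (K:ℝ) = 2 * A.card * T.card := by
    rw [hKdef]
    push_cast
    ring
  rw [h9] at harcs
  rw [h9] at hmono h8
  linarith

end COSZ
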