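import Pool.Agent.COSZ.Core
import Pool.Agent.COSZ.Nrm
import Pool.Agent.COSZ.Dir

/-!
Module NUM. The numerical conclusion. Let `n = |A|` be large, `M = |T| ≤ log n` (otherwise trivial),
`Q = ⌈log n⌉`, `h` from `dirichlet`, so `log h ≤ M log Q`.
`nrm ≤ 1 + 5 √M (1 + log (2nM)) ≤ 20 √M log n`, `E = EE A T h Q = 5 √M (1 + log h) + nrm/Q ≤ 35 M^{3/2} log Q`,
`log b ≤ 390 E` (`brk_log`), `Y = ⌈nrm⌉ + 1`, `I = ⌊1921 M² + 1600 E⌋ + 1 ≤ 60000 M² log Q`,
`log (250 M b Y) ≤ 14000 M^{3/2} log Q`. Taking logarithms in `core`: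
`log n ≤ log 2 + log b + 4 I log(250 M b Y) ≤ C M^{7/2} (log Q)²`, and `log Q ≤ 2 loglog n`.
-/

open Finset MeasureTheory

noncomputable section

namespace COSZ

/-- the estimate of the quantities, `l = log n`, `S = √M`, `q = log Q` -/
theorem num_E (M S q l lh nr Q E : ℝ) (hM : 1 ≤ M) (hS : 1 ≤ S) (hq : 1 ≤ q) (hl : 3 ≤ l)
    (hnr : nr ≤ 20 * S * l) (hlh : lh ≤ M * q) (hQ : l ≤ Q)
    (hE : E = 5 * S * (1 + lh) + nr / Q) : E ≤ 30 * M * S * q := by
  have hQ0 : 0 < Q := by linarith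
  have h1 : nr / Q ≤ 20 * S := by
    rw [div_le_iff₀ hQ0]
    refine hnr.trans ?_
    exact mul_le_mul_of_nonneg_left hQ (by linarith)
  have h2 : 5 * S * (1 + lh) ≤ 5 * S * (1 + M * q) :=
    mul_le_mul_of_nonneg_left (by linarith) (by linarith)
  have h3 : 1 ≤ M * q := by nlinarith
  have h4 : S ≤ S * (M * q) := by nlinarith
  rw [hE]
  nlinarith

/-- the final numerical inequality -/
theorem num_fin (M S q l lb lx I : ℝ) (hM : 1 ≤ M) (hS : 1 ≤ S) (hSM : S ≤ M) (hq : 1 ≤ q)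
    (hlb : lb ≤ 11700 * M * S * q) (hlx0 : 0 ≤ lx) (hlx : lx ≤ 11800 * M * S * q)
    (hI0 : 0 ≤ I) (hI : I ≤ 50000 * M ^ 2 * q) (h : l ≤ 1 + lb + 4 * I * lx) :
    l ≤ 2400000000 * (M ^ 3 * S * q ^ 2) := by
  have hMq : 1 ≤ M * q := by nlinarith
  have hSS : 1 ≤ S * (M * q) := by nlinarith
  have hM2 : 1 ≤ M ^ 2 * q := by nlinarith [sq_nonneg M, sq_nonneg (M - 1)]
  have h1 : 4 * I * lx ≤ 4 * (50000 * M ^ 2 * q) * (11800 * M * S * q) := by
    apply mul_le_mul _ hlx hlx0 (by positivity)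
    linarith
  have h2 : M * S * q ≤ M ^ 3 * S * q ^ 2 := by
    have : M ^ 3 * S * q ^ 2 = (M * S * q) * (M ^ 2 * q) := by ring
    rw [this]
    exact le_mul_of_one_le_right (by positivity) hM2
  have h3 : 1 ≤ M ^ 3 * S * q ^ 2 := by
    refine le_trans ?_ h2
    calc (1:ℝ) ≤ S * (M * q) := hSS
      _ = M * S * q := by ring
  have h4 : 4 * (50000 * M ^ 2 * q) * (11800 * M * S * q) = 2360000000 * (M ^ 3 * S * q ^ 2) := by
    ring
  have h5 : 11700 * M * S * q ≤ 11700 * (M ^ 3 * S * q ^ 2) := by nlinarith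
  linarith

/-- `log (2 l) ≤ 2 log l` -/
theorem num_log (l : ℝ) (hl : 3 ≤ l) : 1 ≤ Real.log l ∧ Real.log (2 * l) ≤ 2 * Real.log l ∧
    Real.log 2 + Real.log l ≤ l := by
  have hl0 : 0 < l := by linarith
  refine ⟨?_, ?_, ?_⟩
  · rw [Real.le_log_iff_exp_le hl0]
    have := Real.exp_one_lt_d9
    linarith
  · rw [Real.log_mul (by norm_num) hl0.ne']
    have := Real.log_le_log (by norm_num : (0:ℝ) < 2) (by linarith : (2:ℝ) ≤ l)
    linarith
  · have h1 := Real.log_le_sub_one_of_pos hl0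
    have h2 := Real.log_le_sub_one_of_pos (by norm_num : (0:ℝ) < 2)
    linarith

/-- the main case -/
theorem num_main (A : Finset ℤ) (T : Finset ℝ) (hl : 3 ≤ Real.log A.card) (hm : Marks A T)
    (hM : (T.card : ℝ) ≤ Real.log A.card) :
    Real.log A.card ≤ 9600000000 * ((T.card : ℝ) ^ 3 * Real.sqrt T.card *
      (Real.log (Real.log A.card)) ^ 2) := by
  have hApos : A.Nonempty := by
    rw [Finset.nonempty_iff_ne_empty]
    rintro rfl
    rw [Finset.card_empty, Nat.cast_zero, Real.log_zero] at hl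
    linarith
  have hn1 : (1 : ℝ) ≤ A.card := by exact_mod_cast hApos.card_pos
  have hn0 : (0 : ℝ) < A.card := by linarith
  have hM1n : 1 ≤ T.card := Finset.card_pos.2 ⟨0, hm.zero_mem⟩
  have hM1 : (1 : ℝ) ≤ T.card := by exact_mod_cast hM1n
  obtain ⟨hll1, hll2, hll3⟩ := num_log _ hl
  have hS1 : 1 ≤ Real.sqrt T.card := Real.one_le_sqrt.2 hM1
  have hSM : Real.sqrt T.card ≤ T.card := by
    rw [Real.sqrt_le_left (by linarith)]
    nlinarith
  -- the denominator
  have hQl : Real.log A.card ≤ (⌈Real.log A.card⌉₊ : ℝ) := Nat.le_ceil _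
  have hQu : (⌈Real.log A.card⌉₊ : ℝ) < Real.log A.card + 1 :=
    Nat.ceil_lt_add_one (by linarith)
  generalize hQdef : ⌈Real.log A.card⌉₊ = Q at hQl hQu
  have hQ1 : 1 ≤ Q := by
    have : (1 : ℝ) ≤ Q := by linarith
    exact_mod_cast this
  have hQ0 : (0 : ℝ) < Q := by linarith
  have hq1 : 1 ≤ Real.log Q := hll1.trans (Real.log_le_log (by linarith) hQl)
  have hq2 : Real.log Q ≤ 2 * Real.log (Real.log A.card) :=
    (Real.log_le_log hQ0 (by linarith)).trans hll2
  obtain ⟨h, hh1, hhQ, hd⟩ := dirichlet T Q hQ1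
  have hh0 : (0 : ℝ) < h := by exact_mod_cast hh1
  have hlh : Real.log h ≤ T.card * Real.log Q := by
    rw [← Real.log_pow]
    apply Real.log_le_log hh0
    exact_mod_cast hhQ
  -- the norm
  have hnr0 : 0 ≤ nrm A := by
    unfold nrm
    exact intervalIntegral.integral_nonneg (by norm_num) fun _ _ => abs_nonneg _
  have hnr : nrm A ≤ 20 * Real.sqrt T.card * Real.log A.card := by
    have h1 := nrm_bound A T hm hApos
    have h2 : Real.log (2 * A.card * T.card) ≤ 2 * Real.log A.card := by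
      rw [Real.log_mul (by positivity) (by positivity), Real.log_mul (by norm_num) hn0.ne']
      have := Real.log_le_log (by linarith) hM
      linarith
    have h3 : 5 * Real.sqrt T.card * (1 + Real.log (2 * A.card * T.card)) ≤
        5 * Real.sqrt T.card * (1 + 2 * Real.log A.card) :=
      mul_le_mul_of_nonneg_left (by linarith) (by positivity)
    nlinarith
  have hE := num_E T.card (Real.sqrt T.card) (Real.log Q) (Real.log A.card) (Real.log h)
    (nrm A) Q (EE A T h Q) hM1 hS1 hq1 hl hnr hlh hQl rfl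
  -- the breaks
  have hb := brk_log A hApos T hm h Q hh1 hQ1 hd
  have hbpos : (1 : ℝ) ≤ (brk A h).card := by
    exact_mod_cast (brk_nonempty A hApos h hh1).card_pos
  -- the integers `Y` and `I`
  have hYl : nrm A ≤ (⌈nrm A⌉₊ : ℝ) := Nat.le_ceil _
  have hYu : (⌈nrm A⌉₊ : ℝ) < nrm A + 1 := Nat.ceil_lt_add_one hnr0
  have hY' : (((⌈nrm A⌉₊ + 1 : ℕ)) : ℝ) = (⌈nrm A⌉₊ : ℝ) + 1 := by push_cast; rfl
  have hYle : nrm A ≤ ((⌈nrm A⌉₊ + 1 : ℕ) : ℝ) := by rw [hY']; linarith
  have hYub : ((⌈nrm A⌉₊ + 1 : ℕ) : ℝ) ≤ 22 * Real.sqrt T.card * Real.log A.card := by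
    rw [hY']
    have : 1 ≤ Real.sqrt T.card * Real.log A.card := by nlinarith
    nlinarith
  have hYge : (1 : ℝ) ≤ ((⌈nrm A⌉₊ + 1 : ℕ) : ℝ) := by
    rw [hY']
    have : (0 : ℝ) ≤ (⌈nrm A⌉₊ : ℝ) := Nat.cast_nonneg _
    linarith
  generalize hYdef : ⌈nrm A⌉₊ + 1 = Y at hYle hYub hYge
  have hY1 : 1 ≤ Y := by exact_mod_cast hYge
  have hE0 : 0 ≤ EE A T h Q := by
    unfold EE
    have : 0 ≤ Real.log h := Real.log_nonneg (by exact_mod_cast hh1)
    positivity
  have hx0 : 0 ≤ 1921 * (T.card:ℝ) ^ 2 + 1600 * EE A T h Q := by positivity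
  have hIl := Nat.lt_floor_add_one (1921 * (T.card:ℝ) ^ 2 + 1600 * EE A T h Q)
  have hIu := Nat.floor_le hx0
  have hI' : ((⌊1921 * (T.card:ℝ) ^ 2 + 1600 * EE A T h Q⌋₊ + 1 : ℕ) : ℝ) =
      (⌊1921 * (T.card:ℝ) ^ 2 + 1600 * EE A T h Q⌋₊ : ℝ) + 1 := by push_cast; rfl
  rw [← hI'] at hIl
  have hIub : ((⌊1921 * (T.card:ℝ) ^ 2 + 1600 * EE A T h Q⌋₊ + 1 : ℕ) : ℝ) ≤
      50000 * (T.card:ℝ) ^ 2 * Real.log Q := by
    rw [hI']
    have h1 : (T.card:ℝ) * Real.sqrt T.card * Real.log Q ≤ (T.card:ℝ) ^ 2 * Real.log Q := by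
      rw [pow_two]
      apply mul_le_mul_of_nonneg_right _ (by linarith)
      exact mul_le_mul_of_nonneg_left hSM (by linarith)
    have h2 : (T.card:ℝ) ^ 2 ≤ (T.card:ℝ) ^ 2 * Real.log Q :=
      le_mul_of_one_le_right (by positivity) hq1
    have h3 : (1:ℝ) ≤ (T.card:ℝ) ^ 2 := one_le_pow₀ hM1
    linarith
  generalize ⌊1921 * (T.card:ℝ) ^ 2 + 1600 * EE A T h Q⌋₊ + 1 = I at hIl hIub
  -- the core inequality
  have hcore := core A hApos T hm h Q hh1 hQ1 hd Y hY1 hYle I hIl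
  have hX1 : (1 : ℝ) ≤ 250 * T.card * (brk A h).card * Y := by
    have h1 : (1 : ℝ) ≤ T.card * (brk A h).card := one_le_mul_of_one_le_of_one_le hM1 hbpos
    have h2 : (1 : ℝ) ≤ T.card * (brk A h).card * Y := one_le_mul_of_one_le_of_one_le h1 hYge
    linarith
  have hX0 : (0 : ℝ) < 250 * T.card * (brk A h).card * Y := by linarith
  have hlog := Real.log_le_log hn0 hcore
  rw [Real.log_mul (by positivity) (by positivity), Real.log_mul (by norm_num) (by positivity),
    Real.log_pow] at hlog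
  have hlX : Real.log (250 * T.card * (brk A h).card * Y) ≤
      11800 * T.card * Real.sqrt T.card * Real.log Q := by
    rw [Real.log_mul (by positivity) (by positivity), Real.log_mul (by positivity) (by positivity),
      Real.log_mul (by norm_num) (by positivity)]
    have h1 : Real.log 250 ≤ 8 * Real.log 2 := by
      rw [← Real.log_rpow (by norm_num)]
      apply Real.log_le_log (by norm_num)
      norm_num
    have h22 : Real.log 22 ≤ 5 * Real.log 2 := by
      rw [← Real.log_rpow (by norm_num)]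
      apply Real.log_le_log (by norm_num)
      norm_num
    have h2 := Real.log_le_sub_one_of_pos (by norm_num : (0:ℝ) < 2)
    have h3 : Real.log T.card ≤ T.card - 1 := Real.log_le_sub_one_of_pos (by linarith)
    have h4 : Real.log Y ≤ Real.log 22 + Real.log (Real.sqrt T.card) +
        Real.log (Real.log A.card) := by
      rw [← Real.log_mul (by norm_num) (by positivity),
        ← Real.log_mul (by positivity) (by positivity)]
      exact Real.log_le_log (by linarith) hYub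
    have h5 : Real.log (Real.sqrt T.card) ≤ Real.sqrt T.card - 1 :=
      Real.log_le_sub_one_of_pos (by linarith)
    have h6 : Real.log (Real.log A.card) ≤ Real.log Q := Real.log_le_log (by linarith) hQl
    have h7 : (T.card:ℝ) ≤ T.card * Real.sqrt T.card * Real.log Q := by
      rw [mul_assoc]
      exact le_mul_of_one_le_right (by linarith) (one_le_mul_of_one_le_of_one_le hS1 hq1)
    have h8 : Real.log Q ≤ T.card * Real.sqrt T.card * Real.log Q :=
      le_mul_of_one_le_left (by linarith) (one_le_mul_of_one_le_of_one_le hM1 hS1)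
    linarith
  have hfin := num_fin T.card (Real.sqrt T.card) (Real.log Q) (Real.log A.card)
    (Real.log (brk A h).card) (Real.log (250 * T.card * (brk A h).card * Y)) I hM1 hS1 hSM hq1
    (by linarith) (Real.log_nonneg hX1) hlX (Nat.cast_nonneg _) hIub (by
      have h2 := Real.log_le_sub_one_of_pos (by norm_num : (0:ℝ) < 2)
      push_cast at hlog
      linarith)
  refine hfin.trans ?_
  have h1 : Real.log Q ^ 2 ≤ (2 * Real.log (Real.log A.card)) ^ 2 :=
    pow_le_pow_left₀ (by linarith) hq2 2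
  have h2 : (0:ℝ) ≤ (T.card:ℝ) ^ 3 * Real.sqrt T.card := by positivity
  have h3 := mul_le_mul_of_nonneg_left h1 h2
  have h4 : (T.card:ℝ) ^ 3 * Real.sqrt T.card * (2 * Real.log (Real.log A.card)) ^ 2 =
      4 * ((T.card:ℝ) ^ 3 * Real.sqrt T.card * Real.log (Real.log A.card) ^ 2) := by ring
  linarith

theorem marks_lower : ∃ c : ℝ, 0 < c ∧ ∃ N : ℕ, ∀ (A : Finset ℤ) (T : Finset ℝ), N ≤ A.card →
    Marks A T →
    c * Real.log A.card ≤ (T.card:ℝ) ^ ((7:ℝ) / 2) * (Real.log (Real.log A.card)) ^ 2 := by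
  refine ⟨1 / 9600000000, by norm_num, ⌈Real.exp 3⌉₊, fun A T hN hm => ?_⟩
  have hn : Real.exp 3 ≤ A.card := (Nat.le_ceil _).trans (by exact_mod_cast hN)
  have hn0 : (0 : ℝ) < A.card := (Real.exp_pos 3).trans_le hn
  have hl : 3 ≤ Real.log A.card := (Real.le_log_iff_exp_le hn0).2 hn
  have hM1 : (1 : ℝ) ≤ T.card := by
    have : 1 ≤ T.card := Finset.card_pos.2 ⟨0, hm.zero_mem⟩
    exact_mod_cast this
  have hpow : (T.card:ℝ) ^ ((7:ℝ) / 2) = (T.card:ℝ) ^ 3 * Real.sqrt T.card := by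
    rw [Real.sqrt_eq_rpow, ← Real.rpow_natCast, ← Real.rpow_add (by linarith)]
    norm_num
  have hll := (num_log _ hl).1
  rcases le_or_gt (T.card : ℝ) (Real.log A.card) with hM | hM
  · have h := num_main A T hl hm hM
    rw [hpow]
    linarith
  · have h1 : (T.card:ℝ) ≤ (T.card:ℝ) ^ ((7:ℝ) / 2) := by
      conv_lhs => rw [← Real.rpow_one (T.card:ℝ)]
      exact Real.rpow_le_rpow_of_exponent_le hM1 (by norm_num)
    have h2 : 1 ≤ Real.log (Real.log A.card) ^ 2 := one_le_pow₀ hll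
    have h3 : (T.card:ℝ) ^ ((7:ℝ) / 2) ≤
        (T.card:ℝ) ^ ((7:ℝ) / 2) * Real.log (Real.log A.card) ^ 2 :=
      le_mul_of_one_le_right (by positivity) h2
    linarith

end COSZ
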