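import Pool.Agent.COSZ.ArcD

/-!
Refinement of `arcs`: for `K ≥ M = |T|` the logarithm of `K` may be replaced by the logarithm of `K / M`.
Blocks `2^j < M` cost `2 √(2^j)` (as `|W| ≤ 1`), the blocks `M ≤ 2^j < K` cost `2 √M`, the others are geometric.
-/

open Finset MeasureTheory

noncomputable section

namespace COSZ

theorem off_small (A : Finset ℤ) (T : Finset ℝ) (hm : Marks A T) (K : ℕ) (δ : ℝ) :
    ∫ θ in (0:ℝ)..1, (Wf A T K (θ + δ) - Wf A T K θ) ^ 2 ≤ 4 := by
  have h1 : ∀ θ : ℝ, (Wf A T K (θ + δ) - Wf A T K θ) ^ 2 ≤ 4 := by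
    intro θ
    have h1 := abs_le.mp (Wf_abs_le A T K (θ + δ))
    have h2 := abs_le.mp (Wf_abs_le A T K θ)
    have h3 : |Wf A T K (θ + δ) - Wf A T K θ| ≤ 2 := by
      rw [abs_le]
      constructor <;> linarith [h1.1, h1.2, h2.1, h2.2]
    calc (Wf A T K (θ + δ) - Wf A T K θ) ^ 2 = |Wf A T K (θ + δ) - Wf A T K θ| ^ 2 := (sq_abs _).symm
      _ ≤ 2 ^ 2 := pow_le_pow_left₀ (abs_nonneg _) h3 2
      _ = 4 := by norm_num
  have hW := Wf_cont A T hm K
  have hc : Continuous (fun θ : ℝ => (Wf A T K (θ + δ) - Wf A T K θ) ^ 2) :=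
    ((hW.comp (continuous_id.add continuous_const)).sub hW).pow 2
  calc ∫ θ in (0:ℝ)..1, (Wf A T K (θ + δ) - Wf A T K θ) ^ 2 ≤ ∫ θ in (0:ℝ)..1, (4:ℝ) :=
        intervalIntegral.integral_mono zero_le_one (hc.intervalIntegrable _ _)
          (continuous_const.intervalIntegrable _ _) h1
    _ = 4 := by simp

theorem off_block (A : Finset ℤ) (T : Finset ℝ) (hm : Marks A T) (K : ℕ) (j : ℕ) :
    ∑ a ∈ A.filter (fun a => (((2 ^ j : ℕ)):ℤ) ≤ |a| ∧ |a| < 2 * ((2 ^ j : ℕ) : ℤ)),
      |∫ θ in (0:ℝ)..1, Real.cos (2 * Real.pi * a * θ) * Wf A T K θ| ≤ 2 * Real.sqrt (2 ^ j) := by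
  have h1 := block (Wf A T K) (Wf_cont A T hm K) (Wf_period A T K) A (2 ^ j) Nat.one_le_two_pow
  refine h1.trans ?_
  have h2 := off_small A T hm K (1 / (4 * ((2 ^ j : ℕ) : ℝ)))
  have h3 : Real.sqrt (∫ θ in (0:ℝ)..1, (Wf A T K (θ + 1 / (4 * ((2 ^ j : ℕ) : ℝ))) - Wf A T K θ) ^ 2) ≤ 2 := by
    rw [Real.sqrt_le_left (by norm_num)]
    linarith
  have h4 : Real.sqrt ((2 ^ j : ℕ) : ℝ) = Real.sqrt (2 ^ j) := by
    congr 1
    push_cast
    ring
  rw [h4]
  have h5 := Real.sqrt_nonneg ((2:ℝ) ^ j)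
  nlinarith

/-- the bound for the sum of the blocks -/
theorem off_geom (M : ℝ) (hM : 0 ≤ M) (m L J : ℕ) (hmL : m ≤ L) :
    ∑ j ∈ range J, (if j < m then 2 * Real.sqrt (2 ^ j) else
      Real.sqrt M * (if j < L then (2:ℝ) else (3 / 4) ^ (j - L + 1))) ≤
      5 * Real.sqrt (2 ^ m) + Real.sqrt M * (2 * (L - m) + 3) := by
  have h : ∑ j ∈ range J, (if j < m then 2 * Real.sqrt (2 ^ j) else
      Real.sqrt M * (if j < L then (2:ℝ) else (3 / 4) ^ (j - L + 1))) ≤
      5 * Real.sqrt (2 ^ (min J m)) + Real.sqrt M * (2 * (((min J L : ℕ) : ℝ) - ((min J m : ℕ) : ℝ)) +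
        3 * (1 - (3 / 4) ^ (J - L))) := by
    induction J with
    | zero =>
      simp
    | succ J ih =>
      rw [Finset.sum_range_succ]
      by_cases h1 : J < m
      · have e1 : min J m = J := by omega
        have e2 : min J L = J := by omega
        have e3 : min (J + 1) m = J + 1 := by omega
        have e4 : min (J + 1) L = J + 1 := by omega
        have e5 : J - L = 0 := by omega
        have e6 : J + 1 - L = 0 := by omega
        rw [e1, e2, e5] at ih
        rw [if_pos h1, e3, e4, e6]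
        have s1 : Real.sqrt ((2:ℝ) ^ (J + 1)) = Real.sqrt 2 * Real.sqrt (2 ^ J) := by
          rw [pow_succ, mul_comm, Real.sqrt_mul (by norm_num)]
        have s2 : (7 / 5 : ℝ) ≤ Real.sqrt 2 := by
          apply Real.le_sqrt_of_sq_le
          norm_num
        have s3 := Real.sqrt_nonneg ((2:ℝ) ^ J)
        rw [s1]
        have s4 : (7 / 5 : ℝ) * Real.sqrt (2 ^ J) ≤ Real.sqrt 2 * Real.sqrt (2 ^ J) :=
          mul_le_mul_of_nonneg_right s2 s3
        push_cast
        simp only [sub_self, mul_zero, pow_zero, add_zero] at ih ⊢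
        linarith
      · by_cases h2 : J < L
        · have e1 : min J m = m := by omega
          have e2 : min J L = J := by omega
          have e3 : min (J + 1) m = m := by omega
          have e4 : min (J + 1) L = J + 1 := by omega
          have e5 : J - L = 0 := by omega
          have e6 : J + 1 - L = 0 := by omega
          rw [e1, e2, e5] at ih
          rw [if_neg h1, if_pos h2, e3, e4, e6]
          push_cast
          simp only [pow_zero] at ih ⊢
          have : Real.sqrt M * (2 * ((J:ℝ) + 1 - m) + 3 * (1 - 1)) =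
            Real.sqrt M * (2 * ((J:ℝ) - m) + 3 * (1 - 1)) + Real.sqrt M * 2 := by ring
          rw [this]
          linarith
        · have e1 : min J m = m := by omega
          have e2 : min J L = L := by omega
          have e3 : min (J + 1) m = m := by omega
          have e4 : min (J + 1) L = L := by omega
          have e5 : J + 1 - L = J - L + 1 := by omega
          rw [e1, e2] at ih
          rw [if_neg h1, if_neg h2, e3, e4, e5]
          have : Real.sqrt M * (2 * ((L:ℝ) - m) + 3 * (1 - (3 / 4) ^ (J - L + 1))) =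
            Real.sqrt M * (2 * ((L:ℝ) - m) + 3 * (1 - (3 / 4) ^ (J - L))) +
              Real.sqrt M * (3 / 4) ^ (J - L + 1) := by
            rw [pow_succ]
            ring
          rw [this]
          linarith
  refine h.trans ?_
  have hs := Real.sqrt_nonneg M
  have h1 : Real.sqrt ((2:ℝ) ^ (min J m)) ≤ Real.sqrt (2 ^ m) := by
    apply Real.sqrt_le_sqrt
    exact pow_le_pow_right₀ (by norm_num) (by omega)
  have h2 : ((min J L : ℕ) : ℝ) - ((min J m : ℕ) : ℝ) ≤ L - m := by
    rcases le_total J m with hc | hc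
    · have e1 : min J m = J := by omega
      have e2 : min J L = J := by omega
      rw [e1, e2, sub_self]
      have : (m:ℝ) ≤ L := by exact_mod_cast hmL
      linarith
    · have e1 : min J m = m := by omega
      rw [e1]
      have : ((min J L : ℕ) : ℝ) ≤ L := by exact_mod_cast min_le_right J L
      linarith
  have h3 : (0:ℝ) ≤ (3 / 4) ^ (J - L) := by positivity
  have h4 : Real.sqrt M * (2 * (((min J L : ℕ) : ℝ) - ((min J m : ℕ) : ℝ)) + 3 * (1 - (3 / 4) ^ (J - L))) ≤
      Real.sqrt M * (2 * (L - m) + 3) := by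
    apply mul_le_mul_of_nonneg_left _ hs
    linarith
  linarith

/-- the arc inequality with the logarithm of `K / |T|` -/
theorem arcs' (A : Finset ℤ) (T : Finset ℝ) (hm : Marks A T) (K : ℕ) (hK : T.card ≤ K) :
    ∫ θ in (0:ℝ)..1, |cs A θ| * min 1 (K * Metric.infDist θ (T : Set ℝ)) ≤
      11 * Real.sqrt T.card * (1 + Real.log (K / T.card)) := by
  have hT : 1 ≤ T.card := Finset.card_pos.mpr ⟨0, hm.zero_mem⟩
  have hK1 : 1 ≤ K := hT.trans hK
  have hW := Wf_cont A T hm K
  have hK0 : (0:ℝ) < K := by exact_mod_cast hK1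
  have hM0 : (0:ℝ) < T.card := by exact_mod_cast hT
  set I : ℤ → ℝ := fun a => |∫ θ in (0:ℝ)..1, Real.cos (2 * Real.pi * a * θ) * Wf A T K θ| with hI
  have h1 : ∫ θ in (0:ℝ)..1, |cs A θ| * min 1 (K * Metric.infDist θ (T : Set ℝ)) =
      ∫ θ in (0:ℝ)..1, cs A θ * Wf A T K θ := by
    apply intervalIntegral.integral_congr
    intro θ hθ
    rw [Set.uIcc_of_le zero_le_one] at hθ
    exact (Wf_mul A T hm K θ hθ.1 hθ.2).symm
  have h2 : ∫ θ in (0:ℝ)..1, cs A θ * Wf A T K θ ≤ ∑ a ∈ A, I a := by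
    have h3 : (fun θ => cs A θ * Wf A T K θ) =
        fun θ => ∑ a ∈ A, Real.cos (2 * Real.pi * a * θ) * Wf A T K θ := by
      funext θ
      rw [cs, Finset.sum_mul]
    rw [h3, intervalIntegral.integral_finsetSum]
    · exact Finset.sum_le_sum (fun a _ => le_abs_self _)
    · intro a _
      apply Continuous.intervalIntegrable
      fun_prop
  have hI0 : I 0 ≤ 1 := by
    simp only [hI]
    have h3 : ‖∫ θ in (0:ℝ)..1, Real.cos (2 * Real.pi * ((0:ℤ):ℝ) * θ) * Wf A T K θ‖ ≤ 1 * |(1:ℝ) - 0| := by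
      apply intervalIntegral.norm_integral_le_of_norm_le_const
      intro θ _
      rw [norm_mul, Real.norm_eq_abs, Real.norm_eq_abs]
      have := Wf_abs_le A T K θ
      have h4 := Real.abs_cos_le_one (2 * Real.pi * ((0:ℤ):ℝ) * θ)
      calc _ ≤ 1 * 1 := mul_le_mul h4 this (abs_nonneg _) (by norm_num)
        _ = 1 := by norm_num
    simpa using h3
  obtain ⟨J, hJ⟩ : ∃ J : ℕ, ∀ a ∈ A, |a| < 2 ^ J := by
    refine ⟨A.sup Int.natAbs, fun a ha => ?_⟩
    have h4 : a.natAbs ≤ A.sup Int.natAbs := Finset.le_sup (f := Int.natAbs) ha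
    have h5 : a.natAbs < 2 ^ (A.sup Int.natAbs) := lt_of_le_of_lt h4 Nat.lt_two_pow_self
    rw [Int.abs_eq_natAbs]
    exact_mod_cast h5
  have h3 : ∑ a ∈ A, I a ≤ 1 + ∑ j ∈ range J,
      ∑ a ∈ A.filter (fun a => (((2 ^ j : ℕ)):ℤ) ≤ |a| ∧ |a| < 2 * ((2 ^ j : ℕ) : ℤ)), I a := by
    have := arcD_split A I hI0 J
    rwa [Finset.filter_true_of_mem hJ] at this
  set m := Nat.log 2 T.card with hmdef
  set L := Nat.log 2 K with hL
  have hmL : m ≤ L := Nat.log_mono_right hK
  have h4 : ∑ j ∈ range J,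
      ∑ a ∈ A.filter (fun a => (((2 ^ j : ℕ)):ℤ) ≤ |a| ∧ |a| < 2 * ((2 ^ j : ℕ) : ℤ)), I a ≤
      5 * Real.sqrt (2 ^ m) + Real.sqrt T.card * (2 * (L - m) + 3) := by
    refine le_trans (Finset.sum_le_sum (fun j _ => ?_)) (off_geom (T.card : ℝ) hM0.le m L J hmL)
    split_ifs with c1 c2
    · exact off_block A T hm K j
    · have := arcD_block A T hm K hK1 j
      rwa [if_pos c2] at this
    · have := arcD_block A T hm K hK1 j
      rwa [if_neg c2] at this
  have h5 : (1:ℝ) ≤ Real.sqrt T.card := by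
    rw [Real.one_le_sqrt]
    exact_mod_cast hT
  have h6 : Real.sqrt ((2:ℝ) ^ m) ≤ Real.sqrt T.card := by
    apply Real.sqrt_le_sqrt
    have := Nat.pow_log_le_self 2 (show T.card ≠ 0 by omega)
    exact_mod_cast this
  have hKM : (1:ℝ) ≤ K / T.card := by
    rw [le_div_iff₀ hM0, one_mul]
    exact_mod_cast hK
  have h7 : 0 ≤ Real.log (K / T.card) := Real.log_nonneg hKM
  have h8 : (2:ℝ) * (L - m) ≤ 2 + 3 * Real.log (K / T.card) := by
    have a1 : (2:ℝ) ^ L ≤ K := by
      have := Nat.pow_log_le_self 2 (show K ≠ 0 by omega)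
      exact_mod_cast this
    have a2 : (T.card : ℝ) ≤ 2 ^ (m + 1) := by
      have := (Nat.lt_pow_succ_log_self (b := 2) (by norm_num) T.card).le
      exact_mod_cast this
    have a3 : (L : ℝ) * Real.log 2 ≤ Real.log K := by
      rw [← Real.log_pow]
      exact Real.log_le_log (by positivity) a1
    have a4 : Real.log T.card ≤ ((m + 1 : ℕ) : ℝ) * Real.log 2 := by
      rw [← Real.log_pow]
      exact Real.log_le_log hM0 a2
    have a5 : Real.log (K / T.card) = Real.log K - Real.log T.card :=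
      Real.log_div hK0.ne' hM0.ne'
    have a6 := Real.log_two_gt_d9
    push_cast at a4
    have a7 : ((L:ℝ) - m - 1) * Real.log 2 ≤ Real.log (K / T.card) := by
      rw [a5]
      nlinarith
    rcases le_total ((L:ℝ) - m - 1) 0 with hc | hc
    · linarith
    · nlinarith
  rw [h1]
  calc _ ≤ 1 + (5 * Real.sqrt (2 ^ m) + Real.sqrt T.card * (2 * (L - m) + 3)) := by linarith
    _ ≤ Real.sqrt T.card * 1 + (5 * Real.sqrt T.card +
          Real.sqrt T.card * (2 + 3 * Real.log (K / T.card) + 3)) := by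
        gcongr
        linarith
    _ ≤ 11 * Real.sqrt T.card * (1 + Real.log (K / T.card)) := by
        nlinarith [mul_nonneg (Real.sqrt_nonneg (T.card : ℝ)) h7]

end COSZ
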