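import Pool.Agent.COSZ.OffA
import Pool.Agent.COSZ.Zer

/-!
The mass of a cosine sum off a small set, in terms of the number of zeros.
-/

open Finset MeasureTheory

noncomputable section

namespace COSZ

/-- the set of the points of `[0, 1]` at distance less than `r` from `T` -/
def nearT (T : Finset ℝ) (r : ℝ) : Set ℝ := {θ : ℝ | θ ∈ Set.Icc (0:ℝ) 1 ∧ Metric.infDist θ (T : Set ℝ) < r}

theorem nearT_meas (T : Finset ℝ) (r : ℝ) : MeasurableSet (nearT T r) := by
  have h2 : MeasurableSet {θ : ℝ | Metric.infDist θ (T : Set ℝ) < r} :=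
    (isOpen_lt (Metric.continuous_infDist_pt _) continuous_const).measurableSet
  exact measurableSet_Icc.inter h2

theorem nearT_vol (T : Finset ℝ) (hT : T.Nonempty) (r : ℝ) (hr : 0 ≤ r) :
    volume (nearT T r) ≤ ENNReal.ofReal (2 * T.card * r) := by
  have hsub : nearT T r ⊆ ⋃ t ∈ T, Metric.ball t r := by
    rintro θ ⟨_, h⟩
    obtain ⟨s, hs, hd⟩ := (Metric.infDist_lt_iff (by exact_mod_cast hT)).mp h
    exact Set.mem_biUnion (Finset.mem_coe.mp hs) (Metric.mem_ball.mpr hd)
  calc volume (nearT T r) ≤ volume (⋃ t ∈ T, Metric.ball t r) := measure_mono hsub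
    _ ≤ ∑ t ∈ T, volume (Metric.ball t r) := measure_biUnion_finset_le T _
    _ = ∑ t ∈ T, ENNReal.ofReal (2 * r) := by simp [Real.volume_ball]
    _ = ENNReal.ofReal (2 * T.card * r) := by
        rw [Finset.sum_const, nsmul_eq_mul, ← ENNReal.ofReal_natCast,
          ← ENNReal.ofReal_mul (Nat.cast_nonneg _)]
        congr 1
        ring

/-- number of zeros in `[0, 1)` -/
def zc (A : Finset ℤ) : ℕ := {θ : ℝ | 0 ≤ θ ∧ θ < 1 ∧ cs A θ = 0}.ncard

theorem cs_abs_int (A : Finset ℤ) (s : Set ℝ) (hs : MeasurableSet s) (h : s ⊆ Set.Icc 0 1) :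
    IntegrableOn (fun θ => |cs A θ|) s := by
  have h1 : IntegrableOn (fun θ => |cs A θ|) (Set.Icc (0:ℝ) 1) := (cs_cont A).abs.integrableOn_Icc
  exact h1.mono_set h

theorem off_zeros (A : Finset ℤ) (hA : A.Nonempty) (t : ℝ) (ht : 0 < t) (ht1 : t ≤ 1) :
    ∃ E : Set ℝ, MeasurableSet E ∧ E ⊆ Set.Icc 0 1 ∧ volume E ≤ ENNReal.ofReal t ∧
      ∫ θ in Set.Icc (0:ℝ) 1 \ E, |cs A θ| ≤ 34 * Real.sqrt (zc A + 1) * (1 + Real.log (1 / t)) := by
  obtain ⟨T, hT, hTc⟩ := exists_marks A hA
  have hM1 : 1 ≤ T.card := Finset.card_pos.mpr ⟨0, hT.zero_mem⟩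
  have hM1' : (1:ℝ) ≤ T.card := by exact_mod_cast hM1
  set K : ℕ := ⌈2 * (T.card : ℝ) / t⌉₊ with hK
  have hK1 : 2 * (T.card : ℝ) / t ≤ K := Nat.le_ceil _
  have hK2 : (K : ℝ) ≤ 3 * T.card / t := by
    have h1 : (K : ℝ) < 2 * (T.card : ℝ) / t + 1 := Nat.ceil_lt_add_one (by positivity)
    have h2 : (1:ℝ) ≤ T.card / t := by
      rw [le_div_iff₀ ht]
      linarith
    have h3 : 3 * (T.card : ℝ) / t = 2 * (T.card : ℝ) / t + T.card / t := by ring
    linarith
  have hK3 : 2 * (T.card : ℝ) ≤ K * t := by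
    rwa [div_le_iff₀ ht] at hK1
  have hK4 : T.card ≤ K := by
    have : (T.card : ℝ) ≤ K := by nlinarith
    exact_mod_cast this
  have hK0 : (0:ℝ) < K := by linarith [(Nat.cast_le (α := ℝ)).mpr hK4]
  refine ⟨nearT T (1 / K), nearT_meas T _, fun θ h => h.1, ?_, ?_⟩
  · refine (nearT_vol T ⟨0, hT.zero_mem⟩ _ (by positivity)).trans ?_
    apply ENNReal.ofReal_le_ofReal
    rw [mul_one_div, div_le_iff₀ hK0]
    linarith
  · have h1 := arcs' A T hT K hK4
    have h2 : ∫ θ in Set.Icc (0:ℝ) 1 \ nearT T (1 / K), |cs A θ| ≤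
        ∫ θ in (0:ℝ)..1, |cs A θ| * min 1 (K * Metric.infDist θ (T : Set ℝ)) := by
      rw [intervalIntegral.integral_of_le zero_le_one, ← integral_Icc_eq_integral_Ioc]
      have hcont : Continuous (fun θ : ℝ => |cs A θ| * min 1 (K * Metric.infDist θ (T : Set ℝ))) :=
        (cs_cont A).abs.mul (continuous_const.min
          (continuous_const.mul (Metric.continuous_infDist_pt _)))
      calc ∫ θ in Set.Icc (0:ℝ) 1 \ nearT T (1 / K), |cs A θ|
          = ∫ θ in Set.Icc (0:ℝ) 1 \ nearT T (1 / K),
              |cs A θ| * min 1 (K * Metric.infDist θ (T : Set ℝ)) := by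
            apply setIntegral_congr_fun (measurableSet_Icc.diff (nearT_meas T _))
            intro θ hθ
            have h3 : 1 / (K:ℝ) ≤ Metric.infDist θ (T : Set ℝ) := by
              by_contra hcon
              rw [not_le] at hcon
              exact hθ.2 ⟨hθ.1, hcon⟩
            have h4 : 1 ≤ K * Metric.infDist θ (T : Set ℝ) := by
              rw [div_le_iff₀ hK0] at h3
              linarith
            simp only
            rw [min_eq_left h4, mul_one]
        _ ≤ ∫ θ in Set.Icc (0:ℝ) 1, |cs A θ| * min 1 (K * Metric.infDist θ (T : Set ℝ)) := by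
            apply setIntegral_mono_set
            · exact hcont.integrableOn_Icc
            · apply Filter.Eventually.of_forall
              intro θ
              exact mul_nonneg (abs_nonneg _)
                (le_min zero_le_one (mul_nonneg hK0.le Metric.infDist_nonneg))
            · exact Filter.Eventually.of_forall (fun θ h => h.1)
    refine h2.trans (h1.trans ?_)
    have h5 : Real.log (K / T.card) ≤ 11 / 10 + Real.log (1 / t) := by
      have h6 : (K : ℝ) / T.card ≤ 3 * (1 / t) := by
        rw [div_le_iff₀ (by linarith)]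
        calc (K:ℝ) ≤ 3 * T.card / t := hK2
          _ = 3 * (1 / t) * T.card := by ring
      have h7 : Real.log (K / T.card) ≤ Real.log (3 * (1 / t)) :=
        Real.log_le_log (by positivity) h6
      rw [Real.log_mul (by norm_num) (by positivity)] at h7
      have h8 : Real.log 3 ≤ 11 / 10 := by
        rw [Real.log_le_iff_le_exp (by norm_num)]
        have h9 : Real.exp (11 / 10) = Real.exp 1 * Real.exp (1 / 10) := by
          rw [← Real.exp_add]
          norm_num
        have h10 := Real.exp_one_gt_d9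
        have h11 : 1 / 10 + 1 ≤ Real.exp (1 / 10) := Real.add_one_le_exp _
        have h12 : 1 / 10 + 1 + (1 / 10) ^ 2 / 2 ≤ Real.exp (1 / 10) := by
          have := Real.quadratic_le_exp_of_nonneg (show (0:ℝ) ≤ 1 / 10 by norm_num)
          linarith
        rw [h9]
        nlinarith
      linarith
    have h13 : 0 ≤ Real.log (1 / t) := by
      apply Real.log_nonneg
      rw [le_div_iff₀ ht]
      linarith
    have h14 : Real.sqrt T.card ≤ 71 / 50 * Real.sqrt (zc A + 1) := by
      have h15 : (T.card : ℝ) ≤ 2 * (zc A + 1) := by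
        have : (T.card : ℝ) ≤ zc A + 2 := by
          have := hTc
          unfold zc
          exact_mod_cast this
        have h16 : (0:ℝ) ≤ zc A := by positivity
        linarith
      have h17 : Real.sqrt T.card ≤ Real.sqrt (2 * (zc A + 1)) := Real.sqrt_le_sqrt h15
      rw [Real.sqrt_mul (by norm_num)] at h17
      have h18 : Real.sqrt 2 ≤ 71 / 50 := by
        rw [Real.sqrt_le_left (by norm_num)]
        norm_num
      exact h17.trans (mul_le_mul_of_nonneg_right h18 (Real.sqrt_nonneg _))
    have h19 := Real.sqrt_nonneg ((zc A : ℝ) + 1)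
    calc 11 * Real.sqrt T.card * (1 + Real.log (K / T.card))
        ≤ 11 * (71 / 50 * Real.sqrt (zc A + 1)) * (21 / 10 + Real.log (1 / t)) := by
          have h20 : 1 + Real.log (K / T.card) ≤ 21 / 10 + Real.log (1 / t) := by linarith
          have h21 : 0 ≤ 21 / 10 + Real.log (1 / t) := by linarith
          calc 11 * Real.sqrt T.card * (1 + Real.log (K / T.card))
              ≤ 11 * Real.sqrt T.card * (21 / 10 + Real.log (1 / t)) :=
                mul_le_mul_of_nonneg_left h20 (by positivity)
            _ ≤ 11 * (71 / 50 * Real.sqrt (zc A + 1)) * (21 / 10 + Real.log (1 / t)) := by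
                apply mul_le_mul_of_nonneg_right _ h21
                linarith
      _ ≤ 34 * Real.sqrt (zc A + 1) * (1 + Real.log (1 / t)) := by
          nlinarith [mul_nonneg h19 h13]

end COSZ
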