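import Pool.Agent.COSZ.OffB

/-!
Second and fourth moments of cosine sums; the number of zeros, the norm in `L¹` and the additive energy.
-/

open Finset MeasureTheory

noncomputable section

namespace COSZ

theorem int_cos (k : ℤ) : ∫ θ in (0:ℝ)..1, Real.cos (2 * Real.pi * k * θ) = if k = 0 then 1 else 0 := by
  have h1 := int_e k
  have h2 : ∫ θ in (0:ℝ)..1, (e (k * θ)).re = (∫ θ in (0:ℝ)..1, e (k * θ)).re :=
    Complex.reCLM.intervalIntegral_comp_comm ((e_cont.comp (by fun_prop)).intervalIntegrable 0 1)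
  rw [h1] at h2
  have h3 : ∫ θ in (0:ℝ)..1, Real.cos (2 * Real.pi * k * θ) = ∫ θ in (0:ℝ)..1, (e (k * θ)).re := by
    apply intervalIntegral.integral_congr
    intro θ _
    simp only
    rw [e_re]
    congr 1
    ring
  rw [h3, h2]
  split_ifs <;> simp

/-- mean of the square -/
theorem l2_lower (A : Finset ℤ) : (A.card : ℝ) / 2 ≤ ∫ θ in (0:ℝ)..1, cs A θ ^ 2 := by
  have h1 : ∀ θ : ℝ, cs A θ ^ 2 = ∑ a ∈ A, ∑ b ∈ A,
      (1 / 2 * Real.cos (2 * Real.pi * ((a - b : ℤ) : ℝ) * θ) +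
        1 / 2 * Real.cos (2 * Real.pi * ((a + b : ℤ) : ℝ) * θ)) := by
    intro θ
    rw [cs, sq, Finset.sum_mul_sum]
    refine Finset.sum_congr rfl fun a _ => Finset.sum_congr rfl fun b _ => ?_
    push_cast
    have e1 : 2 * Real.pi * ((a:ℝ) - b) * θ = 2 * Real.pi * a * θ - 2 * Real.pi * b * θ := by ring
    have e2 : 2 * Real.pi * ((a:ℝ) + b) * θ = 2 * Real.pi * a * θ + 2 * Real.pi * b * θ := by ring
    rw [e1, e2, Real.cos_sub, Real.cos_add]
    ring
  simp_rw [h1]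
  rw [intervalIntegral.integral_finsetSum]
  swap
  · intro a _
    apply Continuous.intervalIntegrable
    fun_prop
  have h2 : ∀ a ∈ A, (1:ℝ) / 2 ≤ ∫ θ in (0:ℝ)..1, ∑ b ∈ A,
      (1 / 2 * Real.cos (2 * Real.pi * ((a - b : ℤ) : ℝ) * θ) +
        1 / 2 * Real.cos (2 * Real.pi * ((a + b : ℤ) : ℝ) * θ)) := by
    intro a ha
    rw [intervalIntegral.integral_finsetSum]
    swap
    · intro b _
      apply Continuous.intervalIntegrable
      fun_prop
    have h3 : ∀ b ∈ A, ∫ θ in (0:ℝ)..1, (1 / 2 * Real.cos (2 * Real.pi * ((a - b : ℤ) : ℝ) * θ) +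
        1 / 2 * Real.cos (2 * Real.pi * ((a + b : ℤ) : ℝ) * θ)) =
        1 / 2 * (if a - b = 0 then 1 else 0) + 1 / 2 * (if a + b = 0 then 1 else 0) := by
      intro b _
      rw [intervalIntegral.integral_add, intervalIntegral.integral_const_mul,
        intervalIntegral.integral_const_mul, int_cos, int_cos]
      · apply Continuous.intervalIntegrable
        fun_prop
      · apply Continuous.intervalIntegrable
        fun_prop
    rw [Finset.sum_congr rfl h3]
    have h4 : ∀ b ∈ A, (0:ℝ) ≤ 1 / 2 * (if a - b = 0 then 1 else 0) + 1 / 2 * (if a + b = 0 then 1 else 0) := by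
      intro b _
      split_ifs <;> norm_num
    refine le_trans ?_ (Finset.single_le_sum h4 ha)
    rw [if_pos (sub_self a)]
    split_ifs <;> norm_num
  calc (A.card : ℝ) / 2 = ∑ a ∈ A, (1:ℝ) / 2 := by rw [Finset.sum_const, nsmul_eq_mul]; ring
    _ ≤ _ := Finset.sum_le_sum h2

/-- square of the modulus of a sum of exponentials -/
theorem normsq_sum {ι : Type*} (s : Finset ι) (x : ι → ℝ) :
    ‖∑ i ∈ s, e (x i)‖ ^ 2 = ∑ i ∈ s, ∑ j ∈ s, Real.cos (2 * Real.pi * (x i - x j)) := by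
  have h1 : ((‖∑ i ∈ s, e (x i)‖ ^ 2 : ℝ) : ℂ) = ∑ i ∈ s, ∑ j ∈ s, e (x i - x j) := by
    have h2 := Complex.mul_conj' (∑ i ∈ s, e (x i))
    rw [Complex.ofReal_pow, ← h2, map_sum, Finset.sum_mul_sum]
    refine Finset.sum_congr rfl fun i _ => Finset.sum_congr rfl fun j _ => ?_
    rw [← e_neg, ← e_add, sub_eq_add_neg]
  have h3 := congrArg Complex.re h1
  rw [Complex.ofReal_re] at h3
  rw [h3, Complex.re_sum]
  refine Finset.sum_congr rfl fun i _ => ?_
  rw [Complex.re_sum]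
  refine Finset.sum_congr rfl fun j _ => ?_
  rw [e_re]

/-- mean of the fourth power -/
theorem l4_upper (A : Finset ℤ) : ∫ θ in (0:ℝ)..1, cs A θ ^ 4 ≤ (A.addEnergy A : ℝ) := by
  set P := A ×ˢ A with hP
  set g : ℝ → ℝ := fun θ => ∑ p ∈ P, ∑ q ∈ P,
    Real.cos (2 * Real.pi * (((p.1 + p.2) - (q.1 + q.2) : ℤ) : ℝ) * θ) with hg
  have h1 : ∀ θ : ℝ, cs A θ ^ 4 ≤ g θ := by
    intro θ
    have h2 : cs A θ = (∑ a ∈ A, e (a * θ)).re := by
      rw [cs, Complex.re_sum]
      refine Finset.sum_congr rfl fun a _ => ?_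
      rw [e_re]
      congr 1
      ring
    have h3 : |cs A θ| ≤ ‖∑ a ∈ A, e (a * θ)‖ := by
      rw [h2]
      exact Complex.abs_re_le_norm _
    have h4 : cs A θ ^ 4 ≤ ‖∑ a ∈ A, e (a * θ)‖ ^ 4 := by
      calc cs A θ ^ 4 = |cs A θ| ^ 4 := by rw [Even.pow_abs (by decide)]
        _ ≤ _ := pow_le_pow_left₀ (abs_nonneg _) h3 4
    have h5 : ‖∑ a ∈ A, e (a * θ)‖ ^ 4 = ‖∑ p ∈ P, e ((((p.1 + p.2 : ℤ) : ℝ)) * θ)‖ ^ 2 := by
      have h6 : (∑ a ∈ A, e (a * θ)) ^ 2 = ∑ p ∈ P, e ((((p.1 + p.2 : ℤ) : ℝ)) * θ) := by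
        rw [sq, Finset.sum_mul_sum, hP, Finset.sum_product]
        refine Finset.sum_congr rfl fun a _ => Finset.sum_congr rfl fun b _ => ?_
        rw [← e_add]
        congr 1
        push_cast
        ring
      rw [← h6, norm_pow]
      ring
    rw [h5, normsq_sum] at h4
    refine h4.trans (le_of_eq ?_)
    simp only [hg]
    refine Finset.sum_congr rfl fun p _ => Finset.sum_congr rfl fun q _ => ?_
    congr 1
    push_cast
    ring
  have h7 : ∫ θ in (0:ℝ)..1, cs A θ ^ 4 ≤ ∫ θ in (0:ℝ)..1, g θ := by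
    apply intervalIntegral.integral_mono zero_le_one
    · exact ((cs_cont A).pow 4).intervalIntegrable _ _
    · apply Continuous.intervalIntegrable
      simp only [hg]
      fun_prop
    · exact h1
  refine h7.trans (le_of_eq ?_)
  simp only [hg]
  rw [intervalIntegral.integral_finsetSum]
  swap
  · intro a _
    apply Continuous.intervalIntegrable
    fun_prop
  have h8 : ∀ p ∈ P, ∫ θ in (0:ℝ)..1, ∑ q ∈ P,
      Real.cos (2 * Real.pi * (((p.1 + p.2) - (q.1 + q.2) : ℤ) : ℝ) * θ) =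
      ∑ q ∈ P, if p.1 + p.2 = q.1 + q.2 then (1:ℝ) else 0 := by
    intro p _
    rw [intervalIntegral.integral_finsetSum]
    swap
    · intro b _
      apply Continuous.intervalIntegrable
      fun_prop
    refine Finset.sum_congr rfl fun q _ => ?_
    rw [int_cos]
    simp only [sub_eq_zero]
  rw [Finset.sum_congr rfl h8, Finset.addEnergy_eq_card_filter, Finset.card_filter]
  push_cast
  rw [← Finset.sum_product']

/-- the norms in `L¹` and `L²`, and the additive energy -/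
theorem l1_lower (A : Finset ℤ) (hA : A.Nonempty) (S2 : ℝ) (hS2 : S2 = ∫ θ in (0:ℝ)..1, cs A θ ^ 2) :
    S2 * Real.sqrt S2 ≤ nrm A * Real.sqrt (A.addEnergy A) := by
  have hn : (0:ℝ) < A.card := by exact_mod_cast hA.card_pos
  have h2 := l2_lower A
  rw [← hS2] at h2
  have hS0 : 0 < S2 := by linarith
  have hE : (0:ℝ) < (A.addEnergy A : ℝ) := by exact_mod_cast Finset.addEnergy_self_pos hA
  set E : ℝ := (A.addEnergy A : ℝ) with hEdef
  set s : ℝ := Real.sqrt E / Real.sqrt S2 with hs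
  have hsS : 0 < Real.sqrt S2 := Real.sqrt_pos.mpr hS0
  have hsE : 0 < Real.sqrt E := Real.sqrt_pos.mpr hE
  have hs0 : 0 < s := by positivity
  have hs2 : s ^ 2 = E / S2 := by
    rw [hs, div_pow, Real.sq_sqrt hE.le, Real.sq_sqrt hS0.le]
  have h3 : ∀ x : ℝ, 3 * x ^ 2 ≤ 2 * s * |x| + 1 / s ^ 2 * x ^ 4 := by
    intro x
    have h4 : 0 ≤ |x| := abs_nonneg x
    have h5 : x ^ 2 = |x| ^ 2 := (sq_abs x).symm
    have h6 : x ^ 4 = |x| ^ 4 := by rw [Even.pow_abs (by decide)]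
    rw [h5, h6]
    set y := |x| with hy
    have h7 : 2 * s * y + 1 / s ^ 2 * y ^ 4 - 3 * y ^ 2 = y / s ^ 2 * ((y - s) ^ 2 * (y + 2 * s)) := by
      field_simp
      ring
    have h8 : 0 ≤ y / s ^ 2 * ((y - s) ^ 2 * (y + 2 * s)) := by positivity
    linarith
  have h9 : ∫ θ in (0:ℝ)..1, 3 * cs A θ ^ 2 ≤ ∫ θ in (0:ℝ)..1, (2 * s * |cs A θ| + 1 / s ^ 2 * cs A θ ^ 4) := by
    have hc := cs_cont A
    apply intervalIntegral.integral_mono zero_le_one
    · exact (continuous_const.mul (hc.pow 2)).intervalIntegrable _ _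
    · exact ((continuous_const.mul hc.abs).add (continuous_const.mul (hc.pow 4))).intervalIntegrable _ _
    · intro θ
      exact h3 _
  have hc := cs_cont A
  have i1 : IntervalIntegrable (fun θ => 2 * s * |cs A θ|) volume 0 1 :=
    (continuous_const.mul hc.abs).intervalIntegrable _ _
  have i2 : IntervalIntegrable (fun θ => 1 / s ^ 2 * cs A θ ^ 4) volume 0 1 :=
    (continuous_const.mul (hc.pow 4)).intervalIntegrable _ _
  rw [intervalIntegral.integral_const_mul, intervalIntegral.integral_add i1 i2,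
    intervalIntegral.integral_const_mul, intervalIntegral.integral_const_mul, ← hS2] at h9
  have h10 := l4_upper A
  have h11 : 1 / s ^ 2 * ∫ θ in (0:ℝ)..1, cs A θ ^ 4 ≤ S2 := by
    rw [hs2]
    calc 1 / (E / S2) * ∫ θ in (0:ℝ)..1, cs A θ ^ 4 ≤ 1 / (E / S2) * E := by gcongr
      _ = S2 := by field_simp
  have h12 : S2 ≤ s * nrm A := by
    have : nrm A = ∫ θ in (0:ℝ)..1, |cs A θ| := rfl
    rw [this]
    linarith
  have h13 : s * nrm A = nrm A * Real.sqrt E / Real.sqrt S2 := by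
    rw [hs]
    ring
  rw [h13, le_div_iff₀ hsS] at h12
  exact h12

theorem nrm_pos (A : Finset ℤ) (hA : A.Nonempty) : 0 < nrm A := by
  have hn : (0:ℝ) < A.card := by exact_mod_cast hA.card_pos
  have h2 := l2_lower A
  have h1 := l1_lower A hA _ rfl
  have hS0 : 0 < ∫ θ in (0:ℝ)..1, cs A θ ^ 2 := by linarith
  have h3 : 0 < (∫ θ in (0:ℝ)..1, cs A θ ^ 2) * Real.sqrt (∫ θ in (0:ℝ)..1, cs A θ ^ 2) := by positivity
  by_contra hcon
  rw [not_lt] at hcon
  have h4 : nrm A * Real.sqrt (A.addEnergy A) ≤ 0 :=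
    mul_nonpos_of_nonpos_of_nonneg hcon (Real.sqrt_nonneg _)
  linarith

/-- `L¹` norm and zeros -/
theorem nrm_le_zeros (A : Finset ℤ) (hA : A.Nonempty) :
    nrm A ≤ 163 * Real.sqrt (zc A + 1) *
      (1 + Real.log (Real.sqrt (∫ θ in (0:ℝ)..1, cs A θ ^ 2) / nrm A)) := by
  set S2 : ℝ := ∫ θ in (0:ℝ)..1, cs A θ ^ 2 with hS2
  set S1 := nrm A with hS1
  have hn : (0:ℝ) < A.card := by exact_mod_cast hA.card_pos
  have hS2p : 0 < S2 := by
    have := l2_lower A
    rw [← hS2] at this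
    linarith
  have hS1p : 0 < S1 := nrm_pos A hA
  have hc := cs_cont A
  have hpt : ∀ s : ℝ, 0 < s → ∀ x : ℝ, |x| ≤ s / 2 + 1 / (2 * s) * x ^ 2 := by
    intro s hs x
    have h1 : s / 2 + 1 / (2 * s) * x ^ 2 - |x| = (|x| - s) ^ 2 / (2 * s) := by
      rw [← sq_abs x]
      field_simp
      ring
    have h2 : 0 ≤ (|x| - s) ^ 2 / (2 * s) := by positivity
    linarith
  have hr : 0 < Real.sqrt S2 := Real.sqrt_pos.mpr hS2p
  have hsq : Real.sqrt S2 * Real.sqrt S2 = S2 := Real.mul_self_sqrt hS2p.le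
  -- Cauchy-Schwarz
  have hCS : S1 ≤ Real.sqrt S2 := by
    have h1 : S1 ≤ ∫ θ in (0:ℝ)..1, (Real.sqrt S2 / 2 + 1 / (2 * Real.sqrt S2) * cs A θ ^ 2) := by
      have : S1 = ∫ θ in (0:ℝ)..1, |cs A θ| := rfl
      rw [this]
      apply intervalIntegral.integral_mono zero_le_one
      · exact hc.abs.intervalIntegrable _ _
      · exact (continuous_const.add (continuous_const.mul (hc.pow 2))).intervalIntegrable _ _
      · intro θ
        exact hpt _ hr _
    have i1 : IntervalIntegrable (fun _ : ℝ => Real.sqrt S2 / 2) volume 0 1 :=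
      continuous_const.intervalIntegrable _ _
    have i2 : IntervalIntegrable (fun θ => 1 / (2 * Real.sqrt S2) * cs A θ ^ 2) volume 0 1 :=
      (continuous_const.mul (hc.pow 2)).intervalIntegrable _ _
    rw [intervalIntegral.integral_add i1 i2,
      intervalIntegral.integral_const_mul, ← hS2] at h1
    have h2 : 1 / (2 * Real.sqrt S2) * S2 = Real.sqrt S2 / 2 := by
      rw [div_mul_eq_mul_div, one_mul, div_eq_div_iff (by positivity) (by norm_num)]
      linarith
    rw [h2] at h1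
    simp only [intervalIntegral.integral_const, sub_zero, smul_eq_mul, one_mul] at h1
    linarith
  set t : ℝ := S1 ^ 2 / (4 * S2) with ht
  have ht0 : 0 < t := by positivity
  have ht1 : t ≤ 1 := by
    rw [ht, div_le_one (by positivity)]
    nlinarith
  obtain ⟨E, hE1, hE2, hE3, hE4⟩ := off_zeros A hA t ht0 ht1
  have hi : IntegrableOn (fun θ => |cs A θ|) (Set.Icc (0:ℝ) 1) := hc.abs.integrableOn_Icc
  have hsplit : S1 = (∫ θ in Set.Icc (0:ℝ) 1 \ E, |cs A θ|) + ∫ θ in E, |cs A θ| := by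
    have h1 : S1 = ∫ θ in Set.Icc (0:ℝ) 1, |cs A θ| := by
      rw [integral_Icc_eq_integral_Ioc, ← intervalIntegral.integral_of_le zero_le_one]
      rfl
    rw [h1]
    have h2 : Set.Icc (0:ℝ) 1 = (Set.Icc (0:ℝ) 1 \ E) ∪ E := by
      rw [Set.sdiff_union_self, Set.union_eq_self_of_subset_right hE2]
    conv_lhs => rw [h2]
    rw [setIntegral_union Set.disjoint_sdiff_left hE1 (hi.mono_set Set.sdiff_subset) (hi.mono_set hE2)]
  have hEint : ∫ θ in E, |cs A θ| ≤ S1 / 2 := by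
    set s : ℝ := 2 * S2 / S1 with hs
    have hs0 : 0 < s := by positivity
    have hvol : (volume E).toReal ≤ t := ENNReal.toReal_le_of_le_ofReal ht0.le hE3
    have hfin : volume E ≠ ⊤ := ne_top_of_le_ne_top ENNReal.ofReal_ne_top hE3
    have hi2 : IntegrableOn (fun θ => 1 / (2 * s) * cs A θ ^ 2) (Set.Icc (0:ℝ) 1) :=
      (continuous_const.mul (hc.pow 2)).integrableOn_Icc
    have h1 : ∫ θ in E, |cs A θ| ≤ ∫ θ in E, (s / 2 + 1 / (2 * s) * cs A θ ^ 2) := by
      apply setIntegral_mono_on (hi.mono_set hE2) _ hE1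
      · intro θ _
        exact hpt s hs0 _
      · exact Integrable.add (integrableOn_const hfin) (hi2.mono_set hE2)
    have h2 : ∫ θ in E, (s / 2 + 1 / (2 * s) * cs A θ ^ 2) =
        (∫ θ in E, s / 2) + ∫ θ in E, 1 / (2 * s) * cs A θ ^ 2 :=
      integral_add (integrableOn_const hfin) (hi2.mono_set hE2)
    have h3 : ∫ θ in E, s / 2 ≤ t * (s / 2) := by
      rw [setIntegral_const, smul_eq_mul]
      exact mul_le_mul_of_nonneg_right hvol (by positivity)
    have h4 : ∫ θ in E, 1 / (2 * s) * cs A θ ^ 2 ≤ 1 / (2 * s) * S2 := by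
      have h5 : ∫ θ in E, 1 / (2 * s) * cs A θ ^ 2 ≤ ∫ θ in Set.Icc (0:ℝ) 1, 1 / (2 * s) * cs A θ ^ 2 := by
        apply setIntegral_mono_set hi2
        · apply Filter.Eventually.of_forall
          intro θ
          simp only [Pi.zero_apply]
          positivity
        · exact Filter.Eventually.of_forall (fun θ h => hE2 h)
      refine h5.trans (le_of_eq ?_)
      rw [integral_const_mul, integral_Icc_eq_integral_Ioc, ← intervalIntegral.integral_of_le zero_le_one]
    have h6 : t * (s / 2) = S1 / 4 := by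
      rw [ht, hs]
      field_simp
      try norm_num
    have h7 : 1 / (2 * s) * S2 = S1 / 4 := by
      rw [hs]
      field_simp
      try norm_num
    rw [h2] at h1
    linarith
  have hlog : Real.log (1 / t) = 2 * Real.log 2 + 2 * Real.log (Real.sqrt S2 / S1) := by
    have h1 : 1 / t = (2 * (Real.sqrt S2 / S1)) ^ 2 := by
      rw [ht, mul_pow, div_pow, Real.sq_sqrt hS2p.le]
      field_simp
      norm_num
    rw [h1, Real.log_pow, Real.log_mul (by norm_num) (by positivity)]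
    push_cast
    ring
  have hl0 : 0 ≤ Real.log (Real.sqrt S2 / S1) := by
    apply Real.log_nonneg
    rw [le_div_iff₀ hS1p]
    linarith
  have hl2 := Real.log_two_lt_d9
  rw [hlog] at hE4
  have hz := Real.sqrt_nonneg ((zc A : ℝ) + 1)
  have h8 : S1 ≤ 2 * (34 * Real.sqrt (zc A + 1) * (1 + (2 * Real.log 2 + 2 * Real.log (Real.sqrt S2 / S1)))) := by
    linarith
  refine h8.trans ?_
  have h9 : 2 * (34 * Real.sqrt (zc A + 1) * (1 + (2 * Real.log 2 + 2 * Real.log (Real.sqrt S2 / S1)))) =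
      Real.sqrt (zc A + 1) * (68 * (1 + (2 * Real.log 2 + 2 * Real.log (Real.sqrt S2 / S1)))) := by ring
  have h10 : 163 * Real.sqrt (zc A + 1) * (1 + Real.log (Real.sqrt S2 / S1)) =
      Real.sqrt (zc A + 1) * (163 * (1 + Real.log (Real.sqrt S2 / S1))) := by ring
  rw [h9, h10]
  apply mul_le_mul_of_nonneg_left _ hz
  linarith

/-- additive energy and zeros -/
theorem energy_le_zeros (A : Finset ℤ) (hA : A.Nonempty) :
    (A.card : ℝ) ^ 3 / A.addEnergy A ≤ 10 ^ 6 * (zc A + 1) *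
      (1 + Real.log (A.addEnergy A / (A.card : ℝ) ^ 2)) ^ 2 := by
  have hn : (0:ℝ) < A.card := by exact_mod_cast hA.card_pos
  have h2 := l2_lower A
  have h1 := l1_lower A hA _ rfl
  have h0 := nrm_le_zeros A hA
  have hE : (0:ℝ) < (A.addEnergy A : ℝ) := by exact_mod_cast Finset.addEnergy_self_pos hA
  have hEn : (A.card : ℝ) ^ 2 ≤ A.addEnergy A := by
    exact_mod_cast Finset.le_addEnergy_self (s := A)
  have hS1p : 0 < nrm A := nrm_pos A hA
  set S2 : ℝ := ∫ θ in (0:ℝ)..1, cs A θ ^ 2 with hS2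
  set E : ℝ := (A.addEnergy A : ℝ) with hEdef
  set n : ℝ := (A.card : ℝ) with hndef
  set S1 := nrm A with hS1
  have hS2p : 0 < S2 := by linarith
  have hr : 0 < Real.sqrt S2 := Real.sqrt_pos.mpr hS2p
  have hrE : 0 < Real.sqrt E := Real.sqrt_pos.mpr hE
  -- the logarithm
  have h3 : Real.sqrt S2 / S1 ≤ Real.sqrt E / S2 := by
    rw [div_le_div_iff₀ hS1p hS2p]
    linarith
  have h4 : Real.sqrt E / S2 ≤ 2 * (Real.sqrt E / n) := by
    rw [mul_div_assoc', div_le_div_iff₀ hS2p hn]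
    nlinarith
  have h5 : Real.log (Real.sqrt S2 / S1) ≤ Real.log 2 + 1 / 2 * Real.log (E / n ^ 2) := by
    have h6 : Real.log (Real.sqrt S2 / S1) ≤ Real.log (2 * (Real.sqrt E / n)) :=
      Real.log_le_log (by positivity) (h3.trans h4)
    rw [Real.log_mul (by norm_num) (by positivity)] at h6
    have h7 : Real.log (E / n ^ 2) = 2 * Real.log (Real.sqrt E / n) := by
      have : E / n ^ 2 = (Real.sqrt E / n) ^ 2 := by
        rw [div_pow, Real.sq_sqrt hE.le]
      rw [this, Real.log_pow]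
      push_cast
      ring
    rw [h7]
    linarith
  have h8 : 0 ≤ Real.log (E / n ^ 2) := by
    apply Real.log_nonneg
    rw [le_div_iff₀ (by positivity)]
    linarith
  have hl2 := Real.log_two_lt_d9
  set ℓ := Real.log (E / n ^ 2) with hℓ
  have h9 : 1 + Real.log (Real.sqrt S2 / S1) ≤ 17 / 10 * (1 + ℓ) := by linarith
  have hz : (0:ℝ) ≤ (zc A : ℝ) := by positivity
  have h10 : S1 ≤ 163 * Real.sqrt (zc A + 1) * (17 / 10 * (1 + ℓ)) := by
    refine h0.trans ?_
    exact mul_le_mul_of_nonneg_left h9 (by positivity)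
  have h11 : S1 ^ 2 ≤ 76785 * (zc A + 1) * (1 + ℓ) ^ 2 := by
    have h12 : S1 ^ 2 ≤ (163 * Real.sqrt (zc A + 1) * (17 / 10 * (1 + ℓ))) ^ 2 :=
      pow_le_pow_left₀ hS1p.le h10 2
    have h13 : (163 * Real.sqrt (zc A + 1) * (17 / 10 * (1 + ℓ))) ^ 2 =
        163 ^ 2 * (17 / 10) ^ 2 * (zc A + 1) * (1 + ℓ) ^ 2 := by
      rw [mul_pow, mul_pow, mul_pow, Real.sq_sqrt (by positivity)]
      ring
    rw [h13] at h12
    refine h12.trans ?_
    have h14 : 0 ≤ ((zc A : ℝ) + 1) * (1 + ℓ) ^ 2 := by positivity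
    nlinarith
  have h15 : n ^ 3 / 8 ≤ S1 ^ 2 * E := by
    have h16 : (S2 * Real.sqrt S2) ^ 2 ≤ (S1 * Real.sqrt E) ^ 2 :=
      pow_le_pow_left₀ (by positivity) h1 2
    rw [mul_pow, mul_pow, Real.sq_sqrt hS2p.le, Real.sq_sqrt hE.le] at h16
    have h17 : n ^ 3 / 8 ≤ S2 ^ 2 * S2 := by
      have : (n / 2) ^ 3 ≤ S2 ^ 3 := pow_le_pow_left₀ (by positivity) h2 3
      calc n ^ 3 / 8 = (n / 2) ^ 3 := by ring
        _ ≤ S2 ^ 3 := this
        _ = S2 ^ 2 * S2 := by ring
    linarith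
  rw [div_le_iff₀ hE]
  have h18 : S1 ^ 2 * E ≤ 76785 * (zc A + 1) * (1 + ℓ) ^ 2 * E := mul_le_mul_of_nonneg_right h11 hE.le
  have h19 : 0 ≤ ((zc A : ℝ) + 1) * (1 + ℓ) ^ 2 * E := by positivity
  nlinarith

end COSZ
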