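import Pool.Agent.COSZ.Rho
import Pool.Agent.COSZ.Bas

/-!
Module SPL. Splitting with the partition of unity. All integrands are continuous, so the integral is
additive: `wi 1 = wi Pb + wi Pg`, `wi Pb = ∑_{a bad} wi (fej h (· - a/h))`, each term is at most
`wi (fej h)` in absolute value (`wi_shift_le`), and there are at most `T.card` bad residues; the same
for the at most `h` good residues.
-/

open Finset MeasureTheory

noncomputable section

namespace COSZ

theorem spl_int (A : Finset ℤ) (h L : ℕ) (k : ℤ) (W : ℝ → ℝ) (hW : Continuous W) :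
    IntervalIntegrable (fun θ : ℝ => cs A θ * Real.cos (2 * Real.pi * k * θ) * fej L (h * θ) * W θ)
      volume 0 1 := by
  apply Continuous.intervalIntegrable
  have h1 := fej_cont L
  have h2 := cs_cont A
  fun_prop

theorem spl_add (A : Finset ℤ) (h L : ℕ) (k : ℤ) (W V : ℝ → ℝ) (hW : Continuous W)
    (hV : Continuous V) :
    wi A h L (fun θ => W θ + V θ) k = wi A h L W k + wi A h L V k := by
  unfold wi
  rw [← intervalIntegral.integral_add (spl_int A h L k W hW) (spl_int A h L k V hV)]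
  refine intervalIntegral.integral_congr fun θ _ => ?_
  show _ = _
  ring

theorem spl_sum (A : Finset ℤ) (h L : ℕ) (k : ℤ) (S : Finset ℕ) :
    wi A h L (fun θ => ∑ a ∈ S, fej h (θ - (a:ℝ) / h)) k =
      ∑ a ∈ S, wi A h L (fun θ => fej h (θ - (a:ℝ) / h)) k := by
  unfold wi
  rw [← intervalIntegral.integral_finsetSum]
  · refine intervalIntegral.integral_congr fun θ _ => ?_
    show _ = _
    rw [Finset.mul_sum]
  · intro a _
    refine spl_int A h L k (fun θ => fej h (θ - (a:ℝ) / h)) ?_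
    have h1 := fej_cont h
    fun_prop

theorem spl_le (A : Finset ℤ) (h L : ℕ) (hh : 1 ≤ h) (hL : 1 ≤ L) (k : ℤ) (S : Finset ℕ)
    (c : ℕ) (hS : S.card ≤ c) :
    |wi A h L (fun θ => ∑ a ∈ S, fej h (θ - (a:ℝ) / h)) k| ≤ c * wi A h L (fej h) k := by
  rw [spl_sum]
  refine (Finset.abs_sum_le_sum_abs _ _).trans ?_
  refine (Finset.sum_le_sum fun a _ => wi_shift_le A h L hh hL a k).trans ?_
  rw [Finset.sum_const, nsmul_eq_mul]
  have h1 : (S.card : ℝ) ≤ c := by exact_mod_cast hS
  exact mul_le_mul_of_nonneg_right h1 (D_nonneg A h L hh hL k)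

theorem spl_Pb_cont (T : Finset ℝ) (h : ℕ) : Continuous (Pb T h) := by
  unfold Pb
  have h1 := fej_cont h
  fun_prop

theorem mu_split (A : Finset ℤ) (T : Finset ℝ) (h L : ℕ) (hh : 1 ≤ h) (hL : 1 ≤ L) (k : ℤ) :
    wi A h L (fun _ => 1) k ≤ T.card * wi A h L (fej h) k + |wi A h L (Pg T h) k| := by
  have h1 : (fun _ : ℝ => (1:ℝ)) = fun θ => Pb T h θ + Pg T h θ := by
    funext θ
    rw [Pb_add_Pg T h hh θ]
  rw [h1, spl_add A h L k _ _ (spl_Pb_cont T h) (Pg_cont T h)]
  have h2 : |wi A h L (Pb T h) k| ≤ T.card * wi A h L (fej h) k := by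
    refine spl_le A h L hh hL k ((range h).filter (fun a => a ∈ Bd T h)) T.card ?_
    refine le_trans (Finset.card_le_card ?_) (Bd_card T h)
    intro a ha
    exact (Finset.mem_filter.mp ha).2
  exact add_le_add ((le_abs_self _).trans h2) (le_abs_self _)

theorem good_le (A : Finset ℤ) (T : Finset ℝ) (h L : ℕ) (hh : 1 ≤ h) (hL : 1 ≤ L) (k : ℤ) :
    |wi A h L (Pg T h) k| ≤ h * wi A h L (fej h) k := by
  refine spl_le A h L hh hL k ((range h).filter (fun a => a ∉ Bd T h)) h ?_
  refine (Finset.card_filter_le _ _).trans ?_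
  rw [Finset.card_range]

end COSZ
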