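import Pool.Agent.COSZ.Few
import Pool.Agent.COSZ.Spl
import Pool.Agent.COSZ.Chn

/-!
Module PRP. Propagation. `M = |T| ≥ 1`, `τ = 1/(40 M h)`, `D L k = wi A h L (fej h) k`.
Property `P(k)`: `D L3 k' ≤ τ` for all `k' ∈ [k, k+h)`.
-/

open Finset MeasureTheory

noncomputable section

namespace COSZ

/-- the hypotheses on a selected range -/
structure Sel (A : Finset ℤ) (T : Finset ℝ) (h L1 L2 L3 W : ℕ) : Prop where
  hh : 1 ≤ h
  h1 : 1 ≤ L1
  h13 : L1 ≤ L3
  h32 : L3 ≤ L2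
  hT : 1 ≤ T.card
  Z : dI A h L1 L2 L3 (fej h) ≤ 1 / (40 * (T.card:ℝ))
  G : dI A h L1 L2 L3 (Pg T h) ≤ 1 / 40
  slow : Real.pi * W / L2 * nrm A ≤ 1 / (40 * (T.card:ℝ))
  hW : L3 + 2 * L1 + 1 ≤ W
  hb : 80 * T.card * (brk A h).card * L1 ≤ L3

theorem prp_aux (M h : ℝ) (hM : 1 ≤ M) (hh : 1 ≤ h) :
    M * (1 / (40 * M)) = 1 / 40 ∧ M * (1 / (40 * M * h)) ≤ 1 / 40 ∧ h * (1 / (40 * M * h)) ≤ 1 / 40 ∧
    1 / (40 * M) ≤ 1 / 40 := by
  have hM0 : M ≠ 0 := by positivity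
  have hh0 : h ≠ 0 := by positivity
  refine ⟨by field_simp, ?_, ?_, ?_⟩
  · have : M * (1 / (40 * M * h)) = 1 / 40 / h := by field_simp
    rw [this]
    exact div_le_self (by norm_num) hh
  · have : h * (1 / (40 * M * h)) = 1 / 40 / M := by field_simp
    rw [this]
    exact div_le_self (by norm_num) hM
  · apply one_div_le_one_div_of_le (by norm_num)
    linarith

theorem mu_small (A : Finset ℤ) (T : Finset ℝ) (h L1 L2 L3 W : ℕ) (hs : Sel A T h L1 L2 L3 W) (k : ℤ)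
    (hP : ∀ k' : ℤ, k ≤ k' → k' < k + h → wi A h L3 (fej h) k' ≤ 1 / (40 * (T.card:ℝ) * h))
    (k'' : ℤ) (h1 : k - W * h ≤ k'') (h2 : k'' < k + W * h + h) :
    wi A h L1 (fun _ => 1) k'' < 1 / 2 := by
  obtain ⟨hh, hL1, h13, h32, hT, hZ, hG, hslow, hW, hb⟩ := hs
  have hhZ : (0:ℤ) < h := by exact_mod_cast hh
  have hhR : (1:ℝ) ≤ h := by exact_mod_cast hh
  have hMR : (1:ℝ) ≤ T.card := by exact_mod_cast hT
  set r : ℤ := (k'' - k) % h with hr
  set q : ℤ := (k'' - k) / h with hq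
  have hr0 : 0 ≤ r := Int.emod_nonneg _ (by omega)
  have hrh : r < h := Int.emod_lt_of_pos _ hhZ
  have hdiv : (h:ℤ) * q + r = k'' - k := Int.mul_ediv_add_emod _ _
  have hk'' : k'' = (k + r) + q * h := by linarith [hdiv, mul_comm (h:ℤ) q]
  have hqW : |q| ≤ (W:ℤ) := by
    rw [abs_le]
    constructor
    · by_contra hc
      push Not at hc
      have : q + 1 ≤ -(W:ℤ) := by omega
      have h3 : (h:ℤ) * (q + 1) ≤ h * (-(W:ℤ)) := mul_le_mul_of_nonneg_left this hhZ.le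
      nlinarith
    · by_contra hc
      push Not at hc
      have : (W:ℤ) + 1 ≤ q := by omega
      have h3 : (h:ℤ) * ((W:ℤ) + 1) ≤ h * q := mul_le_mul_of_nonneg_left this hhZ.le
      nlinarith
  have hqWR : |(q:ℝ)| ≤ W := by
    have : ((|q| : ℤ) : ℝ) ≤ ((W:ℤ) : ℝ) := by exact_mod_cast hqW
    simpa using this
  have hL2 : 1 ≤ L2 := by omega
  have hL2R : (0:ℝ) < L2 := by exact_mod_cast hL2
  have hnrm := nrm_nonneg A
  have hsl : Real.pi * |(q:ℝ)| / L2 * nrm A ≤ 1 / (40 * (T.card:ℝ)) := by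
    refine le_trans ?_ hslow
    have := Real.pi_pos
    gcongr
  set τ : ℝ := 1 / (40 * (T.card:ℝ) * h) with hτ
  have hD3 : wi A h L3 (fej h) (k + r) ≤ τ := hP (k + r) (by omega) (by omega)
  -- window fej h
  have c1 := chain A h L1 L2 L3 hL2 (fej h) (fej_cont h) (fej_nonneg h) (fej_le_one h) (k + r) q
  rw [← hk''] at c1
  have d1 : wi A h L1 (fej h) k'' ≤ τ + 2 * (1 / (40 * (T.card:ℝ))) := by
    have := (abs_le.mp c1).2
    linarith
  have c2 := chain A h L1 L2 L3 hL2 (Pg T h) (Pg_cont T h) (Pg_nonneg T h) (Pg_le_one T h hh) (k + r) q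
  rw [← hk''] at c2
  have g3 := good_le A T h L3 hh (by omega) (k + r)
  have g1 : |wi A h L1 (Pg T h) k''| ≤ h * τ + 1 / 40 + 1 / (40 * (T.card:ℝ)) := by
    have e1 : |wi A h L1 (Pg T h) k''| ≤ |wi A h L3 (Pg T h) (k + r)| +
        |wi A h L1 (Pg T h) k'' - wi A h L3 (Pg T h) (k + r)| := by
      have := abs_sub_abs_le_abs_sub (wi A h L1 (Pg T h) k'') (wi A h L3 (Pg T h) (k + r))
      linarith
    have e2 : (h:ℝ) * wi A h L3 (fej h) (k + r) ≤ h * τ := by gcongr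
    linarith
  have s := mu_split A T h L1 hh hL1 k''
  obtain ⟨hM1, hMτ, hhτ, h140⟩ := prp_aux (T.card:ℝ) (h:ℝ) hMR hhR
  have s1 : (T.card:ℝ) * wi A h L1 (fej h) k'' ≤ T.card * (τ + 2 * (1 / (40 * (T.card:ℝ)))) :=
    mul_le_mul_of_nonneg_left d1 (by linarith)
  have s2 : (T.card:ℝ) * (τ + 2 * (1 / (40 * (T.card:ℝ)))) = T.card * τ + 2 * (T.card * (1 / (40 * (T.card:ℝ)))) := by
    ring
  rw [s2, hM1] at s1
  rw [← hτ] at hMτ hhτ
  clear_value τ
  clear hP c1 c2 g3 hD3 d1 hsl hslow hZ hG hnrm hL2R hqWR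
  generalize wi A h L1 (fun _ => 1) k'' = x1 at *
  generalize wi A h L1 (fej h) k'' = x2 at *
  generalize |wi A h L1 (Pg T h) k''| = x3 at *
  generalize 1 / (40 * (T.card:ℝ)) = x4 at *
  linarith

theorem step (A : Finset ℤ) (T : Finset ℝ) (h L1 L2 L3 W : ℕ) (hs : Sel A T h L1 L2 L3 W) (k : ℤ)
    (hP : ∀ k' : ℤ, k ≤ k' → k' < k + h → wi A h L3 (fej h) k' ≤ 1 / (40 * (T.card:ℝ) * h)) :
    ∀ k' : ℤ, k - h ≤ k' → k' < k → wi A h L3 (fej h) k' ≤ 1 / (40 * (T.card:ℝ) * h) := by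
  have hmu := mu_small A T h L1 L2 L3 W hs k hP
  obtain ⟨hh, hL1, h13, h32, hT, hZ, hG, hslow, hW, hb⟩ := hs
  have hfew := few A h L1 W hh hL1 k hmu
  intro k' hk1 hk2
  have hD := D_le_card A h L3 hh (by omega) k'
  refine hD.trans ?_
  have hhR : (1:ℝ) ≤ h := by exact_mod_cast hh
  have hMR : (1:ℝ) ≤ T.card := by exact_mod_cast hT
  have hL3R : (1:ℝ) ≤ L3 := by exact_mod_cast (le_trans hL1 h13)
  have hsub : (sp A).filter (fun j => |j - k'| < (L3:ℤ) * h) ⊆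
      (sp A).filter (fun x => k - ((W:ℤ) - 2 * L1) * h ≤ x ∧ x < k + W * h + h) := by
    intro j hj
    rw [Finset.mem_filter] at hj ⊢
    refine ⟨hj.1, ?_⟩
    have hhZ : (1:ℤ) ≤ h := by exact_mod_cast hh
    have hWZ : (L3:ℤ) + 2 * L1 + 1 ≤ W := by exact_mod_cast hW
    have hab := abs_lt.mp hj.2
    have e1 : ((L3:ℤ) + 1) * h ≤ ((W:ℤ) - 2 * L1) * h := by
      apply mul_le_mul_of_nonneg_right _ (by omega)
      linarith
    have e2 : (L3:ℤ) * h ≤ (W:ℤ) * h := by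
      apply mul_le_mul_of_nonneg_right _ (by omega)
      have : (0:ℤ) ≤ L1 := by positivity
      linarith
    constructor
    · nlinarith [hab.1]
    · nlinarith [hab.2]
  have hcard : ((sp A).filter (fun j => |j - k'| < (L3:ℤ) * h)).card ≤ 2 * L1 * (brk A h).card :=
    (Finset.card_le_card hsub).trans hfew
  have hcR : (((sp A).filter (fun j => |j - k'| < (L3:ℤ) * h)).card : ℝ) ≤ 2 * L1 * (brk A h).card := by
    exact_mod_cast hcard
  have hbR : 80 * (T.card:ℝ) * (brk A h).card * L1 ≤ L3 := by exact_mod_cast hb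
  rw [div_le_div_iff₀ (by positivity) (by positivity)]
  have : (((sp A).filter (fun j => |j - k'| < (L3:ℤ) * h)).card : ℝ) * (40 * T.card * h) ≤
      2 * L1 * (brk A h).card * (40 * T.card * h) := by gcongr
  refine this.trans ?_
  have : 2 * (L1:ℝ) * (brk A h).card * (40 * T.card * h) = (80 * (T.card:ℝ) * (brk A h).card * L1) * h := by
    ring
  rw [this, one_mul]
  gcongr

theorem prop_all (A : Finset ℤ) (T : Finset ℝ) (h L1 L2 L3 W : ℕ) (hs : Sel A T h L1 L2 L3 W) :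
    (sp A).card ≤ 2 * L1 * (brk A h).card := by
  have hh := hs.hh
  have hhZ : (1:ℤ) ≤ h := by exact_mod_cast hh
  have hL3 : 1 ≤ L3 := le_trans hs.h1 hs.h13
  -- far to the right
  obtain ⟨K, hK⟩ : ∃ K : ℤ, ∀ j ∈ sp A, j ≤ K := by
    rcases (sp A).eq_empty_or_nonempty with he | hne
    · exact ⟨0, by simp [he]⟩
    · exact ⟨(sp A).max' hne, fun j hj => Finset.le_max' _ _ hj⟩
  have base : ∀ k' : ℤ, K + (L3:ℤ) * h ≤ k' →
      wi A h L3 (fej h) k' ≤ 1 / (40 * (T.card:ℝ) * h) := by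
    intro k' hk'
    have hD := D_le_card A h L3 hh hL3 k'
    have : (sp A).filter (fun j => |j - k'| < (L3:ℤ) * h) = ∅ := by
      apply Finset.filter_eq_empty_iff.mpr
      intro j hj
      have := hK j hj
      have h1 : (L3:ℤ) * h ≤ k' - j := by linarith
      rw [not_lt, abs_sub_comm]
      exact h1.trans (le_abs_self _)
    rw [this] at hD
    simp only [Finset.card_empty, Nat.cast_zero, zero_div] at hD
    refine hD.trans ?_
    positivity
  -- propagation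
  have ind : ∀ (n : ℕ) (k' : ℤ), K + (L3:ℤ) * h - n * h ≤ k' →
      wi A h L3 (fej h) k' ≤ 1 / (40 * (T.card:ℝ) * h) := by
    intro n
    induction n with
    | zero => intro k' hk'; exact base k' (by simpa using hk')
    | succ n ih =>
      intro k' hk'
      by_cases hc : K + (L3:ℤ) * h - n * h ≤ k'
      · exact ih k' hc
      · push Not at hc
        refine step A T h L1 L2 L3 W hs (K + (L3:ℤ) * h - n * h) (fun k1 hk1 _ => ih k1 hk1) k' ?_ hc
        push_cast at hk'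
        linarith
  have all : ∀ k' : ℤ, wi A h L3 (fej h) k' ≤ 1 / (40 * (T.card:ℝ) * h) := by
    intro k'
    refine ind (K + (L3:ℤ) * h - k').toNat k' ?_
    have h1 : K + (L3:ℤ) * h - k' ≤ ((K + (L3:ℤ) * h - k').toNat : ℤ) := Int.self_le_toNat _
    have h2 : ((K + (L3:ℤ) * h - k').toNat : ℤ) ≤ ((K + (L3:ℤ) * h - k').toNat : ℤ) * h :=
      le_mul_of_one_le_right (by positivity) hhZ
    linarith
  apply few_all A h L1 hh hs.h1
  intro k'
  refine mu_small A T h L1 L2 L3 W hs k' (fun k1 _ _ => all k1) k' ?_ ?_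
  · have : (0:ℤ) ≤ (W:ℤ) * h := by positivity
    linarith
  · have : (0:ℤ) ≤ (W:ℤ) * h := by positivity
    linarith

end COSZ
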