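import Pool.Agent.COSZ.Harm

/-!
Module TRPA. The trapezoid `tr β` on `[0, 1/2]`: one on `[0, β/2]`, linear to zero at `β`, zero after.
For `a ≠ 0`, `ω = 2πa`: by parts `∫_0^{1/2} cos(ωθ) tr β θ dθ = (2/(β ω)) ∫_{β/2}^β sin(ωθ) dθ`;
`|∫_{β/2}^β sin ωθ| ≤ 2/|ω|` gives `4/(β ω²) = 1/(β π² a²)`; trivially the integral is at most `β`.
`trap_bd`: sum over `a ∈ A` with `harm_sum2`; the term `a = 0` is `3β/4 ≤ 3/8`; `5/2 + 3/8 ≤ 3`.
-/

open Finset MeasureTheory

noncomputable section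

namespace COSZ

theorem trpA_cont (β : ℝ) : Continuous (tr β) := by
  unfold tr
  fun_prop

theorem trpA_le (β : ℝ) (hβ : 0 < β) (hβ2 : β ≤ 1 / 2) (w : ℝ) :
    |∫ θ in (0:ℝ)..(1 / 2), Real.cos (w * θ) * tr β θ| ≤ β := by
  have hc : Continuous fun θ => Real.cos (w * θ) * tr β θ :=
    (by fun_prop : Continuous fun θ : ℝ => Real.cos (w * θ)).mul (trpA_cont β)
  have h1 : ∫ θ in β..(1 / 2), Real.cos (w * θ) * tr β θ = 0 := by
    have : ∫ θ in β..(1 / 2), Real.cos (w * θ) * tr β θ = ∫ _θ in β..(1 / 2), (0:ℝ) := by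
      refine intervalIntegral.integral_congr fun θ hθ => ?_
      rw [Set.uIcc_of_le hβ2] at hθ
      have h2 : 2 - 2 * θ / β ≤ 0 := by
        rw [sub_nonpos, le_div_iff₀ hβ]; linarith [hθ.1]
      simp only [tr, max_eq_left h2]
      norm_num
    rw [this]; simp
  rw [← intervalIntegral.integral_add_adjacent_intervals (b := β) (hc.intervalIntegrable _ _)
    (hc.intervalIntegrable _ _), h1, add_zero]
  have hbd : ∀ θ : ℝ, ‖Real.cos (w * θ) * tr β θ‖ ≤ 1 := by
    intro θ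
    have h3 : |tr β θ| ≤ 1 := by
      have h4 : 0 ≤ tr β θ := le_min zero_le_one (le_max_left _ _)
      rw [abs_of_nonneg h4]
      exact min_le_left _ _
    rw [Real.norm_eq_abs, abs_mul]
    calc |Real.cos (w * θ)| * |tr β θ| ≤ 1 * 1 :=
          mul_le_mul (Real.abs_cos_le_one _) h3 (abs_nonneg _) zero_le_one
      _ = 1 := one_mul 1
  have h2 := intervalIntegral.norm_integral_le_of_norm_le_const (a := 0) (b := β) (C := 1)
    (f := fun θ => Real.cos (w * θ) * tr β θ) (fun θ _ => hbd θ)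
  rw [Real.norm_eq_abs, sub_zero, abs_of_pos hβ, one_mul] at h2
  exact h2

theorem trpA_eq (β : ℝ) (hβ : 0 < β) (hβ2 : β ≤ 1 / 2) (w : ℝ) (hw : w ≠ 0) :
    ∫ θ in (0:ℝ)..(1 / 2), Real.cos (w * θ) * tr β θ =
      2 / (β * w ^ 2) * (Real.cos (w * (β / 2)) - Real.cos (w * β)) := by
  have hc : Continuous fun θ => Real.cos (w * θ) * tr β θ :=
    (by fun_prop : Continuous fun θ : ℝ => Real.cos (w * θ)).mul (trpA_cont β)
  have h1 : ∫ θ in β..(1 / 2), Real.cos (w * θ) * tr β θ = 0 := by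
    have : ∫ θ in β..(1 / 2), Real.cos (w * θ) * tr β θ = ∫ _θ in β..(1 / 2), (0:ℝ) := by
      refine intervalIntegral.integral_congr fun θ hθ => ?_
      rw [Set.uIcc_of_le hβ2] at hθ
      have h2 : 2 - 2 * θ / β ≤ 0 := by
        rw [sub_nonpos, le_div_iff₀ hβ]; linarith [hθ.1]
      simp only [tr, max_eq_left h2]
      norm_num
    rw [this]; simp
  have h2 : ∫ θ in (0:ℝ)..(β / 2), Real.cos (w * θ) * tr β θ = Real.sin (w * (β / 2)) / w := by
    have e1 : ∫ θ in (0:ℝ)..(β / 2), Real.cos (w * θ) * tr β θ =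
        ∫ θ in (0:ℝ)..(β / 2), Real.cos (w * θ) := by
      refine intervalIntegral.integral_congr fun θ hθ => ?_
      rw [Set.uIcc_of_le (by positivity)] at hθ
      have h3 : 1 ≤ 2 - 2 * θ / β := by
        have : 2 * θ / β ≤ 1 := by rw [div_le_iff₀ hβ]; linarith [hθ.2]
        linarith
      simp only [tr]
      rw [min_eq_left (h3.trans (le_max_right _ _)), mul_one]
    rw [e1, intervalIntegral.integral_eq_sub_of_hasDerivAt (f := fun θ => Real.sin (w * θ) / w)]
    · simp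
    · intro θ _
      have h4 : HasDerivAt (fun θ : ℝ => w * θ) w θ := by
        simpa using (hasDerivAt_id θ).const_mul w
      have h5 := (h4.sin).div_const w
      rwa [mul_div_assoc, div_self hw, mul_one] at h5
    · exact (by fun_prop : Continuous fun θ : ℝ => Real.cos (w * θ)).intervalIntegrable _ _
  have h3 : ∫ θ in (β / 2)..β, Real.cos (w * θ) * tr β θ =
      (-(2 / (β * w ^ 2) * Real.cos (w * β))) -
        (Real.sin (w * (β / 2)) / w - 2 / (β * w ^ 2) * Real.cos (w * (β / 2))) := by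
    have e1 : ∫ θ in (β / 2)..β, Real.cos (w * θ) * tr β θ =
        ∫ θ in (β / 2)..β, Real.cos (w * θ) * (2 - 2 * θ / β) := by
      refine intervalIntegral.integral_congr fun θ hθ => ?_
      rw [Set.uIcc_of_le (by linarith)] at hθ
      have h3 : 2 - 2 * θ / β ≤ 1 := by
        have : 1 ≤ 2 * θ / β := by rw [le_div_iff₀ hβ]; linarith [hθ.1]
        linarith
      have h4 : 0 ≤ 2 - 2 * θ / β := by
        have : 2 * θ / β ≤ 2 := by rw [div_le_iff₀ hβ]; linarith [hθ.2]
        linarith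
      simp only [tr]
      rw [max_eq_right h4, min_eq_right h3]
    rw [e1, intervalIntegral.integral_eq_sub_of_hasDerivAt
      (f := fun θ => Real.sin (w * θ) / w * (2 - 2 * θ / β) - 2 / (β * w ^ 2) * Real.cos (w * θ))]
    · have e2 : 2 - 2 * β / β = 0 := by field_simp; ring
      have e3 : 2 - 2 * (β / 2) / β = 1 := by field_simp; ring
      simp only [e2, e3]
      ring
    · intro θ _
      have h4 : HasDerivAt (fun θ : ℝ => w * θ) w θ := by
        simpa using (hasDerivAt_id θ).const_mul w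
      have h5 := (h4.sin).div_const w
      have h6 : HasDerivAt (fun θ : ℝ => 2 - 2 * θ / β) (-(2 / β)) θ := by
        have := (((hasDerivAt_id θ).const_mul 2).div_const β).const_sub 2
        simpa using this
      have h7 := (h5.mul h6).sub ((h4.cos).const_mul (2 / (β * w ^ 2)))
      refine h7.congr_deriv ?_
      field_simp
      ring
    · exact (by fun_prop : Continuous fun θ : ℝ =>
        Real.cos (w * θ) * (2 - 2 * θ / β)).intervalIntegrable _ _
  rw [← intervalIntegral.integral_add_adjacent_intervals (b := β) (hc.intervalIntegrable _ _)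
    (hc.intervalIntegrable _ _), h1, add_zero,
    ← intervalIntegral.integral_add_adjacent_intervals (b := β / 2) (hc.intervalIntegrable _ _)
    (hc.intervalIntegrable _ _), h2, h3]
  ring

theorem trap_freq (β : ℝ) (hβ : 0 < β) (hβ2 : β ≤ 1 / 2) (a : ℤ) (ha : a ≠ 0) :
    |∫ θ in (0:ℝ)..(1 / 2), Real.cos (2 * Real.pi * a * θ) * tr β θ| ≤
      min β (1 / (β * Real.pi ^ 2 * (a:ℝ) ^ 2)) := by
  refine le_min (trpA_le β hβ hβ2 _) ?_
  have ha' : (a:ℝ) ≠ 0 := by exact_mod_cast ha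
  have hw : 2 * Real.pi * (a:ℝ) ≠ 0 := by
    have := Real.pi_pos.ne'
    positivity
  rw [trpA_eq β hβ hβ2 _ hw, abs_mul]
  have h1 : |Real.cos (2 * Real.pi * a * (β / 2)) - Real.cos (2 * Real.pi * a * β)| ≤ 2 := by
    rw [abs_le]
    constructor <;> linarith [Real.cos_le_one (2 * Real.pi * a * (β / 2)),
      Real.cos_le_one (2 * Real.pi * a * β), Real.neg_one_le_cos (2 * Real.pi * a * (β / 2)),
      Real.neg_one_le_cos (2 * Real.pi * a * β)]
  have h2 : |2 / (β * (2 * Real.pi * (a:ℝ)) ^ 2)| = 2 / (β * (2 * Real.pi * (a:ℝ)) ^ 2) :=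
    abs_of_nonneg (by positivity)
  rw [h2]
  calc 2 / (β * (2 * Real.pi * (a:ℝ)) ^ 2) *
        |Real.cos (2 * Real.pi * a * (β / 2)) - Real.cos (2 * Real.pi * a * β)| ≤
        2 / (β * (2 * Real.pi * (a:ℝ)) ^ 2) * 2 := mul_le_mul_of_nonneg_left h1 (by positivity)
    _ = 1 / (β * Real.pi ^ 2 * (a:ℝ) ^ 2) := by
        field_simp

theorem trap_bd (A : Finset ℤ) (β : ℝ) (hβ : 0 < β) (hβ2 : β ≤ 1 / 2) :
    |∫ θ in (0:ℝ)..(1 / 2), cs A θ * tr β θ| ≤ 3 := by
  classical
  have h1 : ∫ θ in (0:ℝ)..(1 / 2), cs A θ * tr β θ =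
      ∑ a ∈ A, ∫ θ in (0:ℝ)..(1 / 2), Real.cos (2 * Real.pi * a * θ) * tr β θ := by
    rw [← intervalIntegral.integral_finsetSum]
    · refine intervalIntegral.integral_congr fun θ _ => ?_
      simp only [cs, Finset.sum_mul]
    · intro a _
      exact ((by fun_prop : Continuous fun θ : ℝ => Real.cos (2 * Real.pi * a * θ)).mul
        (trpA_cont β)).intervalIntegrable _ _
  rw [h1]
  refine (Finset.abs_sum_le_sum_abs _ _).trans ?_
  rw [← Finset.sum_filter_add_sum_filter_not A (fun a => a ≠ 0)]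
  have h2 : ∑ a ∈ A.filter (fun a => a ≠ 0),
      |∫ θ in (0:ℝ)..(1 / 2), Real.cos (2 * Real.pi * a * θ) * tr β θ| ≤ 5 / 2 :=
    (Finset.sum_le_sum fun a ha => trap_freq β hβ hβ2 a (Finset.mem_filter.1 ha).2).trans
      (harm_sum2 A β hβ hβ2)
  have h3 : ∑ a ∈ A.filter (fun a => ¬ a ≠ 0),
      |∫ θ in (0:ℝ)..(1 / 2), Real.cos (2 * Real.pi * a * θ) * tr β θ| ≤ β := by
    have hs : A.filter (fun a => ¬ a ≠ 0) ⊆ {0} := by
      intro a ha
      rw [Finset.mem_singleton]
      exact not_not.1 (Finset.mem_filter.1 ha).2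
    calc ∑ a ∈ A.filter (fun a => ¬ a ≠ 0),
        |∫ θ in (0:ℝ)..(1 / 2), Real.cos (2 * Real.pi * a * θ) * tr β θ| ≤
        ∑ a ∈ ({0} : Finset ℤ),
        |∫ θ in (0:ℝ)..(1 / 2), Real.cos (2 * Real.pi * a * θ) * tr β θ| :=
          Finset.sum_le_sum_of_subset_of_nonneg hs fun _ _ _ => abs_nonneg _
      _ ≤ β := by
          rw [Finset.sum_singleton]
          exact trpA_le β hβ hβ2 _
  linarith

end COSZ
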