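import Pool.Agent.COSZ.TrpA

/-!
Module TRPB. The mass of an annulus without marks. On `(δ, y)` the cosine sum has one sign.
If `δ = 0`: `tr y` vanishes after `y`, is one on `[0, y/2]`, so
`∫_0^{y/2} |cs| ≤ |∫_0^{1/2} cs tr_y| ≤ 3`. If `δ > 0`: `w = tr y - tr (2δ)` is `≥ 0` (as `2δ ≤ y`), vanishes
on `[0, δ]` and after `y`, is one on `[2δ, y/2]`, so
`∫_{2δ}^{y/2} |cs| ≤ |∫_0^{1/2} cs w| ≤ 6`.
-/

open Finset MeasureTheory

noncomputable section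

namespace COSZ

theorem trpB_tr_cont (β : ℝ) : Continuous (tr β) := by
  unfold tr
  fun_prop

theorem trpB_cs_cont (A : Finset ℤ) : Continuous (cs A) := by
  unfold cs
  fun_prop

theorem trpB_tr_one (β θ : ℝ) (hβ : 0 < β) (h : θ ≤ β / 2) : tr β θ = 1 := by
  unfold tr
  have : 2 * θ / β ≤ 1 := by rw [div_le_one hβ]; linarith
  rw [min_eq_left]
  exact le_max_of_le_right (by linarith)

theorem trpB_tr_zero (β θ : ℝ) (hβ : 0 < β) (h : β ≤ θ) : tr β θ = 0 := by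
  unfold tr
  have : 2 ≤ 2 * θ / β := by rw [le_div_iff₀ hβ]; linarith
  rw [max_eq_left (by linarith), min_eq_right (by norm_num)]

theorem trpB_tr_nonneg (β θ : ℝ) : 0 ≤ tr β θ := by
  unfold tr
  exact le_min (by norm_num) (le_max_left _ _)

theorem trpB_tr_mono (β γ θ : ℝ) (hβ : 0 < β) (h : β ≤ γ) (hθ : 0 ≤ θ) : tr β θ ≤ tr γ θ := by
  unfold tr
  have : 2 * θ / γ ≤ 2 * θ / β := by
    apply div_le_div_of_nonneg_left (by linarith) hβ h
  exact min_le_min le_rfl (max_le_max le_rfl (by linarith))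

theorem trpB_sign (A : Finset ℤ) (δ y : ℝ) (hδy : δ < y) (hz : ∀ θ, δ < θ → θ < y → cs A θ ≠ 0) :
    ∃ s : ℝ, |s| = 1 ∧ ∀ θ, δ < θ → θ < y → |cs A θ| = s * cs A θ := by
  have hc := trpB_cs_cont A
  have hpc : IsPreconnected (Set.Ioo δ y) := isPreconnected_Ioo
  have key : (∀ θ ∈ Set.Ioo δ y, 0 < cs A θ) ∨ (∀ θ ∈ Set.Ioo δ y, cs A θ < 0) := by
    by_contra hcon
    push Not at hcon
    obtain ⟨⟨a, ha, ha'⟩, ⟨b, hb, hb'⟩⟩ := hcon
    obtain ⟨c, hc1, hc2⟩ := hpc.intermediate_value ha hb hc.continuousOn ⟨ha', hb'⟩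
    exact hz c hc1.1 hc1.2 hc2
  rcases key with h | h
  · exact ⟨1, by norm_num, fun θ h1 h2 => by rw [abs_of_pos (h θ ⟨h1, h2⟩), one_mul]⟩
  · exact ⟨-1, by norm_num, fun θ h1 h2 => by rw [abs_of_neg (h θ ⟨h1, h2⟩)]; ring⟩

theorem trpB_main (A : Finset ℤ) (δ y : ℝ) (hδ : 0 ≤ δ) (hδy : 4 * δ ≤ y) (hy0 : 0 < y) (hy : y ≤ 1 / 2)
    (hz : ∀ θ, δ < θ → θ < y → cs A θ ≠ 0) (w : ℝ → ℝ) (hw : Continuous w)
    (hw0 : ∀ θ, 0 ≤ θ → 0 ≤ w θ) (hw1 : ∀ θ, 2 * δ ≤ θ → θ ≤ y / 2 → w θ = 1)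
    (hw2 : ∀ θ, 0 < θ → θ ≤ δ → w θ = 0) (hw3 : ∀ θ, y ≤ θ → w θ = 0) :
    ∫ θ in (2 * δ)..(y / 2), |cs A θ| ≤ |∫ θ in (0:ℝ)..(1 / 2), cs A θ * w θ| := by
  obtain ⟨s, hs, hsg⟩ := trpB_sign A δ y (by linarith) hz
  have hc := trpB_cs_cont A
  have hint : Continuous (fun θ => |cs A θ| * w θ) := hc.abs.mul hw
  have h1 : ∫ θ in (2 * δ)..(y / 2), |cs A θ| = ∫ θ in (2 * δ)..(y / 2), |cs A θ| * w θ := by
    apply intervalIntegral.integral_congr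
    intro θ hθ
    rw [Set.uIcc_of_le (by linarith)] at hθ
    simp only
    rw [hw1 θ hθ.1 hθ.2, mul_one]
  have h2 : ∫ θ in (2 * δ)..(y / 2), |cs A θ| * w θ ≤ ∫ θ in (0:ℝ)..(1 / 2), |cs A θ| * w θ := by
    apply intervalIntegral.integral_mono_interval (by linarith) (by linarith) (by linarith)
    · rw [Filter.EventuallyLE, ae_restrict_iff' measurableSet_Ioc]
      refine Filter.Eventually.of_forall (fun θ hθ => ?_)
      exact mul_nonneg (abs_nonneg _) (hw0 θ hθ.1.le)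
    · exact hint.intervalIntegrable _ _
  have h3 : ∫ θ in (0:ℝ)..(1 / 2), |cs A θ| * w θ = s * ∫ θ in (0:ℝ)..(1 / 2), cs A θ * w θ := by
    rw [← intervalIntegral.integral_const_mul]
    apply intervalIntegral.integral_congr_ae
    refine Filter.Eventually.of_forall (fun θ hθ => ?_)
    rw [Set.uIoc_of_le (by norm_num)] at hθ
    by_cases hθ1 : θ ≤ δ
    · rw [hw2 θ hθ.1 hθ1]; ring
    · by_cases hθ2 : y ≤ θ
      · rw [hw3 θ hθ2]; ring
      · rw [hsg θ (not_le.1 hθ1) (not_le.1 hθ2)]; ring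
  rw [h1]
  refine h2.trans ?_
  rw [h3]
  calc s * ∫ θ in (0:ℝ)..(1 / 2), cs A θ * w θ ≤ |s * ∫ θ in (0:ℝ)..(1 / 2), cs A θ * w θ| := le_abs_self _
    _ = |∫ θ in (0:ℝ)..(1 / 2), cs A θ * w θ| := by rw [abs_mul, hs, one_mul]

theorem annulus (A : Finset ℤ) (δ y : ℝ) (hδ : 0 ≤ δ) (hδy : 4 * δ ≤ y) (hy0 : 0 < y) (hy : y ≤ 1 / 2)
    (hz : ∀ θ, δ < θ → θ < y → cs A θ ≠ 0) :
    ∫ θ in (2 * δ)..(y / 2), |cs A θ| ≤ 6 := by
  rcases hδ.eq_or_lt with h0 | h0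
  · refine (trpB_main A δ y hδ hδy hy0 hy hz (tr y) (trpB_tr_cont y) (fun θ _ => trpB_tr_nonneg y θ)
      (fun θ _ h => trpB_tr_one y θ hy0 h) (fun θ h1 h2 => by linarith)
      (fun θ h => trpB_tr_zero y θ hy0 h)).trans ?_
    have := trap_bd A y hy0 hy
    linarith
  · have h2 : (0:ℝ) < 2 * δ := by linarith
    refine (trpB_main A δ y hδ hδy hy0 hy hz (fun θ => tr y θ - tr (2 * δ) θ)
      ((trpB_tr_cont y).sub (trpB_tr_cont _)) ?_ ?_ ?_ ?_).trans ?_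
    · intro θ hθ
      have := trpB_tr_mono (2 * δ) y θ h2 (by linarith) hθ
      linarith
    · intro θ h3 h4
      rw [trpB_tr_one y θ hy0 h4, trpB_tr_zero (2 * δ) θ h2 h3]; ring
    · intro θ h3 h4
      rw [trpB_tr_one y θ hy0 (by linarith), trpB_tr_one (2 * δ) θ h2 (by linarith)]; ring
    · intro θ h3
      rw [trpB_tr_zero y θ hy0 h3, trpB_tr_zero (2 * δ) θ h2 (by linarith)]; ring
    · have e1 : ∫ θ in (0:ℝ)..(1 / 2), cs A θ * (tr y θ - tr (2 * δ) θ) =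
          (∫ θ in (0:ℝ)..(1 / 2), cs A θ * tr y θ) - ∫ θ in (0:ℝ)..(1 / 2), cs A θ * tr (2 * δ) θ := by
        rw [← intervalIntegral.integral_sub]
        · apply intervalIntegral.integral_congr
          intro θ _
          simp only
          ring
        · exact ((trpB_cs_cont A).mul (trpB_tr_cont y)).intervalIntegrable _ _
        · exact ((trpB_cs_cont A).mul (trpB_tr_cont _)).intervalIntegrable _ _
      rw [e1]
      have h5 := trap_bd A y hy0 hy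
      have h6 := trap_bd A (2 * δ) h2 (by linarith)
      have h7 := abs_sub (∫ θ in (0:ℝ)..(1 / 2), cs A θ * tr y θ)
        (∫ θ in (0:ℝ)..(1 / 2), cs A θ * tr (2 * δ) θ)
      linarith

end COSZ
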