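import Pool.Agent.COSZ.Dif

/-!
Module ZBD. Bound of the differences at the centre zero. Everything is symmetric under `θ ↦ 1 - θ`, so the
integral is twice the integral over `[0, 1/2]` (also for `nrm`). `T = U²`, `L1 = T^(2i+1) = U^(4i+2)`,
`L2 = T^(2i+2) = U^(4i+4)`. Pointwise on `(0, 1/2]` one shows
`dif (hθ) * fej h θ ≤ 2 · 1_{[rin, rout]}(θ) + 640/T`:
- `θ ≤ 1/(2h)`: `dn (hθ) = hθ`. If `θ < rin`: `dif ≤ 40 L2² h² θ² ≤ 40 (L2 h rin)² = 640/U²`.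
  If `θ > rout`: `dif ≤ 1/(2 L1² h² θ²) ≤ 1/(2 (L1 h rout)²) = 8/U²`. Otherwise `dif ≤ 2`, `fej ≤ 1`.
- `θ > 1/(2h)`: `fej_num` and `dn θ = θ` give `fej h θ ≤ π² dn(hθ)²/(4h²θ²) ≤ π² dn(hθ)²`, so by `dif_out`
  `dif * fej ≤ π²/(2 L1²) ≤ 5/T² ≤ 640/T` (if `dn (hθ) = 0` it is zero).
Integrate: `Z ≤ 2 (2 ∫_{rin}^{rout} |cs| + (640/T) (nrm/2))`. Note `rin ≤ rout ≤ 1/(2h)`.
-/

open Finset MeasureTheory

noncomputable section

namespace COSZ

theorem zBd_symm {g : ℝ → ℝ} (hg : Continuous g) (hs : ∀ θ, g (1 - θ) = g θ) :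
    ∫ θ in (0:ℝ)..1, g θ = 2 * ∫ θ in (0:ℝ)..(1/2), g θ := by
  have h1 : ∫ θ in (1/2:ℝ)..1, g θ = ∫ θ in (0:ℝ)..(1/2), g θ := by
    have h2 : ∫ θ in (0:ℝ)..(1/2), g θ = ∫ θ in (0:ℝ)..(1/2), g (1 - θ) :=
      intervalIntegral.integral_congr fun θ _ => (hs θ).symm
    rw [h2, intervalIntegral.integral_comp_sub_left (fun x => g x) 1]
    norm_num
  rw [← intervalIntegral.integral_add_adjacent_intervals (b := (1/2:ℝ))
    (hg.intervalIntegrable _ _) (hg.intervalIntegrable _ _), h1]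
  ring

theorem zBd_point (h U κ i : ℕ) (hh : 1 ≤ h) (hU : 4 ≤ U) (hκ : 1 ≤ κ) (hκT : κ ≤ U ^ 2)
    (θ : ℝ) (h0 : 0 ≤ θ) (h12 : θ ≤ 1 / 2) (hout : θ ≤ rin h U i ∨ rout h U i ≤ θ) :
    dif ((U ^ 2) ^ (2 * i + 1)) ((U ^ 2) ^ (2 * i + 2)) (κ * (U ^ 2) ^ (2 * i + 1)) (h * θ) * fej h θ ≤
      640 / (U:ℝ) ^ 2 := by
  have hUr : (4:ℝ) ≤ U := by exact_mod_cast hU
  have hU0 : (0:ℝ) < U := by linarith
  have hhr : (1:ℝ) ≤ h := by exact_mod_cast hh
  have hh0 : (0:ℝ) < h := by linarith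
  have hpos : 1 ≤ (U ^ 2) ^ (2 * i + 1) := Nat.one_le_pow _ _ (by positivity)
  have h13 : (U ^ 2) ^ (2 * i + 1) ≤ κ * (U ^ 2) ^ (2 * i + 1) := Nat.le_mul_of_pos_left _ hκ
  have h32 : κ * (U ^ 2) ^ (2 * i + 1) ≤ (U ^ 2) ^ (2 * i + 2) := by
    calc κ * (U ^ 2) ^ (2 * i + 1) ≤ U ^ 2 * (U ^ 2) ^ (2 * i + 1) := Nat.mul_le_mul_right _ hκT
      _ = (U ^ 2) ^ (2 * i + 2) := by ring
  have f0 := fej_nonneg h θ
  have f1 := fej_le_one h θ
  have d0 := dif_nonneg ((U ^ 2) ^ (2 * i + 1)) ((U ^ 2) ^ (2 * i + 2)) (κ * (U ^ 2) ^ (2 * i + 1))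
    (h * θ)
  have din := dif_in ((U ^ 2) ^ (2 * i + 1)) ((U ^ 2) ^ (2 * i + 2)) (κ * (U ^ 2) ^ (2 * i + 1))
    hpos h13 h32 (h * θ)
  have dout := dif_out ((U ^ 2) ^ (2 * i + 1)) ((U ^ 2) ^ (2 * i + 2)) (κ * (U ^ 2) ^ (2 * i + 1))
    hpos h13 h32 (h * θ)
  set D := dif ((U ^ 2) ^ (2 * i + 1)) ((U ^ 2) ^ (2 * i + 2)) (κ * (U ^ 2) ^ (2 * i + 1)) (h * θ)
    with hD
  push_cast at din dout
  have hDf : D * fej h θ ≤ D := by nlinarith
  have hdn0 := dn_nonneg (h * θ)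
  rcases hout with hin | hout
  · -- near zero
    refine hDf.trans (din.trans ?_)
    have h1 : dn (h * θ) ≤ h * θ := by
      have := dn_le_abs (h * θ)
      rwa [abs_of_nonneg (by positivity)] at this
    have h2 : (h:ℝ) * θ ≤ 4 / (U:ℝ) ^ (4 * i + 5) := by
      calc (h:ℝ) * θ ≤ h * rin h U i := mul_le_mul_of_nonneg_left hin hh0.le
        _ = 4 / (U:ℝ) ^ (4 * i + 5) := by
          unfold rin
          field_simp
    have h3 : (dn (h * θ)) ^ 2 ≤ (4 / (U:ℝ) ^ (4 * i + 5)) ^ 2 :=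
      pow_le_pow_left₀ hdn0 (h1.trans h2) 2
    calc 40 * (((U:ℝ) ^ 2) ^ (2 * i + 2)) ^ 2 * (dn (h * θ)) ^ 2
        ≤ 40 * (((U:ℝ) ^ 2) ^ (2 * i + 2)) ^ 2 * (4 / (U:ℝ) ^ (4 * i + 5)) ^ 2 :=
          mul_le_mul_of_nonneg_left h3 (by positivity)
      _ = 640 / (U:ℝ) ^ 2 := by
          have e1 : (((U:ℝ) ^ 2) ^ (2 * i + 2)) ^ 2 = (U:ℝ) ^ (8 * i + 8) := by
            rw [← pow_mul, ← pow_mul]; congr 1; ring
          have e2 : (4 / (U:ℝ) ^ (4 * i + 5)) ^ 2 = 16 / ((U:ℝ) ^ (8 * i + 8) * (U:ℝ) ^ 2) := by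
            rw [div_pow, ← pow_mul, ← pow_add]; norm_num
            congr 1; ring
          rw [e1, e2]
          have hp : (0:ℝ) < (U:ℝ) ^ (8 * i + 8) := by positivity
          field_simp
          norm_num
  · rcases le_total θ (1 / (2 * h)) with hle | hge
    · -- middle
      refine hDf.trans ?_
      have h1 : dn (h * θ) = h * θ := by
        have h2 : (h:ℝ) * θ ≤ 1 / 2 := by
          calc (h:ℝ) * θ ≤ h * (1 / (2 * h)) := mul_le_mul_of_nonneg_left hle hh0.le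
            _ = 1 / 2 := by field_simp
        rw [dn_eq_abs (h * θ) (by rw [abs_of_nonneg (by positivity)]; exact h2),
          abs_of_nonneg (by positivity)]
      have h2 : 1 / (4 * (U:ℝ) ^ (4 * i + 1)) ≤ h * θ := by
        calc 1 / (4 * (U:ℝ) ^ (4 * i + 1)) = h * rout h U i := by
              unfold rout
              field_simp
          _ ≤ h * θ := mul_le_mul_of_nonneg_left hout hh0.le
      rw [h1] at dout
      have h3 : (1 / (4 * (U:ℝ) ^ (4 * i + 1))) ^ 2 ≤ (h * θ) ^ 2 :=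
        pow_le_pow_left₀ (by positivity) h2 2
      have h4 : (U:ℝ) ^ 2 / 8 ≤ 2 * (((U:ℝ) ^ 2) ^ (2 * i + 1)) ^ 2 * (h * θ) ^ 2 := by
        calc (U:ℝ) ^ 2 / 8 = 2 * (((U:ℝ) ^ 2) ^ (2 * i + 1)) ^ 2 *
              (1 / (4 * (U:ℝ) ^ (4 * i + 1))) ^ 2 := by
              have e1 : (((U:ℝ) ^ 2) ^ (2 * i + 1)) ^ 2 = (U:ℝ) ^ (8 * i + 2) * (U:ℝ) ^ 2 := by
                rw [← pow_mul, ← pow_mul, ← pow_add]; congr 1; ring
              have e2 : (1 / (4 * (U:ℝ) ^ (4 * i + 1))) ^ 2 = 1 / (16 * (U:ℝ) ^ (8 * i + 2)) := by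
                rw [div_pow, mul_pow, ← pow_mul]; norm_num
                congr 1; ring
              rw [e1, e2]
              have hp : (0:ℝ) < (U:ℝ) ^ (8 * i + 2) := by positivity
              field_simp
              norm_num
          _ ≤ _ := mul_le_mul_of_nonneg_left h3 (by positivity)
      have h5 : (U:ℝ) ^ 2 / 8 * D ≤ 1 := (mul_le_mul_of_nonneg_right h4 d0).trans dout
      rw [le_div_iff₀ (by positivity)]
      nlinarith
    · -- far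
      have hn := fej_num h θ
      have h1 : dn θ = θ := by
        rw [dn_eq_abs θ (by rw [abs_of_nonneg h0]; exact h12), abs_of_nonneg h0]
      rw [h1] at hn
      have h2 : 1 ≤ 4 * (h:ℝ) ^ 2 * θ ^ 2 := by
        have h3 : (1 / (2 * (h:ℝ))) ^ 2 ≤ θ ^ 2 := pow_le_pow_left₀ (by positivity) hge 2
        calc (1:ℝ) = 4 * (h:ℝ) ^ 2 * (1 / (2 * (h:ℝ))) ^ 2 := by field_simp; norm_num
          _ ≤ 4 * (h:ℝ) ^ 2 * θ ^ 2 := mul_le_mul_of_nonneg_left h3 (by positivity)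
      have h3 : fej h θ ≤ Real.pi ^ 2 * (dn (h * θ)) ^ 2 := by nlinarith
      have h4 : D * fej h θ ≤ D * (Real.pi ^ 2 * (dn (h * θ)) ^ 2) := mul_le_mul_of_nonneg_left h3 d0
      have hpi := Real.pi_lt_d2
      have hpi0 := Real.pi_pos
      have hpi2 : Real.pi ^ 2 ≤ 10 := by nlinarith
      have h5 : D * (Real.pi ^ 2 * (dn (h * θ)) ^ 2) ≤ 10 * (D * (dn (h * θ)) ^ 2) := by
        have : 0 ≤ D * (dn (h * θ)) ^ 2 := by positivity
        nlinarith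
      have hL1 : (U:ℝ) ^ 2 ≤ (((U:ℝ) ^ 2) ^ (2 * i + 1)) ^ 2 := by
        rw [← pow_mul, ← pow_mul]
        exact pow_le_pow_right₀ (by linarith) (by nlinarith)
      have h6 : 2 * (U:ℝ) ^ 2 * (D * (dn (h * θ)) ^ 2) ≤ 1 := by
        have : 0 ≤ D * (dn (h * θ)) ^ 2 := by positivity
        nlinarith
      rw [le_div_iff₀ (by positivity)]
      nlinarith

theorem Z_bound (A : Finset ℤ) (h U κ i : ℕ) (hh : 1 ≤ h) (hU : 4 ≤ U) (hκ : 1 ≤ κ) (hκT : κ ≤ U ^ 2) :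
    dI A h ((U ^ 2) ^ (2 * i + 1)) ((U ^ 2) ^ (2 * i + 2)) (κ * (U ^ 2) ^ (2 * i + 1)) (fej h) ≤
      4 * (∫ θ in (rin h U i)..(rout h U i), |cs A θ|) + 640 / (U:ℝ) ^ 2 * nrm A := by
  have hUr : (4:ℝ) ≤ U := by exact_mod_cast hU
  have hU0 : (0:ℝ) < U := by linarith
  have hhr : (1:ℝ) ≤ h := by exact_mod_cast hh
  have hh0 : (0:ℝ) < h := by linarith
  have hin0 : 0 ≤ rin h U i := by unfold rin; positivity
  have hrr : rin h U i ≤ rout h U i := by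
    unfold rin rout
    rw [div_le_div_iff₀ (by positivity) (by positivity)]
    have hp : (0:ℝ) < (U:ℝ) ^ (4 * i + 1) := by positivity
    have h4 : (256:ℝ) ≤ (U:ℝ) ^ 4 := by
      have : (4:ℝ) ^ 4 ≤ (U:ℝ) ^ 4 := pow_le_pow_left₀ (by norm_num) hUr 4
      linarith
    have e1 : (U:ℝ) ^ (4 * i + 5) = (U:ℝ) ^ (4 * i + 1) * (U:ℝ) ^ 4 := by ring
    rw [e1]
    have : 0 ≤ h * (U:ℝ) ^ (4 * i + 1) * ((U:ℝ) ^ 4 - 16) :=
      mul_nonneg (by positivity) (by linarith)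
    nlinarith
  have hro : rout h U i ≤ 1 / 2 := by
    unfold rout
    rw [div_le_div_iff₀ (by positivity) (by norm_num)]
    have hp : (1:ℝ) ≤ (U:ℝ) ^ (4 * i + 1) := one_le_pow₀ (by linarith)
    nlinarith
  set D : ℝ → ℝ := fun θ => dif ((U ^ 2) ^ (2 * i + 1)) ((U ^ 2) ^ (2 * i + 2))
    (κ * (U ^ 2) ^ (2 * i + 1)) (h * θ) with hD
  have hDc : Continuous D := (dif_cont _ _ _).comp (continuous_const.mul continuous_id)
  have hfc := fej_cont h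
  have hcc := cs_cont A
  set g : ℝ → ℝ := fun θ => |cs A θ| * D θ * fej h θ with hg
  have hgc : Continuous g := (hcc.abs.mul hDc).mul hfc
  have hac : Continuous (fun θ => |cs A θ|) := hcc.abs
  have hfs : ∀ θ, fej h (1 - θ) = fej h θ := by
    intro θ
    have := fej_add_int h (-θ) 1
    rw [show 1 - θ = -θ + ((1:ℤ):ℝ) by push_cast; ring, this, fej_neg]
  have hfsh : ∀ (L : ℕ) (θ : ℝ), fej L (h * (1 - θ)) = fej L (h * θ) := by
    intro L θ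
    have := fej_add_int L (-(h * θ)) (h:ℤ)
    rw [show (h:ℝ) * (1 - θ) = -(h * θ) + ((h:ℤ):ℝ) by push_cast; ring, this, fej_neg]
  have hDs : ∀ θ, D (1 - θ) = D θ := by
    intro θ
    simp only [hD, dif]
    rw [hfsh, hfsh, hfsh]
  have hgs : ∀ θ, g (1 - θ) = g θ := by
    intro θ
    simp only [hg]
    rw [cs_one_sub, hDs, hfs]
  have hcs : ∀ θ, |cs A (1 - θ)| = |cs A θ| := by
    intro θ
    rw [cs_one_sub]
  have e1 : dI A h ((U ^ 2) ^ (2 * i + 1)) ((U ^ 2) ^ (2 * i + 2)) (κ * (U ^ 2) ^ (2 * i + 1)) (fej h) =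
      2 * ∫ θ in (0:ℝ)..(1/2), g θ := zBd_symm hgc hgs
  have e2 : nrm A = 2 * ∫ θ in (0:ℝ)..(1/2), |cs A θ| := zBd_symm hac hcs
  set K : ℝ := 640 / (U:ℝ) ^ 2 with hK
  have hK0 : 0 ≤ K := by positivity
  have hii : ∀ a b : ℝ, IntervalIntegrable (fun θ => |cs A θ|) volume a b :=
    fun a b => hac.intervalIntegrable a b
  have hgi : ∀ a b : ℝ, IntervalIntegrable g volume a b := fun a b => hgc.intervalIntegrable a b
  have hout : ∀ θ, 0 ≤ θ → θ ≤ 1 / 2 → (θ ≤ rin h U i ∨ rout h U i ≤ θ) → g θ ≤ K * |cs A θ| := by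
    intro θ h0 h1 h2
    have := zBd_point h U κ i hh hU hκ hκT θ h0 h1 h2
    calc g θ = |cs A θ| * (D θ * fej h θ) := by simp only [hg]; ring
      _ ≤ |cs A θ| * K := mul_le_mul_of_nonneg_left this (abs_nonneg _)
      _ = K * |cs A θ| := by ring
  have i1 : ∫ θ in (0:ℝ)..(rin h U i), g θ ≤ K * ∫ θ in (0:ℝ)..(rin h U i), |cs A θ| := by
    rw [← intervalIntegral.integral_const_mul]
    refine intervalIntegral.integral_mono_on hin0 (hgi _ _) ((hii _ _).const_mul K) ?_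
    intro θ hθ
    exact hout θ hθ.1 (hθ.2.trans (hrr.trans hro)) (Or.inl hθ.2)
  have i3 : ∫ θ in (rout h U i)..(1/2), g θ ≤ K * ∫ θ in (rout h U i)..(1/2), |cs A θ| := by
    rw [← intervalIntegral.integral_const_mul]
    refine intervalIntegral.integral_mono_on hro (hgi _ _) ((hii _ _).const_mul K) ?_
    intro θ hθ
    exact hout θ ((hin0.trans hrr).trans hθ.1) hθ.2 (Or.inr hθ.1)
  have i2 : ∫ θ in (rin h U i)..(rout h U i), g θ ≤
      (2 + K) * ∫ θ in (rin h U i)..(rout h U i), |cs A θ| := by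
    rw [← intervalIntegral.integral_const_mul]
    refine intervalIntegral.integral_mono_on hrr (hgi _ _) ((hii _ _).const_mul _) ?_
    intro θ hθ
    have d0 : 0 ≤ D θ := dif_nonneg _ _ _ _
    have d2 : D θ ≤ 2 := dif_le_two _ _ _ _
    have f0 := fej_nonneg h θ
    have f1 := fej_le_one h θ
    have : D θ * fej h θ ≤ 2 + K := by nlinarith
    calc g θ = |cs A θ| * (D θ * fej h θ) := by simp only [hg]; ring
      _ ≤ |cs A θ| * (2 + K) := mul_le_mul_of_nonneg_left this (abs_nonneg _)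
      _ = (2 + K) * |cs A θ| := by ring
  have s1 : ∫ θ in (0:ℝ)..(1/2), g θ = (∫ θ in (0:ℝ)..(rin h U i), g θ) +
      (∫ θ in (rin h U i)..(rout h U i), g θ) + ∫ θ in (rout h U i)..(1/2), g θ := by
    rw [intervalIntegral.integral_add_adjacent_intervals (hgi _ _) (hgi _ _),
      intervalIntegral.integral_add_adjacent_intervals (hgi _ _) (hgi _ _)]
  have s2 : ∫ θ in (0:ℝ)..(1/2), |cs A θ| = (∫ θ in (0:ℝ)..(rin h U i), |cs A θ|) +
      (∫ θ in (rin h U i)..(rout h U i), |cs A θ|) + ∫ θ in (rout h U i)..(1/2), |cs A θ| := by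
    rw [intervalIntegral.integral_add_adjacent_intervals (hii _ _) (hii _ _),
      intervalIntegral.integral_add_adjacent_intervals (hii _ _) (hii _ _)]
  rw [e1, e2, s1, s2]
  linarith

end COSZ
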